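import Mathlib
import Pool.Agent.MM.Defs

/-!
Primitive completely normal elements, explicit version: definitions.

`sq`, `cq`, `lq` are the numerical constants attached to the size `q` of the base field.
`ST t` is the weighted number of events of degree `t`, `KN T` bounds the number of kernels of
degree at most `T`, `EN T` and `TS T` are the corresponding density sums.
`SB`, `KB`, `EB`, `TB` are the purely arithmetic upper bounds for `ST`, `KN`, `EN`, `TS`.
`PN q n`: every extension of degree `n` of a field with `q` elements has a primitive completely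
normal element.
-/

namespace Pool.Agent.MM2

open Finset Polynomial Pool.Agent.MM

/-- bound for the weighted number of events touching one irreducible factor -/
noncomputable def sq (q : ℕ) : ℝ := if q = 2 then 3 / 4 else if q = 3 then 1 / 3 else 1 / 5

/-- `1 - x ≥ 2^(-cq x)` on `[0, sq]` -/
noncomputable def cq (q : ℕ) : ℝ := if q = 2 then 8 / 3 else if q = 3 then 176 / 100 else 161 / 100

/-- `1 / (1 - sq)` -/
noncomputable def lq (q : ℕ) : ℝ := if q = 2 then 4 else if q = 3 then 3 / 2 else 5 / 4

/-- admissible sizes of the base field -/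
def QOK (q : ℕ) : Prop := q = 2 ∨ q = 3 ∨ 5 ≤ q

section

variable (K L Om : Type) [Field K] [Field L] [Field Om] [Algebra K L] [Algebra K Om]
  [Algebra L Om]

/-- `∑_{d ∣ t} #(Zs d t) * d` -/
noncomputable def ST (t : ℕ) : ℕ := ∑ d ∈ t.divisors, (Zs K L Om d t).card * d

/-- bound for the number of kernels of degree at most `T` -/
noncomputable def KN (T : ℕ) : ℕ := ∑ t ∈ Icc 1 T, ST K L Om t / t

/-- density sum of the events of degree at most `T` -/
noncomputable def EN (T : ℕ) : ℝ := ∑ t ∈ Icc 1 T, (ST K L Om t : ℝ) / t / (Nat.card K : ℝ) ^ t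

/-- density sum of the events of degree larger than `T` -/
noncomputable def TS (T : ℕ) : ℝ :=
  ∑ t ∈ Ioc T (deg K L), (ST K L Om t : ℝ) / t / (Nat.card K : ℝ) ^ t

end

/-! ### purely arithmetic bounds -/

/-- bound for `ST t` -/
def SB (q n t : ℕ) : ℕ := ∑ d ∈ t.divisors, if d ∣ n then
  d * ((n / d).gcd (q ^ t - 1) - if t ≤ 1 then 0 else (n / d).gcd (q ^ (t / t.minFac) - 1)) else 0

/-- bound for `KN T` -/
def KB (q n T : ℕ) : ℕ := ∑ t ∈ Icc 1 T, SB q n t / t

/-- bound for `EN T` -/
noncomputable def EB (q n T : ℕ) : ℝ := ∑ t ∈ Icc 1 T, (SB q n t : ℝ) / t / (q : ℝ) ^ t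

/-- bound for `TS T` -/
noncomputable def TB (q n T : ℕ) : ℝ := ∑ t ∈ Ioc T n, (SB q n t : ℝ) / t / (q : ℝ) ^ t

/-- `d * gcd (n / d, q^t - 1)` for `d ∣ n` -/
def GG (q n d t : ℕ) : ℕ := if d ∣ n then n.gcd (d * (q ^ t - 1)) else 0

/-- every extension of degree `n` of a field with `q` elements has a primitive completely
normal element -/
def PN (q n : ℕ) : Prop := ∀ (K L : Type) [Field K] [Field L] [Finite K] [Finite L] [Algebra K L],
  Nat.card K = q → Module.finrank K L = n → ∃ x : L, Prim x ∧ CN K x

end Pool.Agent.MM2
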