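import Mathlib
import Pool.Agent.MM.GAU
import Pool.Agent.MM.FOU
import Pool.Agent.MM.PRIM
import Pool.Agent.MM.CRIT
import Pool.Agent.MM2.Defs

/-!
The character sum criterion, relative form.
-/

namespace Pool.Agent.MM2

open Finset Polynomial Pool.Agent.MM

theorem crit2 {L : Type} [Field L] [Finite L] (C D : Finset (AddSubgroup L)) (R S : Finset ℕ)
    (hRS : R ∪ S = (Nat.card L - 1).primeFactors) (hdis : Disjoint R S)
    (h : 2 ^ (R.card + C.card) * √(Nat.card L : ℝ) * (1 + S.card + D.card) + 1 +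
        ∑ M ∈ D, (Nat.card {x : L // x ∈ M ∧ ∀ M' ∈ C, x ∉ M'} : ℝ) <
      (1 - ∑ s ∈ S, 1 / (s : ℝ)) * Nat.card {x : L // ∀ M ∈ C, x ∉ M}) :
    ∃ x : L, Prim x ∧ (∀ M ∈ C, x ∉ M) ∧ ∀ M ∈ D, x ∉ M := by
  classical
  by_contra hcon
  push Not at hcon
  have : Fintype L := Fintype.ofFinite L
  have hRsub : R ⊆ (Nat.card L - 1).primeFactors := by rw [← hRS]; exact subset_union_left
  have hSsub : S ⊆ (Nat.card L - 1).primeFactors := by rw [← hRS]; exact subset_union_right
  set θ : ℝ := ∏ r ∈ R, (1 - 1 / (r : ℝ)) with hθ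
  set δ : ℝ := 1 - ∑ s ∈ S, 1 / (s : ℝ) with hδ
  have hθ0 : 0 < θ := by
    apply prod_pos
    intro r hr
    have h1 := (Nat.prime_of_mem_primeFactors (hRsub hr)).one_lt
    have h2 : (1 : ℝ) < r := by exact_mod_cast h1
    rw [sub_pos, div_lt_one (by linarith)]
    exact h2
  have hδ1 : δ ≤ 1 := by
    have : 0 ≤ ∑ s ∈ S, 1 / (s : ℝ) := sum_nonneg fun s _ => by positivity
    rw [hδ]
    linarith
  set f : L → ℂ := fun x => ∏ r ∈ R, (1 - powInd r x) with hf
  set F : L → ℂ := fun x => (∏ r ∈ R, (1 - powInd r x)) * (1 - ∑ r ∈ S, powInd r x) with hF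
  set G : L → ℂ := fun x => ∏ M ∈ C, (1 - subInd M x) with hG
  obtain ⟨s1, hMF⟩ := mn_sieve (L := L) R S hRsub hSsub hdis
  obtain ⟨s2, hMf'⟩ := mn_sieve (L := L) R ∅ hRsub (empty_subset _) (disjoint_empty_right _)
  have hMf : MN f s2 (θ : ℂ) (θ * 2 ^ R.card) := by
    refine prim_congr hMf' (fun x => ?_) ?_ ?_
    · simp [hf]
    · simp [hθ]
    · simp [hθ]
  have hAG : AN G (2 ^ C.card) := an_core C
  -- first mixed sum
  have m1 := crit_mixed (f := F) (G := G) hMF hAG
  -- values of G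
  have hsub : ∀ (M : AddSubgroup L) (x : L), subInd M x = if x ∈ M then 1 else 0 := fun M x => rfl
  have hGval : ∀ x, G x = if ∀ M ∈ C, x ∉ M then 1 else 0 := by
    intro x
    split_ifs with hx
    · apply prod_eq_one
      intro M hM
      rw [hsub, if_neg (hx M hM), sub_zero]
    · push Not at hx
      obtain ⟨M, hM, hxM⟩ := hx
      apply prod_eq_zero hM
      rw [hsub, if_pos hxM, sub_self]
  have hfval : ∀ x, f x = if ∀ r ∈ R, ¬ ∃ y : L, y ≠ 0 ∧ y ^ r = x then 1 else 0 := by
    intro x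
    split_ifs with hx
    · apply prod_eq_one
      intro r hr
      unfold powInd
      rw [if_neg (hx r hr), sub_zero]
    · push Not at hx
      obtain ⟨r, hr, y, hy⟩ := hx
      apply prod_eq_zero hr
      unfold powInd
      rw [if_pos ⟨y, hy⟩, sub_self]
  have hFf : ∀ x, F x = f x * (1 - ∑ r ∈ S, powInd r x) := fun x => rfl
  -- the pointwise inequality
  have hterm : ∀ x, ∀ M ∈ D, 0 ≤ (f x * (G x * subInd M x)).re := by
    intro x M _
    rw [hfval, hsub, hGval]
    split_ifs <;> simp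
  have hpt : ∀ x : L, x ≠ 0 → (F x * G x).re ≤ ∑ M ∈ D, (f x * (G x * subInd M x)).re := by
    intro x hx0
    have hnn : 0 ≤ ∑ M ∈ D, (f x * (G x * subInd M x)).re := sum_nonneg (hterm x)
    by_cases h1 : ∀ r ∈ R, ¬ ∃ y : L, y ≠ 0 ∧ y ^ r = x
    · have hf1 : f x = 1 := by rw [hfval, if_pos h1]
      by_cases h2 : ∀ M ∈ C, x ∉ M
      · have hG1 : G x = 1 := by rw [hGval, if_pos h2]
        by_cases h3 : ∀ r ∈ S, ¬ ∃ y : L, y ≠ 0 ∧ y ^ r = x
        · have hprim : Prim x := by
            apply prim_of x hx0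
            intro r hr
            rw [← hRS] at hr
            rcases mem_union.mp hr with hr | hr
            · exact h1 r hr
            · exact h3 r hr
          obtain ⟨M, hM, hxM⟩ := hcon x hprim h2
          have h4 : (f x * (G x * subInd M x)).re = 1 := by
            rw [hf1, hG1, hsub, if_pos hxM]
            simp
          have h5 : (F x * G x).re = 1 := by
            rw [hFf, hf1, hG1]
            have : ∑ r ∈ S, powInd r x = 0 := by
              apply sum_eq_zero
              intro r hr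
              unfold powInd
              rw [if_neg (h3 r hr)]
            rw [this]
            simp
          rw [h5, ← h4]
          exact single_le_sum (f := fun M => (f x * (G x * subInd M x)).re) (hterm x) hM
        · push Not at h3
          obtain ⟨r, hr, y, hy⟩ := h3
          refine le_trans ?_ hnn
          rw [hFf, hf1, hG1, one_mul, mul_one, Complex.sub_re, Complex.one_re, Complex.re_sum]
          have h4 : (powInd r x).re = 1 := by
            unfold powInd
            rw [if_pos ⟨y, hy⟩]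
            simp
          have h5 := single_le_sum (f := fun r => (powInd r x).re)
            (fun r _ => crit_powInd_re r x) hr
          simp only [h4] at h5
          linarith
      · have hG0 : G x = 0 := by rw [hGval, if_neg h2]
        have hFG0 : F x * G x = 0 := by rw [hG0, mul_zero]
        rw [hFG0, Complex.zero_re]
        exact hnn
    · have hf0 : f x = 0 := by rw [hfval, if_neg h1]
      have hFG : F x * G x = 0 := by rw [hFf, hf0, zero_mul, zero_mul]
      rw [hFG, Complex.zero_re]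
      exact hnn
  -- sum over the nonzero elements
  have hsum : (∑ x : L with x ≠ 0, F x * G x).re ≤
      ∑ M ∈ D, (∑ x : L with x ≠ 0, f x * (G x * subInd M x)).re := by
    rw [Complex.re_sum]
    have e1 : ∑ M ∈ D, (∑ x : L with x ≠ 0, f x * (G x * subInd M x)).re =
        ∑ x : L with x ≠ 0, ∑ M ∈ D, (f x * (G x * subInd M x)).re := by
      rw [sum_comm]
      exact sum_congr rfl fun M _ => Complex.re_sum _ _
    rw [e1]
    apply sum_le_sum
    intro x hx
    exact hpt x (mem_filter.mp hx).2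
  -- main term
  set nG : ℝ := ((univ.filter (fun x : L => x ≠ 0 ∧ ∀ M ∈ C, x ∉ M)).card : ℝ) with hnG
  have hGsum : ∑ x : L with x ≠ 0, G x = (nG : ℂ) := by
    rw [sum_congr rfl fun x _ => hGval x, ← sum_filter, filter_filter, sum_const, nsmul_eq_mul,
      mul_one, hnG]
    simp
  have hleft : θ * δ * nG - θ * 2 ^ R.card * (1 + S.card) * 2 ^ C.card * √(Nat.card L : ℝ) ≤
      (∑ x : L with x ≠ 0, F x * G x).re := by
    have e1 : ∑ x : L with x ≠ 0, (F x - ((θ * δ : ℝ) : ℂ)) * G x =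
        ∑ x : L with x ≠ 0, F x * G x - ((θ * δ * nG : ℝ) : ℂ) := by
      have : ∀ x : L, (F x - ((θ * δ : ℝ) : ℂ)) * G x = F x * G x - ((θ * δ : ℝ) : ℂ) * G x :=
        fun x => by ring
      rw [sum_congr rfl fun x _ => this x, sum_sub_distrib, ← mul_sum, hGsum]
      push_cast
      ring
    rw [e1] at m1
    have h1 := (Complex.abs_re_le_norm _).trans m1
    rw [Complex.sub_re, Complex.ofReal_re] at h1
    have h2 := (abs_le.mp h1).1
    rw [Nat.card_eq_fintype_card]
    linarith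
  have hright : ∀ M ∈ D, (∑ x : L with x ≠ 0, f x * (G x * subInd M x)).re ≤
      θ * (Nat.card {x : L // x ∈ M ∧ ∀ M' ∈ C, x ∉ M'} : ℝ) +
        θ * 2 ^ R.card * 2 ^ C.card * √(Nat.card L : ℝ) := by
    intro M _
    have m2 := crit_mixed (f := f) (G := fun x => G x * subInd M x) hMf
      (fou_mul hAG (an_subInd M))
    set nM : ℝ := ((univ.filter (fun x : L => x ≠ 0 ∧ (x ∈ M ∧ ∀ M' ∈ C, x ∉ M'))).card : ℝ)
      with hnM
    have hcount : ∑ x : L with x ≠ 0, G x * subInd M x = (nM : ℂ) := by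
      have h1 : ∀ x : L, G x * subInd M x = if (x ∈ M ∧ ∀ M' ∈ C, x ∉ M') then 1 else 0 := by
        intro x
        rw [hGval, hsub]
        by_cases hx : ∀ M' ∈ C, x ∉ M'
        · by_cases hxM : x ∈ M
          · rw [if_pos hx, if_pos hxM, if_pos ⟨hxM, hx⟩, mul_one]
          · rw [if_pos hx, if_neg hxM,
              if_neg (fun hh : x ∈ M ∧ ∀ M' ∈ C, x ∉ M' => hxM hh.1), mul_zero]
        · rw [if_neg hx, if_neg (fun hh : x ∈ M ∧ ∀ M' ∈ C, x ∉ M' => hx hh.2), zero_mul]
      rw [sum_congr rfl fun x _ => h1 x, ← sum_filter, filter_filter, sum_const, nsmul_eq_mul,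
        mul_one, hnM]
      simp
    have hle : nM ≤ (Nat.card {x : L // x ∈ M ∧ ∀ M' ∈ C, x ∉ M'} : ℝ) := by
      rw [hnM, Nat.card_eq_fintype_card, Fintype.card_subtype]
      have : (univ.filter (fun x : L => x ≠ 0 ∧ (x ∈ M ∧ ∀ M' ∈ C, x ∉ M'))).card ≤
          (univ.filter (fun x : L => x ∈ M ∧ ∀ M' ∈ C, x ∉ M')).card := by
        apply card_le_card
        intro x hx
        rw [mem_filter] at hx ⊢
        exact ⟨mem_univ _, hx.2.2⟩
      exact_mod_cast this
    have e1 : ∑ x : L with x ≠ 0, (f x - (θ : ℂ)) * (G x * subInd M x) =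
        ∑ x : L with x ≠ 0, f x * (G x * subInd M x) - ((θ * nM : ℝ) : ℂ) := by
      have : ∀ x : L, (f x - (θ : ℂ)) * (G x * subInd M x) =
          f x * (G x * subInd M x) - (θ : ℂ) * (G x * subInd M x) :=
        fun x => by ring
      rw [sum_congr rfl fun x _ => this x, sum_sub_distrib, ← mul_sum, hcount]
      push_cast
      ring
    rw [e1] at m2
    have h1 := (Complex.abs_re_le_norm _).trans m2
    rw [Complex.sub_re, Complex.ofReal_re] at h1
    have h2 := (abs_le.mp h1).2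
    have h3 := mul_le_mul_of_nonneg_left hle hθ0.le
    rw [Nat.card_eq_fintype_card (α := L)]
    have e2 : θ * 2 ^ R.card * (2 ^ C.card * 1) * √(Fintype.card L : ℝ) =
      θ * 2 ^ R.card * 2 ^ C.card * √(Fintype.card L : ℝ) := by ring
    rw [e2] at h2
    linarith
  -- number of points avoiding the core
  have hnP : (Nat.card {x : L // ∀ M ∈ C, x ∉ M} : ℝ) - 1 ≤ nG := by
    have h1 : Nat.card {x : L // ∀ M ∈ C, x ∉ M} ≤
        (univ.filter (fun x : L => x ≠ 0 ∧ ∀ M ∈ C, x ∉ M)).card + 1 := by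
      rw [Nat.card_eq_fintype_card, Fintype.card_subtype]
      calc (univ.filter (fun x : L => ∀ M ∈ C, x ∉ M)).card
          ≤ (insert 0 (univ.filter (fun x : L => x ≠ 0 ∧ ∀ M ∈ C, x ∉ M))).card := by
            apply card_le_card
            intro x hx
            rw [mem_filter] at hx
            by_cases hx0 : x = 0
            · rw [hx0]; exact mem_insert_self _ _
            · apply mem_insert_of_mem
              rw [mem_filter]
              exact ⟨mem_univ _, hx0, hx.2⟩
        _ ≤ (univ.filter (fun x : L => x ≠ 0 ∧ ∀ M ∈ C, x ∉ M)).card + 1 := card_insert_le _ _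
    have h2 : (Nat.card {x : L // ∀ M ∈ C, x ∉ M} : ℝ) ≤ nG + 1 := by
      rw [hnG]
      exact_mod_cast h1
    linarith
  -- conclusion
  have hsq := Real.sqrt_nonneg (Nat.card L : ℝ)
  have hSc : (0 : ℝ) ≤ ∑ M ∈ D, (Nat.card {x : L // x ∈ M ∧ ∀ M' ∈ C, x ∉ M'} : ℝ) :=
    sum_nonneg fun M _ => Nat.cast_nonneg _
  set nA : ℝ := (Nat.card {x : L // ∀ M ∈ C, x ∉ M} : ℝ) with hnA
  have hnA0 : 0 ≤ nA := Nat.cast_nonneg _
  have hpos1 : 0 ≤ 2 ^ (R.card + C.card) * √(Nat.card L : ℝ) * (1 + S.card + D.card) := by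
    positivity
  have hδ0 : 0 < δ := by
    by_contra hneg
    push Not at hneg
    have h1 : δ * nA ≤ 0 := by nlinarith
    linarith
  have htot : θ * δ * nG - θ * 2 ^ R.card * (1 + S.card) * 2 ^ C.card * √(Nat.card L : ℝ) ≤
      ∑ M ∈ D, (θ * (Nat.card {x : L // x ∈ M ∧ ∀ M' ∈ C, x ∉ M'} : ℝ) +
        θ * 2 ^ R.card * 2 ^ C.card * √(Nat.card L : ℝ)) :=
    hleft.trans (hsum.trans (sum_le_sum hright))
  rw [sum_add_distrib, ← mul_sum, sum_const, nsmul_eq_mul] at htot
  have h5 : θ * (δ * nG) ≤ θ * (2 ^ (R.card + C.card) * √(Nat.card L : ℝ) *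
      (1 + S.card + D.card) + ∑ M ∈ D, (Nat.card {x : L // x ∈ M ∧ ∀ M' ∈ C, x ∉ M'} : ℝ)) := by
    have e : θ * (2 ^ (R.card + C.card) * √(Nat.card L : ℝ) *
      (1 + S.card + D.card) + ∑ M ∈ D, (Nat.card {x : L // x ∈ M ∧ ∀ M' ∈ C, x ∉ M'} : ℝ)) =
      θ * 2 ^ R.card * (1 + S.card) * 2 ^ C.card * √(Nat.card L : ℝ) +
        D.card * (θ * 2 ^ R.card * 2 ^ C.card * √(Nat.card L : ℝ)) +
        θ * ∑ M ∈ D, (Nat.card {x : L // x ∈ M ∧ ∀ M' ∈ C, x ∉ M'} : ℝ) := by
      rw [pow_add]
      ring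
    rw [e]
    linarith
  have h7 := le_of_mul_le_mul_left h5 hθ0
  have h8 : δ * (nA - 1) ≤ δ * nG := mul_le_mul_of_nonneg_left hnP hδ0.le
  linarith

end Pool.Agent.MM2
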