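import Mathlib
import Pool.Agent.MM.PER
import Pool.Agent.MM.SIZE
import Pool.Agent.MM.ZB
import Pool.Agent.MM.KERN
import Pool.Agent.MM2.Defs

/-!
Lists of kernels with exact counts.
-/

namespace Pool.Agent.MM2

open Finset Polynomial Pool.Agent.MM

section

variable {K L Om : Type} [Field K] [Field L] [Field Om] [Algebra K L] [Algebra K Om]
  [Algebra L Om] [IsScalarTower K L Om] [Finite K] [Finite L]

open scoped Classical in
theorem kern2_image (d t : ℕ) (hd : d ∣ t) (ht : 0 < t) :
    ((Zs K L Om d t).image (kernA K L d)).card * t ≤ (Zs K L Om d t).card * d := by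
  have hd0 : 0 < d := Nat.pos_of_dvd_of_pos hd ht
  have h1 : ((Zs K L Om d t).image (kernA K L d)).card * (t / d) ≤ (Zs K L Om d t).card := by
    rw [card_eq_sum_card_image (kernA K L d) (Zs K L Om d t), ← smul_eq_mul]
    apply card_nsmul_le_sum
    intro M hM
    obtain ⟨z, hz, rfl⟩ := mem_image.1 hM
    obtain ⟨he, hper⟩ := (mem_Zs d t z).1 hz
    have h2 : ((range (t / d)).image (fun j => z ^ (Nat.card K ^ (d * j)))).card = t / d := by
      rw [card_image_of_injOn, card_range]
      rw [← hper]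
      exact kern_inj d z he
    rw [← h2]
    apply card_le_card
    intro y hy
    obtain ⟨j, -, rfl⟩ := mem_image.1 hy
    obtain ⟨h3, h4, h5⟩ := kern_orbit d z he j
    exact mem_filter.2 ⟨(mem_Zs _ _ _).2 ⟨h3, h4.trans hper⟩, h5⟩
  calc ((Zs K L Om d t).image (kernA K L d)).card * t
      = ((Zs K L Om d t).image (kernA K L d)).card * (t / d) * d := by
        rw [mul_assoc, Nat.div_mul_cancel hd]
    _ ≤ _ := Nat.mul_le_mul_right _ h1

theorem kern2_per_le (z : Om) (d : ℕ) (he : Ev K L d z) : per K z ≤ deg K L := by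
  obtain ⟨hd0, hN, hp⟩ := size_facts d z he
  have hfin : IsOfFinOrder z := isOfFinOrder_iff_pow_eq_one.2 ⟨_, hN, he.2.1⟩
  rw [per_eq_orderOf (K := K) _ hN z he.2.1]
  have hne : NeZero (orderOf z) := ⟨hfin.orderOf_pos.ne'⟩
  have hc := orderOf_coprime (K := K) _ hN z he.2.1
  have hu : IsUnit ((Nat.card K : ℕ) : ZMod (orderOf z)) := (ZMod.isUnit_iff_coprime _ _).2 hc.symm
  obtain ⟨u, hu⟩ := hu
  rw [← hu, orderOf_units]
  calc orderOf u ≤ Fintype.card (ZMod (orderOf z))ˣ := orderOf_le_card_univ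
    _ = Nat.totient (orderOf z) := ZMod.card_units_eq_totient _
    _ ≤ orderOf z := Nat.totient_le _
    _ ≤ deg K L / d := orderOf_le_of_pow_eq_one hN he.2.1
    _ ≤ deg K L := Nat.div_le_self _ _

theorem kern2_core [IsAlgClosed Om] (T : ℕ) :
    ∃ C : Finset (AddSubgroup L), C.card ≤ KN K L Om T ∧
      (∀ M ∈ C, ∃ (d : ℕ) (z : Om), Ev K L d z ∧ per K z ≤ T ∧
        ∀ x : L, x ∈ M ↔ Res K d z x = 0) ∧
      ∀ (d : ℕ) (z : Om), Ev K L d z → per K z ≤ T → ∃ M ∈ C, ∀ x : L,
        x ∈ M ↔ Res K d z x = 0 := by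
  classical
  refine ⟨(Icc 1 T).biUnion (fun t => t.divisors.biUnion
    (fun d => (Zs K L Om d t).image (kernA K L d))), ?_, ?_, ?_⟩
  · refine card_biUnion_le.trans ?_
    unfold KN
    refine sum_le_sum fun t ht => ?_
    have ht0 : 0 < t := (mem_Icc.1 ht).1
    rw [Nat.le_div_iff_mul_le ht0]
    refine (Nat.mul_le_mul_right _ card_biUnion_le).trans ?_
    unfold ST
    rw [sum_mul]
    exact sum_le_sum fun d hd => kern2_image d t (Nat.dvd_of_mem_divisors hd) ht0
  · intro M hM
    obtain ⟨t, ht, hM⟩ := mem_biUnion.1 hM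
    obtain ⟨d, hd, hM⟩ := mem_biUnion.1 hM
    obtain ⟨z, hz, rfl⟩ := mem_image.1 hM
    obtain ⟨he, hper⟩ := (mem_Zs d t z).1 hz
    exact ⟨d, z, he, by rw [hper]; exact (mem_Icc.1 ht).2, fun x => mem_kernA d z x⟩
  · intro d z he hT
    obtain ⟨hd0, -, hp⟩ := size_facts d z he
    refine ⟨kernA K L d z, ?_, fun x => mem_kernA d z x⟩
    refine mem_biUnion.2 ⟨per K z, mem_Icc.2 ⟨hp, hT⟩, mem_biUnion.2 ⟨d, ?_, ?_⟩⟩
    · exact Nat.mem_divisors.2 ⟨he.2.2, hp.ne'⟩
    · exact mem_image_of_mem _ ((mem_Zs _ _ _).2 ⟨he, rfl⟩)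

theorem kern2_tail [IsAlgClosed Om] (T : ℕ) :
    ∃ D : Finset (AddSubgroup L), D.card ≤ ∑ d ∈ (deg K L).divisors, deg K L / d ∧
      (∀ (F : AddSubgroup L → ℝ) (c : ℝ), 0 ≤ c →
        (∀ (M : AddSubgroup L) (d : ℕ) (z : Om), Ev K L d z → T < per K z →
          (∀ x : L, x ∈ M ↔ Res K d z x = 0) → F M ≤ c / (Nat.card K : ℝ) ^ (per K z)) →
        ∑ M ∈ D, F M ≤ c * TS K L Om T) ∧
      ∀ (d : ℕ) (z : Om), Ev K L d z → T < per K z → ∃ M ∈ D, ∀ x : L,
        x ∈ M ↔ Res K d z x = 0 := by
  classical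
  have hfin : Module.Finite K L := inferInstance
  have hn : 0 < deg K L := Module.finrank_pos
  refine ⟨(deg K L).divisors.biUnion (fun d => ((nthRootsFinset (deg K L / d) (1 : Om)).filter
    (fun z => Ev K L d z ∧ T < per K z)).image (kernA K L d)), ?_, ?_, ?_⟩
  · refine card_biUnion_le.trans (sum_le_sum fun d _ => ?_)
    exact card_image_le.trans ((card_le_card (filter_subset _ _)).trans (zb_roots _))
  · intro F c hc hF
    have hq : (0 : ℝ) < Nat.card K := by exact_mod_cast Nat.card_pos (α := K)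
    set G : AddSubgroup L → ℝ := fun M => max (F M) 0 with hG
    have hG0 : ∀ M, 0 ≤ G M := fun M => le_max_right _ _
    have hFG : ∀ M, F M ≤ G M := fun M => le_max_left _ _
    have hGb : ∀ (M : AddSubgroup L) (d : ℕ) (z : Om), Ev K L d z → T < per K z →
        (∀ x : L, x ∈ M ↔ Res K d z x = 0) → G M ≤ c / (Nat.card K : ℝ) ^ (per K z) := by
      intro M d z he hT hM
      exact max_le (hF M d z he hT hM) (div_nonneg hc (pow_pos hq _).le)
    have hsub : (deg K L).divisors.biUnion (fun d =>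
        ((nthRootsFinset (deg K L / d) (1 : Om)).filter
        (fun z => Ev K L d z ∧ T < per K z)).image (kernA K L d)) ⊆
        (Ioc T (deg K L)).biUnion (fun t => t.divisors.biUnion
          (fun d => (Zs K L Om d t).image (kernA K L d))) := by
      intro M hM
      obtain ⟨d, hd, hM⟩ := mem_biUnion.1 hM
      obtain ⟨z, hz, rfl⟩ := mem_image.1 hM
      obtain ⟨-, he, hT⟩ := mem_filter.1 hz
      obtain ⟨hd0, -, hp⟩ := size_facts d z he
      refine mem_biUnion.2 ⟨per K z, mem_Ioc.2 ⟨hT, kern2_per_le z d he⟩,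
        mem_biUnion.2 ⟨d, ?_, ?_⟩⟩
      · exact Nat.mem_divisors.2 ⟨he.2.2, hp.ne'⟩
      · exact mem_image_of_mem _ ((mem_Zs _ _ _).2 ⟨he, rfl⟩)
    have hbi : ∀ {ι : Type} (s : Finset ι) (A : ι → Finset (AddSubgroup L)),
        ∑ M ∈ s.biUnion A, G M ≤ ∑ i ∈ s, ∑ M ∈ A i, G M := by
      intro ι s A
      induction s using Finset.induction_on with
      | empty => simp
      | insert a s ha ih =>
        rw [biUnion_insert, sum_insert ha]
        have h1 : ∑ M ∈ A a ∪ s.biUnion A, G M ≤ ∑ M ∈ A a, G M + ∑ M ∈ s.biUnion A, G M := by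
          rw [← sum_union_inter]
          exact le_add_of_nonneg_right (sum_nonneg fun M _ => hG0 M)
        linarith
    calc ∑ M ∈ (deg K L).divisors.biUnion (fun d =>
        ((nthRootsFinset (deg K L / d) (1 : Om)).filter
        (fun z => Ev K L d z ∧ T < per K z)).image (kernA K L d)), F M
        ≤ ∑ M ∈ (deg K L).divisors.biUnion (fun d =>
          ((nthRootsFinset (deg K L / d) (1 : Om)).filter
          (fun z => Ev K L d z ∧ T < per K z)).image (kernA K L d)), G M :=
          sum_le_sum fun M _ => hFG M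
      _ ≤ ∑ M ∈ (Ioc T (deg K L)).biUnion (fun t => t.divisors.biUnion
          (fun d => (Zs K L Om d t).image (kernA K L d))), G M :=
          sum_le_sum_of_subset_of_nonneg hsub fun M _ _ => hG0 M
      _ ≤ ∑ t ∈ Ioc T (deg K L), ∑ M ∈ t.divisors.biUnion
          (fun d => (Zs K L Om d t).image (kernA K L d)), G M := hbi _ _
      _ ≤ ∑ t ∈ Ioc T (deg K L), ∑ d ∈ t.divisors,
          ∑ M ∈ (Zs K L Om d t).image (kernA K L d), G M :=
          sum_le_sum fun t _ => hbi _ _
      _ ≤ ∑ t ∈ Ioc T (deg K L), ∑ d ∈ t.divisors,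
          c * (((Zs K L Om d t).card * d : ℕ) : ℝ) / t / (Nat.card K : ℝ) ^ t := by
          refine sum_le_sum fun t ht => sum_le_sum fun d hd => ?_
          have hTt : T < t := (mem_Ioc.1 ht).1
          have ht0 : 0 < t := by omega
          have htR : (0 : ℝ) < t := by exact_mod_cast ht0
          have hqt : (0 : ℝ) < (Nat.card K : ℝ) ^ t := pow_pos hq t
          have h1 : ∑ M ∈ (Zs K L Om d t).image (kernA K L d), G M ≤
              ((Zs K L Om d t).image (kernA K L d)).card • (c / (Nat.card K : ℝ) ^ t) := by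
            refine sum_le_card_nsmul _ _ _ ?_
            intro M hM
            obtain ⟨z, hz, rfl⟩ := mem_image.1 hM
            obtain ⟨he, hper⟩ := (mem_Zs d t z).1 hz
            have := hGb (kernA K L d z) d z he (by rw [hper]; exact hTt)
              (fun x => mem_kernA d z x)
            rwa [hper] at this
          refine h1.trans ?_
          rw [nsmul_eq_mul]
          have h2 := kern2_image (K := K) (L := L) (Om := Om) d t
            (Nat.dvd_of_mem_divisors hd) ht0
          have h3 : (((Zs K L Om d t).image (kernA K L d)).card : ℝ) * t ≤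
              (((Zs K L Om d t).card * d : ℕ) : ℝ) := by exact_mod_cast h2
          have h4 : (((Zs K L Om d t).image (kernA K L d)).card : ℝ) ≤
              (((Zs K L Om d t).card * d : ℕ) : ℝ) / t := by
            rw [le_div_iff₀ htR]
            exact h3
          calc (((Zs K L Om d t).image (kernA K L d)).card : ℝ) * (c / (Nat.card K : ℝ) ^ t)
              ≤ (((Zs K L Om d t).card * d : ℕ) : ℝ) / t * (c / (Nat.card K : ℝ) ^ t) :=
                mul_le_mul_of_nonneg_right h4 (div_nonneg hc hqt.le)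
            _ = _ := by ring
      _ = c * TS K L Om T := by
          unfold TS ST
          rw [mul_sum]
          refine sum_congr rfl fun t _ => ?_
          rw [Nat.cast_sum, sum_div, sum_div, mul_sum]
          refine sum_congr rfl fun d _ => ?_
          ring
  · intro d z he hT
    obtain ⟨hd0, hN, hp⟩ := size_facts d z he
    refine ⟨kernA K L d z, ?_, fun x => mem_kernA d z x⟩
    refine mem_biUnion.2 ⟨d, Nat.mem_divisors.2 ⟨he.1, hn.ne'⟩, mem_image_of_mem _ ?_⟩
    refine mem_filter.2 ⟨?_, he, hT⟩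
    rw [Polynomial.mem_nthRootsFinset hN]
    exact he.2.1

end

end Pool.Agent.MM2
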