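import Mathlib
import Pool.Agent.MM.SK
import Pool.Agent.MM2.Defs

/-!
Sharp version of `sk`.
-/

namespace Pool.Agent.MM2

open Finset Polynomial Pool.Agent.MM

theorem skq_tail3 (N : ℕ) (hN : 5 ≤ N) :
    ∑ n ∈ Icc 6 N, (((n : ℝ) ^ 2 + n) / 2) / 3 ^ n ≤
      (3 / 4 * (6 : ℝ) ^ 2 + 3 / 2 * 6 + 9 / 8) / 3 ^ 6 -
        (3 / 4 * ((N : ℝ) + 1) ^ 2 + 3 / 2 * ((N : ℝ) + 1) + 9 / 8) / 3 ^ (N + 1) := by
  induction N, hN using Nat.le_induction with
  | base => norm_num
  | succ N hN ih =>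
    rw [← Finset.insert_Icc_right_eq_Icc_add_one (by omega : 6 ≤ N + 1), sum_insert (by simp)]
    have e : (((((N + 1 : ℕ) : ℝ)) ^ 2 + ((N + 1 : ℕ) : ℝ)) / 2) / 3 ^ (N + 1) =
        (3 / 4 * ((N : ℝ) + 1) ^ 2 + 3 / 2 * ((N : ℝ) + 1) + 9 / 8) / 3 ^ (N + 1) -
        (3 / 4 * (((N + 1 : ℕ) : ℝ) + 1) ^ 2 + 3 / 2 * (((N + 1 : ℕ) : ℝ) + 1) + 9 / 8) /
          3 ^ (N + 1 + 1) := by
      rw [pow_succ (3 : ℝ) (N + 1)]
      push_cast
      field_simp
      ring
    rw [e]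
    linarith

theorem skq_tail5 (N : ℕ) (hN : 2 ≤ N) :
    ∑ n ∈ Icc 3 N, (((n : ℝ) ^ 2 + n) / 2) / 5 ^ n ≤
      (5 / 8 * (3 : ℝ) ^ 2 + 15 / 16 * 3 + 25 / 64) / 5 ^ 3 -
        (5 / 8 * ((N : ℝ) + 1) ^ 2 + 15 / 16 * ((N : ℝ) + 1) + 25 / 64) / 5 ^ (N + 1) := by
  induction N, hN using Nat.le_induction with
  | base => norm_num
  | succ N hN ih =>
    rw [← Finset.insert_Icc_right_eq_Icc_add_one (by omega : 3 ≤ N + 1), sum_insert (by simp)]
    have e : (((((N + 1 : ℕ) : ℝ)) ^ 2 + ((N + 1 : ℕ) : ℝ)) / 2) / 5 ^ (N + 1) =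
        (5 / 8 * ((N : ℝ) + 1) ^ 2 + 15 / 16 * ((N : ℝ) + 1) + 25 / 64) / 5 ^ (N + 1) -
        (5 / 8 * (((N + 1 : ℕ) : ℝ) + 1) ^ 2 + 15 / 16 * (((N + 1 : ℕ) : ℝ) + 1) + 25 / 64) /
          5 ^ (N + 1 + 1) := by
      rw [pow_succ (5 : ℝ) (N + 1)]
      push_cast
      field_simp
      ring
    rw [e]
    linarith

theorem skq_num3 (N : ℕ) :
    ∑ n ∈ Icc 3 N, (∑ d ∈ n.divisors, (d : ℝ)) / 3 ^ n ≤ 1 / 3 := by
  have hsub : Icc 3 N ⊆ ({3, 4, 5} : Finset ℕ) ∪ Icc 6 (N + 5) := by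
    intro n hn
    simp only [mem_Icc, mem_union, mem_insert, mem_singleton] at hn ⊢
    omega
  have hdis : Disjoint ({3, 4, 5} : Finset ℕ) (Icc 6 (N + 5)) := by
    rw [Finset.disjoint_left]
    intro n hn hn'
    simp only [mem_Icc, mem_insert, mem_singleton] at hn hn'
    omega
  have h1 : ∑ n ∈ Icc 3 N, (∑ d ∈ n.divisors, (d : ℝ)) / 3 ^ n ≤
      ∑ n ∈ ({3, 4, 5} : Finset ℕ) ∪ Icc 6 (N + 5), (∑ d ∈ n.divisors, (d : ℝ)) / 3 ^ n := by
    apply sum_le_sum_of_subset_of_nonneg hsub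
    intro n _ _
    positivity
  rw [sum_union hdis] at h1
  have h2 : ∑ n ∈ Icc 6 (N + 5), (∑ d ∈ n.divisors, (d : ℝ)) / 3 ^ n ≤
      ∑ n ∈ Icc 6 (N + 5), (((n : ℝ) ^ 2 + n) / 2) / 3 ^ n := by
    apply sum_le_sum
    intro n _
    gcongr
    exact sk_sigma_le n
  have h3 := skq_tail3 (N + 5) (by omega)
  have h4 : (0 : ℝ) ≤ (3 / 4 * (((N + 5 : ℕ) : ℝ) + 1) ^ 2 + 3 / 2 * (((N + 5 : ℕ) : ℝ) + 1) + 9 / 8) /
      3 ^ (N + 5 + 1) := by positivity
  have h5 : ∑ n ∈ ({3, 4, 5} : Finset ℕ), (∑ d ∈ n.divisors, (d : ℝ)) / 3 ^ n =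
      4 / 27 + 7 / 81 + 6 / 243 := by
    rw [sum_insert (by decide), sum_insert (by decide), sum_singleton,
      show Nat.divisors 5 = {1, 5} from by decide, show Nat.divisors 3 = {1, 3} from by decide,
      show Nat.divisors 4 = {1, 2, 4} from by decide]
    norm_num
  rw [h5] at h1
  norm_num at h3 h4
  linarith

theorem skq_num5 (N : ℕ) :
    ∑ n ∈ Icc 2 N, (∑ d ∈ n.divisors, (d : ℝ)) / 5 ^ n ≤ 1 / 5 := by
  have hsub : Icc 2 N ⊆ ({2} : Finset ℕ) ∪ Icc 3 (N + 2) := by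
    intro n hn
    simp only [mem_Icc, mem_union, mem_singleton] at hn ⊢
    omega
  have hdis : Disjoint ({2} : Finset ℕ) (Icc 3 (N + 2)) := by
    rw [Finset.disjoint_left]
    intro n hn hn'
    simp only [mem_Icc, mem_singleton] at hn hn'
    omega
  have h1 : ∑ n ∈ Icc 2 N, (∑ d ∈ n.divisors, (d : ℝ)) / 5 ^ n ≤
      ∑ n ∈ ({2} : Finset ℕ) ∪ Icc 3 (N + 2), (∑ d ∈ n.divisors, (d : ℝ)) / 5 ^ n := by
    apply sum_le_sum_of_subset_of_nonneg hsub
    intro n _ _
    positivity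
  rw [sum_union hdis] at h1
  have h2 : ∑ n ∈ Icc 3 (N + 2), (∑ d ∈ n.divisors, (d : ℝ)) / 5 ^ n ≤
      ∑ n ∈ Icc 3 (N + 2), (((n : ℝ) ^ 2 + n) / 2) / 5 ^ n := by
    apply sum_le_sum
    intro n _
    gcongr
    exact sk_sigma_le n
  have h3 := skq_tail5 (N + 2) (by omega)
  have h4 : (0 : ℝ) ≤ (5 / 8 * (((N + 2 : ℕ) : ℝ) + 1) ^ 2 + 15 / 16 * (((N + 2 : ℕ) : ℝ) + 1) +
      25 / 64) / 5 ^ (N + 2 + 1) := by positivity
  have h5 : ∑ n ∈ ({2} : Finset ℕ), (∑ d ∈ n.divisors, (d : ℝ)) / 5 ^ n = 3 / 25 := by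
    rw [sum_singleton, show Nat.divisors 2 = {1, 2} from by decide]
    norm_num
  rw [h5] at h1
  norm_num at h3 h4
  linarith

theorem skq (q k : ℕ) (hq : QOK q) (hk : 0 < k) (hkq : k.Coprime q) (D : Finset ℕ)
    (hD : ∀ d ∈ D, 0 < d ∧ d ∣ orderOf (q : ZMod (k / k.gcd d))) :
    ∑ d ∈ D, (d : ℝ) / (q : ℝ) ^ (orderOf (q : ZMod (k / k.gcd d))) ≤ sq q := by
  by_cases hq2 : q = 2
  · have h1 : sq q = 3 / 4 := by rw [sq, if_pos hq2]
    rw [h1]
    exact sk q k (by omega) hk hkq D hD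
  have hq3 : 3 ≤ q := by
    rcases hq with h | h | h <;> omega
  set t : ℕ → ℕ := fun d => orderOf (q : ZMod (k / k.gcd d)) with ht
  have hq1 : 1 ≤ q := by omega
  have hq0' : (0 : ℝ) < q := by exact_mod_cast (by omega : 0 < q)
  have hm0 : ∀ d, 0 < k / k.gcd d := fun d =>
    Nat.div_pos (Nat.le_of_dvd hk (Nat.gcd_dvd_left k d)) (Nat.gcd_pos_of_pos_left d hk)
  have htpos : ∀ d, 0 < t d := by
    intro d
    have : NeZero (k / k.gcd d) := ⟨(hm0 d).ne'⟩
    have hc : Nat.Coprime q (k / k.gcd d) :=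
      (hkq.symm).coprime_dvd_right (Nat.div_dvd_of_dvd (Nat.gcd_dvd_left k d))
    have hu : IsUnit (q : ZMod (k / k.gcd d)) := (ZMod.isUnit_iff_coprime q _).mpr hc
    obtain ⟨u, hu⟩ := hu
    rw [ht]
    simp only
    rw [← hu, orderOf_units]
    exact orderOf_pos u
  have hdvd : ∀ d, k / k.gcd d ∣ q ^ (t d) - 1 := fun d => sk_dvd q _ hq1
  have hmem : ∀ d ∈ D, d ∈ (t d).divisors := fun d hd => by
    rw [Nat.mem_divisors]
    exact ⟨(hD d hd).2, (htpos d).ne'⟩
  have hsup : ∀ d ∈ D, t d ≤ D.sup t := fun d hd => Finset.le_sup hd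
  change ∑ d ∈ D, (d : ℝ) / (q : ℝ) ^ (t d) ≤ sq q
  have hsq : sq q = if q = 3 then 1 / 3 else 1 / 5 := by rw [sq, if_neg hq2]
  by_cases hA : ∃ d ∈ D, t d = 1
  · -- order one
    obtain ⟨d, hd, htd⟩ := hA
    have hd1 : d = 1 := by
      have := (hD d hd).2
      change d ∣ t d at this
      rw [htd] at this
      exact Nat.dvd_one.mp this
    subst hd1
    have hkq1 : k ∣ q - 1 := by
      have := hdvd 1
      rw [htd, pow_one, Nat.gcd_one_right, Nat.div_one] at this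
      exact this
    have hall : ∀ d ∈ D, d = 1 ∧ t d = 1 := by
      intro d hd
      have h1 : t d ∣ 1 := by
        apply sk_ord_dvd q _ 1 hq1
        rw [pow_one]
        exact (Nat.div_dvd_of_dvd (Nat.gcd_dvd_left k d)).trans hkq1
      have h2 : t d = 1 := Nat.dvd_one.mp h1
      have h3 := (hD d hd).2
      change d ∣ t d at h3
      rw [h2] at h3
      exact ⟨Nat.dvd_one.mp h3, h2⟩
    have hle : (1 : ℝ) / q ≤ sq q := by
      rw [hsq]
      split_ifs with h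
      · rw [h]; norm_num
      · have h5 : 5 ≤ q := by
          rcases hq with h' | h' | h' <;> omega
        apply one_div_le_one_div_of_le (by norm_num)
        exact_mod_cast h5
    have hE := sk_explicit D {1} (fun d => (d : ℝ) / (q : ℝ) ^ (t d)) (fun _ => (1 : ℝ) / q)
      (fun d hd => by rw [mem_singleton]; exact (hall d hd).1) (by
        intro d hd
        rw [(hall d hd).2, (hall d hd).1, pow_one, Nat.cast_one]) (by intro d _; positivity)
    simp only [sum_singleton] at hE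
    linarith
  push Not at hA
  have h2 : ∀ d ∈ D, 2 ≤ t d := fun d hd => by
    have := hA d hd
    have := htpos d
    omega
  by_cases hq3' : q = 3
  · subst hq3'
    rw [hsq, if_pos rfl]
    by_cases hB : ∃ d ∈ D, t d = 2
    · obtain ⟨d, hd, htd⟩ := hB
      have hd' : d ∣ 2 := by
        have := (hD d hd).2
        change d ∣ t d at this
        rwa [htd] at this
      have hm8 : k / k.gcd d ∣ 8 := by
        have := hdvd d
        rw [htd] at this
        exact this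
      have hk16 : k ∣ 16 := by
        have h5 : k.gcd d ∣ 2 := (Nat.gcd_dvd_right k d).trans hd'
        have h6 : k = (k / k.gcd d) * k.gcd d := (Nat.div_mul_cancel (Nat.gcd_dvd_left k d)).symm
        rw [h6]
        exact mul_dvd_mul hm8 h5
      have hall : ∀ d ∈ D, d = 1 ∨ d = 2 := by
        intro d hd
        have h1 : t d ∣ 4 := by
          apply sk_ord_dvd 3 _ 4 hq1
          exact (Nat.div_dvd_of_dvd (Nat.gcd_dvd_left k d)).trans (hk16.trans (by norm_num))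
        have h3 := (hD d hd).2
        change d ∣ t d at h3
        have h4 : d ∣ 4 := h3.trans h1
        have h5 := Nat.le_of_dvd (by norm_num) h4
        have h6 := (hD d hd).1
        have h7 : d ≠ 4 := by
          rintro rfl
          have h8 : k / k.gcd 4 ∣ 4 := by
            have h9 : k.gcd 4 * (k / k.gcd 4) = k := Nat.mul_div_cancel' (Nat.gcd_dvd_left k 4)
            have hk' : k = 1 ∨ k = 2 ∨ k = 4 ∨ k = 8 ∨ k = 16 := by
              have h10 := Nat.le_of_dvd (by norm_num) hk16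
              have h11 : k ∈ Nat.divisors 16 := by
                rw [Nat.mem_divisors]; exact ⟨hk16, by norm_num⟩
              rw [show Nat.divisors 16 = {1, 2, 4, 8, 16} from by decide] at h11
              simpa using h11
            rcases hk' with h | h | h | h | h <;> subst h <;> decide
          have h9 : t 4 ∣ 2 := by
            apply sk_ord_dvd 3 _ 2 hq1
            exact h8.trans (by norm_num)
          have h10 := Nat.le_of_dvd (by norm_num) (h3.trans h9)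
          omega
        interval_cases d
        · left; rfl
        · right; rfl
        · omega
        · omega
      have hE := sk_explicit D {1, 2} (fun d => (d : ℝ) / ((3 : ℕ) : ℝ) ^ (t d))
        (fun d => (d : ℝ) / 9)
        (fun d hd => by
          simp only [mem_insert, mem_singleton]
          exact hall d hd) (by
          intro d hd
          have h9 : (9 : ℝ) ≤ ((3 : ℕ) : ℝ) ^ (t d) := by
            calc (9 : ℝ) = ((3 : ℕ) : ℝ) ^ 2 := by norm_num
              _ ≤ ((3 : ℕ) : ℝ) ^ (t d) := pow_le_pow_right₀ (by norm_num) (h2 d hd)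
          gcongr) (by intro d _; positivity)
      rw [sum_insert (by decide), sum_singleton] at hE
      norm_num at hE ⊢
      linarith
    push Not at hB
    have h3 : ∀ d ∈ D, 3 ≤ t d := fun d hd => by
      have := hB d hd
      have := h2 d hd
      omega
    have h4 := (sk_fiber 3 (by norm_num) D t 3 (D.sup t) fun d hd =>
      ⟨h3 d hd, hsup d hd, hmem d hd⟩).trans (skq_num3 _)
    push_cast
    exact h4
  · have h5 : 5 ≤ q := by
      rcases hq with h' | h' | h' <;> omega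
    rw [hsq, if_neg hq3']
    have h3 : ∑ d ∈ D, (d : ℝ) / (q : ℝ) ^ (t d) ≤ ∑ d ∈ D, (d : ℝ) / (5 : ℝ) ^ (t d) := by
      apply sum_le_sum
      intro d _
      have : (5 : ℝ) ≤ q := by exact_mod_cast h5
      gcongr
    exact h3.trans ((sk_fiber 5 (by norm_num) D t 2 (D.sup t) fun d hd =>
      ⟨h2 d hd, hsup d hd, hmem d hd⟩).trans (skq_num5 _))

end Pool.Agent.MM2
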