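import Mathlib
import Pool.Agent.MM.PER
import Pool.Agent.MM.ISO
import Pool.Agent.MM.SIZE
import Pool.Agent.MM.TRI
import Pool.Agent.MM.PC
import Pool.Agent.MM2.Defs
import Pool.Agent.MM2.SUMQ

/-!
Sharp version of `pct`.
-/

namespace Pool.Agent.MM2

open Finset Polynomial Pool.Agent.MM

theorem pcq_sq1 (q : ℕ) : sq q ≤ 1 := by
  unfold sq
  split_ifs <;> norm_num

/-- chord bound -/
theorem pcq_chord (c b s : ℝ) (hb : 0 < b) (h0 : 0 ≤ s) (h1 : s ≤ b)
    (hcb : (2 : ℝ) ^ (-(c * b)) ≤ 1 - b) : (2 : ℝ) ^ (-(c * s)) ≤ 1 - s := by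
  have hc := convexOn_exp.2 (Set.mem_univ (0 : ℝ)) (Set.mem_univ (Real.log 2 * (-(c * b)) : ℝ))
    (show (0 : ℝ) ≤ 1 - s / b by
      rw [sub_nonneg, div_le_one hb]; exact h1) (show (0 : ℝ) ≤ s / b by positivity)
    (by ring)
  have h3 : (1 - s / b) • (0 : ℝ) + (s / b) • (Real.log 2 * (-(c * b)) : ℝ) =
      Real.log 2 * (-(c * s)) := by
    simp only [smul_eq_mul]
    field_simp
    ring
  rw [h3] at hc
  simp only [smul_eq_mul, Real.exp_zero] at hc
  rw [← Real.rpow_def_of_pos (by norm_num), ← Real.rpow_def_of_pos (by norm_num)] at hc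
  have h4 : s / b * (2 : ℝ) ^ (-(c * b)) ≤ s / b * (1 - b) :=
    mul_le_mul_of_nonneg_left hcb (by positivity)
  have h5 : s / b * (1 - b) = s / b - s := by field_simp
  linarith

theorem pcq_pow (q : ℕ) (hq : QOK q) (s : ℝ) (h0 : 0 ≤ s) (h1 : s ≤ sq q) :
    (2 : ℝ) ^ (-(cq q * s)) ≤ 1 - s := by
  have key : ∀ (a m : ℕ) (x y : ℝ), 0 < y → x = -((a : ℝ) / m) → 0 < m →
      1 ≤ y ^ m * 2 ^ a → (2 : ℝ) ^ x ≤ y := by
    intro a m x y hy hx hm h
    have hm' : (m : ℝ) ≠ 0 := by exact_mod_cast hm.ne'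
    have h2 : ((2 : ℝ) ^ x) ^ m ≤ y ^ m := by
      rw [← Real.rpow_natCast, ← Real.rpow_mul (by norm_num), hx]
      have h3 : -((a : ℝ) / m) * m = -(a : ℝ) := by field_simp
      rw [h3, Real.rpow_neg (by norm_num), Real.rpow_natCast]
      rw [inv_le_iff_one_le_mul₀ (by positivity)]
      exact h
    exact le_of_pow_le_pow_left₀ hm.ne' hy.le h2
  unfold sq at h1
  unfold cq
  rcases hq with h | h | h
  · subst h
    simp only [if_true] at h1 ⊢
    refine pcq_chord _ (3 / 4) s (by norm_num) h0 h1 ?_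
    exact key 2 1 _ _ (by norm_num) (by norm_num) (by norm_num) (by norm_num)
  · subst h
    norm_num at h1 ⊢
    have := pcq_chord (176 / 100) (1 / 3) s (by norm_num) h0 h1
      (key 44 75 _ _ (by norm_num) (by norm_num) (by norm_num) (by norm_num))
    norm_num at this
    exact this
  · rw [if_neg (by omega), if_neg (by omega)] at h1 ⊢
    exact pcq_chord _ (1 / 5) s (by norm_num) h0 h1
      (key 161 500 _ _ (by norm_num) (by norm_num) (by norm_num) (by
        rw [show (500 : ℕ) = 250 * 2 from rfl, pow_mul]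
        norm_num))

section

variable {K L Om : Type} [Field K] [Field L] [Field Om] [Algebra K L] [Algebra K Om]
  [Algebra L Om] [IsScalarTower K L Om] [Finite K] [Finite L]

theorem pcq_pc [IsAlgClosed Om] (hqq : QOK (Nat.card K)) (S : Finset (ℕ × Om)) (hS : ∀ e ∈ S, Ev K L e.1 e.2)
    (hcl : ∀ e ∈ S, (e.1, e.2 ^ (Nat.card K ^ e.1)) ∈ S) :
    (Nat.card L : ℝ) * (2 : ℝ) ^ (-(cq (Nat.card K) *
        ∑ e ∈ S, (e.1 : ℝ) / (per K e.2 : ℝ) / (Nat.card K : ℝ) ^ (per K e.2))) ≤
      Nat.card {x : L // ∀ e ∈ S, Res K e.1 e.2 x ≠ 0} := by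
  classical
  have hfin : Module.Finite K L := inferInstance
  have hn : 0 < deg K L := Module.finrank_pos
  set P : K[X] := X ^ (deg K L) - 1 with hPdef
  have hP0 : P ≠ 0 := by
    have := (monic_X_pow_sub_C (1 : K) hn.ne').ne_zero
    simpa [hPdef] using this
  set 𝓕 := (UniqueFactorizationMonoid.normalizedFactors P).toFinset with h𝓕
  let F : Fin 𝓕.card → K[X] := fun i => (𝓕.equivFin.symm i : K[X])
  have hFmem : ∀ i, F i ∈ UniqueFactorizationMonoid.normalizedFactors P := fun i =>
    Multiset.mem_toFinset.1 (𝓕.equivFin.symm i).2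
  have hFirr : ∀ i, Irreducible (F i) := fun i =>
    UniqueFactorizationMonoid.irreducible_of_normalized_factor _ (hFmem i)
  have hFdvd : ∀ i, F i ∣ P := fun i =>
    UniqueFactorizationMonoid.dvd_of_mem_normalizedFactors (hFmem i)
  have hiso := fun i => iso (Om := Om) (F i) (hFirr i) (hFdvd i)
  choose U hUst hU using hiso
  -- basic facts about events
  have hev1 : ∀ e ∈ S, 0 < e.1 := fun e he => Nat.pos_of_dvd_of_pos (hS e he).1 hn
  have hevd : ∀ e ∈ S, 0 < deg K L / e.1 := fun e he =>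
    Nat.div_pos (Nat.le_of_dvd hn (hS e he).1) (hev1 e he)
  have hper : ∀ e ∈ S, 0 < per K e.2 := fun e he => per_pos _ (hevd e he) e.2 (hS e he).2.1
  have hz0 : ∀ e ∈ S, e.2 ≠ 0 := by
    intro e he h0
    have := (hS e he).2.1
    rw [h0, zero_pow (hevd e he).ne'] at this
    exact zero_ne_one this
  -- touched set
  let tch : (ℕ × Om) → Finset (Fin 𝓕.card) := fun e =>
    univ.filter (fun i => ∃ w : Om, aeval w (F i) = 0 ∧ w ^ e.1 * e.2 = 1)
  have htch : ∀ e ∈ S, (tch e).Nonempty := by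
    intro e he
    obtain ⟨w, hw⟩ := IsAlgClosed.exists_pow_nat_eq (e.2)⁻¹ (hev1 e he)
    have hwn : aeval w P = 0 := by
      have h1 : w ^ deg K L = 1 := by
        conv_lhs => rw [← Nat.mul_div_cancel' (hS e he).1]
        rw [pow_mul, hw, inv_pow, (hS e he).2.1, inv_one]
      simp [hPdef, h1]
    have hint : IsIntegral K w := by
      refine ⟨P, ?_, ?_⟩
      · simpa [hPdef] using monic_X_pow_sub_C (1 : K) hn.ne'
      · exact hwn
    obtain ⟨g, hg, hass⟩ := UniqueFactorizationMonoid.exists_mem_normalizedFactors_of_dvd hP0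
      (minpoly.irreducible hint) (minpoly.dvd K w hwn)
    have hg0 : aeval w g = 0 := by
      obtain ⟨c, hc⟩ := hass.dvd
      rw [hc, map_mul, minpoly.aeval, zero_mul]
    have hgF : g ∈ 𝓕 := Multiset.mem_toFinset.2 hg
    refine ⟨𝓕.equivFin ⟨g, hgF⟩, ?_⟩
    simp only [tch, mem_filter, mem_univ, true_and, F, Equiv.symm_apply_apply]
    refine ⟨w, hg0, ?_⟩
    rw [hw, inv_mul_cancel₀ (hz0 e he)]
  let idx : {e // e ∈ S} → Fin 𝓕.card := fun e => (tch e.1).max' (htch e.1 e.2)
  let R : {e // e ∈ S} → L →+ Om := fun e => (Res K e.1.1 e.1.2).toAddMonoidHom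
  let w : {e // e ∈ S} → ℝ := fun e => (e.1.1 : ℝ) / (per K e.1.2 : ℝ)
  let s : {e // e ∈ S} → ℝ := fun e => (Nat.card K : ℝ) ^ (per K e.1.2)
  have hidx : ∀ e : {e // e ∈ S}, ∃ w : Om, aeval w (F (idx e)) = 0 ∧ w ^ e.1.1 * e.1.2 = 1 := by
    intro e
    have := (tch e.1).max'_mem (htch e.1 e.2)
    exact (mem_filter.1 this).2
  have hSi : ∀ i, ∑ e ∈ (univ : Finset {e // e ∈ S}) with idx e = i, w e / s e ≤
      sq (Nat.card K) := by
    intro i
    have h1 := sumq (L := L) hqq (F i) (hFirr i) (hFdvd i)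
      ((univ.filter (fun e : {e // e ∈ S} => idx e = i)).image Subtype.val) (by
        intro e he
        obtain ⟨e', he', rfl⟩ := mem_image.1 he
        have h2 := (mem_filter.1 he').2
        refine ⟨hS _ e'.2, ?_⟩
        have h3 := hidx e'
        rw [h2] at h3
        exact h3)
    rw [sum_image (fun a _ b _ h => Subtype.ext h)] at h1
    exact h1
  have hmain := tri (univ : Finset {e // e ∈ S}) R (fun i => (U i).toAddSubgroup) idx w s
    (fun e _ => by positivity)
    (by
      intro e _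
      have h1 := size e.1.1 e.1.2 (hS _ e.2) (U (idx e)) (hUst _)
        (((hU (idx e)) e.1.1 e.1.2 (hS _ e.2).1 (hS _ e.2).2.1).1 (hidx e))
      have h2 : Nat.card ((U (idx e)).toAddSubgroup.map (R e)) =
          Nat.card ((U (idx e)).map (Res K e.1.1 e.1.2)) := by
        apply Nat.card_congr
        exact Equiv.setCongr (by ext x; simp [R])
      rw [h2, h1]
      push_cast
      rfl)
    (by
      intro e _ j hj u hu
      have hnt : ¬ ∃ w : Om, aeval w (F j) = 0 ∧ w ^ e.1.1 * e.1.2 = 1 := by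
        intro hcon
        have : j ∈ tch e.1 := mem_filter.2 ⟨mem_univ _, hcon⟩
        exact absurd ((tch e.1).le_max' j this) (not_le.2 hj)
      exact ((hU j) e.1.1 e.1.2 (hS _ e.2).1 (hS _ e.2).2.1).2 hnt u hu)
    (by
      intro e _ v hv
      obtain ⟨⟨d, z⟩, heS⟩ := e
      have hEv := hS _ heS
      simp only at hEv
      have hpz := hper _ heS
      simp only at hpz
      have hd0 := hev1 _ heS
      simp only at hd0
      obtain ⟨a, ha⟩ := hEv.2.2
      have ha0 : 0 < a := by
        rcases Nat.eq_zero_or_pos a with h | h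
        · rw [h, mul_zero] at ha; omega
        · exact h
      -- the orbit
      have horb : ∀ j : ℕ, (d, z ^ (Nat.card K ^ (d * j))) ∈ S ∧
          Res K d (z ^ (Nat.card K ^ (d * j))) v = 0 := by
        intro j
        induction j with
        | zero => simpa using ⟨heS, hv⟩
        | succ j ih =>
          have h1 := hcl _ ih.1
          simp only at h1
          have h2 := (ev_orbit (L := L) d _ (hS _ ih.1)).2.2 v
          have h3 : (z ^ (Nat.card K ^ (d * j))) ^ (Nat.card K ^ d) =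
              z ^ (Nat.card K ^ (d * (j + 1))) := by
            rw [← pow_mul, ← pow_add, mul_add, mul_one]
          rw [h3] at h1 h2
          exact ⟨h1, h2.2 ih.2⟩
      have hperj : ∀ j : ℕ, per K (z ^ (Nat.card K ^ (d * j))) = per K z := by
        intro j
        induction j with
        | zero => simp
        | succ j ih =>
          have h2 := (ev_orbit (L := L) d _ (hS _ (horb j).1)).2.1
          have h3 : (z ^ (Nat.card K ^ (d * j))) ^ (Nat.card K ^ d) =
              z ^ (Nat.card K ^ (d * (j + 1))) := by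
            rw [← pow_mul, ← pow_add, mul_add, mul_one]
          simp only at h2
          rw [h3, ih] at h2
          exact h2
      let g : ℕ → {e // e ∈ S} := fun j => ⟨(d, z ^ (Nat.card K ^ (d * j))), (horb j).1⟩
      have hginj : Set.InjOn g (range a) := by
        intro i hi j hj hij
        have h1 : z ^ (Nat.card K ^ (d * i)) = z ^ (Nat.card K ^ (d * j)) := by
          have := congrArg (fun e => e.1.2) hij
          exact this
        have hi' : i < a := by simpa using hi
        have hj' : j < a := by simpa using hj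
        clear hij
        -- minimal period argument
        have h2 : (fun y : Om => y ^ Nat.card K)^[d * i] z = (fun y : Om => y ^ Nat.card K)^[d * j] z := by
          have hit : ∀ k, (fun y : Om => y ^ Nat.card K)^[k] z = z ^ (Nat.card K ^ k) := by
            intro k
            induction k with
            | zero => simp
            | succ k ih => rw [Function.iterate_succ_apply', ih, ← pow_mul, ← pow_succ]
          rw [hit, hit, h1]
        have h3 := (Function.iterate_eq_iterate_iff_of_lt_minimalPeriod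
          (f := fun y : Om => y ^ Nat.card K) (x := z) (m := d * i) (n := d * j)
          (by change d * i < per K z; rw [ha]; exact Nat.mul_lt_mul_of_pos_left hi' hd0)
          (by change d * j < per K z; rw [ha]; exact Nat.mul_lt_mul_of_pos_left hj' hd0)).1 h2
        exact Nat.eq_of_mul_eq_mul_left hd0 h3
      have hgidx : ∀ j, idx (g j) = idx ⟨(d, z), heS⟩ := by
        intro j
        have : tch (g j).1 = tch (d, z) := by
          ext i
          simp only [tch, mem_filter, mem_univ, true_and, g]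
          exact pc_touch_iff (F i) z d (d * j) hpz
        simp only [idx]
        congr 1
      calc (1 : ℝ) = ∑ j ∈ range a, (d : ℝ) / (per K z : ℝ) := by
            rw [sum_const, card_range, nsmul_eq_mul, ha]
            push_cast
            have : (d : ℝ) ≠ 0 := by exact_mod_cast hd0.ne'
            have : (a : ℝ) ≠ 0 := by exact_mod_cast ha0.ne'
            field_simp
        _ = ∑ e' ∈ (range a).image g, w e' := by
            rw [sum_image hginj]
            refine sum_congr rfl fun j _ => ?_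
            simp only [w, g, hperj j]
        _ ≤ _ := by
            apply sum_le_sum_of_subset_of_nonneg
            · intro e' he'
              obtain ⟨j, -, rfl⟩ := mem_image.1 he'
              refine mem_filter.2 ⟨mem_univ _, hgidx j, ?_⟩
              exact (horb j).2
            · intro e' _ _
              positivity)
    (fun i => (hSi i).trans (pcq_sq1 _))
  -- lower bound for the product
  have hsum : ∑ e ∈ S, (e.1 : ℝ) / (per K e.2 : ℝ) / (Nat.card K : ℝ) ^ (per K e.2) =
      ∑ i, ∑ e ∈ (univ : Finset {e // e ∈ S}) with idx e = i, w e / s e := by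
    rw [sum_fiberwise]
    rw [← sum_coe_sort S]
  have hprod : (2 : ℝ) ^ (-(cq (Nat.card K) *
        ∑ e ∈ S, (e.1 : ℝ) / (per K e.2 : ℝ) / (Nat.card K : ℝ) ^ (per K e.2))) ≤
      ∏ i, (1 - ∑ e ∈ (univ : Finset {e // e ∈ S}) with idx e = i, w e / s e) := by
    rw [hsum, mul_sum, ← sum_neg_distrib, Real.rpow_sum_of_pos (by norm_num : (0 : ℝ) < 2)]
    refine prod_le_prod (fun i _ => (Real.rpow_pos_of_pos (by norm_num) _).le) fun i _ => ?_
    refine pcq_pow _ hqq _ (sum_nonneg fun e _ => ?_) (hSi i)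
    positivity
  calc (Nat.card L : ℝ) * (2 : ℝ) ^ (-(cq (Nat.card K) *
        ∑ e ∈ S, (e.1 : ℝ) / (per K e.2 : ℝ) / (Nat.card K : ℝ) ^ (per K e.2)))
      ≤ (Nat.card L : ℝ) *
        ∏ i, (1 - ∑ e ∈ (univ : Finset {e // e ∈ S}) with idx e = i, w e / s e) :=
        mul_le_mul_of_nonneg_left hprod (Nat.cast_nonneg _)
    _ = _ := mul_comm _ _
    _ ≤ _ := hmain
    _ = _ := by
        congr 1
        apply Nat.card_congr
        refine Equiv.subtypeEquivRight fun x => ?_
        constructor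
        · intro h e he
          exact h ⟨e, he⟩ (mem_univ _)
        · intro h e _
          exact h e.1 e.2

theorem pcq [IsAlgClosed Om] (hq : QOK (Nat.card K)) (T : ℕ) :
    (Nat.card L : ℝ) * (2 : ℝ) ^ (-(cq (Nat.card K) * EN K L Om T)) ≤
      Nat.card {x : L // ∀ (d : ℕ) (z : Om), Ev K L d z → per K z ≤ T → Res K d z x ≠ 0} := by
  classical
  have hfin : Module.Finite K L := inferInstance
  have hn : 0 < deg K L := Module.finrank_pos
  let S0 : Finset (Σ _ : ℕ, Σ _ : ℕ, Om) :=
    (Icc 1 T).sigma fun t => t.divisors.sigma fun d => Zs K L Om d t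
  let g : (Σ _ : ℕ, Σ _ : ℕ, Om) → ℕ × Om := fun e => (e.2.1, e.2.2)
  have hmem0 : ∀ e ∈ S0, 1 ≤ e.1 ∧ e.1 ≤ T ∧ Ev K L e.2.1 e.2.2 ∧ per K e.2.2 = e.1 := by
    intro e he
    obtain ⟨h1, h2⟩ := mem_sigma.1 he
    obtain ⟨h3, h4⟩ := mem_sigma.1 h2
    have h5 := (mem_Zs e.2.1 e.1 e.2.2).1 h4
    have h6 := mem_Icc.1 h1
    exact ⟨h6.1, h6.2, h5.1, h5.2⟩
  have hginj : Set.InjOn g S0 := by
    rintro ⟨t, d, z⟩ ha ⟨t', d', z'⟩ hb hab
    have h1 := (hmem0 _ ha).2.2.2
    have h2 := (hmem0 _ hb).2.2.2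
    simp only [g, Prod.mk.injEq] at hab
    obtain ⟨rfl, rfl⟩ := hab
    simp only at h1 h2
    rw [h1] at h2
    subst h2
    rfl
  let S : Finset (ℕ × Om) := S0.image g
  have hmemS : ∀ e : ℕ × Om, e ∈ S ↔ Ev K L e.1 e.2 ∧ per K e.2 ≤ T := by
    intro e
    constructor
    · intro he
      obtain ⟨e', he', rfl⟩ := mem_image.1 he
      have := hmem0 _ he'
      refine ⟨this.2.2.1, ?_⟩
      change per K e'.2.2 ≤ T
      rw [this.2.2.2]
      exact this.2.1
    · rintro ⟨h1, h2⟩
      have hd : 0 < deg K L / e.1 :=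
        Nat.div_pos (Nat.le_of_dvd hn h1.1) (Nat.pos_of_dvd_of_pos h1.1 hn)
      have hp := per_pos (K := K) _ hd e.2 h1.2.1
      refine mem_image.2 ⟨⟨per K e.2, e.1, e.2⟩, ?_, rfl⟩
      refine mem_sigma.2 ⟨mem_Icc.2 ⟨hp, h2⟩, mem_sigma.2 ⟨?_, ?_⟩⟩
      · exact Nat.mem_divisors.2 ⟨h1.2.2, hp.ne'⟩
      · exact (mem_Zs _ _ _).2 ⟨h1, rfl⟩
  have h := pcq_pc (L := L) hq S (fun e he => ((hmemS e).1 he).1) (by
    intro e he
    have h1 := (hmemS e).1 he
    have h2 := ev_orbit (L := L) e.1 e.2 h1.1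
    refine (hmemS _).2 ⟨h2.1, ?_⟩
    change per K (e.2 ^ (Nat.card K ^ e.1)) ≤ T
    rw [h2.2.1]
    exact h1.2)
  have hsum : ∑ e ∈ S, (e.1 : ℝ) / (per K e.2 : ℝ) / (Nat.card K : ℝ) ^ (per K e.2) =
      EN K L Om T := by
    rw [sum_image hginj, sum_sigma]
    unfold EN ST
    refine sum_congr rfl fun t ht => ?_
    rw [sum_sigma, Nat.cast_sum, sum_div, sum_div]
    refine sum_congr rfl fun d hd => ?_
    have : ∀ z ∈ Zs K L Om d t, ((g ⟨t, d, z⟩).1 : ℝ) / (per K (g ⟨t, d, z⟩).2 : ℝ) /
        (Nat.card K : ℝ) ^ (per K (g ⟨t, d, z⟩).2) = (d : ℝ) / t / (Nat.card K : ℝ) ^ t := by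
      intro z hz
      have h1 := ((mem_Zs d t z).1 hz).2
      simp only [g, h1]
    rw [sum_congr rfl this, sum_const, nsmul_eq_mul]
    push_cast
    ring
  rw [hsum] at h
  refine h.trans (le_of_eq ?_)
  congr 1
  apply Nat.card_congr
  refine Equiv.subtypeEquivRight fun x => ?_
  constructor
  · intro h d z h1 h2
    exact h (d, z) ((hmemS _).2 ⟨h1, h2⟩)
  · intro h e he
    have := (hmemS e).1 he
    exact h e.1 e.2 this.1 this.2

end

end Pool.Agent.MM2
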