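import Mathlib
import Pool.Agent.MM.TRI
import Pool.Agent.MM2.Defs

/-!
One step of the triangular lemma.
-/

namespace Pool.Agent.MM2

open Finset Polynomial Pool.Agent.MM

open scoped Classical in
/-- one step of the triangular lemma, relative to an invariant set `G` -/
theorem tri2 {V A E : Type} [AddCommGroup V] [Fintype V] [AddCommGroup A]
    (S : Finset E) (R : E → V →+ A) (U : AddSubgroup V) (G : Finset V)
    (hG : ∀ v ∈ G, ∀ u ∈ U, v + u ∈ G) (w s : E → ℝ) (hw : ∀ e ∈ S, 0 ≤ w e)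
    (hs : ∀ e ∈ S, (Nat.card (U.map (R e)) : ℝ) = s e)
    (hmult : ∀ e ∈ S, ∀ v, R e v = 0 → 1 ≤ ∑ e' ∈ S with R e' v = 0, w e') :
    (1 - ∑ e ∈ S, w e / s e) * (G.card : ℝ) ≤
      ((G.filter (fun v => ∀ e ∈ S, R e v ≠ 0)).card : ℝ) := by
  have hspos : ∀ e ∈ S, 0 < s e := by
    intro e he
    rw [← hs e he]
    have hfin : Finite (U.map (R e)) :=
      Set.Finite.to_subtype ((Set.toFinite (U : Set V)).image (R e))
    exact_mod_cast Nat.card_pos
  let Bd : Finset V := G.filter (fun v => ∃ e ∈ S, R e v = 0)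
  have hsub : G \ Bd ⊆ G.filter (fun v => ∀ e ∈ S, R e v ≠ 0) := by
    intro v hv
    obtain ⟨h2, h3⟩ := mem_sdiff.1 hv
    refine mem_filter.2 ⟨h2, ?_⟩
    intro e he h0
    exact h3 (mem_filter.2 ⟨h2, e, he, h0⟩)
  have hcard : (G.card : ℝ) - (Bd.card : ℝ) ≤
      ((G.filter (fun v => ∀ e ∈ S, R e v ≠ 0)).card : ℝ) := by
    have h2 := card_le_card hsub
    have h3 : (G \ Bd).card = G.card - Bd.card :=
      card_sdiff_of_subset (filter_subset _ _)
    have h4 : Bd.card ≤ G.card := card_le_card (filter_subset _ _)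
    have h5 : ((G \ Bd).card : ℝ) = G.card - Bd.card := by
      rw [h3, Nat.cast_sub h4]
    rw [← h5]
    exact_mod_cast h2
  have hbad : (Bd.card : ℝ) ≤ ∑ e ∈ S, w e * ((G.filter (fun v => R e v = 0)).card : ℝ) := by
    calc (Bd.card : ℝ) = ∑ v ∈ Bd, (1 : ℝ) := by simp
      _ ≤ ∑ v ∈ Bd, ∑ e ∈ S with R e v = 0, w e := by
          refine sum_le_sum fun v hv => ?_
          obtain ⟨e, he, he0⟩ := (mem_filter.1 hv).2
          exact hmult e he v he0
      _ ≤ ∑ v ∈ G, ∑ e ∈ S with R e v = 0, w e := by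
          apply sum_le_sum_of_subset_of_nonneg (filter_subset _ _)
          intro v _ _
          exact sum_nonneg fun e he => hw e (mem_filter.1 he).1
      _ = ∑ v ∈ G, ∑ e ∈ S, if R e v = 0 then w e else 0 := by
          refine sum_congr rfl fun v _ => ?_
          rw [← sum_filter]
      _ = ∑ e ∈ S, ∑ v ∈ G, if R e v = 0 then w e else 0 := sum_comm
      _ = _ := by
          refine sum_congr rfl fun e _ => ?_
          rw [← sum_filter, sum_const, nsmul_eq_mul, mul_comm]
  have hbad2 : ∑ e ∈ S, w e * ((G.filter (fun v => R e v = 0)).card : ℝ) ≤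
      (∑ e ∈ S, w e / s e) * (G.card : ℝ) := by
    rw [sum_mul]
    refine sum_le_sum fun e he => ?_
    have h2 := tri_step (R e) U G hG (G.filter (fun v => R e v = 0))
      (fun v hv => mem_filter.1 hv)
    have h3 : ((G.filter (fun v => R e v = 0)).card : ℝ) * s e ≤ (G.card : ℝ) := by
      rw [← hs e he]
      exact_mod_cast h2
    have h4 : ((G.filter (fun v => R e v = 0)).card : ℝ) ≤ (G.card : ℝ) / s e :=
      (le_div_iff₀ (hspos e he)).2 h3
    calc w e * ((G.filter (fun v => R e v = 0)).card : ℝ)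
        ≤ w e * ((G.card : ℝ) / s e) := mul_le_mul_of_nonneg_left h4 (hw e he)
      _ = _ := by ring
  nlinarith [hcard, hbad, hbad2]

end Pool.Agent.MM2
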