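import Mathlib
import Pool.Agent.MM.PER
import Pool.Agent.MM.ISO
import Pool.Agent.MM.SIZE
import Pool.Agent.MM.TRI
import Pool.Agent.MM.PC
import Pool.Agent.MM2.Defs
import Pool.Agent.MM2.SUMQ
import Pool.Agent.MM2.TRI2

/-!
A tail kernel meets the core set in at most the expected number of elements times lq.
-/

namespace Pool.Agent.MM2

open Finset Polynomial Pool.Agent.MM

section

variable {K L Om : Type} [Field K] [Field L] [Field Om] [Algebra K L] [Algebra K Om]
  [Algebra L Om] [IsScalarTower K L Om] [Finite K] [Finite L]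

/-- an irreducible factor touched by the event -/
theorem tailq_factor [IsAlgClosed Om] (d0 : ℕ) (z0 : Om) (he0 : Ev K L d0 z0) :
    ∃ f : K[X], Irreducible f ∧ f ∣ X ^ (deg K L) - 1 ∧
      ∃ w : Om, aeval w f = 0 ∧ w ^ d0 * z0 = 1 := by
  have hfin : Module.Finite K L := inferInstance
  have hn : 0 < deg K L := Module.finrank_pos
  have hd0 : 0 < d0 := Nat.pos_of_dvd_of_pos he0.1 hn
  have hdd : 0 < deg K L / d0 := Nat.div_pos (Nat.le_of_dvd hn he0.1) hd0
  have hz0 : z0 ≠ 0 := by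
    intro h0
    have := he0.2.1
    rw [h0, zero_pow hdd.ne'] at this
    exact zero_ne_one this
  obtain ⟨w, hw⟩ := IsAlgClosed.exists_pow_nat_eq (z0)⁻¹ hd0
  have hwn : aeval w (X ^ (deg K L) - 1 : K[X]) = 0 := by
    have h1 : w ^ deg K L = 1 := by
      conv_lhs => rw [← Nat.mul_div_cancel' he0.1]
      rw [pow_mul, hw, inv_pow, he0.2.1, inv_one]
    simp [h1]
  have hint : IsIntegral K w := by
    refine ⟨X ^ (deg K L) - 1, ?_, ?_⟩
    · simpa using monic_X_pow_sub_C (1 : K) hn.ne'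
    · exact hwn
  refine ⟨minpoly K w, minpoly.irreducible hint, minpoly.dvd K w hwn, w, minpoly.aeval K w, ?_⟩
  rw [hw, inv_mul_cancel₀ hz0]

/-- multiplicity of the kernels in an orbit -/
theorem tailq_mult (S : Finset (ℕ × Om)) (hS : ∀ e ∈ S, Ev K L e.1 e.2)
    (hcl : ∀ e ∈ S, (e.1, e.2 ^ (Nat.card K ^ e.1)) ∈ S) (e : ℕ × Om) (heS : e ∈ S) (v : L)
    (hv : Res K e.1 e.2 v = 0) (S' : Finset (ℕ × Om))
    (hS' : ∀ e' ∈ S, Res K e'.1 e'.2 v = 0 → e' ∈ S') :
    (1 : ℝ) ≤ ∑ e' ∈ S', (e'.1 : ℝ) / (per K e'.2 : ℝ) := by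
  classical
  obtain ⟨d, z⟩ := e
  have hEv := hS _ heS
  simp only at hEv hv
  obtain ⟨hd0, -, hpz⟩ := size_facts d z hEv
  obtain ⟨a, ha⟩ := hEv.2.2
  have ha0 : 0 < a := by
    rcases Nat.eq_zero_or_pos a with h | h
    · rw [h, mul_zero] at ha; omega
    · exact h
  -- the orbit
  have horb : ∀ j : ℕ, (d, z ^ (Nat.card K ^ (d * j))) ∈ S ∧
      Res K d (z ^ (Nat.card K ^ (d * j))) v = 0 := by
    intro j
    induction j with
    | zero => simpa using ⟨heS, hv⟩
    | succ j ih =>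
      have h1 := hcl _ ih.1
      simp only at h1
      have h2 := (ev_orbit (L := L) d _ (hS _ ih.1)).2.2 v
      have h3 : (z ^ (Nat.card K ^ (d * j))) ^ (Nat.card K ^ d) =
          z ^ (Nat.card K ^ (d * (j + 1))) := by
        rw [← pow_mul, ← pow_add, mul_add, mul_one]
      rw [h3] at h1 h2
      exact ⟨h1, h2.2 ih.2⟩
  have hperj : ∀ j : ℕ, per K (z ^ (Nat.card K ^ (d * j))) = per K z := by
    intro j
    induction j with
    | zero => simp
    | succ j ih =>
      have h2 := (ev_orbit (L := L) d _ (hS _ (horb j).1)).2.1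
      have h3 : (z ^ (Nat.card K ^ (d * j))) ^ (Nat.card K ^ d) =
          z ^ (Nat.card K ^ (d * (j + 1))) := by
        rw [← pow_mul, ← pow_add, mul_add, mul_one]
      simp only at h2
      rw [h3, ih] at h2
      exact h2
  let g : ℕ → ℕ × Om := fun j => (d, z ^ (Nat.card K ^ (d * j)))
  have hginj : Set.InjOn g (range a) := by
    intro i hi j hj hij
    have h1 : z ^ (Nat.card K ^ (d * i)) = z ^ (Nat.card K ^ (d * j)) := by
      have := congrArg (fun e : ℕ × Om => e.2) hij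
      exact this
    have hi' : i < a := by simpa using hi
    have hj' : j < a := by simpa using hj
    clear hij
    -- minimal period argument
    have h2 : (fun y : Om => y ^ Nat.card K)^[d * i] z =
        (fun y : Om => y ^ Nat.card K)^[d * j] z := by
      rw [per_iterate, per_iterate, h1]
    have h3 := (Function.iterate_eq_iterate_iff_of_lt_minimalPeriod
      (f := fun y : Om => y ^ Nat.card K) (x := z) (m := d * i) (n := d * j)
      (by change d * i < per K z; rw [ha]; exact Nat.mul_lt_mul_of_pos_left hi' hd0)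
      (by change d * j < per K z; rw [ha]; exact Nat.mul_lt_mul_of_pos_left hj' hd0)).1 h2
    exact Nat.eq_of_mul_eq_mul_left hd0 h3
  calc (1 : ℝ) = ∑ j ∈ range a, (d : ℝ) / (per K z : ℝ) := by
        rw [sum_const, card_range, nsmul_eq_mul, ha]
        push_cast
        have : (d : ℝ) ≠ 0 := by exact_mod_cast hd0.ne'
        have : (a : ℝ) ≠ 0 := by exact_mod_cast ha0.ne'
        field_simp
    _ = ∑ e' ∈ (range a).image g, (e'.1 : ℝ) / (per K e'.2 : ℝ) := by
        rw [sum_image hginj]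
        refine sum_congr rfl fun j _ => ?_
        simp only [g, hperj j]
    _ ≤ _ := by
        apply sum_le_sum_of_subset_of_nonneg
        · intro e' he'
          obtain ⟨j, -, rfl⟩ := mem_image.1 he'
          exact hS' _ (horb j).1 (horb j).2
        · intro e' _ _
          positivity

theorem tailq_card_map (U : Submodule K L) (d : ℕ) (z : Om) (he : Ev K L d z)
    (hU : ∀ x ∈ U, x ^ (Nat.card K) ∈ U) (h : ∃ x ∈ U, Res K d z x ≠ 0) :
    Nat.card (U.toAddSubgroup.map (Res K (L := L) d z).toAddMonoidHom) =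
      Nat.card K ^ (per K z) := by
  rw [← size d z he U hU h]
  apply Nat.card_congr
  exact Equiv.setCongr (by ext x; simp)

theorem tailq_lq {q : ℕ} {g a s : ℝ} (hg : 0 ≤ g) (hs : s ≤ sq q) (h : (1 - s) * g ≤ a) :
    g ≤ lq q * a := by
  have h1 : (1 - sq q) * g ≤ a := by
    have : (1 - sq q) * g ≤ (1 - s) * g := mul_le_mul_of_nonneg_right (by linarith) hg
    linarith
  unfold sq at h1
  unfold lq
  split_ifs at h1 ⊢ <;> linarith

theorem tailq [IsAlgClosed Om] (hq : QOK (Nat.card K)) (T : ℕ) (d0 : ℕ) (z0 : Om)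
    (he0 : Ev K L d0 z0) :
    (Nat.card {x : L // (∀ (d : ℕ) (z : Om), Ev K L d z → per K z ≤ T → Res K d z x ≠ 0) ∧
        Res K d0 z0 x = 0} : ℝ) * (Nat.card K : ℝ) ^ (per K z0) ≤
      lq (Nat.card K) *
        Nat.card {x : L // ∀ (d : ℕ) (z : Om), Ev K L d z → per K z ≤ T → Res K d z x ≠ 0} := by
  classical
  have hfin : Module.Finite K L := inferInstance
  have hn : 0 < deg K L := Module.finrank_pos
  have hFL : Fintype L := Fintype.ofFinite L
  obtain ⟨f, hf, hfd, htf⟩ := tailq_factor d0 z0 he0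
  obtain ⟨U, hUst, hU⟩ := iso (Om := Om) f hf hfd
  let tch : ℕ × Om → Prop := fun e => ∃ w : Om, aeval w f = 0 ∧ w ^ e.1 * e.2 = 1
  let S : Finset (ℕ × Om) :=
    ((deg K L).divisors ×ˢ (nthRootsFinset (deg K L) (1 : Om))).filter
      (fun e => (Ev K L e.1 e.2 ∧ per K e.2 ≤ T) ∧ tch e)
  have hmemS : ∀ e : ℕ × Om, e ∈ S ↔ (Ev K L e.1 e.2 ∧ per K e.2 ≤ T) ∧ tch e := by
    intro e
    rw [mem_filter]
    refine ⟨fun h => h.2, fun h => ⟨?_, h⟩⟩
    rw [mem_product]
    refine ⟨Nat.mem_divisors.2 ⟨h.1.1.1, hn.ne'⟩, ?_⟩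
    rw [mem_nthRootsFinset hn]
    conv_lhs => rw [← Nat.div_mul_cancel h.1.1.1]
    rw [pow_mul, h.1.1.2.1, one_pow]
  let R : ℕ × Om → L →+ Om := fun e => (Res K e.1 e.2).toAddMonoidHom
  have hR : ∀ e x, R e x = Res K e.1 e.2 x := fun e x => rfl
  let G : Finset L := univ.filter (fun x => ∀ (d : ℕ) (z : Om), Ev K L d z → per K z ≤ T →
    (¬ tch (d, z)) → Res K d z x ≠ 0)
  have hG : ∀ v ∈ G, ∀ u ∈ U.toAddSubgroup, v + u ∈ G := by
    intro v hv u hu
    refine mem_filter.2 ⟨mem_univ _, ?_⟩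
    intro d z h1 h2 h3
    rw [map_add, ((hU d z h1.1 h1.2.1).2 h3 u hu), add_zero]
    exact (mem_filter.1 hv).2 d z h1 h2 h3
  have hsize : ∀ e ∈ S, (Nat.card (U.toAddSubgroup.map (R e)) : ℝ) =
      (Nat.card K : ℝ) ^ (per K e.2) := by
    intro e he
    obtain ⟨⟨h1, -⟩, h3⟩ := (hmemS e).1 he
    have h4 := tailq_card_map U e.1 e.2 h1 hUst ((hU e.1 e.2 h1.1 h1.2.1).1 h3)
    change ((Nat.card (U.toAddSubgroup.map (Res K (L := L) e.1 e.2).toAddMonoidHom) : ℕ) : ℝ) = _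
    rw [h4]
    push_cast
    rfl
  have hcl : ∀ e ∈ S, (e.1, e.2 ^ (Nat.card K ^ e.1)) ∈ S := by
    intro e he
    obtain ⟨⟨h1, h2⟩, h3⟩ := (hmemS e).1 he
    obtain ⟨-, -, hp⟩ := size_facts e.1 e.2 h1
    have h4 := ev_orbit (L := L) e.1 e.2 h1
    refine (hmemS _).2 ⟨⟨h4.1, ?_⟩, ?_⟩
    · change per K (e.2 ^ (Nat.card K ^ e.1)) ≤ T
      rw [h4.2.1]
      exact h2
    · exact (pc_touch_iff f e.2 e.1 e.1 hp).2 h3
  have hmain := tri2 S R U.toAddSubgroup G hG
    (fun e => (e.1 : ℝ) / (per K e.2 : ℝ)) (fun e => (Nat.card K : ℝ) ^ (per K e.2))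
    (fun e _ => by positivity) hsize
    (by
      intro e he v hv
      exact tailq_mult S (fun e he => ((hmemS e).1 he).1.1) hcl e he v hv _
        (fun e' he' hv' => mem_filter.2 ⟨he', hv'⟩))
  have hsum := sumq (L := L) hq f hf hfd S (fun e he => by
    obtain ⟨⟨h1, -⟩, h3⟩ := (hmemS e).1 he
    exact ⟨h1, h3⟩)
  have hGA := tailq_lq (Nat.cast_nonneg G.card) hsum hmain
  have hA : (G.filter (fun v => ∀ e ∈ S, R e v ≠ 0)).card =
      Nat.card {x : L // ∀ (d : ℕ) (z : Om), Ev K L d z → per K z ≤ T → Res K d z x ≠ 0} := by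
    rw [Nat.card_eq_fintype_card, Fintype.card_subtype]
    congr 1
    ext x
    rw [mem_filter, mem_filter, mem_filter]
    constructor
    · rintro ⟨⟨-, h1⟩, h2⟩
      refine ⟨mem_univ _, fun d z h3 h4 => ?_⟩
      by_cases h5 : tch (d, z)
      · exact h2 (d, z) ((hmemS _).2 ⟨⟨h3, h4⟩, h5⟩)
      · exact h1 d z h3 h4 h5
    · rintro ⟨-, h1⟩
      refine ⟨⟨mem_univ _, fun d z h3 h4 _ => h1 d z h3 h4⟩, fun e he => ?_⟩
      obtain ⟨⟨h3, h4⟩, -⟩ := (hmemS e).1 he
      exact h1 e.1 e.2 h3 h4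
  rw [hA] at hGA
  refine le_trans ?_ hGA
  -- the kernel of the event
  have hstep := tri_step (Res K (L := L) d0 z0).toAddMonoidHom U.toAddSubgroup G hG
    (G.filter (fun v => Res K d0 z0 v = 0)) (fun v hv => mem_filter.1 hv)
  rw [tailq_card_map U d0 z0 he0 hUst ((hU d0 z0 he0.1 he0.2.1).1 htf)] at hstep
  have hle : Nat.card {x : L // (∀ (d : ℕ) (z : Om), Ev K L d z → per K z ≤ T →
      Res K d z x ≠ 0) ∧ Res K d0 z0 x = 0} ≤ (G.filter (fun v => Res K d0 z0 v = 0)).card := by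
    rw [Nat.card_eq_fintype_card, Fintype.card_subtype]
    apply card_le_card
    intro x hx
    obtain ⟨-, h1, h2⟩ := mem_filter.1 hx
    exact mem_filter.2 ⟨mem_filter.2 ⟨mem_univ _, fun d z h3 h4 _ => h1 d z h3 h4⟩, h2⟩
  have h5 : (Nat.card {x : L // (∀ (d : ℕ) (z : Om), Ev K L d z → per K z ≤ T →
      Res K d z x ≠ 0) ∧ Res K d0 z0 x = 0}) * Nat.card K ^ (per K z0) ≤ G.card :=
    (Nat.mul_le_mul_right _ hle).trans hstep
  exact_mod_cast h5

end

end Pool.Agent.MM2
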