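import Mathlib
import Pool.Agent.MM.PER
import Pool.Agent.MM.ZB
import Pool.Agent.MM2.Defs

/-!
Number of events of degree t.
-/

namespace Pool.Agent.MM2

open Finset Polynomial Pool.Agent.MM

section

variable {K L Om : Type} [Field K] [Field L] [Field Om] [Algebra K L] [Algebra K Om]
  [Algebra L Om] [IsScalarTower K L Om] [Finite K] [Finite L]

theorem zb2_cast_ne (K Om : Type) [Field K] [Field Om] [Algebra K Om] [Finite K] (u g : ℕ)
    (hu : 0 < u) (hg : g ∣ Nat.card K ^ u - 1) : (g : Om) ≠ 0 := by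
  classical
  have : Fintype K := Fintype.ofFinite K
  obtain ⟨p, hp⟩ := CharP.exists K
  have := hp
  have hpp : Fact p.Prime := ⟨CharP.char_is_prime K p⟩
  obtain ⟨m, -, hm⟩ := FiniteField.card K p
  have hOm : CharP Om p := charP_of_injective_algebraMap (algebraMap K Om).injective p
  intro h0
  have h1 : p ∣ g := (CharP.cast_eq_zero_iff Om p g).1 h0
  have h2 : p ∣ Nat.card K ^ u - 1 := h1.trans hg
  have h3 : p ∣ Nat.card K ^ u := by
    rw [Nat.card_eq_fintype_card, hm]
    exact dvd_pow (dvd_pow_self p m.ne_zero) hu.ne'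
  have h4 : 1 ≤ Nat.card K ^ u := Nat.one_le_pow _ _ Nat.card_pos
  have h5 : p ∣ 1 := by
    have := (Nat.dvd_sub h3 h2)
    have h6 : Nat.card K ^ u - (Nat.card K ^ u - 1) = 1 := by omega
    rwa [h6] at this
  exact hpp.out.one_lt.ne' (Nat.dvd_one.1 h5)

theorem zb2_card (Om : Type) [Field Om] [IsAlgClosed Om] (g : ℕ) (hg : (g : Om) ≠ 0) :
    (nthRootsFinset g (1 : Om)).card = g := by
  have hne : NeZero (g : Om) := ⟨hg⟩
  obtain ⟨z, hz⟩ := HasEnoughRootsOfUnity.exists_primitiveRoot Om g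
  exact hz.card_nthRootsFinset

theorem zb2_one [IsAlgClosed Om] (d t : ℕ) (ht : 0 < t) (hd : d ∣ deg K L) :
    (Zs K L Om d t).card ≤ (deg K L / d).gcd (Nat.card K ^ t - 1) -
      if t ≤ 1 then 0 else (deg K L / d).gcd (Nat.card K ^ (t / t.minFac) - 1) := by
  classical
  have hq : 2 ≤ Nat.card K := Finite.one_lt_card
  have hq1 : 1 < Nat.card K ^ t := Nat.one_lt_pow ht.ne' (by omega)
  have hg : 0 < (deg K L / d).gcd (Nat.card K ^ t - 1) := Nat.gcd_pos_of_pos_right _ (by omega)
  have hn0 : 0 < deg K L := by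
    unfold deg
    have : Module.Finite K L := Module.Finite.of_finite
    exact Module.finrank_pos
  have hnd : 0 < deg K L / d :=
    Nat.div_pos (Nat.le_of_dvd hn0 hd) (Nat.pos_of_dvd_of_pos hd hn0)
  have hsub : ∀ z ∈ Zs K L Om d t,
      z ∈ nthRootsFinset ((deg K L / d).gcd (Nat.card K ^ t - 1)) (1 : Om) := by
    intro z hz
    rw [mem_Zs] at hz
    obtain ⟨⟨-, hz1, -⟩, hper⟩ := hz
    have hz0 : z ≠ 0 := by
      intro h
      rw [h, zero_pow hnd.ne'] at hz1
      exact zero_ne_one hz1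
    have hzq : z ^ (Nat.card K ^ t) = z := (per_dvd_iff z t).mp (by rw [hper])
    have hzq1 : z ^ (Nat.card K ^ t - 1) = 1 := by
      have h1 : z ^ (Nat.card K ^ t - 1) * z = 1 * z := by
        rw [← pow_succ, Nat.sub_add_cancel hq1.le, hzq, one_mul]
      exact mul_right_cancel₀ hz0 h1
    rw [mem_nthRootsFinset hg]
    exact pow_gcd_eq_one.mpr ⟨hz1, hzq1⟩
  split_ifs with h1
  · rw [Nat.sub_zero]
    exact (card_le_card hsub).trans (zb_roots (Om := Om) _)
  · have ht1 : 1 < t := by omega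
    have hmf : t.minFac ∣ t := Nat.minFac_dvd t
    have hmp : t.minFac.Prime := Nat.minFac_prime (by omega)
    have hu : 0 < t / t.minFac := Nat.div_pos (Nat.le_of_dvd ht hmf) hmp.pos
    have hut : t / t.minFac < t := Nat.div_lt_self ht hmp.one_lt
    have hudvd : t / t.minFac ∣ t := Nat.div_dvd_of_dvd hmf
    have hqu1 : 1 < Nat.card K ^ (t / t.minFac) := Nat.one_lt_pow hu.ne' (by omega)
    have hgu : 0 < (deg K L / d).gcd (Nat.card K ^ (t / t.minFac) - 1) :=
      Nat.gcd_pos_of_pos_right _ (by omega)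
    have hgdvd : (deg K L / d).gcd (Nat.card K ^ (t / t.minFac) - 1) ∣
        (deg K L / d).gcd (Nat.card K ^ t - 1) :=
      Nat.gcd_dvd_gcd_of_dvd_right _ (Nat.pow_sub_one_dvd_pow_sub_one _ hudvd)
    have hcard : (nthRootsFinset ((deg K L / d).gcd (Nat.card K ^ (t / t.minFac) - 1))
        (1 : Om)).card = (deg K L / d).gcd (Nat.card K ^ (t / t.minFac) - 1) :=
      zb2_card Om _ (zb2_cast_ne K Om (t / t.minFac) _ hu (Nat.gcd_dvd_right _ _))
    have hsub2 : nthRootsFinset ((deg K L / d).gcd (Nat.card K ^ (t / t.minFac) - 1)) (1 : Om) ⊆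
        nthRootsFinset ((deg K L / d).gcd (Nat.card K ^ t - 1)) (1 : Om) := by
      intro z hz
      rw [mem_nthRootsFinset hgu] at hz
      rw [mem_nthRootsFinset hg]
      obtain ⟨c, hc⟩ := hgdvd
      rw [hc, pow_mul, hz, one_pow]
    have hsub3 : Zs K L Om d t ⊆
        nthRootsFinset ((deg K L / d).gcd (Nat.card K ^ t - 1)) (1 : Om) \
        nthRootsFinset ((deg K L / d).gcd (Nat.card K ^ (t / t.minFac) - 1)) (1 : Om) := by
      intro z hz
      rw [mem_sdiff]
      refine ⟨hsub z hz, fun hz2 => ?_⟩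
      rw [mem_nthRootsFinset hgu] at hz2
      have h3 := pow_gcd_eq_one.1 hz2
      have h4 : z ^ (Nat.card K ^ (t / t.minFac)) = z := by
        rw [← Nat.sub_add_cancel hqu1.le, pow_succ, h3.2, one_mul]
      have h5 := (per_dvd_iff (K := K) z (t / t.minFac)).2 h4
      rw [mem_Zs] at hz
      rw [hz.2] at h5
      exact absurd (Nat.le_of_dvd hu h5) (not_le.2 hut)
    refine (card_le_card hsub3).trans ?_
    rw [card_sdiff_of_subset hsub2, hcard]
    exact Nat.sub_le_sub_right (zb_roots (Om := Om) _) _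

theorem st_le [IsAlgClosed Om] (t : ℕ) (ht : 0 < t) :
    ST K L Om t ≤ SB (Nat.card K) (deg K L) t := by
  classical
  unfold ST SB
  refine sum_le_sum (fun d _ => ?_)
  split_ifs with hd h1
  · have h2 := zb2_one (K := K) (L := L) (Om := Om) d t ht hd
    rw [if_pos h1] at h2
    rw [mul_comm]
    exact Nat.mul_le_mul_left d h2
  · have h2 := zb2_one (K := K) (L := L) (Om := Om) d t ht hd
    rw [if_neg h1] at h2
    rw [mul_comm]
    exact Nat.mul_le_mul_left d h2
  · have h2 : Zs K L Om d t = ∅ := by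
      ext z
      constructor
      · intro hz
        rw [mem_Zs] at hz
        exact absurd hz.1.1 hd
      · intro hz
        exact absurd hz (notMem_empty z)
    rw [h2, card_empty, zero_mul]

end

end Pool.Agent.MM2
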