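import Mathlib
import Pool.Agent.MM.CNE
import Pool.Agent.MM.SIZE
import Pool.Agent.MM2.Defs
import Pool.Agent.MM2.PCQ
import Pool.Agent.MM2.TAILQ
import Pool.Agent.MM2.CRIT2
import Pool.Agent.MM2.KERN2
import Pool.Agent.MM2.ZB2

/-!
The arithmetic criterion.
-/

namespace Pool.Agent.MM2

open Finset Polynomial Pool.Agent.MM

theorem critn_cq (q : ℕ) : 0 < cq q := by
  unfold cq
  split_ifs <;> norm_num

theorem critn_lq (q : ℕ) : 1 ≤ lq q := by
  unfold lq
  split_ifs <;> norm_num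

/-- the numerical part -/
theorem critn_real {E Q c1 X Y lam TBr TSr sig e sumF k2 : ℝ} (hQ : 1 < Q)
    (hk2E : k2 ≤ E) (hE : 1 ≤ E) (hX : 0 ≤ X) (hXY : X ≤ Y)
    (hlam : 0 ≤ lam) (hc1 : Q * (2 : ℝ) ^ (-e) ≤ c1)
    (hTS : TSr ≤ TBr) (hF : sumF ≤ lam * c1 * TSr)
    (h : E * (1 + Y) * (2 : ℝ) ^ e ≤ √Q * (1 - sig - lam * TBr)) :
    k2 * √Q * X + 1 + sumF < (1 - sig) * c1 := by
  have hQ0 : 0 < Q := by linarith
  have hs : 0 < √Q := Real.sqrt_pos.2 hQ0
  have hs1 : 1 < √Q := by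
    rw [Real.lt_sqrt (by norm_num)]
    simpa using hQ
  have he : 0 < (2 : ℝ) ^ e := Real.rpow_pos_of_pos (by norm_num) _
  have he' : 0 < (2 : ℝ) ^ (-e) := Real.rpow_pos_of_pos (by norm_num) _
  have hee : (2 : ℝ) ^ e * (2 : ℝ) ^ (-e) = 1 := by
    rw [← Real.rpow_add (by norm_num), add_neg_cancel, Real.rpow_zero]
  have hY : 0 ≤ Y := hX.trans hXY
  have hpos : 0 < E * (1 + Y) * (2 : ℝ) ^ e := by positivity
  have hd : 0 < 1 - sig - lam * TBr := by
    by_contra hcon
    have h1 := mul_nonpos_of_nonneg_of_nonpos hs.le (not_lt.1 hcon)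
    linarith
  have hc0 : 0 < c1 := lt_of_lt_of_le (by positivity) hc1
  have h2 : E * (1 + Y) * √Q ≤ (1 - sig - lam * TBr) * c1 := by
    have h3 := mul_le_mul_of_nonneg_right h (by positivity : 0 ≤ √Q * (2 : ℝ) ^ (-e))
    have h4 : E * (1 + Y) * (2 : ℝ) ^ e * (√Q * (2 : ℝ) ^ (-e)) = E * (1 + Y) * √Q := by
      calc E * (1 + Y) * (2 : ℝ) ^ e * (√Q * (2 : ℝ) ^ (-e))
          = E * (1 + Y) * √Q * ((2 : ℝ) ^ e * (2 : ℝ) ^ (-e)) := by ring
        _ = _ := by rw [hee, mul_one]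
    have h5 : √Q * (1 - sig - lam * TBr) * (√Q * (2 : ℝ) ^ (-e)) =
        (1 - sig - lam * TBr) * (Q * (2 : ℝ) ^ (-e)) := by
      have h6 : √Q * √Q = Q := Real.mul_self_sqrt hQ0.le
      calc √Q * (1 - sig - lam * TBr) * (√Q * (2 : ℝ) ^ (-e))
          = (1 - sig - lam * TBr) * ((√Q * √Q) * (2 : ℝ) ^ (-e)) := by ring
        _ = _ := by rw [h6]
    rw [h4, h5] at h3
    exact h3.trans (mul_le_mul_of_nonneg_left hc1 hd.le)
  have h3 : k2 * √Q * X ≤ E * √Q * Y := by
    have h4 : k2 * √Q ≤ E * √Q := mul_le_mul_of_nonneg_right hk2E hs.le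
    exact mul_le_mul h4 hXY hX (by positivity)
  have h4 : 1 < E * √Q := by
    have := le_mul_of_one_le_left hs.le hE
    linarith
  have h5 : lam * c1 * TSr ≤ lam * c1 * TBr := mul_le_mul_of_nonneg_left hTS (by positivity)
  nlinarith

theorem critn (q n T : ℕ) (hq : QOK q) (R S : Finset ℕ)
    (hRS : R ∪ S = (q ^ n - 1).primeFactors) (hdis : Disjoint R S) (lam : ℝ)
    (hlam : lq q ≤ lam ∨ (T = 0 ∧ 1 ≤ lam)) (nD : ℕ) (hnD : ∑ d ∈ n.divisors, n / d ≤ nD)
    (h : (2 : ℝ) ^ (R.card + KB q n T) * (2 + S.card + nD) * (2 : ℝ) ^ (cq q * EB q n T) ≤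
      √((q : ℝ) ^ n) * (1 - ∑ s ∈ S, 1 / (s : ℝ) - lam * TB q n T)) : PN q n := by
  classical
  intro K L _ _ _ _ _ hKq hLn
  have hfin : Module.Finite K L := inferInstance
  have hn : 0 < deg K L := Module.finrank_pos
  have hdeg : deg K L = n := hLn
  have hcardL : Nat.card L = q ^ n := by
    rw [card_eq_pow_deg K (L := L), hKq, hdeg]
  have hq1 : 1 < q := hKq ▸ (Finite.one_lt_card (α := K))
  have hn0 : n ≠ 0 := by omega
  obtain ⟨C, hCcard, hC1, hC2⟩ := kern2_core (K := K) (L := L) (Om := AlgebraicClosure L) T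
  obtain ⟨D, hDcard, hD1, hD2⟩ := kern2_tail (K := K) (L := L) (Om := AlgebraicClosure L) T
  have hiff : ∀ x : L, (∀ M ∈ C, x ∉ M) ↔
      ∀ (d : ℕ) (z : AlgebraicClosure L), Ev K L d z → per K z ≤ T → Res K d z x ≠ 0 := by
    intro x
    constructor
    · intro hx d z he hp h0
      obtain ⟨M, hM, hMx⟩ := hC2 d z he hp
      exact hx M hM ((hMx x).2 h0)
    · intro hx M hM hxM
      obtain ⟨d, z, he, hp, hMx⟩ := hC1 M hM
      exact hx d z he hp ((hMx x).1 hxM)
  have hcA : Nat.card {x : L // ∀ (d : ℕ) (z : AlgebraicClosure L), Ev K L d z → per K z ≤ T →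
      Res K d z x ≠ 0} = Nat.card {x : L // ∀ M ∈ C, x ∉ M} :=
    Nat.card_congr (Equiv.subtypeEquivRight fun x => (hiff x).symm)
  have hqK : QOK (Nat.card K) := hKq ▸ hq
  have hpc := pcq (K := K) (L := L) (Om := AlgebraicClosure L) hqK T
  rw [hcA, hcardL, hKq] at hpc
  set cA : ℝ := (Nat.card {x : L // ∀ M ∈ C, x ∉ M} : ℝ) with hcAdef
  have hST : ∀ t, 0 < t → ST K L (AlgebraicClosure L) t ≤ SB q n t := by
    intro t ht
    have := st_le (K := K) (L := L) (Om := AlgebraicClosure L) t ht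
    rwa [hKq, hdeg] at this
  have hqpos : (0 : ℝ) < q := by exact_mod_cast (by omega : 0 < q)
  have hEN : EN K L (AlgebraicClosure L) T ≤ EB q n T := by
    unfold EN EB
    rw [hKq]
    refine Finset.sum_le_sum fun t ht => ?_
    have ht0 : 0 < t := (Finset.mem_Icc.1 ht).1
    have := hST t ht0
    gcongr
  have hTS : TS K L (AlgebraicClosure L) T ≤ TB q n T := by
    unfold TS TB
    rw [hKq, hdeg]
    refine Finset.sum_le_sum fun t ht => ?_
    have ht0 : 0 < t := (Nat.zero_le T).trans_lt (Finset.mem_Ioc.1 ht).1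
    have := hST t ht0
    gcongr
  have hKN : KN K L (AlgebraicClosure L) T ≤ KB q n T := by
    unfold KN KB
    refine Finset.sum_le_sum fun t ht => ?_
    have ht0 : 0 < t := (Finset.mem_Icc.1 ht).1
    exact Nat.div_le_div_right (hST t ht0)
  have hlam0 : 0 ≤ lam := by
    rcases hlam with h1 | h1
    · linarith [critn_lq q]
    · linarith [h1.2]
  have hcA0 : 0 ≤ cA := Nat.cast_nonneg _
  -- the tail
  have hF : ∑ M ∈ D, (Nat.card {x : L // x ∈ M ∧ ∀ M' ∈ C, x ∉ M'} : ℝ) ≤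
      lam * cA * TS K L (AlgebraicClosure L) T := by
    refine hD1 (fun M => (Nat.card {x : L // x ∈ M ∧ ∀ M' ∈ C, x ∉ M'} : ℝ)) (lam * cA)
      (mul_nonneg hlam0 hcA0) ?_
    intro M d z he hp hM
    rw [le_div_iff₀ (by rw [hKq]; positivity)]
    have hcM : Nat.card {x : L // x ∈ M ∧ ∀ M' ∈ C, x ∉ M'} =
        Nat.card {x : L // (∀ (d : ℕ) (z : AlgebraicClosure L), Ev K L d z → per K z ≤ T →
          Res K d z x ≠ 0) ∧ Res K d z x = 0} := by
      refine Nat.card_congr (Equiv.subtypeEquivRight fun x => ?_)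
      rw [hM x, hiff x, and_comm]
    rcases hlam with hl | ⟨hT0, hl⟩
    · have h1 := tailq (K := K) (L := L) (Om := AlgebraicClosure L) hqK T d z he
      rw [hcA] at h1
      rw [hcM]
      refine h1.trans ?_
      rw [hKq]
      exact mul_le_mul_of_nonneg_right hl hcA0
    · have h1 := ker_card (K := K) (L := L) d z he
      have h2 : Nat.card {x : L // x ∈ M ∧ ∀ M' ∈ C, x ∉ M'} ≤
          Nat.card (LinearMap.ker (Res K (L := L) d z)) := by
        refine Nat.card_le_card_of_injective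
          (fun x => (⟨x.1, (LinearMap.mem_ker).2 ((hM x.1).1 x.2.1)⟩ :
            LinearMap.ker (Res K (L := L) d z))) ?_
        intro x y hxy
        exact Subtype.ext (congrArg (fun w : LinearMap.ker (Res K (L := L) d z) => (w : L)) hxy)
      have h3 : cA = (Nat.card L : ℝ) := by
        rw [hcAdef]
        congr 1
        have hemp : ∀ M ∈ C, False := by
          intro M hM
          obtain ⟨d, z, he, hp, -⟩ := hC1 M hM
          have := (size_facts d z he).2.2
          omega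
        refine Nat.card_congr (Equiv.subtypeUnivEquiv fun x M hM => (hemp M hM).elim)
      calc (Nat.card {x : L // x ∈ M ∧ ∀ M' ∈ C, x ∉ M'} : ℝ) * (Nat.card K : ℝ) ^ (per K z)
          ≤ (Nat.card (LinearMap.ker (Res K (L := L) d z)) : ℝ) *
            (Nat.card K : ℝ) ^ (per K z) := by
            refine mul_le_mul_of_nonneg_right ?_ (by positivity)
            exact_mod_cast h2
        _ = (Nat.card L : ℝ) := by exact_mod_cast h1
        _ = 1 * cA := by rw [h3, one_mul]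
        _ ≤ lam * cA := mul_le_mul_of_nonneg_right hl hcA0
  have hQ : (1 : ℝ) < (q : ℝ) ^ n := by
    exact_mod_cast Nat.one_lt_pow hn0 hq1
  have hpc' : (q : ℝ) ^ n * (2 : ℝ) ^ (-(cq q * EB q n T)) ≤ cA := by
    refine le_trans ?_ hpc
    push_cast
    refine mul_le_mul_of_nonneg_left ?_ (by positivity)
    apply Real.rpow_le_rpow_of_exponent_le (by norm_num)
    have := mul_le_mul_of_nonneg_left hEN (critn_cq q).le
    linarith
  have hcrit := critn_real (E := (2 : ℝ) ^ (R.card + KB q n T)) (Q := (q : ℝ) ^ n) (c1 := cA)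
    (X := 1 + S.card + D.card) (Y := 1 + S.card + nD) (lam := lam) (TBr := TB q n T)
    (TSr := TS K L (AlgebraicClosure L) T) (sig := ∑ s ∈ S, 1 / (s : ℝ))
    (e := cq q * EB q n T)
    (sumF := ∑ M ∈ D, (Nat.card {x : L // x ∈ M ∧ ∀ M' ∈ C, x ∉ M'} : ℝ))
    (k2 := (2 : ℝ) ^ (R.card + C.card)) hQ
    (pow_le_pow_right₀ (by norm_num) (Nat.add_le_add_left (hCcard.trans hKN) _))
    (one_le_pow₀ (by norm_num)) (by positivity)
    (by
      have h1 : D.card ≤ nD := by
        rw [hdeg] at hDcard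
        exact hDcard.trans hnD
      have h2 : (D.card : ℝ) ≤ nD := by exact_mod_cast h1
      linarith)
    hlam0 hpc' hTS hF
    (by
      refine le_trans (le_of_eq ?_) h
      ring)
  obtain ⟨x, hx, hxC, hxD⟩ := crit2 C D R S (by rw [hcardL]; exact hRS) hdis (by
    rw [hcardL]
    push_cast
    exact hcrit)
  refine ⟨x, hx, cn_of_events (Om := AlgebraicClosure L) x ?_⟩
  intro d z he h0
  by_cases hp : per K z ≤ T
  · obtain ⟨M, hM, hMx⟩ := hC2 d z he hp
    exact hxC M hM ((hMx x).2 h0)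
  · obtain ⟨M, hM, hMx⟩ := hD2 d z he (not_le.1 hp)
    exact hxD M hM ((hMx x).2 h0)

end Pool.Agent.MM2
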