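import Mathlib
import Pool.Agent.MM2.Defs

/-!
Computable functions used in the finite checks (all of them are evaluated by the kernel).
-/

namespace Pool.Agent.MM2

/-- table entry: a degree `t`, its largest proper divisor `u` (`u = 0` if `t = 1`), the divisors
of `t` -/
structure Ent where
  t : ℕ
  u : ℕ
  ds : List ℕ

/-- bound for the number of `z` of degree `t` with `z^m = 1` -/
def zN (q m t u : ℕ) : ℕ :=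
  Nat.sub (Nat.gcd m (Nat.sub (Nat.pow q t) 1))
    (cond (Nat.beq u 0) 0 (Nat.gcd m (Nat.sub (Nat.pow q u) 1)))

/-- accumulator form of `∑_{d ∈ ds, d ∣ n} d * zN q (n/d) t u` -/
def sNaux (q n t u : ℕ) : List ℕ → ℕ → ℕ
  | [], acc => acc
  | d :: ds, acc => sNaux q n t u ds
      (cond (Nat.beq (Nat.mod n d) 0) (Nat.add acc (Nat.mul d (zN q (Nat.div n d) t u))) acc)

/-- bound for `ST t` -/
def sN (q n : ℕ) (e : Ent) : ℕ := sNaux q n e.t e.u e.ds 0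

/-- `∑ sN / t` and `∑ 2^20 sN / (t q^t)`, rounded up, over a table -/
def sumP (q n : ℕ) : List Ent → ℕ → ℕ → ℕ × ℕ
  | [], k, e => (k, e)
  | x :: xs, k, e => sumP q n xs (Nat.add k (Nat.div (sN q n x) x.t))
      (Nat.add e (Nat.add (Nat.div (Nat.mul 1048576 (sN q n x))
        (Nat.mul x.t (Nat.pow q x.t))) 1))

/-- numerator and denominator of `2 cq` -/
def c2num (q : ℕ) : ℕ := cond (Nat.beq q 2) 16 (cond (Nat.beq q 3) 352 322)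
/-- denominator of `2 cq` -/
def c2den (q : ℕ) : ℕ := cond (Nat.beq q 2) 3 100

/-- `4 lq` -/
def l4 (q : ℕ) : ℕ := cond (Nat.beq q 2) 16 (cond (Nat.beq q 3) 6 5)

/-- number of `r < B` in a list with `N % r = 1` -/
def rhoN (N B : ℕ) : List ℕ → ℕ → ℕ
  | [], acc => acc
  | r :: rs, acc => rhoN N B rs
      (cond (Nat.ble B r) acc (cond (Nat.beq (Nat.mod N r) 1) (Nat.add acc 1) acc))

/-- sum of the divisors of `n` that are at most `k` -/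
def sigN (n : ℕ) : ℕ → ℕ → ℕ
  | 0, acc => acc
  | k + 1, acc => sigN n k (cond (Nat.beq (Nat.mod n (k + 1)) 0) (Nat.add acc (k + 1)) acc)

/-- the primes below `512` -/
def prs : List ℕ := [
  2, 3, 5, 7, 11, 13, 17, 19, 23, 29, 31, 37, 41, 43, 47, 53, 59, 61, 67, 71, 73, 79, 83, 89, 97,
  101, 103, 107, 109, 113, 127, 131, 137, 139, 149, 151, 157, 163, 167, 173, 179, 181, 191, 193,
  197, 199, 211, 223, 227, 229, 233, 239, 241, 251, 257, 263, 269, 271, 277, 281, 283, 293, 307,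
  311, 313, 317, 331, 337, 347, 349, 353, 359, 367, 373, 379, 383, 389, 397, 401, 409, 419, 421,
  431, 433, 439, 443, 449, 457, 461, 463, 467, 479, 487, 491, 499, 503, 509]

/-- table of the degrees `1, ..., 96` -/
def tab : List Ent := [
  ⟨1, 0, [1]⟩, ⟨2, 1, [1, 2]⟩, ⟨3, 1, [1, 3]⟩, ⟨4, 2, [1, 2, 4]⟩, ⟨5, 1, [1, 5]⟩,
  ⟨6, 3, [1, 2, 3, 6]⟩, ⟨7, 1, [1, 7]⟩, ⟨8, 4, [1, 2, 4, 8]⟩, ⟨9, 3, [1, 3, 9]⟩,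
  ⟨10, 5, [1, 2, 5, 10]⟩, ⟨11, 1, [1, 11]⟩, ⟨12, 6, [1, 2, 3, 4, 6, 12]⟩, ⟨13, 1, [1, 13]⟩,
  ⟨14, 7, [1, 2, 7, 14]⟩, ⟨15, 5, [1, 3, 5, 15]⟩, ⟨16, 8, [1, 2, 4, 8, 16]⟩, ⟨17, 1, [1, 17]⟩,
  ⟨18, 9, [1, 2, 3, 6, 9, 18]⟩, ⟨19, 1, [1, 19]⟩, ⟨20, 10, [1, 2, 4, 5, 10, 20]⟩,
  ⟨21, 7, [1, 3, 7, 21]⟩, ⟨22, 11, [1, 2, 11, 22]⟩, ⟨23, 1, [1, 23]⟩,
  ⟨24, 12, [1, 2, 3, 4, 6, 8, 12, 24]⟩, ⟨25, 5, [1, 5, 25]⟩, ⟨26, 13, [1, 2, 13, 26]⟩,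
  ⟨27, 9, [1, 3, 9, 27]⟩, ⟨28, 14, [1, 2, 4, 7, 14, 28]⟩, ⟨29, 1, [1, 29]⟩,
  ⟨30, 15, [1, 2, 3, 5, 6, 10, 15, 30]⟩, ⟨31, 1, [1, 31]⟩, ⟨32, 16, [1, 2, 4, 8, 16, 32]⟩,
  ⟨33, 11, [1, 3, 11, 33]⟩, ⟨34, 17, [1, 2, 17, 34]⟩, ⟨35, 7, [1, 5, 7, 35]⟩,
  ⟨36, 18, [1, 2, 3, 4, 6, 9, 12, 18, 36]⟩, ⟨37, 1, [1, 37]⟩, ⟨38, 19, [1, 2, 19, 38]⟩,
  ⟨39, 13, [1, 3, 13, 39]⟩, ⟨40, 20, [1, 2, 4, 5, 8, 10, 20, 40]⟩, ⟨41, 1, [1, 41]⟩,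
  ⟨42, 21, [1, 2, 3, 6, 7, 14, 21, 42]⟩, ⟨43, 1, [1, 43]⟩, ⟨44, 22, [1, 2, 4, 11, 22, 44]⟩,
  ⟨45, 15, [1, 3, 5, 9, 15, 45]⟩, ⟨46, 23, [1, 2, 23, 46]⟩, ⟨47, 1, [1, 47]⟩,
  ⟨48, 24, [1, 2, 3, 4, 6, 8, 12, 16, 24, 48]⟩, ⟨49, 7, [1, 7, 49]⟩,
  ⟨50, 25, [1, 2, 5, 10, 25, 50]⟩, ⟨51, 17, [1, 3, 17, 51]⟩, ⟨52, 26, [1, 2, 4, 13, 26, 52]⟩,
  ⟨53, 1, [1, 53]⟩, ⟨54, 27, [1, 2, 3, 6, 9, 18, 27, 54]⟩, ⟨55, 11, [1, 5, 11, 55]⟩,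
  ⟨56, 28, [1, 2, 4, 7, 8, 14, 28, 56]⟩, ⟨57, 19, [1, 3, 19, 57]⟩, ⟨58, 29, [1, 2, 29, 58]⟩,
  ⟨59, 1, [1, 59]⟩, ⟨60, 30, [1, 2, 3, 4, 5, 6, 10, 12, 15, 20, 30, 60]⟩, ⟨61, 1, [1, 61]⟩,
  ⟨62, 31, [1, 2, 31, 62]⟩, ⟨63, 21, [1, 3, 7, 9, 21, 63]⟩, ⟨64, 32, [1, 2, 4, 8, 16, 32, 64]⟩,
  ⟨65, 13, [1, 5, 13, 65]⟩, ⟨66, 33, [1, 2, 3, 6, 11, 22, 33, 66]⟩, ⟨67, 1, [1, 67]⟩,
  ⟨68, 34, [1, 2, 4, 17, 34, 68]⟩, ⟨69, 23, [1, 3, 23, 69]⟩,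
  ⟨70, 35, [1, 2, 5, 7, 10, 14, 35, 70]⟩, ⟨71, 1, [1, 71]⟩,
  ⟨72, 36, [1, 2, 3, 4, 6, 8, 9, 12, 18, 24, 36, 72]⟩, ⟨73, 1, [1, 73]⟩,
  ⟨74, 37, [1, 2, 37, 74]⟩, ⟨75, 25, [1, 3, 5, 15, 25, 75]⟩, ⟨76, 38, [1, 2, 4, 19, 38, 76]⟩,
  ⟨77, 11, [1, 7, 11, 77]⟩, ⟨78, 39, [1, 2, 3, 6, 13, 26, 39, 78]⟩, ⟨79, 1, [1, 79]⟩,
  ⟨80, 40, [1, 2, 4, 5, 8, 10, 16, 20, 40, 80]⟩, ⟨81, 27, [1, 3, 9, 27, 81]⟩,
  ⟨82, 41, [1, 2, 41, 82]⟩, ⟨83, 1, [1, 83]⟩,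
  ⟨84, 42, [1, 2, 3, 4, 6, 7, 12, 14, 21, 28, 42, 84]⟩, ⟨85, 17, [1, 5, 17, 85]⟩,
  ⟨86, 43, [1, 2, 43, 86]⟩, ⟨87, 29, [1, 3, 29, 87]⟩, ⟨88, 44, [1, 2, 4, 8, 11, 22, 44, 88]⟩,
  ⟨89, 1, [1, 89]⟩, ⟨90, 45, [1, 2, 3, 5, 6, 9, 10, 15, 18, 30, 45, 90]⟩,
  ⟨91, 13, [1, 7, 13, 91]⟩, ⟨92, 46, [1, 2, 4, 23, 46, 92]⟩, ⟨93, 31, [1, 3, 31, 93]⟩,
  ⟨94, 47, [1, 2, 47, 94]⟩, ⟨95, 19, [1, 5, 19, 95]⟩,
  ⟨96, 48, [1, 2, 3, 4, 6, 8, 12, 16, 24, 32, 48, 96]⟩]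

/-- Main check with the threshold `2^b` for the prime factors, degrees up to `T` exact, the tail
exact up to `T2`. -/
def chkA (q n T T2 b : ℕ) : Bool :=
  let p := sumP q n (tab.take T) 0 0
  let eb := Nat.add (Nat.div (Nat.mul (c2num q) p.2) (Nat.mul (c2den q) 1048576)) 1
  let tl := Nat.add (sumP q n ((tab.drop T).take (Nat.sub T2 T)) 0 0).2
    (Nat.add (Nat.div (Nat.mul 1048576 n) (Nat.mul (Nat.pow q T2) (Nat.sub q 1))) 1)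
  let s := Nat.div (Nat.log2 (Nat.pow q n)) b
  let dl := Nat.sub 1048576
    (Nat.add (Nat.add (Nat.div (Nat.mul (cond (Nat.beq T 0) 4 (l4 q)) tl) 4) 1)
      (Nat.add (Nat.div (Nat.mul 1048576 s) (Nat.pow 2 b)) 1))
  let M := Nat.add 2 (Nat.add s (sigN n n 0))
  Nat.ble 1 b && Nat.ble b 9 && Nat.ble T T2 && Nat.ble T2 96 &&
  Nat.ble (Nat.mul (Nat.pow 2 (Nat.add (Nat.add
      (Nat.mul 2 (Nat.add (rhoN (Nat.pow q n) (Nat.pow 2 b) prs 0) p.1)) eb) 40)) (Nat.pow M 2))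
    (Nat.mul (Nat.pow q n) (Nat.pow dl 2)) && Nat.blt 0 dl

/-- Main check using `2^omega(N) ≤ 2^(49/4) N^(1/8)`; `tb` is `tab.take T`. -/
def chkB (q n T : ℕ) (tb : List Ent) : Bool :=
  let p := sumP q n tb 0 0
  let eb := Nat.add (Nat.div (Nat.mul (Nat.mul 4 (c2num q)) p.2) (Nat.mul (c2den q) 1048576)) 1
  let tl := Nat.add (Nat.div (Nat.mul 1048576 n) (Nat.mul (Nat.pow q T) (Nat.sub q 1))) 1
  let dl := Nat.sub 1048576 (Nat.add (Nat.div (Nat.mul (l4 q) tl) 4) 1)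
  let M := Nat.add 2 (Nat.mul n (Nat.add (Nat.log2 n) 1))
  Nat.ble (Nat.mul (Nat.pow 2 (Nat.add (Nat.add (Nat.mul 8 p.1) eb) 258)) (Nat.pow M 8))
    (Nat.mul (Nat.pow q (Nat.mul 3 n)) (Nat.pow dl 8)) && Nat.blt 0 dl

/-- `chkB` for `n0, ..., n0 + c - 1` -/
def runB (q T : ℕ) (tb : List Ent) (n0 : ℕ) : ℕ → Bool
  | 0 => true
  | c + 1 => chkB q (Nat.add n0 c) T tb && runB q T tb n0 c

/-- `chkA` for a list of `(n, T, T2, b)` -/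
def runA (q : ℕ) : List (ℕ × ℕ × ℕ × ℕ) → Bool
  | [] => true
  | x :: xs => chkA q x.1 x.2.1 x.2.2.1 x.2.2.2 && runA q xs

/-! ### the range `2^k ≤ n < 2^(k+1)` -/

/-- `∑_{d ∈ ds} min cap (d m)` -/
def minS (cap m : ℕ) : List ℕ → ℕ → ℕ
  | [], acc => acc
  | d :: ds, acc => minS cap m ds
      (Nat.add acc (cond (Nat.ble cap (Nat.mul d m)) cap (Nat.mul d m)))

/-- minimum -/
def mnN (a b : ℕ) : ℕ := cond (Nat.ble a b) a b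

/-- the bound for `2^k KB / n` if the largest `GG`, attained at degree `t0`, lies in
`(n/2^(j+1), n/2^j]` -/
def pwS (q k j t0 : ℕ) : List Ent → ℕ → ℕ
  | [], acc => acc
  | e :: es, acc => pwS q k j t0 es (Nat.add acc (Nat.add (Nat.div
      (minS (Nat.pow 2 (Nat.sub k j)) (cond (Nat.beq e.t t0) (Nat.sub (Nat.pow q e.t) 1)
        (mnN (Nat.sub (Nat.pow q e.t) 1) (Nat.mul (Nat.mul (Nat.sub (Nat.pow 2 (j + 1)) 1) t0)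
          (Nat.sub (Nat.pow q (Nat.gcd e.t t0)) 1)))) e.ds 0) e.t) 1))

/-- the bound for `2^k KB / n` if all `GG` are at most `n/2^J` -/
def pwL (q k J : ℕ) : List Ent → ℕ → ℕ
  | [], acc => acc
  | e :: es, acc => pwL q k J es (Nat.add acc (Nat.add (Nat.div
      (minS (Nat.pow 2 (Nat.sub k J)) (Nat.sub (Nat.pow q e.t) 1) e.ds 0) e.t) 1))

/-- for `j < J`, `pwS q k j t0` is at most `kp` or the class is empty -/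
def pwJ (q k kp : ℕ) (tb : List Ent) (t0 : ℕ) : ℕ → Bool
  | 0 => true
  | j + 1 => (Nat.blt (Nat.mul (Nat.mul (Nat.sub (Nat.pow 2 (j + 1)) 1) t0)
        (Nat.sub (Nat.pow q t0) 1)) (Nat.pow 2 k) || Nat.ble (pwS q k j t0 tb 0) kp) &&
      pwJ q k kp tb t0 j

/-- `pwJ` for all `t0 ≤ c` -/
def pwAll (q k J kp : ℕ) (tb : List Ent) : ℕ → Bool
  | 0 => true
  | c + 1 => pwJ q k kp tb (c + 1) J && pwAll q k J kp tb c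

/-- `∑ 2^20 τ(t) 2^(k+1) / (t q^t)`, rounded up, over a table -/
def tlS (q k : ℕ) : List Ent → ℕ → ℕ
  | [], acc => acc
  | e :: es, acc => tlS q k es (Nat.add acc (Nat.add (Nat.div
      (Nat.mul e.ds.length (Nat.pow 2 (k + 21))) (Nat.mul e.t (Nat.pow q e.t))) 1))

/-- numerator and denominator of a lower bound for `log_2 q` -/
def lgn (q : ℕ) : ℕ := cond (Nat.beq q 2) 1 (cond (Nat.beq q 3) 84 (cond (Nat.beq q 5) 65 14))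
/-- denominator of a lower bound for `log_2 q` -/
def lgd (q : ℕ) : ℕ := cond (Nat.beq q 2) 1 (cond (Nat.beq q 3) 53 (cond (Nat.beq q 5) 28 5))

/-- the check for all `n` with `2^k ≤ n < 2^(k+1)`, `q ∈ {2, 3, 5, 7}` -/
def chkP (q k T T2 J kp C : ℕ) : Bool :=
  let X := Nat.add (Nat.add (Nat.div (Nat.mul (c2num q) (C + 1)) (c2den q)) (k + 2))
    (Nat.add (Nat.log2 (Nat.mul 5 (k + 2))) 1)
  Nat.ble J k && Nat.ble 1 T && Nat.ble T T2 && Nat.ble 6 T2 && Nat.ble T2 96 &&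
  Nat.ble (pwL q k J (tab.take T) 0) kp && pwAll q k J kp (tab.take T) T &&
  Nat.ble (Nat.mul (Nat.mul (l4 q) 5) (Nat.add (tlS q k ((tab.drop T).take (Nat.sub T2 T)) 0)
    (Nat.add (Nat.div (Nat.pow 2 (k + 20)) (Nat.mul (Nat.pow q T2) (Nat.sub q 1))) 1)))
    (Nat.mul 16 1048576) &&
  Nat.ble (Nat.pow 2 (k + 1)) (Nat.pow q C) &&
  (Nat.ble (Nat.mul (Nat.mul (Nat.add kp (Nat.add 133 X)) 12) (lgd q))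
      (Nat.mul 5 (Nat.mul (lgn q) (Nat.pow 2 k))) ||
    Nat.ble (Nat.mul (Nat.mul (Nat.add kp (Nat.add 13 X)) 8) (lgd q))
      (Nat.mul 3 (Nat.mul (lgn q) (Nat.pow 2 k))))

/-- `chkP` for a list of `(k, T, T2, J, kp, C)` -/
def runP (q : ℕ) : List (ℕ × ℕ × ℕ × ℕ × ℕ × ℕ) → Bool
  | [] => true
  | x :: xs => chkP q x.1 x.2.1 x.2.2.1 x.2.2.2.1 x.2.2.2.2.1 x.2.2.2.2.2 && runP q xs

end Pool.Agent.MM2
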