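import Mathlib
import Pool.Agent.MM2.NDefs

/-!
Sum of divisors.
-/

namespace Pool.Agent.MM2

open Finset

theorem sig_dyadic (n k : ℕ) : ∑ d ∈ Ico 1 (2 ^ k), n / d ≤ n * k := by
  induction k with
  | zero => simp
  | succ k ih =>
    rw [← Finset.sum_Ico_consecutive _ (Nat.one_le_two_pow (n := k))
      (Nat.pow_le_pow_right two_pos (Nat.le_succ k))]
    have h1 : ∑ d ∈ Ico (2 ^ k) (2 ^ (k + 1)), n / d ≤ n := by
      have h2 : ∑ d ∈ Ico (2 ^ k) (2 ^ (k + 1)), n / d ≤
          ∑ _d ∈ Ico (2 ^ k) (2 ^ (k + 1)), n / 2 ^ k := by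
        refine sum_le_sum (fun d hd => ?_)
        exact Nat.div_le_div_left (mem_Ico.1 hd).1 (by positivity)
      have h3 : ∑ _d ∈ Ico (2 ^ k) (2 ^ (k + 1)), n / 2 ^ k = 2 ^ k * (n / 2 ^ k) := by
        rw [sum_const, Nat.card_Ico, smul_eq_mul, pow_succ]
        congr 1
        omega
      rw [h3] at h2
      exact h2.trans (Nat.mul_div_le n _)
    rw [Nat.mul_succ]
    exact add_le_add ih h1

theorem sig_log (n : ℕ) (hn : 1 ≤ n) : ∑ d ∈ n.divisors, n / d ≤ n * (Nat.log2 n + 1) := by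
  refine le_trans ?_ (sig_dyadic n (Nat.log2 n + 1))
  refine sum_le_sum_of_subset (fun d hd => ?_)
  rw [mem_Ico]
  have h1 := Nat.divisor_le hd
  have h2 := Nat.pos_of_mem_divisors hd
  have h3 : n < 2 ^ (Nat.log2 n + 1) := Nat.lt_log2_self
  exact ⟨h2, lt_of_le_of_lt h1 h3⟩

theorem sig_rec (n k acc : ℕ) :
    sigN n k acc = acc + ∑ d ∈ (Icc 1 k).filter (fun d => d ∣ n), d := by
  induction k generalizing acc with
  | zero => simp [sigN]
  | succ k ih =>
    have h1 : sigN n (k + 1) acc =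
        sigN n k (cond (Nat.beq (Nat.mod n (k + 1)) 0) (Nat.add acc (k + 1)) acc) := rfl
    have h2 : Icc 1 (k + 1) = insert (k + 1) (Icc 1 k) := by
      ext d
      simp only [mem_Icc, mem_insert]
      omega
    rw [h1, ih, h2, filter_insert]
    by_cases hd : k + 1 ∣ n
    · have h3 : Nat.mod n (k + 1) = 0 := Nat.mod_eq_zero_of_dvd hd
      rw [if_pos hd, h3, sum_insert (by simp)]
      show Nat.add acc (k + 1) + _ = _
      rw [Nat.add_eq, add_assoc]
    · have h3 : Nat.mod n (k + 1) ≠ 0 := fun h => hd (Nat.dvd_of_mod_eq_zero h)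
      have h4 : Nat.beq (Nat.mod n (k + 1)) 0 = false := by
        cases hb : Nat.beq (Nat.mod n (k + 1)) 0 with
        | false => rfl
        | true => exact absurd (Nat.eq_of_beq_eq_true hb) h3
      rw [if_neg hd, h4]
      rfl

theorem sig_sum (n : ℕ) : ∑ d ∈ n.divisors, n / d = sigN n n 0 := by
  rw [sig_rec, zero_add]
  rcases Nat.eq_zero_or_pos n with rfl | hn
  · simp
  · rw [Nat.sum_div_divisors n (fun d => d)]
    refine sum_congr ?_ (fun _ _ => rfl)
    ext d
    simp only [Nat.mem_divisors, mem_filter, mem_Icc]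
    constructor
    · rintro ⟨h1, -⟩
      exact ⟨⟨Nat.pos_of_dvd_of_pos h1 hn, Nat.le_of_dvd hn h1⟩, h1⟩
    · rintro ⟨-, h1⟩
      exact ⟨h1, by omega⟩

end Pool.Agent.MM2
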