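import Mathlib
import Pool.Agent.MM2.Defs
import Pool.Agent.MM2.SIG
import Pool.Agent.MM2.CRITN

/-!
Logarithmic form of the criterion.
-/

namespace Pool.Agent.MM2

open Finset

theorem bigc (q n T j b : ℕ) (hq : QOK q) (hn : 1 ≤ n) (hj : 1 ≤ j)
    (hOM : ∀ N : ℕ, 0 < N → ((2 : ℝ) ^ N.primeFactors.card) ^ j ≤ 2 ^ b * (N : ℝ))
    (lam δ κ e : ℝ) (hlam : lq q ≤ lam ∨ (T = 0 ∧ 1 ≤ lam)) (hδ : 0 < δ)
    (hT : lam * TB q n T ≤ 1 - δ) (hK : (KB q n T : ℝ) ≤ κ) (hE : cq q * EB q n T ≤ e)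
    (h : (b : ℝ) / j + κ + e + Real.logb 2 ((2 + n * (Nat.log 2 n + 1)) / δ) ≤
      (1 / 2 - 1 / j) * (n * Real.logb 2 q)) : PN q n := by
  have hq2 : 2 ≤ q := by
    rcases hq with h | h | h <;> omega
  have hq0 : (0 : ℝ) < q := by
    have : 0 < q := by omega
    exact_mod_cast this
  have hqn1 : 1 < q ^ n := Nat.one_lt_pow (by omega) (by omega)
  set ℓ := Real.logb 2 (q : ℝ) with hℓ
  set R := (q ^ n - 1).primeFactors with hR
  have hpow2 : (2 : ℝ) ^ ((n : ℝ) * ℓ) = (q : ℝ) ^ n := by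
    rw [mul_comm, Real.rpow_mul (by norm_num), hℓ, Real.rpow_logb (by norm_num) (by norm_num) hq0,
      Real.rpow_natCast]
  have hj0 : (0 : ℝ) < j := by exact_mod_cast hj
  -- bound for the number of prime factors
  have hRc : (R.card : ℝ) ≤ b / j + n * ℓ / j := by
    have h1 := hOM (q ^ n - 1) (by omega)
    have h2 : (((q ^ n - 1 : ℕ)) : ℝ) ≤ (q : ℝ) ^ n := by
      have : q ^ n - 1 ≤ q ^ n := Nat.sub_le _ _
      exact_mod_cast this
    have h3 : (2 : ℝ) ^ ((R.card : ℝ) * j) ≤ (2 : ℝ) ^ ((b : ℝ) + n * ℓ) := by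
      rw [Real.rpow_mul (by norm_num), Real.rpow_natCast, Real.rpow_natCast,
        Real.rpow_add (by norm_num), Real.rpow_natCast, hpow2]
      refine h1.trans ?_
      gcongr
    have h4 := (Real.rpow_le_rpow_left_iff (by norm_num : (1 : ℝ) < 2)).mp h3
    rw [← add_div, le_div_iff₀ hj0]
    exact h4
  have hsig : ∑ d ∈ n.divisors, n / d ≤ n * (Nat.log2 n + 1) := sig_log n hn
  refine critn q n T hq R ∅ (by rw [union_empty]) (disjoint_empty_right _) lam hlam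
    (n * (Nat.log2 n + 1)) hsig ?_
  rw [card_empty, sum_empty, Nat.cast_zero, add_zero, sub_zero, Nat.log2_eq_log_two]
  set M : ℝ := 2 + ((n * (Nat.log 2 n + 1) : ℕ) : ℝ) with hM
  have hMeq : M = 2 + n * (Nat.log 2 n + 1) := by
    rw [hM]
    push_cast
    ring
  rw [← hMeq] at h
  have hM0 : 0 < M := by rw [hM]; positivity
  have hMδ : 0 < M / δ := by positivity
  have hX : (R.card : ℝ) + KB q n T + cq q * EB q n T + Real.logb 2 (M / δ) ≤ n * ℓ / 2 := by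
    have e1 : (1 / 2 - 1 / (j : ℝ)) * (n * ℓ) = n * ℓ / 2 - n * ℓ / j := by
      ring
    rw [e1] at h
    linarith
  have h5 : (2 : ℝ) ^ ((R.card : ℝ) + KB q n T + cq q * EB q n T + Real.logb 2 (M / δ)) ≤
      (2 : ℝ) ^ (n * ℓ / 2) :=
    (Real.rpow_le_rpow_left_iff (by norm_num : (1 : ℝ) < 2)).mpr hX
  rw [Real.rpow_add (by norm_num), Real.rpow_logb (by norm_num) (by norm_num) hMδ,
    Real.rpow_add (by norm_num), ← Nat.cast_add, Real.rpow_natCast] at h5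
  have h6 : (2 : ℝ) ^ (n * ℓ / 2) = √((q : ℝ) ^ n) := by
    rw [← hpow2, Real.sqrt_eq_rpow, ← Real.rpow_mul (by norm_num)]
    congr 1
    ring
  rw [h6] at h5
  have h7 : (2 : ℝ) ^ (R.card + KB q n T) * M * (2 : ℝ) ^ (cq q * EB q n T) =
      ((2 : ℝ) ^ (R.card + KB q n T) * (2 : ℝ) ^ (cq q * EB q n T) * (M / δ)) * δ := by
    field_simp
  rw [h7]
  have h8 : δ ≤ 1 - lam * TB q n T := by linarith
  have h9 : 0 ≤ √((q : ℝ) ^ n) := Real.sqrt_nonneg _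
  calc ((2 : ℝ) ^ (R.card + KB q n T) * (2 : ℝ) ^ (cq q * EB q n T) * (M / δ)) * δ
      ≤ √((q : ℝ) ^ n) * δ := mul_le_mul_of_nonneg_right h5 hδ.le
    _ ≤ √((q : ℝ) ^ n) * (1 - lam * TB q n T) := mul_le_mul_of_nonneg_left h8 h9

end Pool.Agent.MM2
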