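import Mathlib
import Pool.Agent.MM2.Defs

/-!
Basic bounds for SB and GG.
-/

namespace Pool.Agent.MM2

open Finset

/-- upper bound of a term of `SB` -/
theorem sbl_term (q n t d : ℕ) :
    (if d ∣ n then d * ((n / d).gcd (q ^ t - 1) -
      if t ≤ 1 then 0 else (n / d).gcd (q ^ (t / t.minFac) - 1)) else 0) ≤
    if d ∣ n then d * (n / d).gcd (q ^ t - 1) else 0 := by
  by_cases h : d ∣ n
  · rw [if_pos h, if_pos h]
    exact Nat.mul_le_mul_left _ (Nat.sub_le _ _)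
  · rw [if_neg h, if_neg h]

theorem sb_tau (q n t : ℕ) (hn : 1 ≤ n) : SB q n t ≤ t.divisors.card * n := by
  unfold SB
  rw [← smul_eq_mul]
  refine sum_le_card_nsmul _ _ _ fun d _ => (sbl_term q n t d).trans ?_
  by_cases h : d ∣ n
  · rw [if_pos h]
    have hd : 0 < d := Nat.pos_of_dvd_of_pos h hn
    have hnd : 0 < n / d := Nat.div_pos (Nat.le_of_dvd hn h) hd
    calc d * (n / d).gcd (q ^ t - 1) ≤ d * (n / d) :=
          Nat.mul_le_mul_left _ (Nat.le_of_dvd hnd (Nat.gcd_dvd_left _ _))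
      _ ≤ n := Nat.mul_div_le _ _
  · rw [if_neg h]
    exact Nat.zero_le _

/-- `q^t - 1` is positive -/
theorem sbl_pos (q t : ℕ) (hq : 2 ≤ q) (ht : 1 ≤ t) : 0 < q ^ t - 1 := by
  have : 1 < q ^ t := Nat.one_lt_pow (by omega) (by omega)
  omega

theorem sb_sig (q n t : ℕ) (hq : 2 ≤ q) (ht : 1 ≤ t) :
    SB q n t ≤ (∑ d ∈ t.divisors, d) * (q ^ t - 1) := by
  unfold SB
  rw [sum_mul]
  refine sum_le_sum fun d _ => (sbl_term q n t d).trans ?_
  by_cases h : d ∣ n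
  · rw [if_pos h]
    exact Nat.mul_le_mul_left _ (Nat.le_of_dvd (sbl_pos q t hq ht) (Nat.gcd_dvd_right _ _))
  · rw [if_neg h]
    exact Nat.zero_le _

theorem sb_gg (q n t : ℕ) : SB q n t ≤ ∑ d ∈ t.divisors, GG q n d t := by
  unfold SB
  refine sum_le_sum fun d _ => (sbl_term q n t d).trans ?_
  unfold GG
  by_cases h : d ∣ n
  · rw [if_pos h, if_pos h, ← Nat.gcd_mul_left, Nat.mul_div_cancel' h]
  · rw [if_neg h, if_neg h]

theorem sb_one (q n : ℕ) : SB q n 1 = n.gcd (q - 1) := by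
  unfold SB
  simp

theorem gg_n (q n d t : ℕ) (hn : 1 ≤ n) : GG q n d t ≤ n := by
  unfold GG
  split_ifs
  · exact Nat.le_of_dvd hn (Nat.gcd_dvd_left _ _)
  · exact Nat.zero_le _

theorem gg_d (q n d t : ℕ) (hq : 2 ≤ q) (hd : 1 ≤ d) (ht : 1 ≤ t) :
    GG q n d t ≤ d * (q ^ t - 1) := by
  unfold GG
  split_ifs
  · exact Nat.le_of_dvd (Nat.mul_pos hd (sbl_pos q t hq ht)) (Nat.gcd_dvd_right _ _)
  · exact Nat.zero_le _

theorem gg_dvd (q n d t : ℕ) (h : GG q n d t ≠ 0) : GG q n d t ∣ n := by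
  unfold GG at h ⊢
  split_ifs at h ⊢ with h1
  · exact Nat.gcd_dvd_left _ _
  · exact absurd rfl h

theorem gg_mul (q n d t d' t' : ℕ) (hq : 2 ≤ q) (hn : 1 ≤ n) (hd : 1 ≤ d) (ht : 1 ≤ t)
    (hd' : 1 ≤ d') (ht' : 1 ≤ t') :
    GG q n d t * GG q n d' t' ≤ n * (d * d' * (q ^ (t.gcd t') - 1)) := by
  unfold GG
  by_cases h1 : d ∣ n
  · by_cases h2 : d' ∣ n
    · rw [if_pos h1, if_pos h2, ← Nat.gcd_mul_lcm, mul_comm]
      refine Nat.mul_le_mul ?_ ?_
      · exact Nat.le_of_dvd hn (Nat.lcm_dvd (Nat.gcd_dvd_left _ _) (Nat.gcd_dvd_left _ _))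
      · have hg : 1 ≤ t.gcd t' := Nat.gcd_pos_of_pos_left _ ht
        have hpos : 0 < d * d' * (q ^ (t.gcd t') - 1) :=
          Nat.mul_pos (Nat.mul_pos hd hd') (sbl_pos q _ hq hg)
        refine Nat.le_of_dvd hpos ?_
        rw [← Nat.pow_sub_one_gcd_pow_sub_one, ← Nat.gcd_mul_left]
        refine Nat.dvd_gcd ?_ ?_
        · refine ((Nat.gcd_dvd_left _ _).trans (Nat.gcd_dvd_right _ _)).trans ?_
          exact Nat.mul_dvd_mul_right (Nat.dvd_mul_right d d') _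
        · refine ((Nat.gcd_dvd_right _ _).trans (Nat.gcd_dvd_right _ _)).trans ?_
          exact Nat.mul_dvd_mul_right (Nat.dvd_mul_left d' d) _
    · rw [if_neg h2, mul_zero]
      exact Nat.zero_le _
  · rw [if_neg h1, zero_mul]
    exact Nat.zero_le _

end Pool.Agent.MM2
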