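import Mathlib
import Pool.Agent.MM.EB
import Pool.Agent.MM2.Defs
import Pool.Agent.MM2.SBL

/-!
Bounds for the density sum.
-/

namespace Pool.Agent.MM2

open Finset

theorem ebl_low (q n t : ℕ) (hq : 2 ≤ q) (ht : 0 < t) :
    (SB q n t : ℝ) / t / (q : ℝ) ^ t ≤ ∑ j ∈ t.divisors, (1 : ℝ) / j := by
  have ht0 : (0 : ℝ) < t := by exact_mod_cast ht
  have hq0 : (0 : ℝ) < q := by
    have : 0 < q := by omega
    exact_mod_cast this
  have hqt : (0 : ℝ) < (q : ℝ) ^ t := by positivity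
  have h1 : (SB q n t : ℝ) ≤ (∑ d ∈ t.divisors, (d : ℝ)) * (q : ℝ) ^ t := by
    have h2 : SB q n t ≤ (∑ d ∈ t.divisors, d) * q ^ t :=
      (sb_sig q n t hq ht).trans (Nat.mul_le_mul_left _ (Nat.sub_le _ _))
    have h4 : (SB q n t : ℝ) ≤ (((∑ d ∈ t.divisors, d) * q ^ t : ℕ) : ℝ) := by exact_mod_cast h2
    rw [Nat.cast_mul, Nat.cast_sum, Nat.cast_pow] at h4
    exact h4
  have h3 : ∑ j ∈ t.divisors, (1 : ℝ) / j = (∑ d ∈ t.divisors, (d : ℝ)) / t := by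
    rw [← Nat.sum_div_divisors t (fun j => (1 : ℝ) / j), sum_div]
    apply sum_congr rfl
    intro d hd
    have hdt := Nat.dvd_of_mem_divisors hd
    have hd0 : 0 < d := Nat.pos_of_mem_divisors hd
    rw [Nat.cast_div hdt (by positivity)]
    field_simp
  rw [h3, div_le_iff₀ hqt, div_mul_eq_mul_div, div_le_div_iff_of_pos_right ht0]
  exact h1

theorem ebl_high (q n t t1 : ℕ) (hq : 2 ≤ q) (hn : 1 ≤ n) (hnq : n ≤ q ^ t1) (ht : 0 < t)
    (htt : t1 ≤ t) : (SB q n t : ℝ) / t / (q : ℝ) ^ t ≤ ((1 : ℝ) / 2) ^ (t - t1) := by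
  have ht0 : (0 : ℝ) < t := by exact_mod_cast ht
  have hq' : (2 : ℝ) ≤ q := by exact_mod_cast hq
  have hqt : (0 : ℝ) < (q : ℝ) ^ t := by positivity
  have hnq' : (n : ℝ) ≤ (q : ℝ) ^ t1 := by exact_mod_cast hnq
  have hpow : (q : ℝ) ^ t1 / (q : ℝ) ^ t ≤ ((1 : ℝ) / 2) ^ (t - t1) := by
    have e : (q : ℝ) ^ t = (q : ℝ) ^ t1 * (q : ℝ) ^ (t - t1) := by
      rw [← pow_add]
      congr 1
      omega
    rw [e, div_mul_eq_div_div, div_self (by positivity), one_div_pow]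
    gcongr
  have h1 : (SB q n t : ℝ) ≤ t * n := by
    have h2 : SB q n t ≤ t * n :=
      (sb_tau q n t hn).trans (Nat.mul_le_mul_right _ (Nat.card_divisors_le_self t))
    exact_mod_cast h2
  calc (SB q n t : ℝ) / t / (q : ℝ) ^ t ≤ (t * n : ℝ) / t / (q : ℝ) ^ t := by gcongr
    _ = n / (q : ℝ) ^ t := by field_simp
    _ ≤ (q : ℝ) ^ t1 / (q : ℝ) ^ t := by gcongr
    _ ≤ ((1 : ℝ) / 2) ^ (t - t1) := hpow

theorem eb_le (q n T : ℕ) (hq : 2 ≤ q) (hn : 1 ≤ n) :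
    EB q n T ≤ 2 * (Nat.clog q n : ℝ) + 2 := by
  set t1 := Nat.clog q n with ht1
  have hnq : n ≤ q ^ t1 := Nat.le_pow_clog (by omega) n
  have hone : ∀ t ∈ Icc 1 T, (SB q n t : ℝ) / t / (q : ℝ) ^ t ≤
      (if t < t1 then ∑ j ∈ t.divisors, (1 : ℝ) / j else ((1 : ℝ) / 2) ^ (t - t1)) := by
    intro t ht
    rw [mem_Icc] at ht
    split_ifs with h
    · exact ebl_low q n t hq ht.1
    · exact ebl_high q n t t1 hq hn hnq ht.1 (by omega)
  unfold EB
  refine (sum_le_sum hone).trans ?_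
  rw [sum_ite]
  have hA : ∑ t ∈ (Icc 1 T).filter (fun t => t < t1), ∑ j ∈ t.divisors, (1 : ℝ) / j ≤ 2 * t1 := by
    refine le_trans ?_ (Pool.Agent.MM.eb_sigma t1)
    apply sum_le_sum_of_subset_of_nonneg
    · intro t ht
      rw [mem_filter, mem_Icc] at ht
      rw [mem_Ioc]
      omega
    · intro t _ _
      positivity
  have hB : ∑ t ∈ (Icc 1 T).filter (fun t => ¬ t < t1), ((1 : ℝ) / 2) ^ (t - t1) ≤ 2 := by
    refine le_trans ?_ (Pool.Agent.MM.eb_geom t1 (T + 1))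
    apply sum_le_sum_of_subset_of_nonneg
    · intro t ht
      rw [mem_filter, mem_Icc] at ht
      rw [mem_Ico]
      omega
    · intro t _ _
      positivity
  linarith

theorem eb_one (q n : ℕ) (hq : 2 ≤ q) : EB q n 1 ≤ 1 := by
  unfold EB
  rw [Icc_self, sum_singleton, sb_one, Nat.cast_one, div_one, pow_one]
  have hq0 : (0 : ℝ) < q := by
    have : 0 < q := by omega
    exact_mod_cast this
  rw [div_le_one hq0]
  have h1 : n.gcd (q - 1) ≤ q :=
    (Nat.le_of_dvd (by omega) (Nat.gcd_dvd_right n (q - 1))).trans (Nat.sub_le _ _)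
  exact_mod_cast h1

theorem eb_zero (q n : ℕ) : EB q n 0 = 0 := by
  unfold EB
  rw [Icc_eq_empty (by norm_num), sum_empty]

end Pool.Agent.MM2
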