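import Mathlib

/-!
Bounds for the number of prime factors.
-/

namespace Pool.Agent.MM2

open Finset

/-- the general inequality: `W` contains all primes below `b` and consists of numbers at most `b` -/
theorem om8_gen (N b : ℕ) (hN : 0 < N) (W : Finset ℕ) (hW : ∀ p ∈ W, p ≤ b)
    (hP : ∀ p, p.Prime → p < b → p ∈ W) :
    b ^ N.primeFactors.card * ∏ p ∈ W, p ≤ N * b ^ W.card := by
  classical
  have h1 : b ^ N.primeFactors.card =
      (∏ _p ∈ N.primeFactors ∩ W, b) * ∏ _p ∈ N.primeFactors \ W, b := by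
    rw [Finset.prod_inter_mul_prod_sdiff N.primeFactors W (fun _ => b), Finset.prod_const]
  have h2 : ∏ _p ∈ N.primeFactors \ W, b ≤ ∏ p ∈ N.primeFactors \ W, p := by
    apply Finset.prod_le_prod'
    intro p hp
    rw [Finset.mem_sdiff] at hp
    by_contra hlt
    exact hp.2 (hP p (Nat.prime_of_mem_primeFactors hp.1) (by omega))
  have h3 : ∏ p ∈ W, p = (∏ p ∈ W ∩ N.primeFactors, p) * ∏ p ∈ W \ N.primeFactors, p :=
    (Finset.prod_inter_mul_prod_sdiff W N.primeFactors (fun p => p)).symm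
  have h4 : ∏ p ∈ W \ N.primeFactors, p ≤ ∏ _p ∈ W \ N.primeFactors, b := by
    apply Finset.prod_le_prod'
    intro p hp
    exact hW p (Finset.mem_sdiff.1 hp).1
  have h5 : ∏ p ∈ N.primeFactors, p =
      (∏ p ∈ W ∩ N.primeFactors, p) * ∏ p ∈ N.primeFactors \ W, p := by
    rw [Finset.inter_comm]
    exact (Finset.prod_inter_mul_prod_sdiff N.primeFactors W (fun p => p)).symm
  have h6 : b ^ W.card = (∏ _p ∈ N.primeFactors ∩ W, b) * ∏ _p ∈ W \ N.primeFactors, b := by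
    rw [Finset.inter_comm, Finset.prod_inter_mul_prod_sdiff W N.primeFactors (fun _ => b),
      Finset.prod_const]
  have h7 : ∏ p ∈ N.primeFactors, p ≤ N :=
    Nat.le_of_dvd hN (Nat.prod_primeFactors_dvd N)
  calc b ^ N.primeFactors.card * ∏ p ∈ W, p
      = ((∏ _p ∈ N.primeFactors ∩ W, b) * ∏ _p ∈ N.primeFactors \ W, b) *
        ((∏ p ∈ W ∩ N.primeFactors, p) * ∏ p ∈ W \ N.primeFactors, p) := by rw [← h1, ← h3]
    _ ≤ ((∏ _p ∈ N.primeFactors ∩ W, b) * ∏ p ∈ N.primeFactors \ W, p) *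
        ((∏ p ∈ W ∩ N.primeFactors, p) * ∏ _p ∈ W \ N.primeFactors, b) :=
        Nat.mul_le_mul (Nat.mul_le_mul le_rfl h2) (Nat.mul_le_mul le_rfl h4)
    _ = ((∏ p ∈ W ∩ N.primeFactors, p) * ∏ p ∈ N.primeFactors \ W, p) *
        ((∏ _p ∈ N.primeFactors ∩ W, b) * ∏ _p ∈ W \ N.primeFactors, b) := by ring
    _ = (∏ p ∈ N.primeFactors, p) * b ^ W.card := by rw [← h5, ← h6]
    _ ≤ N * b ^ W.card := Nat.mul_le_mul h7 le_rfl

/-- the general inequality for a list -/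
theorem om8_list (N b j c : ℕ) (hN : 0 < N) (hb : b = 2 ^ j) (L : List ℕ) (hL : L.Nodup)
    (hW : ∀ p ∈ L, p ≤ b) (hP : ∀ p, p.Prime → p < b → p ∈ L)
    (hc : b ^ L.length ≤ 2 ^ c * L.prod) (hpos : 0 < L.prod) :
    ((2 : ℝ) ^ N.primeFactors.card) ^ j ≤ 2 ^ c * (N : ℝ) := by
  have h1 := om8_gen N b hN ⟨L, hL⟩ (fun p hp => hW p hp) (fun p h1 h2 => hP p h1 h2)
  have h2 : ∏ p ∈ (⟨L, hL⟩ : Finset ℕ), p = L.prod := by
    rw [Finset.prod_mk]
    simp
  have h3 : (⟨L, hL⟩ : Finset ℕ).card = L.length := by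
    simp [Finset.card_mk]
  rw [h2, h3] at h1
  have h4 : b ^ N.primeFactors.card * L.prod ≤ (2 ^ c * N) * L.prod := by
    calc b ^ N.primeFactors.card * L.prod ≤ N * b ^ L.length := h1
      _ ≤ N * (2 ^ c * L.prod) := Nat.mul_le_mul le_rfl hc
      _ = (2 ^ c * N) * L.prod := by ring
  have h5 : b ^ N.primeFactors.card ≤ 2 ^ c * N := Nat.le_of_mul_le_mul_right h4 hpos
  have h6 : ((2 : ℝ) ^ N.primeFactors.card) ^ j = ((b ^ N.primeFactors.card : ℕ) : ℝ) := by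
    rw [hb]
    push_cast
    rw [← pow_mul, ← pow_mul, mul_comm]
  rw [h6]
  exact_mod_cast h5

theorem om4 (N : ℕ) (hN : 0 < N) :
    ((2 : ℝ) ^ N.primeFactors.card) ^ 4 ≤ 2 ^ 10 * (N : ℝ) := by
  refine om8_list N 16 4 10 hN (by norm_num) [2, 3, 5, 7, 11, 13] (by decide) (by decide) ?_
    (by norm_num) (by norm_num)
  intro p hp hlt
  interval_cases p <;> first | decide | (exfalso; revert hp; norm_num)

theorem om8_primes : ∀ p < 256, (p ∈ [2, 3, 5, 7, 11, 13, 17, 19, 23, 29, 31, 37, 41, 43, 47, 53,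
    59, 61, 67, 71, 73, 79, 83, 89, 97, 101, 103, 107, 109, 113, 127, 131, 137, 139, 149, 151, 157,
    163, 167, 173, 179, 181, 191, 193, 197, 199, 211, 223, 227, 229, 233, 239, 241, 251]) ∨
    p < 2 ∨ (2 ∣ p ∧ 2 < p) ∨ (3 ∣ p ∧ 3 < p) ∨ (5 ∣ p ∧ 5 < p) ∨ (7 ∣ p ∧ 7 < p) ∨
      (11 ∣ p ∧ 11 < p) ∨ (13 ∣ p ∧ 13 < p) := by
  decide +kernel

theorem om8 (N : ℕ) (hN : 0 < N) :
    ((2 : ℝ) ^ N.primeFactors.card) ^ 8 ≤ 2 ^ 98 * (N : ℝ) := by
  refine om8_list N 256 8 98 hN (by norm_num) [2, 3, 5, 7, 11, 13, 17, 19, 23, 29, 31, 37, 41, 43,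
    47, 53, 59, 61, 67, 71, 73, 79, 83, 89, 97, 101, 103, 107, 109, 113, 127, 131, 137, 139, 149,
    151, 157, 163, 167, 173, 179, 181, 191, 193, 197, 199, 211, 223, 227, 229, 233, 239, 241, 251]
    (by decide +kernel) (by decide +kernel) ?_
    (by norm_num) (by norm_num)
  intro p hp hlt
  have hd : ∀ m, 2 ≤ m → ¬ (m ∣ p ∧ m < p) := by
    intro m hm ⟨h1, h2⟩
    rcases (Nat.dvd_prime hp).1 h1 with h3 | h3 <;> omega
  rcases om8_primes p hlt with h | h | h | h | h | h | h | h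
  · exact h
  · exact absurd hp.two_le (by omega)
  · exact absurd h (hd 2 (by norm_num))
  · exact absurd h (hd 3 (by norm_num))
  · exact absurd h (hd 5 (by norm_num))
  · exact absurd h (hd 7 (by norm_num))
  · exact absurd h (hd 11 (by norm_num))
  · exact absurd h (hd 13 (by norm_num))

end Pool.Agent.MM2
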