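import Mathlib

/-!
Number of divisors.
-/

namespace Pool.Agent.MM2

open Finset

theorem tau_card_le {k : ℕ} (hk : 0 < k) : k.divisors.card ≤ 2 * Nat.sqrt k := by
  have h1 : (k.divisors.filter (fun d => d ≤ Nat.sqrt k)).card ≤ Nat.sqrt k := by
    calc (k.divisors.filter (fun d => d ≤ Nat.sqrt k)).card
        ≤ (Icc 1 (Nat.sqrt k)).card := by
          refine Finset.card_le_card (fun d hd => ?_)
          rw [mem_filter, Nat.mem_divisors] at hd
          rw [mem_Icc]
          exact ⟨Nat.pos_of_dvd_of_pos hd.1.1 hk, hd.2⟩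
      _ = Nat.sqrt k := by simp
  have h2 : (k.divisors.filter (fun d => ¬ d ≤ Nat.sqrt k)).card ≤ Nat.sqrt k := by
    calc (k.divisors.filter (fun d => ¬ d ≤ Nat.sqrt k)).card
        ≤ (Icc 1 (Nat.sqrt k)).card := by
          refine Finset.card_le_card_of_injOn (fun d => k / d) ?_ ?_
          · intro d hd
            rw [Finset.mem_coe, mem_filter, Nat.mem_divisors] at hd
            rw [Finset.mem_coe, mem_Icc]
            have hd0 : 0 < d := Nat.pos_of_dvd_of_pos hd.1.1 hk
            refine ⟨Nat.div_pos (Nat.le_of_dvd hk hd.1.1) hd0, ?_⟩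
            have h3 : k / d < Nat.sqrt k + 1 := by
              rw [Nat.div_lt_iff_lt_mul hd0]
              have h4 : k < (Nat.sqrt k + 1) * (Nat.sqrt k + 1) := Nat.lt_succ_sqrt k
              have h5 : Nat.sqrt k + 1 ≤ d := by omega
              exact lt_of_lt_of_le h4 (Nat.mul_le_mul_left _ h5)
            exact Nat.le_of_lt_succ h3
          · intro d hd d' hd' hdd
            rw [Finset.mem_coe, mem_filter, Nat.mem_divisors] at hd hd'
            have e1 := Nat.div_div_self hd.1.1 hk.ne'
            have e2 := Nat.div_div_self hd'.1.1 hk.ne'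
            have hdd' : k / d = k / d' := hdd
            rw [← e1, ← e2, hdd']
      _ = Nat.sqrt k := by simp
  have h3 := Finset.card_filter_add_card_filter_not (s := k.divisors)
    (fun d => d ≤ Nat.sqrt k)
  omega

theorem tau_sqrt (t : ℕ) : (t.divisors.card : ℝ) ≤ 2 * √(t : ℝ) := by
  rcases Nat.eq_zero_or_pos t with h | h
  · subst h
    simp
  · have h1 := tau_card_le h
    have h2 : ((Nat.sqrt t : ℕ) : ℝ) ≤ √(t : ℝ) := Real.nat_sqrt_le_real_sqrt
    have h3 : (t.divisors.card : ℝ) ≤ 2 * (Nat.sqrt t : ℕ) := by exact_mod_cast h1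
    linarith

theorem tau_half (t : ℕ) (ht : 7 ≤ t) : (t.divisors.card : ℝ) / t ≤ 1 / 2 := by
  have ht0 : (0 : ℝ) < t := by
    have : 0 < t := by omega
    exact_mod_cast this
  rw [div_le_iff₀ ht0]
  rcases Nat.lt_or_ge t 16 with h | h
  · have h1 : ∀ t ∈ Finset.range 16, 7 ≤ t → 2 * t.divisors.card ≤ t := by decide
    have h2 := h1 t (Finset.mem_range.2 h) ht
    have h3 : (2 : ℝ) * t.divisors.card ≤ t := by exact_mod_cast h2
    linarith
  · have h1 := tau_sqrt t
    have h2 : √(t : ℝ) * √(t : ℝ) = t := Real.mul_self_sqrt ht0.le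
    have h3 : (4 : ℝ) ≤ √(t : ℝ) := by
      apply Real.le_sqrt_of_sq_le
      have : (16 : ℝ) ≤ t := by exact_mod_cast h
      linarith
    nlinarith

theorem tau_one (t : ℕ) (ht : 1 ≤ t) : (t.divisors.card : ℝ) / t ≤ 1 := by
  have ht0 : (0 : ℝ) < t := by exact_mod_cast ht
  rw [div_le_iff₀ ht0, one_mul]
  exact_mod_cast Nat.card_divisors_le_self t

theorem tau_32 (t : ℕ) (ht : 32 ≤ t) : (t.divisors.card : ℝ) / t ≤ 354 / 1000 := by
  have ht0 : (0 : ℝ) < t := by
    have : 0 < t := by omega
    exact_mod_cast this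
  rw [div_le_iff₀ ht0]
  have h1 := tau_sqrt t
  have h2 : √(t : ℝ) * √(t : ℝ) = t := Real.mul_self_sqrt ht0.le
  have h3 : (565 / 100 : ℝ) ≤ √(t : ℝ) := by
    apply Real.le_sqrt_of_sq_le
    have : (32 : ℝ) ≤ t := by exact_mod_cast ht
    linarith
  nlinarith

theorem tau_sum (T : ℕ) (hT : 7 ≤ T) :
    ∑ t ∈ Icc 1 T, (t.divisors.card : ℝ) / t ≤ (T : ℝ) / 2 + 3 / 2 := by
  induction T, hT using Nat.le_induction with
  | base =>
    have h1 : (Nat.divisors 1).card = 1 := by decide
    have h2 : (Nat.divisors 2).card = 2 := by decide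
    have h3 : (Nat.divisors 3).card = 2 := by decide
    have h4 : (Nat.divisors 4).card = 3 := by decide
    have h5 : (Nat.divisors 5).card = 2 := by decide
    have h6 : (Nat.divisors 6).card = 4 := by decide
    have h7 : (Nat.divisors 7).card = 2 := by decide
    have h8 : Icc 1 7 = {1, 2, 3, 4, 5, 6, 7} := by decide
    rw [h8]
    rw [Finset.sum_insert (by decide), Finset.sum_insert (by decide),
      Finset.sum_insert (by decide), Finset.sum_insert (by decide),
      Finset.sum_insert (by decide), Finset.sum_insert (by decide), Finset.sum_singleton,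
      h1, h2, h3, h4, h5, h6, h7]
    norm_num
  | succ T hT ih =>
    rw [Finset.sum_Icc_succ_top (by omega)]
    have h1 := tau_half (T + 1) (by omega)
    push_cast at h1 ⊢
    linarith

theorem sigma_half (t : ℕ) : ∑ d ∈ t.divisors, (d : ℝ) ≤ t * (t + 1) / 2 := by
  have h1 : t.divisors ⊆ Finset.range (t + 1) := by
    intro d hd
    rw [Finset.mem_range]
    have := Nat.divisor_le hd
    omega
  have h2 : ∑ d ∈ t.divisors, (d : ℝ) ≤ ∑ d ∈ Finset.range (t + 1), (d : ℝ) :=
    Finset.sum_le_sum_of_subset_of_nonneg h1 (fun d _ _ => Nat.cast_nonneg d)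
  have h3 : ∑ d ∈ Finset.range (t + 1), (d : ℝ) = t * (t + 1) / 2 := by
    induction t with
    | zero => simp
    | succ t ih =>
      rw [Finset.sum_range_succ, ih (by
        intro d hd
        rw [Finset.mem_range]
        have := Nat.divisor_le hd
        omega) (Finset.sum_le_sum_of_subset_of_nonneg (by
        intro d hd
        rw [Finset.mem_range]
        have := Nat.divisor_le hd
        omega) (fun d _ _ => Nat.cast_nonneg d))]
      push_cast
      ring
  rw [← h3]
  exact h2

end Pool.Agent.MM2
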