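import Mathlib
import Pool.Agent.MM2.Defs
import Pool.Agent.MM2.SBL
import Pool.Agent.MM2.TAU

/-!
Bounds for the tail sum.
-/

namespace Pool.Agent.MM2

open Finset

theorem tbl_split (f : ℕ → ℝ) (hf : ∀ t, 0 ≤ f t) (T T2 n : ℕ) :
    ∑ t ∈ Ioc T n, f t ≤ ∑ t ∈ Ioc T T2, f t + ∑ t ∈ Ioc T2 n, f t := by
  rw [← sum_union]
  · apply sum_le_sum_of_subset_of_nonneg
    · intro t ht
      rw [mem_union, mem_Ioc, mem_Ioc]
      rw [mem_Ioc] at ht
      omega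
    · intro t _ _
      exact hf t
  · rw [disjoint_left]
    intro t h1 h2
    rw [mem_Ioc] at h1 h2
    omega

theorem tbl_geo (q : ℝ) (hq : 2 ≤ q) (a b : ℕ) :
    ∑ t ∈ Ioc a b, 1 / q ^ t ≤ 1 / (q ^ a * (q - 1)) := by
  have hq0 : 0 < q := by linarith
  have hq1 : 0 < q - 1 := by linarith
  rcases Nat.lt_or_ge b a with h | h
  · rw [Ioc_eq_empty (by omega), sum_empty]
    positivity
  have key : ∑ t ∈ Ioc a b, 1 / q ^ t = (1 / q ^ a - 1 / q ^ b) / (q - 1) := by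
    induction b, h using Nat.le_induction with
    | base => rw [Ioc_self, sum_empty, sub_self, zero_div]
    | succ b hb ih =>
      rw [sum_Ioc_succ_top hb, ih]
      field_simp
      ring
  rw [key, sub_div]
  have h1 : (0 : ℝ) ≤ 1 / q ^ b / (q - 1) := by positivity
  have h2 : 1 / q ^ a / (q - 1) = 1 / (q ^ a * (q - 1)) := by rw [div_div]
  rw [← h2]
  linarith

theorem tbl_term (q n t : ℕ) (hq : 2 ≤ q) (hn : 1 ≤ n) (c : ℝ)
    (hc : (t.divisors.card : ℝ) / t ≤ c) :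
    (SB q n t : ℝ) / t / (q : ℝ) ^ t ≤ c * n * (1 / (q : ℝ) ^ t) := by
  have hq0 : (0 : ℝ) < (q : ℝ) ^ t := by
    have : (0 : ℝ) < q := by exact_mod_cast (by omega : 0 < q)
    positivity
  have h1 : (SB q n t : ℝ) ≤ t.divisors.card * n := by exact_mod_cast sb_tau q n t hn
  have h2 : (SB q n t : ℝ) / t ≤ c * n := by
    calc (SB q n t : ℝ) / t ≤ (t.divisors.card * n : ℝ) / t := by
          apply div_le_div_of_nonneg_right h1
          positivity
      _ = (t.divisors.card : ℝ) / t * n := by ring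
      _ ≤ c * n := by
          apply mul_le_mul_of_nonneg_right hc
          positivity
  calc (SB q n t : ℝ) / t / (q : ℝ) ^ t ≤ c * n / (q : ℝ) ^ t :=
        div_le_div_of_nonneg_right h2 hq0.le
    _ = c * n * (1 / (q : ℝ) ^ t) := by ring

theorem tbl_tail (q n T : ℕ) (hq : 2 ≤ q) (hn : 1 ≤ n) (c : ℝ) (hc0 : 0 ≤ c)
    (hc : ∀ t, T < t → (t.divisors.card : ℝ) / t ≤ c) :
    ∑ t ∈ Ioc T n, (SB q n t : ℝ) / t / (q : ℝ) ^ t ≤ c * n / ((q : ℝ) ^ T * (q - 1)) := by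
  have hq' : (2 : ℝ) ≤ q := by exact_mod_cast hq
  calc ∑ t ∈ Ioc T n, (SB q n t : ℝ) / t / (q : ℝ) ^ t
      ≤ ∑ t ∈ Ioc T n, c * n * (1 / (q : ℝ) ^ t) := by
        apply sum_le_sum
        intro t ht
        rw [mem_Ioc] at ht
        exact tbl_term q n t hq hn c (hc t ht.1)
    _ = c * n * ∑ t ∈ Ioc T n, 1 / (q : ℝ) ^ t := by rw [mul_sum]
    _ ≤ c * n * (1 / ((q : ℝ) ^ T * (q - 1))) := by
        apply mul_le_mul_of_nonneg_left (tbl_geo q hq' T n)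
        positivity
    _ = c * n / ((q : ℝ) ^ T * (q - 1)) := by ring

theorem tb_le (q n T : ℕ) (hq : 2 ≤ q) (hn : 1 ≤ n) :
    TB q n T ≤ n / ((q : ℝ) ^ T * (q - 1)) := by
  have h := tbl_tail q n T hq hn 1 zero_le_one (fun t ht => tau_one t (by omega))
  rw [one_mul] at h
  exact h

theorem tb_le2 (q n T T2 : ℕ) (hq : 2 ≤ q) (hn : 1 ≤ n) (hT : T ≤ T2) :
    TB q n T ≤ ∑ t ∈ Ioc T T2, (SB q n t : ℝ) / t / (q : ℝ) ^ t +
      n / ((q : ℝ) ^ T2 * (q - 1)) := by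
  have h1 := tb_le q n T2 hq hn
  have h2 := tbl_split (fun t => (SB q n t : ℝ) / t / (q : ℝ) ^ t)
    (fun t => by positivity) T T2 n
  unfold TB at h1 ⊢
  exact le_trans h2 (by linarith)

theorem tb_le3 (q n T T2 : ℕ) (hq : 2 ≤ q) (hn : 1 ≤ n) (hT : T ≤ T2) (h6 : 6 ≤ T2) :
    TB q n T ≤ ∑ t ∈ Ioc T T2, (t.divisors.card * n : ℝ) / t / (q : ℝ) ^ t +
      n / (2 * (q : ℝ) ^ T2 * (q - 1)) := by
  have h1 := tbl_tail q n T2 hq hn (1 / 2) (by norm_num) (fun t ht => tau_half t (by omega))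
  have h2 := tbl_split (fun t => (SB q n t : ℝ) / t / (q : ℝ) ^ t)
    (fun t => by positivity) T T2 n
  have h3 : (1 / 2 : ℝ) * n / ((q : ℝ) ^ T2 * (q - 1)) = n / (2 * (q : ℝ) ^ T2 * (q - 1)) := by
    rw [mul_assoc 2, one_div, inv_mul_eq_div, div_div]
  have h4 : ∑ t ∈ Ioc T T2, (SB q n t : ℝ) / t / (q : ℝ) ^ t ≤
      ∑ t ∈ Ioc T T2, (t.divisors.card * n : ℝ) / t / (q : ℝ) ^ t := by
    apply sum_le_sum
    intro t _
    have h5 : (SB q n t : ℝ) ≤ t.divisors.card * n := by exact_mod_cast sb_tau q n t hn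
    apply div_le_div_of_nonneg_right _ (by positivity)
    exact div_le_div_of_nonneg_right h5 (by positivity)
  rw [h3] at h1
  unfold TB
  refine le_trans h2 ?_
  exact add_le_add h4 h1

end Pool.Agent.MM2
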