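import Mathlib
import Pool.Agent.MM2.Defs
import Pool.Agent.MM2.SIG
import Pool.Agent.MM2.OM8
import Pool.Agent.MM2.TBL
import Pool.Agent.MM2.EBL
import Pool.Agent.MM2.CRITN
import Pool.Agent.MM2.BIGC

/-!
Large base fields.
-/

namespace Pool.Agent.MM2

open Finset

private theorem a1_aux (q n : ℕ) (hq5 : 5 ≤ q) (hn : 1 ≤ n) (hnq : n + 1 ≤ q)
    (h : (2 : ℝ) ^ 10 * (2 + n * (Nat.log2 n + 1)) ^ 4 ≤
      (q : ℝ) ^ n * (1 - n / ((q : ℝ) - 1)) ^ 4) (h1 : (0 : ℝ) ≤ 1 - n / ((q : ℝ) - 1)) :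
    PN q n := by
  have hq2 : 2 ≤ q := by omega
  have hqn : 0 < q ^ n - 1 := by
    have : 1 < q ^ n := Nat.one_lt_pow (by omega) (by omega)
    omega
  apply critn q n 0 (Or.inr (Or.inr hq5)) ((q ^ n - 1).primeFactors) ∅ (by simp) (by simp) 1
    (Or.inr ⟨rfl, le_refl _⟩) (n * (Nat.log2 n + 1)) (sig_log n hn)
  have hTB := tb_le q n 0 hq2 hn
  have hKB : KB q n 0 = 0 := by simp [KB]
  rw [hKB, eb_zero]
  have hO := om4 (q ^ n - 1) hqn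
  set w : ℕ := (q ^ n - 1).primeFactors.card with hw
  have hcast : ((q ^ n - 1 : ℕ) : ℝ) ≤ (q : ℝ) ^ n := by
    have : ((q ^ n - 1 : ℕ) : ℝ) ≤ ((q ^ n : ℕ) : ℝ) := by exact_mod_cast Nat.sub_le _ _
    simpa using this
  have hqpos : (0 : ℝ) < (q : ℝ) ^ n := by positivity
  have hR : (1 - (n : ℝ) / ((q : ℝ) - 1)) ≤ 1 - ∑ s ∈ (∅ : Finset ℕ), 1 / (s : ℝ) - 1 * TB q n 0 := by
    simp only [sum_empty, pow_zero, one_mul, sub_zero] at hTB ⊢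
    linarith
  refine le_trans ?_ (mul_le_mul_of_nonneg_left hR (Real.sqrt_nonneg _))
  have hcalc : ((2 : ℝ) ^ (w + 0) * (2 + (∅ : Finset ℕ).card + ((n * (Nat.log2 n + 1) : ℕ) : ℝ)) *
      (2 : ℝ) ^ (cq q * (0 : ℝ))) ^ 4 ≤ (√((q : ℝ) ^ n) * (1 - (n : ℝ) / ((q : ℝ) - 1))) ^ 4 := by
    have e1 : (√((q : ℝ) ^ n)) ^ 4 = (q : ℝ) ^ n * (q : ℝ) ^ n := by
      have := Real.sq_sqrt hqpos.le
      calc (√((q : ℝ) ^ n)) ^ 4 = ((√((q : ℝ) ^ n)) ^ 2) ^ 2 := by ring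
        _ = _ := by rw [this]; ring
    have e2 : (√((q : ℝ) ^ n) * (1 - (n : ℝ) / ((q : ℝ) - 1))) ^ 4 =
        (q : ℝ) ^ n * (q : ℝ) ^ n * (1 - (n : ℝ) / ((q : ℝ) - 1)) ^ 4 := by
      rw [mul_pow, e1]
    rw [e2]
    simp only [add_zero, card_empty, Nat.cast_zero, mul_zero, Real.rpow_zero, mul_one, Nat.cast_mul,
      Nat.cast_add, Nat.cast_one]
    rw [mul_pow]
    calc ((2 : ℝ) ^ w) ^ 4 * (2 + (n : ℝ) * (Nat.log2 n + 1)) ^ 4
        ≤ (2 ^ 10 * (q : ℝ) ^ n) * (2 + (n : ℝ) * (Nat.log2 n + 1)) ^ 4 := by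
          apply mul_le_mul_of_nonneg_right _ (by positivity)
          exact hO.trans (mul_le_mul_of_nonneg_left hcast (by positivity))
      _ = (q : ℝ) ^ n * (2 ^ 10 * (2 + (n : ℝ) * (Nat.log2 n + 1)) ^ 4) := by ring
      _ ≤ (q : ℝ) ^ n * ((q : ℝ) ^ n * (1 - n / ((q : ℝ) - 1)) ^ 4) :=
          mul_le_mul_of_nonneg_left h hqpos.le
      _ = _ := by ring
  exact le_of_pow_le_pow_left₀ (by norm_num)
    (mul_nonneg (Real.sqrt_nonneg _) h1) hcalc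

private theorem a1_num (q n q0 : ℕ) (hq0 : 2 ≤ q0) (hq : q0 ≤ q) (h1 : n + 1 ≤ q0)
    (h : (2 : ℝ) ^ 10 * (2 + n * (Nat.log2 n + 1)) ^ 4 ≤
      (q0 : ℝ) ^ n * (1 - n / ((q0 : ℝ) - 1)) ^ 4) :
    (2 : ℝ) ^ 10 * (2 + n * (Nat.log2 n + 1)) ^ 4 ≤
      (q : ℝ) ^ n * (1 - n / ((q : ℝ) - 1)) ^ 4 ∧ (0 : ℝ) ≤ 1 - n / ((q : ℝ) - 1) := by
  have hq0' : (2 : ℝ) ≤ q0 := by exact_mod_cast hq0
  have hq' : (q0 : ℝ) ≤ q := by exact_mod_cast hq
  have h1' : (n : ℝ) + 1 ≤ q0 := by exact_mod_cast h1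
  have hA : (n : ℝ) / ((q0 : ℝ) - 1) ≤ 1 := by
    rw [div_le_one (by linarith)]; linarith
  have hB : (n : ℝ) / ((q : ℝ) - 1) ≤ n / ((q0 : ℝ) - 1) := by
    apply div_le_div_of_nonneg_left (by positivity) (by linarith) (by linarith)
  refine ⟨h.trans ?_, by linarith⟩
  apply mul_le_mul
  · exact pow_le_pow_left₀ (by positivity) hq' n
  · exact pow_le_pow_left₀ (by linarith) (by linarith) 4
  · have : (0 : ℝ) ≤ 1 - n / ((q0 : ℝ) - 1) := by linarith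
    positivity
  · positivity

theorem a1 (q n : ℕ) (h : (n = 3 ∧ 283 ≤ q) ∨ (4 ≤ n ∧ n ≤ 31 ∧ 131 ≤ q)) : PN q n := by
  rcases h with ⟨rfl, hq⟩ | ⟨hn4, hn31, hq⟩
  · have := a1_num q 3 283 (by norm_num) hq (by norm_num) (by
      have : Nat.log2 3 = 1 := by decide +kernel
      rw [this]; norm_num)
    exact a1_aux q 3 (by omega) (by omega) (by omega) this.1 this.2
  · have hnum : (2 : ℝ) ^ 10 * (2 + n * (Nat.log2 n + 1)) ^ 4 ≤
      ((131 : ℕ) : ℝ) ^ n * (1 - n / (((131 : ℕ) : ℝ) - 1)) ^ 4 := by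
      have hl : Nat.log2 n ≤ 4 := by
        rw [Nat.log2_eq_log_two]
        have : Nat.log 2 n < 5 := Nat.log_lt_of_lt_pow (by omega) (by omega)
        omega
      have hl2 : (Nat.log2 n : ℝ) ≤ 4 := by exact_mod_cast hl
      rcases Nat.lt_or_ge n 8 with h8 | h8
      · have hl3 : Nat.log2 n ≤ 2 := by
          rw [Nat.log2_eq_log_two]
          have : Nat.log 2 n < 3 := Nat.log_lt_of_lt_pow (by omega) (by omega)
          omega
        have hl4 : (Nat.log2 n : ℝ) ≤ 2 := by exact_mod_cast hl3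
        refine le_trans (b := (2 : ℝ) ^ 10 * (2 + n * (2 + 1)) ^ 4) (by gcongr) ?_
        interval_cases n <;> norm_num
      · refine le_trans (b := (2 : ℝ) ^ 10 * (2 + n * (4 + 1)) ^ 4) (by gcongr) ?_
        interval_cases n <;> norm_num
    have := a1_num q n 131 (by norm_num) hq (by omega) hnum
    exact a1_aux q n (by omega) (by omega) (by omega) this.1 this.2

end Pool.Agent.MM2
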