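import Mathlib
import Pool.Agent.MM2.Defs
import Pool.Agent.MM2.SBL

/-!
Pairwise bound for the number of kernels.
-/

namespace Pool.Agent.MM2

open Finset

/-- two different numbers in `[1, T]` have a greatest common divisor at most `T / 2` -/
theorem pairk_gcd (T t t0 : ℕ) (h1 : 1 ≤ t) (h2 : t ≤ T) (h3 : 1 ≤ t0) (h4 : t0 ≤ T)
    (hne : t ≠ t0) : 2 * t.gcd t0 ≤ T := by
  obtain ⟨a, ha⟩ := Nat.gcd_dvd_left t t0
  obtain ⟨b, hb⟩ := Nat.gcd_dvd_right t t0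
  set g := t.gcd t0 with hg
  have ha1 : 1 ≤ a := by
    rcases Nat.eq_zero_or_pos a with h | h
    · rw [h, mul_zero] at ha; omega
    · exact h
  have hb1 : 1 ≤ b := by
    rcases Nat.eq_zero_or_pos b with h | h
    · rw [h, mul_zero] at hb; omega
    · exact h
  have hab : 2 ≤ a ∨ 2 ≤ b := by
    by_contra hcon
    push Not at hcon
    have e1 : a = 1 := by omega
    have e2 : b = 1 := by omega
    apply hne
    rw [ha, hb, e1, e2]
  rcases hab with h | h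
  · calc 2 * g = g * 2 := mul_comm _ _
      _ ≤ g * a := Nat.mul_le_mul_left _ h
      _ = t := ha.symm
      _ ≤ T := h2
  · calc 2 * g = g * 2 := mul_comm _ _
      _ ≤ g * b := Nat.mul_le_mul_left _ h
      _ = t0 := hb.symm
      _ ≤ T := h4

/-- the largest value of `GG` on the pairs `(d, t)` with `t ≤ T`, `d ∣ t` -/
theorem pairk_max (q n T : ℕ) (hT : 1 ≤ T) : ∃ t0 d0 : ℕ, 1 ≤ t0 ∧ t0 ≤ T ∧ d0 ∣ t0 ∧
    ∀ t d : ℕ, 1 ≤ t → t ≤ T → d ∣ t → GG q n d t ≤ GG q n d0 t0 := by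
  classical
  set S : Finset (Σ _ : ℕ, ℕ) := (Icc 1 T).sigma (fun t => t.divisors) with hS
  have hne : S.Nonempty := by
    refine ⟨⟨1, 1⟩, ?_⟩
    rw [hS, mem_sigma]
    exact ⟨mem_Icc.2 ⟨le_rfl, hT⟩, by simp⟩
  obtain ⟨⟨t0, d0⟩, hm, hmax⟩ := S.exists_max_image (fun p => GG q n p.2 p.1) hne
  rw [hS, mem_sigma] at hm
  obtain ⟨h1, h2⟩ := hm
  simp only at h1 h2
  refine ⟨t0, d0, (mem_Icc.1 h1).1, (mem_Icc.1 h1).2, Nat.dvd_of_mem_divisors h2, ?_⟩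
  intro t d ht htT hd
  have := hmax ⟨t, d⟩ (by
    rw [hS, mem_sigma]
    exact ⟨mem_Icc.2 ⟨ht, htT⟩, Nat.mem_divisors.2 ⟨hd, Nat.pos_iff_ne_zero.1 ht⟩⟩)
  exact this

theorem pairk (q n T : ℕ) (hq : 2 ≤ q) (hn : 1 ≤ n) (hT : 1 ≤ T) :
    ∃ t0 : ℕ, 1 ≤ t0 ∧ t0 ≤ T ∧ (KB q n T : ℝ) ≤
      min ((t0.divisors.card : ℝ) * n / t0) ((∑ d ∈ t0.divisors, (d : ℝ)) * (q : ℝ) ^ t0 / t0) +
      (∑ t ∈ Icc 1 T, (t.divisors.card : ℝ) / t) *
        (T * (((n : ℝ) ^ 2 * (q : ℝ) ^ T) ^ ((1 : ℝ) / 4))) := by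
  obtain ⟨t0, d0, ht0, ht0T, hd0, hmax⟩ := pairk_max q n T hT
  refine ⟨t0, ht0, ht0T, ?_⟩
  have hqR : (1 : ℝ) ≤ q := by exact_mod_cast (by omega : 1 ≤ q)
  have hnR : (1 : ℝ) ≤ n := by exact_mod_cast hn
  set y : ℝ := ((n : ℝ) ^ 2 * (q : ℝ) ^ T) ^ ((1 : ℝ) / 4) with hy
  have hbase : (0 : ℝ) ≤ (n : ℝ) ^ 2 * (q : ℝ) ^ T := by positivity
  have hy0 : 0 ≤ y := Real.rpow_nonneg hbase _
  have hy4 : y ^ 4 = (n : ℝ) ^ 2 * (q : ℝ) ^ T := by
    rw [hy, ← Real.rpow_natCast, ← Real.rpow_mul hbase]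
    norm_num
  -- the terms with `t ≠ t0`
  have hother : ∀ t ∈ (Icc 1 T).erase t0, ((SB q n t / t : ℕ) : ℝ) ≤
      (t.divisors.card : ℝ) / t * (T * y) := by
    intro t ht
    obtain ⟨hne, ht⟩ := mem_erase.1 ht
    obtain ⟨ht1, htT⟩ := mem_Icc.1 ht
    have htR : (0 : ℝ) < t := by exact_mod_cast (by omega : 0 < t)
    have hGG : ∀ d ∈ t.divisors, (GG q n d t : ℝ) ≤ T * y := by
      intro d hd
      have hdt : d ∣ t := Nat.dvd_of_mem_divisors hd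
      have hd1 : 1 ≤ d := Nat.pos_of_dvd_of_pos hdt ht1
      have hd01 : 1 ≤ d0 := Nat.pos_of_dvd_of_pos hd0 ht0
      have hdT : d ≤ T := (Nat.le_of_dvd ht1 hdt).trans htT
      have hd0T : d0 ≤ T := (Nat.le_of_dvd ht0 hd0).trans ht0T
      have h1 := hmax t d ht1 htT hdt
      have h2 := gg_mul q n d t d0 t0 hq hn hd1 ht1 hd01 ht0
      have h3 : GG q n d t * GG q n d t ≤ n * (T * T * q ^ (t.gcd t0)) := by
        calc GG q n d t * GG q n d t ≤ GG q n d t * GG q n d0 t0 := Nat.mul_le_mul_left _ h1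
          _ ≤ n * (d * d0 * (q ^ (t.gcd t0) - 1)) := h2
          _ ≤ n * (T * T * q ^ (t.gcd t0)) :=
            Nat.mul_le_mul_left _ (Nat.mul_le_mul (Nat.mul_le_mul hdT hd0T) (Nat.sub_le _ _))
      have h4 : (GG q n d t : ℝ) ^ 2 ≤ n * (T * T * (q : ℝ) ^ (t.gcd t0)) := by
        rw [pow_two]
        exact_mod_cast h3
      have h5 : (GG q n d t : ℝ) ^ 4 ≤ (T * y) ^ 4 := by
        calc (GG q n d t : ℝ) ^ 4 = ((GG q n d t : ℝ) ^ 2) ^ 2 := by ring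
          _ ≤ (n * (T * T * (q : ℝ) ^ (t.gcd t0))) ^ 2 :=
            pow_le_pow_left₀ (by positivity) h4 2
          _ = (T : ℝ) ^ 4 * ((n : ℝ) ^ 2 * (q : ℝ) ^ (2 * t.gcd t0)) := by ring
          _ ≤ (T : ℝ) ^ 4 * ((n : ℝ) ^ 2 * (q : ℝ) ^ T) := by
            apply mul_le_mul_of_nonneg_left _ (by positivity)
            apply mul_le_mul_of_nonneg_left _ (by positivity)
            exact pow_le_pow_right₀ hqR (pairk_gcd T t t0 ht1 htT ht0 ht0T hne)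
          _ = (T * y) ^ 4 := by rw [mul_pow, hy4]
      exact (pow_le_pow_iff_left₀ (by positivity) (by positivity) (by norm_num)).1 h5
    calc ((SB q n t / t : ℕ) : ℝ) ≤ (SB q n t : ℝ) / t := Nat.cast_div_le
      _ ≤ (t.divisors.card * (T * y)) / t := by
        apply div_le_div_of_nonneg_right _ htR.le
        have h1 : (SB q n t : ℝ) ≤ ∑ d ∈ t.divisors, (GG q n d t : ℝ) := by
          exact_mod_cast sb_gg q n t
        refine h1.trans ((sum_le_card_nsmul _ _ _ hGG).trans ?_)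
        rw [nsmul_eq_mul]
      _ = (t.divisors.card : ℝ) / t * (T * y) := by ring
  -- the term `t0`
  have ht0R : (0 : ℝ) < t0 := by exact_mod_cast (by omega : 0 < t0)
  have hmain : ((SB q n t0 / t0 : ℕ) : ℝ) ≤
      min ((t0.divisors.card : ℝ) * n / t0)
        ((∑ d ∈ t0.divisors, (d : ℝ)) * (q : ℝ) ^ t0 / t0) := by
    refine Nat.cast_div_le.trans (le_min ?_ ?_)
    · apply div_le_div_of_nonneg_right _ ht0R.le
      exact_mod_cast sb_tau q n t0 hn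
    · apply div_le_div_of_nonneg_right _ ht0R.le
      have h1 := (sb_sig q n t0 hq ht0).trans (Nat.mul_le_mul_left _ (Nat.sub_le _ 1))
      have h2 : (SB q n t0 : ℝ) ≤ ((∑ d ∈ t0.divisors, d) * q ^ t0 : ℕ) := by
        exact_mod_cast h1
      refine h2.trans (le_of_eq ?_)
      push_cast
      ring
  have hmem : t0 ∈ Icc 1 T := mem_Icc.2 ⟨ht0, ht0T⟩
  have hKB : (KB q n T : ℝ) = ((SB q n t0 / t0 : ℕ) : ℝ) +
      ∑ t ∈ (Icc 1 T).erase t0, ((SB q n t / t : ℕ) : ℝ) := by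
    unfold KB
    rw [Nat.cast_sum]
    exact (add_sum_erase _ (fun t => ((SB q n t / t : ℕ) : ℝ)) hmem).symm
  rw [hKB]
  refine add_le_add hmain ((sum_le_sum hother).trans ?_)
  rw [← sum_mul]
  refine mul_le_mul_of_nonneg_right ?_ (by positivity)
  exact sum_le_sum_of_subset_of_nonneg (erase_subset _ _) fun t _ _ => by positivity

end Pool.Agent.MM2
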