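import Mathlib
import Pool.Agent.MM2.Defs
import Pool.Agent.MM2.SBL
import Pool.Agent.MM2.TAU
import Pool.Agent.MM2.PAIRK

/-!
Number of kernels, middle range.
-/

namespace Pool.Agent.MM2

open Finset

theorem a2k_pow (q n T t : ℕ) (hq : 11 ≤ q) (ht : t ≤ T) (h : 3 * q ^ T < 5 * n) :
    (q : ℝ) ^ t ≤ 5 / 3 * n / 11 ^ (T - t) := by
  have h1 : 11 ^ (T - t) * q ^ t ≤ q ^ T := by
    calc 11 ^ (T - t) * q ^ t ≤ q ^ (T - t) * q ^ t := by gcongr
      _ = q ^ T := by rw [← pow_add]; congr 1; omega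
  have h2 : (11 : ℝ) ^ (T - t) * (q : ℝ) ^ t ≤ (q : ℝ) ^ T := by exact_mod_cast h1
  have h3 : (3 : ℝ) * (q : ℝ) ^ T ≤ 5 * n := by exact_mod_cast h.le
  rw [le_div_iff₀ (by positivity)]
  linarith

theorem a2k_term (q n T t : ℕ) (c : ℝ) (hq : 11 ≤ q) (ht1 : 1 ≤ t) (ht : t ≤ T)
    (h : 3 * q ^ T < 5 * n) (hc : ((∑ d ∈ t.divisors, d : ℕ) : ℝ) ≤ c * t) (hc0 : 0 ≤ c) :
    ((SB q n t / t : ℕ) : ℝ) ≤ c * (5 / 3 * n / 11 ^ (T - t)) := by
  have ht0 : (0 : ℝ) < t := by exact_mod_cast ht1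
  have h1 : ((SB q n t / t : ℕ) : ℝ) ≤ (SB q n t : ℝ) / t := Nat.cast_div_le
  have h2 : (SB q n t : ℝ) ≤ ((∑ d ∈ t.divisors, d : ℕ) : ℝ) * (q : ℝ) ^ t := by
    have h3 := sb_sig q n t (by omega) ht1
    have h4 : SB q n t ≤ (∑ d ∈ t.divisors, d) * q ^ t :=
      h3.trans (Nat.mul_le_mul_left _ (Nat.sub_le _ _))
    exact_mod_cast h4
  refine h1.trans ?_
  rw [div_le_iff₀ ht0]
  calc (SB q n t : ℝ) ≤ ((∑ d ∈ t.divisors, d : ℕ) : ℝ) * (q : ℝ) ^ t := h2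
    _ ≤ (c * t) * (5 / 3 * n / 11 ^ (T - t)) := by
        apply mul_le_mul hc (a2k_pow q n T t hq ht h) (by positivity) (by positivity)
    _ = c * (5 / 3 * n / 11 ^ (T - t)) * t := by ring

theorem a2k_last (q n t : ℕ) (c : ℝ) (hn : 1 ≤ n) (ht1 : 1 ≤ t)
    (hc : (t.divisors.card : ℝ) ≤ c * t) : ((SB q n t / t : ℕ) : ℝ) ≤ c * n := by
  have ht0 : (0 : ℝ) < t := by exact_mod_cast ht1
  have h1 : ((SB q n t / t : ℕ) : ℝ) ≤ (SB q n t : ℝ) / t := Nat.cast_div_le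
  have h2 : (SB q n t : ℝ) ≤ (t.divisors.card : ℝ) * n := by exact_mod_cast sb_tau q n t hn
  refine h1.trans ?_
  rw [div_le_iff₀ ht0]
  calc (SB q n t : ℝ) ≤ (t.divisors.card : ℝ) * n := h2
    _ ≤ (c * t) * n := by gcongr
    _ = c * n * t := by ring

theorem a2k_mid (q n T : ℕ) (hq : 11 ≤ q) (hn : 1 ≤ n) (hT : 2 ≤ T) (hT6 : T ≤ 6)
    (h : 3 * q ^ T < 5 * n) : (KB q n T : ℝ) ≤ 1152 / 1000 * n := by
  have hnR : (0 : ℝ) < n := by exact_mod_cast hn
  have t1 : ∀ t : ℕ, t = 1 → ((∑ d ∈ t.divisors, d : ℕ) : ℝ) ≤ 1 * t := by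
    rintro _ rfl
    have : (∑ d ∈ (1 : ℕ).divisors, d) = 1 := by decide
    rw [this]; norm_num
  have t2 : ∀ t : ℕ, t = 2 → ((∑ d ∈ t.divisors, d : ℕ) : ℝ) ≤ 3 / 2 * t := by
    rintro _ rfl
    have : (∑ d ∈ (2 : ℕ).divisors, d) = 3 := by decide
    rw [this]; norm_num
  have t3 : ∀ t : ℕ, t = 3 → ((∑ d ∈ t.divisors, d : ℕ) : ℝ) ≤ 4 / 3 * t := by
    rintro _ rfl
    have : (∑ d ∈ (3 : ℕ).divisors, d) = 4 := by decide
    rw [this]; norm_num
  have t4 : ∀ t : ℕ, t = 4 → ((∑ d ∈ t.divisors, d : ℕ) : ℝ) ≤ 7 / 4 * t := by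
    rintro _ rfl
    have : (∑ d ∈ (4 : ℕ).divisors, d) = 7 := by decide
    rw [this]; norm_num
  have t5 : ∀ t : ℕ, t = 5 → ((∑ d ∈ t.divisors, d : ℕ) : ℝ) ≤ 6 / 5 * t := by
    rintro _ rfl
    have : (∑ d ∈ (5 : ℕ).divisors, d) = 6 := by decide
    rw [this]; norm_num
  have hKB : ∀ S : ℕ, KB q n (S + 1) = KB q n S + SB q n (S + 1) / (S + 1) := by
    intro S
    unfold KB
    rw [Finset.sum_Icc_succ_top (by omega)]
  have hK0 : KB q n 0 = 0 := by simp [KB]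
  have term := fun (t : ℕ) (c : ℝ) => a2k_term q n T t c hq
  have e1 := hKB 0
  have e2 := hKB 1
  have e3 := hKB 2
  have e4 := hKB 3
  have e5 := hKB 4
  have e6 := hKB 5
  simp only [zero_add, Nat.reduceAdd, hK0] at e1 e2 e3 e4 e5 e6
  rcases (by omega : T = 2 ∨ T = 3 ∨ T = 4 ∨ T = 5 ∨ T = 6) with rfl | rfl | rfl | rfl | rfl
  · have a1 := term 1 1 (by norm_num) (by norm_num) h (t1 1 rfl) (by norm_num)
    have l := a2k_last q n 2 1 hn (by norm_num)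
      (by rw [show (2 : ℕ).divisors.card = 2 by decide]; norm_num)
    rw [e2, e1]
    push_cast at a1 ⊢
    norm_num at a1 ⊢
    linarith
  · have a1 := term 1 1 (by norm_num) (by norm_num) h (t1 1 rfl) (by norm_num)
    have a2 := term 2 (3 / 2) (by norm_num) (by norm_num) h (t2 2 rfl) (by norm_num)
    have l := a2k_last q n 3 (2 / 3) hn (by norm_num)
      (by rw [show (3 : ℕ).divisors.card = 2 by decide]; norm_num)
    rw [e3, e2, e1]
    push_cast at *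
    norm_num at a1 a2 l ⊢
    linarith
  · have a1 := term 1 1 (by norm_num) (by norm_num) h (t1 1 rfl) (by norm_num)
    have a2 := term 2 (3 / 2) (by norm_num) (by norm_num) h (t2 2 rfl) (by norm_num)
    have a3 := term 3 (4 / 3) (by norm_num) (by norm_num) h (t3 3 rfl) (by norm_num)
    have l := a2k_last q n 4 (3 / 4) hn (by norm_num)
      (by rw [show (4 : ℕ).divisors.card = 3 by decide]; norm_num)
    rw [e4, e3, e2, e1]
    push_cast at *
    norm_num at a1 a2 a3 l ⊢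
    linarith
  · have a1 := term 1 1 (by norm_num) (by norm_num) h (t1 1 rfl) (by norm_num)
    have a2 := term 2 (3 / 2) (by norm_num) (by norm_num) h (t2 2 rfl) (by norm_num)
    have a3 := term 3 (4 / 3) (by norm_num) (by norm_num) h (t3 3 rfl) (by norm_num)
    have a4 := term 4 (7 / 4) (by norm_num) (by norm_num) h (t4 4 rfl) (by norm_num)
    have l := a2k_last q n 5 (2 / 5) hn (by norm_num)
      (by rw [show (5 : ℕ).divisors.card = 2 by decide]; norm_num)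
    rw [e5, e4, e3, e2, e1]
    push_cast at *
    norm_num at a1 a2 a3 a4 l ⊢
    linarith
  · have a1 := term 1 1 (by norm_num) (by norm_num) h (t1 1 rfl) (by norm_num)
    have a2 := term 2 (3 / 2) (by norm_num) (by norm_num) h (t2 2 rfl) (by norm_num)
    have a3 := term 3 (4 / 3) (by norm_num) (by norm_num) h (t3 3 rfl) (by norm_num)
    have a4 := term 4 (7 / 4) (by norm_num) (by norm_num) h (t4 4 rfl) (by norm_num)
    have a5 := term 5 (6 / 5) (by norm_num) (by norm_num) h (t5 5 rfl) (by norm_num)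
    have l := a2k_last q n 6 (2 / 3) hn (by norm_num)
      (by rw [show (6 : ℕ).divisors.card = 4 by decide]; norm_num)
    rw [e6, e5, e4, e3, e2, e1]
    push_cast at *
    norm_num at a1 a2 a3 a4 a5 l ⊢
    linarith

theorem a2k_num (T : ℕ) (hT : 7 ≤ T) : 250000 * (T * (T + 3)) ^ 4 ≤ 345744 * 11 ^ T := by
  induction T, hT using Nat.le_induction with
  | base => norm_num
  | succ T hT ih =>
    have h1 : 625 * ((T + 1) * (T + 1 + 3)) ^ 4 ≤ 625 * (11 * (T * (T + 3)) ^ 4) := by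
      have h0 : 5 * ((T + 1) * (T + 1 + 3)) ≤ 9 * (T * (T + 3)) := by nlinarith
      calc 625 * ((T + 1) * (T + 1 + 3)) ^ 4 = (5 * ((T + 1) * (T + 1 + 3))) ^ 4 := by ring
        _ ≤ (9 * (T * (T + 3))) ^ 4 := Nat.pow_le_pow_left h0 4
        _ = 6561 * (T * (T + 3)) ^ 4 := by ring
        _ ≤ 6875 * (T * (T + 3)) ^ 4 := Nat.mul_le_mul_right _ (by norm_num)
        _ = 625 * (11 * (T * (T + 3)) ^ 4) := by ring
    have h2 : ((T + 1) * (T + 1 + 3)) ^ 4 ≤ 11 * (T * (T + 3)) ^ 4 :=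
      Nat.le_of_mul_le_mul_left h1 (by norm_num)
    calc 250000 * ((T + 1) * (T + 1 + 3)) ^ 4 ≤ 250000 * (11 * (T * (T + 3)) ^ 4) := by gcongr
      _ = 11 * (250000 * (T * (T + 3)) ^ 4) := by ring
      _ ≤ 11 * (345744 * 11 ^ T) := by gcongr
      _ = 345744 * 11 ^ (T + 1) := by ring

theorem a2k_big (q n T : ℕ) (hq : 11 ≤ q) (hn : 1 ≤ n) (hT : 7 ≤ T)
    (h : 3 * q ^ T < 5 * n) : (KB q n T : ℝ) ≤ 12 / 10 * n := by
  have hnR : (0 : ℝ) < n := by exact_mod_cast hn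
  have hTR : (7 : ℝ) ≤ T := by exact_mod_cast hT
  have hT0 : (0 : ℝ) < T := by linarith
  obtain ⟨t0, ht1, ht2, hKB⟩ := pairk q n T (by omega) hn (by omega)
  have hqT := a2k_pow q n T T hq le_rfl h
  rw [Nat.sub_self, pow_zero, div_one] at hqT
  have ht0 : (0 : ℝ) < t0 := by exact_mod_cast ht1
  -- second part
  have hsec : (∑ t ∈ Icc 1 T, (t.divisors.card : ℝ) / t) *
        (T * (((n : ℝ) ^ 2 * (q : ℝ) ^ T) ^ ((1 : ℝ) / 4))) ≤ 7 / 10 * n := by
    have h1 := tau_sum T hT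
    have h4 : (n : ℝ) ^ 2 * (q : ℝ) ^ T ≤ (7 / 10 * (n : ℝ) / (T * (T + 3) / 2)) ^ 4 := by
      have h5 : (250000 : ℝ) * (T * (T + 3)) ^ 4 ≤ 345744 * 11 ^ T := by
        exact_mod_cast a2k_num T hT
      have h6 : (11 : ℝ) ^ T ≤ 5 / 3 * n := by
        refine le_trans ?_ hqT
        have : (11 : ℝ) ≤ q := by exact_mod_cast hq
        gcongr
      have h7 : (7 / 10 * (n : ℝ) / (T * (T + 3) / 2)) ^ 4 =
          (2401 * 16 / 10000 * (n : ℝ) ^ 4) / (T * (T + 3)) ^ 4 := by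
        field_simp
        ring
      rw [h7, le_div_iff₀ (by positivity)]
      have h8 : ((T : ℝ) * (T + 3)) ^ 4 ≤ 345744 / 250000 * (5 / 3 * n) := by
        have := mul_le_mul_of_nonneg_left h6 (by norm_num : (0 : ℝ) ≤ 345744)
        linarith
      calc (n : ℝ) ^ 2 * (q : ℝ) ^ T * (T * (T + 3)) ^ 4 ≤
          (n : ℝ) ^ 2 * (5 / 3 * n) * (345744 / 250000 * (5 / 3 * n)) := by gcongr
        _ = 2401 * 16 / 10000 * (n : ℝ) ^ 4 := by ring
    have h7 : ((n : ℝ) ^ 2 * (q : ℝ) ^ T) ^ ((1 : ℝ) / 4) ≤ 7 / 10 * (n : ℝ) / (T * (T + 3) / 2) := by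
      have h8 : ((n : ℝ) ^ 2 * (q : ℝ) ^ T) ^ ((1 : ℝ) / 4) ≤
          ((7 / 10 * (n : ℝ) / (T * (T + 3) / 2)) ^ 4) ^ ((1 : ℝ) / 4) :=
        Real.rpow_le_rpow (by positivity) h4 (by norm_num)
      refine h8.trans_eq ?_
      rw [← Real.rpow_natCast, ← Real.rpow_mul (by positivity)]
      norm_num
    calc (∑ t ∈ Icc 1 T, (t.divisors.card : ℝ) / t) *
          (T * (((n : ℝ) ^ 2 * (q : ℝ) ^ T) ^ ((1 : ℝ) / 4)))
        ≤ ((T : ℝ) / 2 + 3 / 2) * (T * (7 / 10 * (n : ℝ) / (T * (T + 3) / 2))) := by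
          apply mul_le_mul h1 _ (by positivity) (by positivity)
          gcongr
      _ = 7 / 10 * n := by
          field_simp
  -- first part
  have hfst : min ((t0.divisors.card : ℝ) * n / t0)
      ((∑ d ∈ t0.divisors, (d : ℝ)) * (q : ℝ) ^ t0 / t0) ≤ 1 / 2 * n := by
    rcases le_or_gt 7 t0 with h7 | h7
    · refine (min_le_left _ _).trans ?_
      have := tau_half t0 h7
      calc (t0.divisors.card : ℝ) * n / t0 = (t0.divisors.card : ℝ) / t0 * n := by ring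
        _ ≤ 1 / 2 * n := by gcongr
    · refine (min_le_right _ _).trans ?_
      have h2 : (∑ d ∈ t0.divisors, (d : ℝ)) ≤ 2 * t0 := by
        have h3 : (∑ d ∈ t0.divisors, d) ≤ 2 * t0 := by
          interval_cases t0 <;> decide
        have h4 : ((∑ d ∈ t0.divisors, d : ℕ) : ℝ) ≤ ((2 * t0 : ℕ) : ℝ) := Nat.cast_le.2 h3
        push_cast at h4
        exact h4
      have h3 : (q : ℝ) ^ t0 ≤ 1 / 4 * n := by
        have h4 := a2k_pow q n T t0 hq (by omega) h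
        refine h4.trans ?_
        rw [div_le_iff₀ (by positivity)]
        have h5 : (11 : ℝ) ≤ 11 ^ (T - t0) := by
          calc (11 : ℝ) = 11 ^ 1 := by norm_num
            _ ≤ 11 ^ (T - t0) := pow_le_pow_right₀ (by norm_num) (by omega)
        nlinarith
      calc (∑ d ∈ t0.divisors, (d : ℝ)) * (q : ℝ) ^ t0 / t0 ≤
          (2 * t0) * (1 / 4 * n) / t0 := by gcongr
        _ = 1 / 2 * n := by
            field_simp
            norm_num
  linarith

end Pool.Agent.MM2
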