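import Mathlib
import Pool.Agent.MM2.Defs
import Pool.Agent.MM2.SBL
import Pool.Agent.MM2.OM8
import Pool.Agent.MM2.TBL
import Pool.Agent.MM2.EBL
import Pool.Agent.MM2.BIGC
import Pool.Agent.MM2.A2K

/-!
Middle range.
-/

namespace Pool.Agent.MM2

open Finset

/-- bound for the logarithm of the number of kernels -/
private theorem a2_log (n : ℕ) (hn : 4 ≤ n) :
    Real.logb 2 ((2 + n * (Nat.log 2 n + 1)) / (175 / 1000 : ℝ)) ≤ 121 / 10 + 3 / 128 * n := by
  set k := Nat.log 2 n with hk
  have hk2 : 2 ≤ k := Nat.le_log_of_pow_le (by norm_num) (by simpa using hn)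
  have hnlt : n < 2 ^ (k + 1) := Nat.lt_pow_succ_log_self (by norm_num) n
  have hnle : 2 ^ k ≤ n := Nat.pow_log_le_self 2 (by omega)
  have hnlt' : (n : ℝ) ≤ 2 ^ (k + 1) := by exact_mod_cast hnlt.le
  have hnle' : (2 : ℝ) ^ k ≤ n := by exact_mod_cast hnle
  have hA : (2 + n * (k + 1) : ℝ) ≤ 2 ^ (k + 1) * (k + 2) := by
    have h2 : (2 : ℝ) ≤ 2 ^ (k + 1) := by
      calc (2 : ℝ) = 2 ^ 1 := by norm_num
        _ ≤ 2 ^ (k + 1) := pow_le_pow_right₀ (by norm_num) (by omega)
    have : (n : ℝ) * (k + 1) ≤ 2 ^ (k + 1) * (k + 1) :=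
      mul_le_mul_of_nonneg_right hnlt' (by positivity)
    nlinarith
  have hB : ∀ m : ℕ, 4 ≤ m → m ^ 2 ≤ 2 ^ m := by
    intro m hm
    induction m, hm using Nat.le_induction with
    | base => norm_num
    | succ m hm ih =>
      rw [pow_succ 2 m]
      nlinarith
  have hC : Real.logb 2 ((k : ℝ) + 2) ≤ ((k : ℝ) + 2) / 2 := by
    have h1 := hB (k + 2) (by omega)
    have h2 : ((k : ℝ) + 2) ^ 2 ≤ 2 ^ (k + 2) := by exact_mod_cast h1
    have h3 : Real.logb 2 (((k : ℝ) + 2) ^ 2) ≤ Real.logb 2 (2 ^ (k + 2)) :=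
      Real.logb_le_logb_of_le (by norm_num) (by positivity) h2
    rw [Real.logb_pow, Real.logb_pow, Real.logb_self_eq_one (by norm_num)] at h3
    push_cast at h3
    linarith
  have hD : Real.logb 2 (1 / (175 / 1000 : ℝ)) ≤ 13 / 5 := by
    have h3 : Real.logb 2 ((1 / (175 / 1000 : ℝ)) ^ 5) ≤ Real.logb 2 (2 ^ 13) :=
      Real.logb_le_logb_of_le (by norm_num) (by positivity) (by norm_num)
    rw [Real.logb_pow, Real.logb_pow, Real.logb_self_eq_one (by norm_num)] at h3
    push_cast at h3
    linarith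
  have hE : Real.logb 2 ((2 + n * (k + 1)) / (175 / 1000 : ℝ)) ≤
      Real.logb 2 (2 ^ (k + 1) * (k + 2) * (1 / (175 / 1000 : ℝ))) := by
    apply Real.logb_le_logb_of_le (by norm_num) (by positivity)
    rw [div_eq_mul_one_div]
    exact mul_le_mul_of_nonneg_right hA (by norm_num)
  rw [Real.logb_mul (by positivity) (by norm_num), Real.logb_mul (by positivity) (by positivity),
    Real.logb_pow, Real.logb_self_eq_one (by norm_num)] at hE
  push_cast at hE
  have hF : (k : ℝ) ≤ 5 + n / 64 := by
    have h1 : ∀ m : ℕ, 64 * m ≤ 320 + 2 ^ m := by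
      intro m
      rcases Nat.lt_or_ge m 6 with h | h
      · interval_cases m <;> norm_num
      · induction m, h using Nat.le_induction with
        | base => norm_num
        | succ m hm ih =>
          have : 2 ^ 6 ≤ 2 ^ m := Nat.pow_le_pow_right (by norm_num) hm
          rw [pow_succ]
          omega
    have h2 : (64 : ℝ) * k ≤ 320 + 2 ^ k := by exact_mod_cast h1 k
    linarith
  linarith

private theorem a2_lg (a b q0 q : ℕ) (hb : 0 < b) (hq0 : 0 < q0) (h : 2 ^ a ≤ q0 ^ b) (hq : q0 ≤ q) :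
    (a : ℝ) / b ≤ Real.logb 2 q := by
  have hq0' : (0 : ℝ) < q0 := by exact_mod_cast hq0
  have h1 : Real.logb 2 ((2 : ℝ) ^ a) ≤ Real.logb 2 ((q : ℝ) ^ b) := by
    apply Real.logb_le_logb_of_le (by norm_num) (by positivity)
    calc (2 : ℝ) ^ a ≤ (q0 : ℝ) ^ b := by exact_mod_cast h
      _ ≤ (q : ℝ) ^ b := pow_le_pow_left₀ hq0'.le (by exact_mod_cast hq) b
  rw [Real.logb_pow, Real.logb_pow, Real.logb_self_eq_one (by norm_num), mul_one] at h1
  rw [div_le_iff₀ (by exact_mod_cast hb)]
  linarith

private theorem a2_aux (q n T : ℕ) (hq : 11 ≤ q) (hn : 4 ≤ n) (hT : 5 * n ≤ 3 * q ^ (T + 1))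
    (κ e l : ℝ) (hK : (KB q n T : ℝ) ≤ κ) (hE : cq q * EB q n T ≤ e) (hl : l ≤ Real.logb 2 q)
    (h : 98 / 8 + κ + e + 121 / 10 + 3 / 128 * n ≤ 3 / 8 * (n * l)) : PN q n := by
  have hq' : (11 : ℝ) ≤ q := by exact_mod_cast hq
  have hlq : lq q = 5 / 4 := by
    unfold lq; rw [if_neg (by omega), if_neg (by omega)]
  apply bigc q n T 8 98 (Or.inr (Or.inr (by omega))) (by omega) (by norm_num)
    (fun N hN => om8 N hN) (5 / 4) (175 / 1000) κ e (Or.inl hlq.le) (by norm_num) _ hK hE
  · have hL := a2_log n hn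
    have : (n : ℝ) * l ≤ n * Real.logb 2 q := mul_le_mul_of_nonneg_left hl (by positivity)
    push_cast
    norm_num at hL h ⊢
    linarith
  · have h1 := tb_le q n T (by omega) (by omega)
    have h2 : (n : ℝ) / ((q : ℝ) ^ T * (q - 1)) ≤ 66 / 100 := by
      rw [div_le_iff₀ (mul_pos (by positivity) (by linarith))]
      have h3 : (5 : ℝ) * n ≤ 3 * (q : ℝ) ^ (T + 1) := by exact_mod_cast hT
      rw [pow_succ] at h3
      have h4 : (0 : ℝ) < (q : ℝ) ^ T := by positivity
      nlinarith
    linarith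

theorem a2 (q n : ℕ) (h : (17 ≤ q ∧ 64 ≤ n) ∨ (37 ≤ q ∧ 32 ≤ n) ∨ (11 ≤ q ∧ 512 ≤ n)) :
    PN q n := by
  have hq : 11 ≤ q := by omega
  have hn : 32 ≤ n := by omega
  have hq' : (11 : ℝ) ≤ q := by exact_mod_cast hq
  have hn' : (32 : ℝ) ≤ n := by exact_mod_cast hn
  have hcq : cq q = 161 / 100 := by
    unfold cq; rw [if_neg (by omega), if_neg (by omega)]
  rcases Nat.lt_or_ge (3 * q ^ 2) (5 * n) with h2 | h2
  · -- the degree bound is at least two
    have hex : ∃ T, 5 * n ≤ 3 * q ^ (T + 1) := by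
      refine ⟨n + 1, ?_⟩
      have h3 : n < q ^ n := Nat.lt_pow_self (by omega)
      have h4 : q ^ (n + 1 + 1) = q ^ n * q * q := by ring
      have h5 : n * 121 ≤ q ^ n * (q * q) := Nat.mul_le_mul h3.le (by nlinarith)
      rw [h4, mul_assoc]
      omega
    classical
    set T := Nat.find hex with hTdef
    have hT : 5 * n ≤ 3 * q ^ (T + 1) := Nat.find_spec hex
    have hT2 : 2 ≤ T := by
      by_contra hcon
      have : T = 0 ∨ T = 1 := by omega
      rcases this with h0 | h0
      · rw [h0] at hT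
        have : q ^ 1 ≤ q ^ 2 := Nat.pow_le_pow_right (by omega) (by norm_num)
        simp only [zero_add] at hT
        omega
      · rw [h0] at hT
        norm_num at hT
        omega
    have hTm : 3 * q ^ T < 5 * n := by
      have := Nat.find_min hex (m := T - 1) (by omega)
      rw [not_le] at this
      rwa [Nat.sub_add_cancel (by omega)] at this
    have hclog : Nat.clog q n ≤ T + 1 := by
      apply Nat.clog_le_of_le_pow
      have : n ≤ q ^ (T + 1) := by omega
      exact this
    have hEB : EB q n T ≤ 2 * ((T : ℝ) + 1) + 2 := by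
      have h1 := eb_le q n T (by omega) (by omega)
      have h3 : (Nat.clog q n : ℝ) ≤ T + 1 := by exact_mod_cast hclog
      linarith
    rcases Nat.lt_or_ge T 7 with h7 | h7
    · have hK := a2k_mid q n T hq (by omega) hT2 (by omega) hTm
      have hT6 : (T : ℝ) ≤ 6 := by exact_mod_cast (by omega : T ≤ 6)
      have hE : cq q * EB q n T ≤ 2576 / 100 := by
        rw [hcq]; linarith
      rcases Nat.lt_or_ge q 17 with h17 | h17
      · have hn2 : 512 ≤ n := by omega
        have hn2' : (512 : ℝ) ≤ n := by exact_mod_cast hn2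
        apply a2_aux q n T hq (by omega) hT (1152 / 1000 * n) (2576 / 100) (38 / 11) hK hE
        · have := a2_lg 38 11 11 q (by norm_num) (by norm_num) (by norm_num) hq
          exact_mod_cast this
        · linarith
      · have hn2 : 174 ≤ n := by
          have h5 : 17 ^ 2 ≤ q ^ 2 := Nat.pow_le_pow_left h17 2
          omega
        have hn2' : (174 : ℝ) ≤ n := by exact_mod_cast hn2
        apply a2_aux q n T hq (by omega) hT (1152 / 1000 * n) (2576 / 100) (49 / 12) hK hE
        · have := a2_lg 49 12 17 q (by norm_num) (by norm_num) (by norm_num) h17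
          exact_mod_cast this
        · linarith
    · have hK := a2k_big q n T hq (by omega) h7 hTm
      have hE : cq q * EB q n T ≤ 161 / 100 * (2 * ((T : ℝ) + 1) + 2) := by
        rw [hcq]; linarith
      have hpow : ∀ m : ℕ, 7 ≤ m → 1000 * (m + 2) ≤ 11 ^ m := by
        intro m hm
        induction m, hm using Nat.le_induction with
        | base => norm_num
        | succ m hm ih => rw [pow_succ]; omega
      have h5 : 11 ^ T ≤ q ^ T := Nat.pow_le_pow_left hq T
      have h6 := hpow T h7
      have h8 : 600 * (T + 2) ≤ n := by omega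
      have h8' : (600 : ℝ) * (T + 2) ≤ n := by exact_mod_cast h8
      have h7' : (7 : ℝ) ≤ T := by exact_mod_cast h7
      apply a2_aux q n T hq (by omega) hT (12 / 10 * n) _ (38 / 11) hK hE
      · have := a2_lg 38 11 11 q (by norm_num) (by norm_num) (by norm_num) hq
        exact_mod_cast this
      · linarith
  · -- degree bound one
    have hT : 5 * n ≤ 3 * q ^ (1 + 1) := by norm_num; omega
    have hK : (KB q n 1 : ℝ) ≤ n := by
      have h1 : KB q n 1 = SB q n 1 := by simp [KB]
      rw [h1, sb_one]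
      exact_mod_cast Nat.gcd_le_left _ (by omega)
    have hE : cq q * EB q n 1 ≤ 161 / 100 := by
      have := eb_one q n (by omega)
      rw [hcq]; linarith
    rcases Nat.lt_or_ge n 64 with h64 | h64
    · have h37 : 37 ≤ q := by omega
      apply a2_aux q n 1 hq (by omega) hT n (161 / 100) (26 / 5) hK hE
      · have := a2_lg 26 5 37 q (by norm_num) (by norm_num) (by norm_num) h37
        exact_mod_cast this
      · linarith
    · have hn2' : (64 : ℝ) ≤ n := by exact_mod_cast h64
      have h17 : 17 ≤ q := by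
        by_contra hcon
        have h512 : 512 ≤ n := by omega
        have : q ^ 2 ≤ 16 ^ 2 := Nat.pow_le_pow_left (by omega) 2
        omega
      apply a2_aux q n 1 hq (by omega) hT n (161 / 100) (49 / 12) hK hE
      · have := a2_lg 49 12 17 q (by norm_num) (by norm_num) (by norm_num) h17
        exact_mod_cast this
      · linarith

end Pool.Agent.MM2
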