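import Mathlib

/-!
Bound for the number of prime factors.
-/

namespace Pool.Agent.MM2

open Finset

/-- `2`, `3`, `5` and the numbers coprime to `30` (a set that contains all primes) -/
def om12tst (r : ℕ) : Bool :=
  cond (Nat.beq (Nat.gcd r 30) 1) true (cond (Nat.beq r 2) true (cond (Nat.beq r 3) true
    (Nat.beq r 5)))

/-- `4096` to the number of marked `r` with `2 ≤ r < k + 2` -/
def om12A : ℕ → ℕ
  | 0 => 1
  | k + 1 => cond (om12tst (k + 2)) (Nat.mul (om12A k) 4096) (om12A k)

/-- product of the marked `r` with `2 ≤ r < k + 2` -/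
def om12B : ℕ → ℕ
  | 0 => 1
  | k + 1 => cond (om12tst (k + 2)) (Nat.mul (om12B k) (k + 2)) (om12B k)

theorem om12tst_prime (r : ℕ) (hr : r.Prime) : om12tst r = true := by
  unfold om12tst
  by_cases h : r.gcd 30 = 1
  · rw [h]; rfl
  · have h1 : r ∣ 30 := by
      by_contra hcon
      exact h ((Nat.Prime.coprime_iff_not_dvd hr).2 hcon)
    have h2 : r ≤ 30 := Nat.le_of_dvd (by norm_num) h1
    have h3 : r = 2 ∨ r = 3 ∨ r = 5 := by
      interval_cases r <;> simp_all (config := {decide := true})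
    rcases h3 with h3 | h3 | h3 <;> subst h3 <;> rfl

theorem om12B_pos (k : ℕ) : 0 < om12B k := by
  induction k with
  | zero => exact Nat.one_pos
  | succ k ih =>
    simp only [om12B]
    cases om12tst (k + 2)
    · exact ih
    · exact Nat.mul_pos ih (by omega)

theorem om12_step (k : ℕ) (hk : k ≤ 4094) (P : Finset ℕ) (hP : ∀ r ∈ P, r.Prime)
    (hlt : ∀ r ∈ P, r < k + 2) : 4096 ^ P.card * om12B k ≤ om12A k * ∏ r ∈ P, r := by
  induction k generalizing P with
  | zero =>
    have h0 : P = ∅ := by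
      apply eq_empty_of_forall_notMem
      intro r hr
      have := (hP r hr).two_le
      have := hlt r hr
      omega
    subst h0
    simp [om12A, om12B]
  | succ k ih =>
    by_cases hm : k + 2 ∈ P
    · have ht := om12tst_prime _ (hP _ hm)
      have h1 := ih (by omega) (P.erase (k + 2)) (fun r hr => hP r (mem_of_mem_erase hr))
        (fun r hr => by
          have h2 := hlt r (mem_of_mem_erase hr)
          have h3 := ne_of_mem_erase hr
          omega)
      have h2 : P.card = (P.erase (k + 2)).card + 1 := (card_erase_add_one hm).symm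
      have h3 : ∏ r ∈ P, r = (k + 2) * ∏ r ∈ P.erase (k + 2), r := (mul_prod_erase P _ hm).symm
      simp only [om12A, om12B, ht, cond_true]
      rw [h2, h3, pow_succ]
      calc 4096 ^ (P.erase (k + 2)).card * 4096 * (om12B k * (k + 2))
          = 4096 * (k + 2) * (4096 ^ (P.erase (k + 2)).card * om12B k) := by ring
        _ ≤ 4096 * (k + 2) * (om12A k * ∏ r ∈ P.erase (k + 2), r) := Nat.mul_le_mul_left _ h1
        _ = om12A k * 4096 * ((k + 2) * ∏ r ∈ P.erase (k + 2), r) := by ring
    · have h1 := ih (by omega) P hP (fun r hr => by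
        have h2 := hlt r hr
        have h3 : r ≠ k + 2 := fun h => hm (h ▸ hr)
        omega)
      simp only [om12A, om12B]
      cases om12tst (k + 2)
      · exact h1
      · simp only [cond_true]
        calc 4096 ^ P.card * (om12B k * (k + 2))
            = (4096 ^ P.card * om12B k) * (k + 2) := by ring
          _ ≤ (om12A k * ∏ r ∈ P, r) * 4096 := Nat.mul_le_mul h1 (by omega)
          _ = om12A k * 4096 * ∏ r ∈ P, r := by ring

theorem om12_num : om12A 4094 ≤ 2 ^ 1596 * om12B 4094 := by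
  decide +kernel

theorem om12_gen (C A B : ℕ) (hA : A = om12A 4094) (hB : B = om12B 4094) (h6 : A ≤ C * B)
    (N : ℕ) (hN : 0 < N) : 4096 ^ N.primeFactors.card ≤ C * N := by
  classical
  set P := N.primeFactors.filter (fun r => r < 4096) with hP
  set Q := N.primeFactors.filter (fun r => ¬ r < 4096) with hQ
  have h1 : P.card + Q.card = N.primeFactors.card := card_filter_add_card_filter_not _
  have h2 : (∏ r ∈ P, r) * ∏ r ∈ Q, r = ∏ r ∈ N.primeFactors, r :=
    prod_filter_mul_prod_filter_not _ _ _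
  have h3 : ∏ r ∈ N.primeFactors, r ≤ N := Nat.le_of_dvd hN (Nat.prod_primeFactors_dvd N)
  have h4 : 4096 ^ Q.card ≤ ∏ r ∈ Q, r := by
    apply pow_card_le_prod
    intro r hr
    have := (mem_filter.1 hr).2
    omega
  have h5 := om12_step 4094 le_rfl P (fun r hr => Nat.prime_of_mem_primeFactors (mem_filter.1 hr).1)
    (fun r hr => (mem_filter.1 hr).2)
  rw [← hA, ← hB] at h5
  have hBpos : 0 < B := by rw [hB]; exact om12B_pos 4094
  have h7 : 4096 ^ P.card ≤ C * ∏ r ∈ P, r := by
    refine Nat.le_of_mul_le_mul_right ?_ hBpos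
    calc 4096 ^ P.card * B ≤ A * ∏ r ∈ P, r := h5
      _ ≤ (C * B) * ∏ r ∈ P, r := Nat.mul_le_mul_right _ h6
      _ = C * (∏ r ∈ P, r) * B := by
        rw [mul_assoc, mul_assoc, mul_comm B]
  calc 4096 ^ N.primeFactors.card = 4096 ^ P.card * 4096 ^ Q.card := by rw [← h1, pow_add]
    _ ≤ (C * ∏ r ∈ P, r) * ∏ r ∈ Q, r := Nat.mul_le_mul h7 h4
    _ = C * ∏ r ∈ N.primeFactors, r := by rw [mul_assoc, h2]
    _ ≤ C * N := Nat.mul_le_mul_left _ h3

theorem om12_nat (N : ℕ) (hN : 0 < N) : 4096 ^ N.primeFactors.card ≤ 2 ^ 1596 * N :=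
  om12_gen (2 ^ 1596) (om12A 4094) (om12B 4094) (Eq.refl _) (Eq.refl _) om12_num N hN

theorem om12 (N : ℕ) (hN : 0 < N) :
    ((2 : ℝ) ^ N.primeFactors.card) ^ 12 ≤ 2 ^ 1596 * (N : ℝ) := by
  have h := om12_nat N hN
  have h1 : ((2 : ℝ) ^ N.primeFactors.card) ^ 12 = (4096 : ℝ) ^ N.primeFactors.card := by
    rw [← pow_mul, mul_comm, pow_mul]
    norm_num
  rw [h1]
  exact_mod_cast h

end Pool.Agent.MM2
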