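import Mathlib
import Pool.Agent.MM2.Defs
import Pool.Agent.MM2.SBL
import Pool.Agent.MM2.OM12
import Pool.Agent.MM2.TBL
import Pool.Agent.MM2.EBL
import Pool.Agent.MM2.TAU
import Pool.Agent.MM2.PAIRK
import Pool.Agent.MM2.BIGC

/-!
Huge degrees.
-/

namespace Pool.Agent.MM2

open Finset

theorem a4_num (k : ℕ) (hk : 80 ≤ k) : 810000 * (k + 3) ^ 8 * 343 ≤ 2 ^ k := by
  induction k, hk using Nat.le_induction with
  | base => norm_num
  | succ k hk ih =>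
    have h1 : 83 ^ 8 * (k + 1 + 3) ^ 8 ≤ 83 ^ 8 * (2 * (k + 3) ^ 8) := by
      calc 83 ^ 8 * (k + 1 + 3) ^ 8 = (83 * (k + 1 + 3)) ^ 8 := by ring
        _ ≤ (84 * (k + 3)) ^ 8 := Nat.pow_le_pow_left (by omega) 8
        _ = 84 ^ 8 * (k + 3) ^ 8 := by ring
        _ ≤ (83 ^ 8 * 2) * (k + 3) ^ 8 := Nat.mul_le_mul_right _ (by norm_num)
        _ = 83 ^ 8 * (2 * (k + 3) ^ 8) := by ring
    have h2 : (k + 1 + 3) ^ 8 ≤ 2 * (k + 3) ^ 8 := Nat.le_of_mul_le_mul_left h1 (by norm_num)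
    calc 810000 * (k + 1 + 3) ^ 8 * 343 ≤ 810000 * (2 * (k + 3) ^ 8) * 343 := by gcongr
      _ = 2 * (810000 * (k + 3) ^ 8 * 343) := by ring
      _ ≤ 2 * 2 ^ k := by gcongr
      _ = 2 ^ (k + 1) := by ring

theorem a4_lin (k : ℕ) (hk : 80 ≤ k) : 15000 + 800 * k ≤ 2 ^ k := by
  induction k, hk using Nat.le_induction with
  | base => norm_num
  | succ k hk ih =>
    rw [pow_succ]
    omega

theorem a4_second (q n T k : ℕ) (hq7 : q ≤ 7) (hn : 1 ≤ n) (hT7 : 7 ≤ T) (hTk : T ≤ k + 3)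
    (hqT : q ^ T ≤ q ^ 3 * n) (hk : 80 ≤ k) (hkn : 2 ^ k ≤ n) :
    (∑ t ∈ Icc 1 T, (t.divisors.card : ℝ) / t) *
        (T * (((n : ℝ) ^ 2 * (q : ℝ) ^ T) ^ ((1 : ℝ) / 4))) ≤ (n : ℝ) / 30 := by
  have hnR : (0 : ℝ) < n := by exact_mod_cast hn
  have hTR : (7 : ℝ) ≤ T := by exact_mod_cast hT7
  have hT0 : (0 : ℝ) < T := by linarith
  have h1 : ∑ t ∈ Icc 1 T, (t.divisors.card : ℝ) / t ≤ T := by
    refine (tau_sum T hT7).trans ?_
    linarith
  have h2 : (q : ℝ) ^ T ≤ 343 * n := by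
    have h3 : q ^ T ≤ 343 * n := by
      refine hqT.trans ?_
      have : q ^ 3 ≤ 7 ^ 3 := Nat.pow_le_pow_left hq7 3
      calc q ^ 3 * n ≤ 7 ^ 3 * n := Nat.mul_le_mul_right _ this
        _ = 343 * n := by norm_num
    exact_mod_cast h3
  have h4 : (n : ℝ) ^ 2 * (q : ℝ) ^ T ≤ ((n : ℝ) / (30 * T ^ 2)) ^ 4 := by
    have h5 : (810000 * T ^ 8 * 343 : ℝ) ≤ n := by
      have : 810000 * T ^ 8 * 343 ≤ n := by
        calc 810000 * T ^ 8 * 343 ≤ 810000 * (k + 3) ^ 8 * 343 := by gcongr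
          _ ≤ 2 ^ k := a4_num k hk
          _ ≤ n := hkn
      exact_mod_cast this
    have h6 : ((n : ℝ) / (30 * T ^ 2)) ^ 4 = (n : ℝ) ^ 4 / (810000 * T ^ 8) := by
      rw [div_pow]
      congr 1
      ring
    rw [h6, le_div_iff₀ (by positivity)]
    calc (n : ℝ) ^ 2 * (q : ℝ) ^ T * (810000 * T ^ 8) ≤
        (n : ℝ) ^ 2 * (343 * n) * (810000 * T ^ 8) := by gcongr
      _ = (n : ℝ) ^ 3 * (810000 * T ^ 8 * 343) := by ring
      _ ≤ (n : ℝ) ^ 3 * n := by gcongr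
      _ = (n : ℝ) ^ 4 := by ring
  have h7 : ((n : ℝ) ^ 2 * (q : ℝ) ^ T) ^ ((1 : ℝ) / 4) ≤ (n : ℝ) / (30 * T ^ 2) := by
    have h8 : ((n : ℝ) ^ 2 * (q : ℝ) ^ T) ^ ((1 : ℝ) / 4) ≤
        (((n : ℝ) / (30 * T ^ 2)) ^ 4) ^ ((1 : ℝ) / 4) :=
      Real.rpow_le_rpow (by positivity) h4 (by norm_num)
    refine h8.trans_eq ?_
    rw [← Real.rpow_natCast, ← Real.rpow_mul (by positivity)]
    norm_num
  calc (∑ t ∈ Icc 1 T, (t.divisors.card : ℝ) / t) *
        (T * (((n : ℝ) ^ 2 * (q : ℝ) ^ T) ^ ((1 : ℝ) / 4)))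
      ≤ T * (T * ((n : ℝ) / (30 * T ^ 2))) := by
        apply mul_le_mul h1 _ (by positivity) hT0.le
        gcongr
    _ = (n : ℝ) / 30 := by
        field_simp

theorem a4_first2 (n t0 : ℕ) (hn : 2 ^ 80 ≤ n) (h1 : 1 ≤ t0) :
    min ((t0.divisors.card : ℝ) * n / t0) ((∑ d ∈ t0.divisors, (d : ℝ)) * ((2 : ℕ) : ℝ) ^ t0 / t0) ≤
      354 / 1000 * n := by
  have hnR : (2 : ℝ) ^ 80 ≤ n := by exact_mod_cast hn
  have hn0 : (0 : ℝ) < n := lt_of_lt_of_le (by positivity) hnR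
  have ht0 : (0 : ℝ) < t0 := by exact_mod_cast h1
  rcases le_or_gt 32 t0 with h | h
  · refine (min_le_left _ _).trans ?_
    have := tau_32 t0 h
    calc (t0.divisors.card : ℝ) * n / t0 = (t0.divisors.card : ℝ) / t0 * n := by ring
      _ ≤ 354 / 1000 * n := by gcongr
  · refine (min_le_right _ _).trans ?_
    have h2 := sigma_half t0
    have h3 : (2 : ℝ) ^ t0 ≤ 2 ^ 31 := pow_le_pow_right₀ (by norm_num) (by omega)
    have h4 : (t0 : ℝ) ≤ 31 := by exact_mod_cast (by omega : t0 ≤ 31)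
    calc (∑ d ∈ t0.divisors, (d : ℝ)) * ((2 : ℕ) : ℝ) ^ t0 / t0 ≤
        ((t0 : ℝ) * (t0 + 1) / 2) * ((2 : ℕ) : ℝ) ^ t0 / t0 := by gcongr
      _ = (t0 + 1) / 2 * (2 : ℝ) ^ t0 := by
          push_cast
          field_simp
      _ ≤ (31 + 1) / 2 * 2 ^ 31 := by gcongr
      _ ≤ 354 / 1000 * 2 ^ 80 := by norm_num
      _ ≤ 354 / 1000 * n := by gcongr

theorem a4_first (q n t0 : ℕ) (hq7 : q ≤ 7) (hn : 2 ^ 80 ≤ n) (h1 : 1 ≤ t0) :
    min ((t0.divisors.card : ℝ) * n / t0) ((∑ d ∈ t0.divisors, (d : ℝ)) * (q : ℝ) ^ t0 / t0) ≤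
      1 / 2 * n := by
  have hnR : (2 : ℝ) ^ 80 ≤ n := by exact_mod_cast hn
  have hn0 : (0 : ℝ) < n := lt_of_lt_of_le (by positivity) hnR
  have ht0 : (0 : ℝ) < t0 := by exact_mod_cast h1
  rcases le_or_gt 7 t0 with h | h
  · refine (min_le_left _ _).trans ?_
    have := tau_half t0 h
    calc (t0.divisors.card : ℝ) * n / t0 = (t0.divisors.card : ℝ) / t0 * n := by ring
      _ ≤ 1 / 2 * n := by gcongr
  · refine (min_le_right _ _).trans ?_
    have h2 := sigma_half t0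
    have hqR : (q : ℝ) ≤ 7 := by exact_mod_cast hq7
    have h3 : (q : ℝ) ^ t0 ≤ 7 ^ 6 := by
      calc (q : ℝ) ^ t0 ≤ 7 ^ t0 := by gcongr
        _ ≤ 7 ^ 6 := pow_le_pow_right₀ (by norm_num) (by omega)
    have h4 : (t0 : ℝ) ≤ 6 := by exact_mod_cast (by omega : t0 ≤ 6)
    calc (∑ d ∈ t0.divisors, (d : ℝ)) * (q : ℝ) ^ t0 / t0 ≤
        ((t0 : ℝ) * (t0 + 1) / 2) * (q : ℝ) ^ t0 / t0 := by gcongr
      _ = (t0 + 1) / 2 * (q : ℝ) ^ t0 := by
          field_simp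
      _ ≤ (6 + 1) / 2 * 7 ^ 6 := by gcongr
      _ ≤ 1 / 2 * 2 ^ 80 := by norm_num
      _ ≤ 1 / 2 * n := by gcongr

theorem a4_log (q : ℕ) (hq : 3 ≤ q) : (3 : ℝ) / 2 ≤ Real.logb 2 q := by
  have hqR : (3 : ℝ) ≤ q := by exact_mod_cast hq
  have h1 : Real.logb 2 8 ≤ Real.logb 2 ((q : ℝ) ^ 2) :=
    Real.logb_le_logb_of_le (by norm_num) (by norm_num) (by nlinarith)
  have h2 : Real.logb 2 8 = 3 := by
    rw [show (8 : ℝ) = 2 ^ (3 : ℕ) by norm_num, Real.logb_pow, Real.logb_self_eq_one (by norm_num)]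
    norm_num
  rw [h2, Real.logb_pow] at h1
  push_cast at h1
  linarith

theorem a4 (q n : ℕ) (hq : q = 2 ∨ q = 3 ∨ q = 5 ∨ q = 7) (hn : 2 ^ 80 ≤ n) : PN q n := by
  have hq2 : 2 ≤ q := by omega
  have hq7 : q ≤ 7 := by omega
  have hn1 : 1 ≤ n := le_trans (by norm_num) hn
  have hn2 : 2 ≤ n := le_trans (by norm_num) hn
  have hnR : (0 : ℝ) < n := by exact_mod_cast hn1
  set k := Nat.log 2 n with hkdef
  have hk : 80 ≤ k := by
    have := Nat.log_mono_right (b := 2) hn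
    rwa [Nat.log_pow (by norm_num)] at this
  have hkn : 2 ^ k ≤ n := Nat.pow_log_le_self 2 (by omega)
  have hkn2 : n < 2 ^ (k + 1) := Nat.lt_pow_succ_log_self (by norm_num) n
  set C := Nat.clog q n with hCdef
  have hC1 : n ≤ q ^ C := Nat.le_pow_clog (by omega) n
  have hC0 : 0 < C := Nat.clog_pos (by omega) hn2
  have hC2 : q ^ (C - 1) < n := Nat.pow_pred_clog_lt_self (by omega) (by omega)
  have hCk : C ≤ k + 1 := by
    rw [hCdef, Nat.clog_le_iff_le_pow (by omega)]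
    exact hkn2.le.trans (Nat.pow_le_pow_left hq2 _)
  have hC5 : 5 ≤ C := by
    by_contra hcon
    have h1 : q ^ C ≤ 7 ^ 4 := by
      calc q ^ C ≤ 7 ^ C := Nat.pow_le_pow_left hq7 C
        _ ≤ 7 ^ 4 := Nat.pow_le_pow_right (by norm_num) (by omega)
    have := (hn.trans hC1).trans h1
    norm_num at this
  have hqT : q ^ (C + 2) ≤ q ^ 3 * n := by
    calc q ^ (C + 2) = q ^ 3 * q ^ (C - 1) := by
          rw [← pow_add]
          congr 1
          omega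
      _ ≤ q ^ 3 * n := Nat.mul_le_mul_left _ hC2.le
  have hkR : (80 : ℝ) ≤ k := by exact_mod_cast hk
  -- tail
  have htail : TB q n (C + 2) ≤ 1 / (2 * (q : ℝ) ^ 2 * (q - 1)) := by
    have h1 := tb_le3 q n (C + 2) (C + 2) hq2 hn1 le_rfl (by omega)
    rw [Ioc_self, sum_empty, zero_add] at h1
    refine h1.trans ?_
    have hq1 : (0 : ℝ) < (q : ℝ) - 1 := by
      have : (2 : ℝ) ≤ q := by exact_mod_cast hq2
      linarith
    have hq0 : (0 : ℝ) < q := by linarith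
    rw [div_le_div_iff₀ (by positivity) (by positivity)]
    have h2 : (n : ℝ) ≤ (q : ℝ) ^ C := by exact_mod_cast hC1
    calc (n : ℝ) * (2 * (q : ℝ) ^ 2 * (q - 1)) ≤ (q : ℝ) ^ C * (2 * (q : ℝ) ^ 2 * (q - 1)) := by
          gcongr
      _ = 1 * (2 * (q : ℝ) ^ (C + 2) * (q - 1)) := by ring
  -- number of kernels
  obtain ⟨t0, ht1, ht2, hKB⟩ := pairk q n (C + 2) hq2 hn1 (by omega)
  have hsec := a4_second q n (C + 2) k hq7 hn1 (by omega) (by omega) hqT hk hkn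
  -- density
  have hEB := eb_le q n (C + 2) hq2 hn1
  rw [← hCdef] at hEB
  have hcq0 : 0 < cq q := by
    unfold cq
    split_ifs <;> norm_num
  have hcq : cq q ≤ 8 / 3 := by
    unfold cq
    split_ifs <;> norm_num
  have hCR : (C : ℝ) ≤ k + 1 := by exact_mod_cast hCk
  have hE : cq q * EB q n (C + 2) ≤ 8 / 3 * (2 * k + 4) := by
    calc cq q * EB q n (C + 2) ≤ cq q * (2 * C + 2) := by gcongr
      _ ≤ 8 / 3 * (2 * C + 2) := by gcongr
      _ ≤ 8 / 3 * (2 * k + 4) := by linarith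
  -- logarithm
  have hlog : Real.logb 2 ((2 + n * (Nat.log 2 n + 1)) / (1 / 2)) ≤ 2 * k + 4 := by
    rw [← hkdef]
    have h1 : (2 + (n : ℝ) * (k + 1)) / (1 / 2) ≤ 2 ^ (2 * k + 4) := by
      have h2 : (2 + n * (k + 1)) * 2 ≤ 2 ^ (2 * k + 4) := by
        have h3 : k + 2 ≤ 2 ^ (k + 2) := (Nat.lt_two_pow_self).le
        calc (2 + n * (k + 1)) * 2 ≤ (n + n * (k + 1)) * 2 := by gcongr
          _ = n * (k + 2) * 2 := by ring
          _ ≤ 2 ^ (k + 1) * 2 ^ (k + 2) * 2 := by gcongr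
          _ = 2 ^ (2 * k + 4) := by ring
      have h4 : ((2 : ℝ) + n * (k + 1)) * 2 ≤ 2 ^ (2 * k + 4) := by exact_mod_cast h2
      have h5 : (2 + (n : ℝ) * (k + 1)) / (1 / 2) = (2 + (n : ℝ) * (k + 1)) * 2 := by ring
      rw [h5]
      exact h4
    calc Real.logb 2 ((2 + (n : ℝ) * (k + 1)) / (1 / 2)) ≤ Real.logb 2 (2 ^ (2 * k + 4)) :=
          Real.logb_le_logb_of_le (by norm_num) (by positivity) h1
      _ = 2 * k + 4 := by
          rw [Real.logb_pow, Real.logb_self_eq_one (by norm_num)]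
          push_cast
          ring
  have hlin : (150 : ℝ) + 8 * k ≤ n / 100 := by
    have h1 := (a4_lin k hk).trans hkn
    have h2 : (15000 : ℝ) + 800 * k ≤ n := by exact_mod_cast h1
    linarith
  rcases Nat.lt_or_ge q 3 with h3 | h3
  · have hqe : q = 2 := by omega
    subst hqe
    have hf := a4_first2 n t0 hn ht1
    refine bigc 2 n (C + 2) 12 1596 (Or.inl rfl) hn1 (by norm_num) om12 (lq 2) (1 / 2)
      (354 / 1000 * n + n / 30) (8 / 3 * (2 * k + 4)) (Or.inl le_rfl) (by norm_num) ?_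
      (hKB.trans (add_le_add hf hsec)) hE ?_
    · have h4 : lq 2 = 4 := by simp [lq]
      rw [h4]
      have : TB 2 n (C + 2) ≤ 1 / 8 := by
        refine htail.trans ?_
        norm_num
      linarith
    · have h5 : Real.logb 2 ((2 : ℕ) : ℝ) = 1 := by
        push_cast
        exact Real.logb_self_eq_one (by norm_num)
      rw [h5]
      push_cast
      linarith
  · have hf := a4_first q n t0 hq7 hn ht1
    have hlg := a4_log q h3
    refine bigc q n (C + 2) 12 1596 (by unfold QOK; omega) hn1 (by norm_num) om12 (lq q) (1 / 2)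
      (1 / 2 * n + n / 30) (8 / 3 * (2 * k + 4)) (Or.inl le_rfl) (by norm_num) ?_
      (hKB.trans (add_le_add hf hsec)) hE ?_
    · have hlq : lq q ≤ 3 / 2 := by
        unfold lq
        rw [if_neg (by omega)]
        split_ifs <;> norm_num
      have hq3 : (3 : ℝ) ≤ q := by exact_mod_cast h3
      have h4 : TB q n (C + 2) ≤ 1 / 36 := by
        refine htail.trans ?_
        apply one_div_le_one_div_of_le (by norm_num)
        nlinarith
      have hlq0 : 0 ≤ lq q := by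
        unfold lq
        split_ifs <;> norm_num
      calc lq q * TB q n (C + 2) ≤ lq q * (1 / 36) := by gcongr
        _ ≤ 3 / 2 * (1 / 36) := by gcongr
        _ ≤ 1 - 1 / 2 := by norm_num
    · have h6 : (n : ℝ) * (3 / 2) ≤ n * Real.logb 2 q := by gcongr
      push_cast
      linarith

end Pool.Agent.MM2
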