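import Mathlib

/-!
Computable functions for the explicit fields (all of them are evaluated by the kernel).

An element of `F_p[x]/(f)`, `f` monic of degree `n`, is represented by a natural number whose
base `p` digits in the positions `0, ..., n` are the coefficients of `1, x, ..., x^n`.
`A` is the digitwise addition, `S` the digitwise multiplication by a scalar.
-/

namespace Pool.Agent.MM2

/-- evaluate `a` before passing it on -/
noncomputable def fc {α : Type} (a : ℕ) (f : ℕ → α) : α :=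
  Nat.rec (motive := fun _ => α) (f 0) (fun k _ => f (Nat.succ k)) a

/-- evaluate a list before passing it on -/
noncomputable def fl {α : Type} : List ℕ → (List ℕ → α) → α
  | [], k => k []
  | a :: t, k => fc a (fun b => fl t (fun s => k (b :: s)))

/-- digit -/
def dg (p a i : ℕ) : ℕ := Nat.mod (Nat.div a (Nat.pow p i)) p

/-- `A` is the digitwise addition, `S` the digitwise multiplication by a digit, in the positions
`0, ..., n` -/
structure Ops (p n : ℕ) (A S : ℕ → ℕ → ℕ) : Prop where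
  add : ∀ a b i : ℕ, i ≤ n → dg p (A a b) i = (dg p a i + dg p b i) % p
  smul : ∀ c a i : ℕ, i ≤ n → c < p → dg p (S c a) i = (c * dg p a i) % p

/-- the element represented by `a` -/
def ev {R : Type} [CommRing R] (p n : ℕ) (x : R) (a : ℕ) : R :=
  ∑ i ∈ Finset.range (n + 1), (dg p a i : R) * x ^ i

/-- digitwise addition modulo `p`, `k` digits -/
noncomputable def adP (p k : ℕ) : ℕ → ℕ → ℕ :=
  Nat.rec (motive := fun _ => ℕ → ℕ → ℕ) (fun _ _ => 0) (fun _ ih a b =>
    fc (Nat.div a p) (fun a' => fc (Nat.div b p) (fun b' =>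
      Nat.add (Nat.mod (Nat.add (Nat.mod a p) (Nat.mod b p)) p) (Nat.mul p (ih a' b'))))) k

/-- digitwise multiplication by `c` modulo `p`, `k` digits -/
noncomputable def smP (p k c : ℕ) : ℕ → ℕ :=
  Nat.rec (motive := fun _ => ℕ → ℕ) (fun _ => 0) (fun _ ih a =>
    fc (Nat.div a p) (fun a' =>
      Nat.add (Nat.mod (Nat.mul c (Nat.mod a p)) p) (Nat.mul p (ih a')))) k

/-- multiplication by `c` -/
noncomputable def sm (p k c a : ℕ) : ℕ :=
  cond (Nat.beq c 0) 0 (cond (Nat.beq c 1) a (smP p k c a))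

/-- remove the coefficient of `x^n` -/
def nrm (p n f : ℕ) (A S : ℕ → ℕ → ℕ) (a : ℕ) : ℕ :=
  A a (S (Nat.mod (Nat.sub p (dg p a n)) p) f)

/-- Horner scheme for the product `a b` -/
noncomputable def mulA (p n f : ℕ) (A S : ℕ → ℕ → ℕ) (a b : ℕ) (i : ℕ) : ℕ → ℕ :=
  Nat.rec (motive := fun _ => ℕ → ℕ)
    (fun acc => A acc (S (Nat.mod (Nat.sub p (Nat.mod (Nat.div acc (Nat.pow p n)) p)) p) f))
    (fun i ih acc => fc (A (Nat.mul p (A acc
      (S (Nat.mod (Nat.sub p (Nat.mod (Nat.div acc (Nat.pow p n)) p)) p) f)))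
        (S (Nat.mod (Nat.div a (Nat.pow p i)) p) b)) ih) i

/-- product -/
noncomputable def mul (p n f : ℕ) (A S : ℕ → ℕ → ℕ) (a b : ℕ) : ℕ :=
  mulA p n f A S a b (n + 1) 0

/-- `acc * a^c` -/
noncomputable def mrep (p n f : ℕ) (A S : ℕ → ℕ → ℕ) (a : ℕ) (c : ℕ) : ℕ → ℕ :=
  Nat.rec (motive := fun _ => ℕ → ℕ) (fun acc => acc)
    (fun _ ih acc => fc (mul p n f A S acc a) ih) c

/-- `[a, a^p, ..., a^(p^i)]` -/
noncomputable def frl (p n f : ℕ) (A S : ℕ → ℕ → ℕ) : ℕ → ℕ → List ℕ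
  | 0, a => [a]
  | i + 1, a => a :: fc (mrep p n f A S a (Nat.sub p 1) a) (fun b => frl p n f A S i b)

/-- `a^(p^i)` -/
noncomputable def frp (p n f : ℕ) (A S : ℕ → ℕ → ℕ) : ℕ → ℕ → ℕ
  | 0, a => a
  | i + 1, a => fc (mrep p n f A S a (Nat.sub p 1) a) (fun b => frp p n f A S i b)

/-- `acc * ∏ P_i^(digit i of e)` -/
noncomputable def pwE (p n f : ℕ) (A S : ℕ → ℕ → ℕ) : List ℕ → ℕ → ℕ → ℕ
  | [], _, acc => acc
  | a :: P, e, acc => fc (mrep p n f A S a (Nat.mod e p) acc) (fun b =>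
      fc (Nat.div e p) (fun e' => pwE p n f A S P e' b))

/-- trial division of `r` by `2 (F - k') + 1`, `k' < k` -/
noncomputable def tdiv (r F k : ℕ) : Bool :=
  Nat.rec (motive := fun _ => Bool) false (fun k ih =>
    cond (Nat.blt r (Nat.pow (Nat.add (Nat.mul 2 (Nat.sub F k)) 1) 2)) true
      (cond (Nat.beq (Nat.mod r (Nat.add (Nat.mul 2 (Nat.sub F k)) 1)) 0) false ih)) k

/-- primality by trial division -/
noncomputable def isP (r : ℕ) : Bool :=
  Nat.beq r 2 || (Nat.ble 3 r && Nat.beq (Nat.mod r 2) 1 && tdiv r 140000 140000)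

/-- for each `(r, c)` the number `r` is a prime divisor of `N` and `(x^(N/r) - 1) c = 1` -/
noncomputable def chkR (p n f : ℕ) (A S : ℕ → ℕ → ℕ) (P : List ℕ) (N : ℕ) : List (ℕ × ℕ) → Bool
  | [] => true
  | x :: xs => isP x.1 && Nat.beq (Nat.mod N x.1) 0 &&
      fc (pwE p n f A S P (Nat.div N x.1) 1) (fun y =>
        Nat.beq (mul p n f A S (A y (Nat.sub p 1)) x.2) 1) && chkR p n f A S P N xs

/-- product of the first components -/
def prR : List (ℕ × ℕ) → ℕ
  | [] => 1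
  | x :: xs => Nat.mul x.1 (prR xs)

/-- every `d`-th entry, starting with the `k`-th -/
def evy (d : ℕ) : ℕ → List ℕ → List ℕ
  | _, [] => []
  | 0, a :: P => a :: evy d (Nat.sub d 1) P
  | k + 1, _ :: P => evy d k P

/-- `[a, a g, ..., a g^(d-1)]` -/
noncomputable def gpw (p n f : ℕ) (A S : ℕ → ℕ → ℕ) (g : ℕ) : ℕ → ℕ → List ℕ
  | 0, _ => []
  | d + 1, a => a :: fc (mul p n f A S a g) (fun b => gpw p n f A S g d b)

/-- `acc + ∑ (digit of w) * v` -/
noncomputable def lc (p : ℕ) (A S : ℕ → ℕ → ℕ) (vs : List ℕ) : ℕ → ℕ → ℕ :=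
  List.rec (motive := fun _ => ℕ → ℕ → ℕ) (fun _ acc => acc) (fun v _ ih w acc =>
    fc (A acc (S (Nat.mod w p) v)) (fun b => fc (Nat.div w p) (fun w' => ih w' b))) vs

/-- the combinations with coefficients `W_k` are `u, p u, p^2 u, ...` -/
noncomputable def chkW (p : ℕ) (A S : ℕ → ℕ → ℕ) (vs : List ℕ) : List ℕ → ℕ → Bool
  | [], _ => true
  | w :: ws, u => Nat.beq (lc p A S vs w 0) u && fc (Nat.mul p u) (fun u' => chkW p A S vs ws u')

/-- all products -/
noncomputable def prods (p n f : ℕ) (A S : ℕ → ℕ → ℕ) (gs : List ℕ) : List ℕ → List ℕ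
  | [] => []
  | a :: P => (gs.map (fun g => mul p n f A S a g)) ++ prods p n f A S gs P

/-- the check for one proper divisor `d` of `n` -/
noncomputable def chkD (p n f : ℕ) (A S : ℕ → ℕ → ℕ) (P : List ℕ) (x : ℕ × ℕ × List ℕ) : Bool :=
  Nat.ble 1 x.1 && Nat.beq (Nat.mod n x.1) 0 &&
  Nat.beq (frp p n f A S x.1 x.2.1) x.2.1 &&
  Nat.beq x.2.2.length n &&
  fl (gpw p n f A S x.2.1 x.1 1) (fun gs => fl (prods p n f A S gs (evy x.1 0 (P.take n)))
    (fun vs => chkW p A S vs x.2.2 1))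

/-- the check for a list of divisors -/
noncomputable def chkDs (p n f : ℕ) (A S : ℕ → ℕ → ℕ) (P : List ℕ) :
    List (ℕ × ℕ × List ℕ) → Bool
  | [] => true
  | x :: xs => chkD p n f A S P x && chkDs p n f A S P xs

/-- all proper divisors of `n` up to `k` are in the list -/
def chkC (n : ℕ) (l : List ℕ) : ℕ → Bool
  | 0 => true
  | k + 1 => (Nat.blt 0 (Nat.mod n (k + 1)) || Nat.beq n (k + 1) || l.elem (k + 1)) && chkC n l k

/-- the full check -/
noncomputable def chkE (p n f : ℕ) (A S : ℕ → ℕ → ℕ) (rs : List (ℕ × ℕ))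
    (ds : List (ℕ × ℕ × List ℕ)) : Bool :=
  Nat.ble 2 n && isP p && Nat.beq (dg p f n) 1 &&
  Nat.beq (Nat.mod (Nat.pow (prR rs) 8) (Nat.sub (Nat.pow p n) 1)) 0 &&
  chkC n (ds.map Prod.fst) n &&
  fl (frl p n f A S n p) (fun P =>
    Nat.beq (pwE p n f A S P (Nat.sub (Nat.pow p n) 1) 1) 1 &&
    chkR p n f A S P (Nat.sub (Nat.pow p n) 1) rs && chkDs p n f A S P ds)

end Pool.Agent.MM2
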