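import Mathlib
import Pool.Agent.MM2.EDefs

/-!
The digit operations.
-/

namespace Pool.Agent.MM2

open Finset

theorem fc_eq {α : Type} (a : ℕ) (f : ℕ → α) : fc a f = f a := by
  cases a <;> rfl

theorem fl_eq {α : Type} (l : List ℕ) (k : List ℕ → α) : fl l k = k l := by
  induction l generalizing k with
  | nil => rfl
  | cons a t ih =>
    change fc a (fun b => fl t (fun s => k (b :: s))) = k (a :: t)
    rw [fc_eq, ih]

theorem ops_dg (p a i : ℕ) : dg p a i = a / p ^ i % p := rfl

theorem ops_dg_succ (p a i : ℕ) : dg p a (i + 1) = dg p (a / p) i := by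
  rw [ops_dg, ops_dg, pow_succ', Nat.div_div_eq_div_mul]

theorem ops_dg_cons_zero (p r m : ℕ) (hr : r < p) : dg p (r + p * m) 0 = r := by
  rw [ops_dg, pow_zero, Nat.div_one, Nat.add_mul_mod_self_left, Nat.mod_eq_of_lt hr]

theorem ops_dg_cons_succ (p r m i : ℕ) (hr : r < p) : dg p (r + p * m) (i + 1) = dg p m i := by
  rw [ops_dg_succ, Nat.add_mul_div_left _ _ (by omega : 0 < p), Nat.div_eq_of_lt hr, zero_add]

theorem ops_two (n : ℕ) : Ops 2 n Nat.xor Nat.mul := by
  constructor
  · intro a b i _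
    have h : ∀ c : ℕ, dg 2 c i = (c.testBit i).toNat := by
      intro c
      rw [ops_dg, Nat.testBit_eq_decide_div_mod_eq]
      rcases Nat.mod_two_eq_zero_or_one (c / 2 ^ i) with h | h <;> rw [h] <;> rfl
    rw [h, h, h]
    change ((a ^^^ b).testBit i).toNat = _
    rw [Nat.testBit_xor]
    cases a.testBit i <;> cases b.testBit i <;> rfl
  · intro c a i _ hc
    have h2 : c = 0 ∨ c = 1 := by omega
    rcases h2 with rfl | rfl
    · change dg 2 (0 * a) i = _
      rw [zero_mul, zero_mul, ops_dg, Nat.zero_div]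
    · change dg 2 (1 * a) i = _
      rw [one_mul, one_mul, ops_dg, Nat.mod_mod]

theorem ops_adP_succ (p k a b : ℕ) : adP p (k + 1) a b =
    (a % p + b % p) % p + p * adP p k (a / p) (b / p) := by
  change fc (Nat.div a p) (fun a' => fc (Nat.div b p) (fun b' =>
      Nat.add (Nat.mod (Nat.add (Nat.mod a p) (Nat.mod b p)) p) (Nat.mul p (adP p k a' b')))) = _
  rw [fc_eq, fc_eq]
  rfl

theorem ops_smP_succ (p k c a : ℕ) : smP p (k + 1) c a =
    (c * (a % p)) % p + p * smP p k c (a / p) := by
  change fc (Nat.div a p) (fun a' =>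
      Nat.add (Nat.mod (Nat.mul c (Nat.mod a p)) p) (Nat.mul p (smP p k c a'))) = _
  rw [fc_eq]
  rfl

theorem ops_adP (p : ℕ) (hp : 2 ≤ p) (k : ℕ) : ∀ (a b i : ℕ), i < k →
    dg p (adP p k a b) i = (dg p a i + dg p b i) % p := by
  have hp0 : 0 < p := by omega
  induction k with
  | zero => intro a b i hi; omega
  | succ k ih =>
    intro a b i hi
    rw [ops_adP_succ]
    cases i with
    | zero =>
      rw [ops_dg_cons_zero _ _ _ (Nat.mod_lt _ hp0), ops_dg, ops_dg]
      simp
    | succ i =>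
      rw [ops_dg_cons_succ _ _ _ _ (Nat.mod_lt _ hp0), ih _ _ _ (by omega), ops_dg_succ,
        ops_dg_succ]

theorem ops_smP (p : ℕ) (hp : 2 ≤ p) (k c : ℕ) : ∀ (a i : ℕ), i < k →
    dg p (smP p k c a) i = (c * dg p a i) % p := by
  have hp0 : 0 < p := by omega
  induction k with
  | zero => intro a i hi; omega
  | succ k ih =>
    intro a i hi
    rw [ops_smP_succ]
    cases i with
    | zero =>
      rw [ops_dg_cons_zero _ _ _ (Nat.mod_lt _ hp0), ops_dg]
      simp
    | succ i =>
      rw [ops_dg_cons_succ _ _ _ _ (Nat.mod_lt _ hp0), ih _ _ (by omega), ops_dg_succ]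

theorem ops_odd (p n : ℕ) (hp : 2 ≤ p) : Ops p n (adP p (n + 1)) (sm p (n + 1)) := by
  constructor
  · intro a b i hi
    exact ops_adP p hp (n + 1) a b i (by omega)
  · intro c a i hi hc
    unfold sm
    rcases hb : Nat.beq c 0 with _ | _
    · rcases hb1 : Nat.beq c 1 with _ | _
      · exact ops_smP p hp (n + 1) c a i (by omega)
      · have : c = 1 := Nat.eq_of_beq_eq_true hb1
        subst this
        change dg p a i = _
        rw [one_mul, ops_dg, Nat.mod_mod]
    · have : c = 0 := Nat.eq_of_beq_eq_true hb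
      subst this
      change dg p 0 i = _
      rw [zero_mul, ops_dg, Nat.zero_div]

end Pool.Agent.MM2
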