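import Mathlib
import Pool.Agent.MM2.EDefs
import Pool.Agent.MM2.OPS

/-!
Multiplication of represented elements.
-/

namespace Pool.Agent.MM2

open Finset

section

variable {R : Type} [CommRing R] {p n f : ℕ} {A S : ℕ → ℕ → ℕ} {x : R}

theorem evm_mod (hp0 : (p : R) = 0) (a : ℕ) : ((a % p : ℕ) : R) = (a : R) := by
  conv_rhs => rw [← Nat.div_add_mod a p]
  push_cast
  rw [hp0, zero_mul, zero_add]

theorem ev_add (hO : Ops p n A S) (hp0 : (p : R) = 0) (a b : ℕ) :
    ev p n x (A a b) = ev p n x a + ev p n x b := by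
  unfold ev
  rw [← Finset.sum_add_distrib]
  refine Finset.sum_congr rfl fun i hi => ?_
  rw [hO.add a b i (by have := Finset.mem_range.1 hi; omega), evm_mod hp0]
  push_cast
  ring

theorem ev_smul (hO : Ops p n A S) (hp0 : (p : R) = 0) (c a : ℕ) (hc : c < p) :
    ev p n x (S c a) = c * ev p n x a := by
  unfold ev
  rw [Finset.mul_sum]
  refine Finset.sum_congr rfl fun i hi => ?_
  rw [hO.smul c a i (by have := Finset.mem_range.1 hi; omega) hc, evm_mod hp0]
  push_cast
  ring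

theorem ev_pow (hp : 2 ≤ p) (k : ℕ) (hk : k ≤ n) : ev p n x (p ^ k) = x ^ k := by
  have hp0 : 0 < p := by omega
  unfold ev
  rw [Finset.sum_eq_single k]
  · rw [ops_dg, Nat.div_self (Nat.pow_pos hp0), Nat.mod_eq_of_lt (by omega), Nat.cast_one, one_mul]
  · intro i _ hik
    have : dg p (p ^ k) i = 0 := by
      rw [ops_dg]
      rcases lt_or_gt_of_ne hik with h | h
      · rw [Nat.pow_div h.le hp0]
        apply Nat.mod_eq_zero_of_dvd
        exact dvd_pow_self p (by omega)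
      · rw [Nat.div_eq_of_lt (Nat.pow_lt_pow_right (by omega) h), Nat.zero_mod]
    rw [this, Nat.cast_zero, zero_mul]
  · intro h
    exfalso
    exact h (Finset.mem_range.2 (by omega))

theorem ev_lt (hp : 2 ≤ p) (c : ℕ) (hc : c < p) : ev p n x c = (c : R) := by
  unfold ev
  rw [Finset.sum_eq_single 0]
  · rw [ops_dg, pow_zero, Nat.div_one, Nat.mod_eq_of_lt hc, pow_zero, mul_one]
  · intro i _ hi0
    have : dg p c i = 0 := by
      rw [ops_dg, Nat.div_eq_of_lt (lt_of_lt_of_le hc (Nat.le_self_pow hi0 p)), Nat.zero_mod]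
    rw [this, Nat.cast_zero, zero_mul]
  · intro h
    exfalso
    exact h (Finset.mem_range.2 (by omega))

theorem evm_zero (hp : 2 ≤ p) : ev p n x 0 = 0 := by
  rw [ev_lt hp 0 (by omega), Nat.cast_zero]

theorem evm_nrm (hO : Ops p n A S) (hp : 2 ≤ p) (hp0 : (p : R) = 0)
    (hfx : ev p n x f = 0) (a : ℕ) : ev p n x (nrm p n f A S a) = ev p n x a := by
  unfold nrm
  rw [ev_add hO hp0]
  have h : Nat.mod (Nat.sub p (dg p a n)) p < p := Nat.mod_lt _ (by omega)
  rw [ev_smul hO hp0 _ _ h, hfx, mul_zero, add_zero]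

theorem evm_nrm_dg (hO : Ops p n A S) (hp : 2 ≤ p) (hf : dg p f n = 1) (a : ℕ) :
    dg p (nrm p n f A S a) n = 0 := by
  have h2 : Nat.mod (Nat.sub p (dg p a n)) p < p := Nat.mod_lt _ (by omega)
  unfold nrm
  rw [hO.add _ _ n le_rfl, hO.smul _ _ n le_rfl h2, hf, mul_one]
  have h1 : dg p a n < p := Nat.mod_lt _ (by omega)
  change (dg p a n + (p - dg p a n) % p % p) % p = 0
  rw [Nat.mod_mod, Nat.add_mod, Nat.mod_mod, ← Nat.add_mod]
  rw [Nat.add_sub_cancel' h1.le, Nat.mod_self]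

theorem evm_shift (hp : 2 ≤ p) (u : ℕ) (hu : dg p u n = 0) :
    ev p n x (p * u) = x * ev p n x u := by
  unfold ev
  rw [Finset.sum_range_succ', Finset.sum_range_succ (fun i => (dg p u i : R) * x ^ i), hu]
  have h0 : dg p (p * u) 0 = 0 := by
    rw [ops_dg, pow_zero, Nat.div_one, Nat.mul_mod_right]
  rw [h0, Nat.cast_zero, zero_mul, zero_mul, add_zero, add_zero, Finset.mul_sum]
  refine Finset.sum_congr rfl fun i _ => ?_
  rw [ops_dg_succ, Nat.mul_div_cancel_left _ (by omega : 0 < p), pow_succ]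
  ring

theorem evm_mulA_zero (a b acc : ℕ) : mulA p n f A S a b 0 acc = nrm p n f A S acc := rfl

theorem evm_mulA_succ (a b i acc : ℕ) : mulA p n f A S a b (i + 1) acc =
    mulA p n f A S a b i (A (p * nrm p n f A S acc) (S (dg p a i) b)) := by
  change fc (A (Nat.mul p (A acc
      (S (Nat.mod (Nat.sub p (Nat.mod (Nat.div acc (Nat.pow p n)) p)) p) f)))
        (S (Nat.mod (Nat.div a (Nat.pow p i)) p) b)) (mulA p n f A S a b i) = _
  rw [fc_eq]
  rfl

theorem evm_mulA (hO : Ops p n A S) (hp : 2 ≤ p) (hp0 : (p : R) = 0) (hf : dg p f n = 1)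
    (hfx : ev p n x f = 0) (a b i : ℕ) : ∀ acc : ℕ,
    ev p n x (mulA p n f A S a b i acc) =
      x ^ i * ev p n x acc + (∑ j ∈ range i, (dg p a j : R) * x ^ j) * ev p n x b := by
  induction i with
  | zero =>
    intro acc
    rw [evm_mulA_zero, evm_nrm hO hp hp0 hfx]
    simp
  | succ i ih =>
    intro acc
    have hlt : dg p a i < p := Nat.mod_lt _ (by omega)
    rw [evm_mulA_succ, ih, ev_add hO hp0, evm_shift hp _ (evm_nrm_dg hO hp hf acc),
      evm_nrm hO hp hp0 hfx, ev_smul hO hp0 _ _ hlt, Finset.sum_range_succ, pow_succ]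
    ring

theorem ev_mul (hO : Ops p n A S) (hp : 2 ≤ p) (hp0 : (p : R) = 0) (hf : dg p f n = 1)
    (hfx : ev p n x f = 0) (a b : ℕ) :
    ev p n x (mul p n f A S a b) = ev p n x a * ev p n x b := by
  unfold mul
  rw [evm_mulA hO hp hp0 hf hfx, evm_zero hp, mul_zero, zero_add]
  rfl

end

end Pool.Agent.MM2
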