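import Mathlib
import Pool.Agent.MM2.EDefs
import Pool.Agent.MM2.OPS
import Pool.Agent.MM2.EVM

/-!
Lists of represented elements.
-/

namespace Pool.Agent.MM2

open Finset

section

variable {R : Type} [CommRing R] {p n f : ℕ} {A S : ℕ → ℕ → ℕ} {x : R}

theorem evl_mrep_succ (a c acc : ℕ) : mrep p n f A S a (c + 1) acc =
    mrep p n f A S a c (mul p n f A S acc a) := by
  change fc (mul p n f A S acc a) (mrep p n f A S a c) = _
  rw [fc_eq]

theorem ev_mrep (hO : Ops p n A S) (hp : 2 ≤ p) (hp0 : (p : R) = 0) (hf : dg p f n = 1)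
    (hfx : ev p n x f = 0) (a c acc : ℕ) :
    ev p n x (mrep p n f A S a c acc) = ev p n x acc * ev p n x a ^ c := by
  induction c generalizing acc with
  | zero =>
    change ev p n x acc = _
    rw [pow_zero, mul_one]
  | succ c ih =>
    rw [evl_mrep_succ, ih, ev_mul hO hp hp0 hf hfx, pow_succ]
    ring

theorem evl_frob (hO : Ops p n A S) (hp : 2 ≤ p) (hp0 : (p : R) = 0) (hf : dg p f n = 1)
    (hfx : ev p n x f = 0) (a : ℕ) :
    ev p n x (mrep p n f A S a (Nat.sub p 1) a) = ev p n x a ^ p := by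
  rw [ev_mrep hO hp hp0 hf hfx]
  change ev p n x a * ev p n x a ^ (p - 1) = _
  rw [← pow_succ']
  congr 1
  omega

theorem ev_frl (hO : Ops p n A S) (hp : 2 ≤ p) (hp0 : (p : R) = 0) (hf : dg p f n = 1)
    (hfx : ev p n x f = 0) (i a : ℕ) :
    (frl p n f A S i a).map (ev p n x) =
      (List.range (i + 1)).map (fun j => ev p n x a ^ (p ^ j)) := by
  induction i generalizing a with
  | zero => simp [frl]
  | succ i ih =>
    rw [List.range_succ_eq_map]
    simp only [frl, fc_eq, List.map_cons, pow_zero, pow_one, List.map_map]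
    rw [ih, evl_frob hO hp hp0 hf hfx]
    congr 1
    apply List.map_congr_left
    intro j _
    simp only [Function.comp_apply]
    rw [← pow_mul, ← pow_succ']

theorem ev_frp (hO : Ops p n A S) (hp : 2 ≤ p) (hp0 : (p : R) = 0) (hf : dg p f n = 1)
    (hfx : ev p n x f = 0) (i a : ℕ) :
    ev p n x (frp p n f A S i a) = ev p n x a ^ (p ^ i) := by
  induction i generalizing a with
  | zero => simp [frp]
  | succ i ih =>
    simp only [frp, fc_eq]
    rw [ih, evl_frob hO hp hp0 hf hfx, ← pow_mul, ← pow_succ']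

theorem ev_pwE (hO : Ops p n A S) (hp : 2 ≤ p) (hp0 : (p : R) = 0) (hf : dg p f n = 1)
    (hfx : ev p n x f = 0) (P : List ℕ) (y : R) (m : ℕ)
    (hP : P.map (ev p n x) = (List.range m).map (fun j => y ^ (p ^ j))) (e acc : ℕ)
    (he : e < p ^ m) : ev p n x (pwE p n f A S P e acc) = ev p n x acc * y ^ e := by
  induction P generalizing y m e acc with
  | nil =>
    have hm : m = 0 := by
      have := congrArg List.length hP
      simpa using this.symm
    subst hm
    have he0 : e = 0 := by simpa using he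
    subst he0
    simp [pwE]
  | cons a P ih =>
    have hm : m = P.length + 1 := by
      have := congrArg List.length hP
      simpa using this.symm
    subst hm
    rw [List.range_succ_eq_map] at hP
    simp only [List.map_cons, pow_zero, pow_one, List.map_map, List.cons.injEq] at hP
    obtain ⟨h1, h2⟩ := hP
    simp only [pwE, fc_eq]
    rw [ih (y ^ p) P.length _ (Nat.div e p), ev_mrep hO hp hp0 hf hfx, h1, mul_assoc]
    · congr 1
      change y ^ (e % p) * (y ^ p) ^ (e / p) = y ^ e
      rw [← pow_mul, ← pow_add]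
      congr 1
      exact Nat.mod_add_div e p
    · change e / p < p ^ P.length
      rw [Nat.div_lt_iff_lt_mul (by omega), ← pow_succ]
      exact he
    · rw [h2]
      apply List.map_congr_left
      intro j _
      simp only [Function.comp_apply]
      rw [← pow_mul, ← pow_succ']

theorem evl_lc_cons (v : ℕ) (vs : List ℕ) (w acc : ℕ) : lc p A S (v :: vs) w acc =
    lc p A S vs (w / p) (A acc (S (w % p) v)) := by
  change fc (A acc (S (Nat.mod w p) v)) (fun b => fc (Nat.div w p) (fun w' =>
    lc p A S vs w' b)) = _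
  rw [fc_eq, fc_eq]
  rfl

theorem ev_lc (hO : Ops p n A S) (hp : 2 ≤ p) (hp0 : (p : R) = 0) (W : AddSubgroup R)
    (vs : List ℕ) (hvs : ∀ v ∈ vs, ev p n x v ∈ W) (w acc : ℕ) (hacc : ev p n x acc ∈ W) :
    ev p n x (lc p A S vs w acc) ∈ W := by
  induction vs generalizing w acc with
  | nil => exact hacc
  | cons v vs ih =>
    rw [evl_lc_cons]
    apply ih (fun u hu => hvs u (List.mem_cons_of_mem _ hu))
    rw [ev_add hO hp0, ev_smul hO hp0 _ _ (Nat.mod_lt _ (by omega))]
    refine W.add_mem hacc ?_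
    rw [← nsmul_eq_mul]
    exact W.nsmul_mem (hvs v List.mem_cons_self) _

theorem gpw_mem (hO : Ops p n A S) (hp : 2 ≤ p) (hp0 : (p : R) = 0) (hf : dg p f n = 1)
    (hfx : ev p n x f = 0) (g d a : ℕ) (v : ℕ) (hv : v ∈ gpw p n f A S g d a) :
    ∃ j < d, ev p n x v = ev p n x a * ev p n x g ^ j := by
  induction d generalizing a with
  | zero => simp [gpw] at hv
  | succ d ih =>
    simp only [gpw, fc_eq, List.mem_cons] at hv
    rcases hv with rfl | hv
    · exact ⟨0, by omega, by simp⟩
    · obtain ⟨j, hj, he⟩ := ih _ hv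
      refine ⟨j + 1, by omega, ?_⟩
      rw [he, ev_mul hO hp hp0 hf hfx, pow_succ]
      ring

theorem prods_mem (hO : Ops p n A S) (hp : 2 ≤ p) (hp0 : (p : R) = 0) (hf : dg p f n = 1)
    (hfx : ev p n x f = 0) (gs P : List ℕ) (v : ℕ) (hv : v ∈ prods p n f A S gs P) :
    ∃ a ∈ P, ∃ g ∈ gs, ev p n x v = ev p n x a * ev p n x g := by
  induction P with
  | nil => simp [prods] at hv
  | cons a P ih =>
    simp only [prods, List.mem_append, List.mem_map] at hv
    rcases hv with ⟨g, hg, rfl⟩ | hv
    · exact ⟨a, List.mem_cons_self, g, hg, ev_mul hO hp hp0 hf hfx a g⟩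
    · obtain ⟨b, hb, g, hg, he⟩ := ih hv
      exact ⟨b, List.mem_cons_of_mem _ hb, g, hg, he⟩

theorem evl_evy_mem (d : ℕ) (hd : 1 ≤ d) (P : List ℕ) (a : ℕ) : ∀ k : ℕ, a ∈ evy d k P →
    ∃ i : ℕ, P[k + d * i]? = some a := by
  induction P with
  | nil =>
    intro k ha
    cases k <;> simp [evy] at ha
  | cons b P ih =>
    intro k ha
    cases k with
    | zero =>
      simp only [evy, List.mem_cons] at ha
      rcases ha with rfl | ha
      · exact ⟨0, by simp⟩
      · obtain ⟨i, hi⟩ := ih _ ha
        refine ⟨i + 1, ?_⟩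
        have h1 : 0 + d * (i + 1) = (Nat.sub d 1 + d * i) + 1 := by
          change 0 + d * (i + 1) = (d - 1 + d * i) + 1
          rw [Nat.mul_add]
          omega
        rw [h1, List.getElem?_cons_succ]
        exact hi
    | succ k =>
      simp only [evy] at ha
      obtain ⟨i, hi⟩ := ih _ ha
      refine ⟨i, ?_⟩
      have h1 : k + 1 + d * i = (k + d * i) + 1 := by omega
      rw [h1, List.getElem?_cons_succ]
      exact hi

theorem evy_mem (d : ℕ) (hd : 1 ≤ d) (P : List ℕ) (a : ℕ) (ha : a ∈ evy d 0 P) :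
    ∃ i : ℕ, P[d * i]? = some a := by
  obtain ⟨i, hi⟩ := evl_evy_mem d hd P a 0 ha
  rw [zero_add] at hi
  exact ⟨i, hi⟩

theorem chkW_get (vs ws : List ℕ) (u : ℕ) (h : chkW p A S vs ws u = true) (k : ℕ) (w : ℕ)
    (hk : ws[k]? = some w) : lc p A S vs w 0 = p ^ k * u := by
  induction ws generalizing u k with
  | nil => simp at hk
  | cons w' ws ih =>
    simp only [chkW, fc_eq, Bool.and_eq_true] at h
    obtain ⟨h1, h2⟩ := h
    cases k with
    | zero =>
      rw [List.getElem?_cons_zero] at hk
      have h3 : w' = w := by simpa using hk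
      subst h3
      rw [pow_zero, one_mul]
      exact Nat.eq_of_beq_eq_true h1
    | succ k =>
      rw [List.getElem?_cons_succ] at hk
      rw [ih _ h2 k hk]
      change p ^ k * (p * u) = _
      rw [pow_succ, mul_assoc]

end

end Pool.Agent.MM2
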