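import Mathlib
import Pool.Agent.MM2.Defs

/-!
Primitive completely normal elements in a concrete ring.
-/

namespace Pool.Agent.MM2

open Finset Polynomial Pool.Agent.MM

/-- If `x` has order `|R| - 1` then every nonzero element is a power of `x`. -/
theorem ex3_pow (R : Type) [CommRing R] [Nontrivial R] (N : ℕ) (hN : 1 ≤ N)
    (hcard : Nat.card R = N + 1) (x : R) (ha : x ^ N = 1)
    (hb : ∀ r : ℕ, r.Prime → r ∣ N → x ^ (N / r) ≠ 1) (y : R) (hy : y ≠ 0) :
    ∃ k : ℕ, x ^ k = y := by
  classical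
  have hfin : Finite R := Nat.finite_of_card_ne_zero (by omega)
  have hft : Fintype R := Fintype.ofFinite R
  have ho : orderOf x = N := orderOf_eq_of_pow_and_pow_div_prime (by omega) ha hb
  have h1 : ((range N).image (fun k => x ^ k)).card = N := by
    rw [card_image_of_injOn, card_range]
    intro i hi j hj hij
    rw [Finset.coe_range, Set.mem_Iio] at hi hj
    have hij' : x ^ i = x ^ j := hij
    have hu : IsUnit x := by
      apply IsUnit.of_mul_eq_one (x ^ (N - 1))
      rw [← pow_succ', Nat.sub_add_cancel hN, ha]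
    obtain ⟨u, rfl⟩ := hu
    have h2 : u ^ i = u ^ j := by
      apply Units.ext
      simpa using hij'
    rw [orderOf_units] at ho
    rw [pow_inj_mod, ho, Nat.mod_eq_of_lt hi, Nat.mod_eq_of_lt hj] at h2
    exact h2
  have h2 : (range N).image (fun k => x ^ k) ⊆ (univ : Finset R).erase 0 := by
    intro z hz
    rw [mem_image] at hz
    obtain ⟨k, -, rfl⟩ := hz
    rw [mem_erase]
    refine ⟨?_, mem_univ _⟩
    intro h0
    have h3 : (x ^ k) ^ N = 1 := by rw [← pow_mul, mul_comm, pow_mul, ha, one_pow]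
    rw [h0, zero_pow (by omega)] at h3
    exact zero_ne_one h3
  have h3 : (range N).image (fun k => x ^ k) = (univ : Finset R).erase 0 := by
    apply eq_of_subset_of_card_le h2
    rw [h1, card_erase_of_mem (mem_univ _), card_univ, ← Nat.card_eq_fintype_card, hcard]
    omega
  have h4 : y ∈ (univ : Finset R).erase 0 := mem_erase.mpr ⟨hy, mem_univ _⟩
  rw [← h3, mem_image] at h4
  obtain ⟨k, -, hk⟩ := h4
  exact ⟨k, hk⟩

theorem ex3_iso (R : Type) [CommRing R] [Nontrivial R] (N : ℕ) (hN : 1 ≤ N)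
    (hcard : Nat.card R = N + 1) (x : R) (ha : x ^ N = 1)
    (hb : ∀ r : ℕ, r.Prime → r ∣ N → x ^ (N / r) ≠ 1) (L : Type) [Field L]
    (hL : Nat.card L = N + 1) : Nonempty (R ≃+* L) := by
  classical
  have hF : IsField R := by
    refine ⟨exists_pair_ne R, mul_comm, ?_⟩
    intro y hy
    obtain ⟨k, rfl⟩ := ex3_pow R N hN hcard x ha hb y hy
    refine ⟨(x ^ k) ^ (N - 1), ?_⟩
    rw [← pow_succ', Nat.sub_add_cancel hN, ← pow_mul, mul_comm, pow_mul, ha, one_pow]
  have hfin : Finite R := Nat.finite_of_card_ne_zero (by omega)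
  have hfinL : Finite L := Nat.finite_of_card_ne_zero (by omega)
  have hft : Fintype R := Fintype.ofFinite R
  have hftL : Fintype L := Fintype.ofFinite L
  letI : Field R := hF.toField
  refine ⟨FiniteField.ringEquivOfCardEq (K := R) (K' := L) ?_⟩
  rw [← Nat.card_eq_fintype_card, ← Nat.card_eq_fintype_card, hcard, hL]

/-- An intermediate field of a finite field is the set of fixed points of the power map. -/
theorem ex3_mem {K L : Type} [Field K] [Field L] [Finite L] [Algebra K L]
    (M : IntermediateField K L) (y : L) (hy : y ^ (Nat.card M) = y) : y ∈ M := by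
  classical
  have hft : Fintype L := Fintype.ofFinite L
  have hftM : Fintype M := Fintype.ofFinite M
  have h1 : 1 < Nat.card M := Finite.one_lt_card
  have h0 : (X ^ (Nat.card M) - X : L[X]) ≠ 0 := FiniteField.X_pow_card_sub_X_ne_zero L h1
  have h2 : (univ : Finset M).image (fun m : M => (m : L)) ⊆
      (X ^ (Nat.card M) - X : L[X]).roots.toFinset := by
    intro z hz
    rw [mem_image] at hz
    obtain ⟨m, -, rfl⟩ := hz
    rw [Multiset.mem_toFinset, mem_roots h0, IsRoot.def, eval_sub, eval_pow, eval_X, sub_eq_zero]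
    have h3 : m ^ (Nat.card M) = m := by
      rw [Nat.card_eq_fintype_card]
      exact FiniteField.pow_card m
    have h4 := congrArg (fun m : M => (m : L)) h3
    simpa using h4
  have h3 : (univ : Finset M).image (fun m : M => (m : L)) =
      (X ^ (Nat.card M) - X : L[X]).roots.toFinset := by
    apply eq_of_subset_of_card_le h2
    rw [card_image_of_injective _ Subtype.val_injective, card_univ, ← Nat.card_eq_fintype_card]
    refine le_trans (Multiset.toFinset_card_le _) (le_trans (card_roots' _) ?_)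
    rw [FiniteField.X_pow_card_sub_X_natDegree_eq L h1]
  have h4 : y ∈ (X ^ (Nat.card M) - X : L[X]).roots.toFinset := by
    rw [Multiset.mem_toFinset, mem_roots h0, IsRoot.def, eval_sub, eval_pow, eval_X, hy, sub_self]
  rw [← h3, mem_image] at h4
  obtain ⟨m, -, rfl⟩ := h4
  exact m.2

theorem ex3 (p n : ℕ) (hp : p.Prime) (hn : 2 ≤ n) (R : Type) [CommRing R] [Nontrivial R]
    (hcard : Nat.card R = p ^ n) (x : R) (ha : x ^ (p ^ n - 1) = 1)
    (hb : ∀ r : ℕ, r.Prime → r ∣ p ^ n - 1 → x ^ ((p ^ n - 1) / r) ≠ 1)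
    (hc : ∀ d : ℕ, 1 ≤ d → d ∣ n → d < n → ∃ g : R, g ^ (p ^ d) = g ∧
      ∀ W : AddSubgroup R, (∀ i j : ℕ, x ^ (p ^ (d * i)) * g ^ j ∈ W) → W = ⊤) : PN p n := by
  classical
  intro K L _ _ _ _ _ hK hL
  have hpn : 2 ≤ p ^ n := le_trans hp.two_le (Nat.le_self_pow (by omega) p)
  have hNL : Nat.card L = p ^ n := by
    rw [Module.natCard_eq_pow_finrank (K := K) (V := L), hK, hL]
  have hc1 : Nat.card R = (p ^ n - 1) + 1 := by omega
  have hc2 : Nat.card L = (p ^ n - 1) + 1 := by omega
  have hN1 : 1 ≤ p ^ n - 1 := by omega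
  obtain ⟨e⟩ := ex3_iso R (p ^ n - 1) hN1 hc1 x ha hb L hc2
  have hprim : Prim (e x) := by
    intro y hy
    have h1 : e.symm y ≠ 0 := fun h => hy (by simpa using congrArg e h)
    obtain ⟨k, hk⟩ := ex3_pow R (p ^ n - 1) hN1 hc1 x ha hb (e.symm y) h1
    refine ⟨k, ?_⟩
    rw [← map_pow, hk, e.apply_symm_apply]
  refine ⟨e x, hprim, ?_⟩
  have hx0 : e x ≠ 0 := by
    intro h0
    have h1 : (e x) ^ (p ^ n - 1) = 1 := by rw [← map_pow, ha, map_one]
    rw [h0, zero_pow (by omega)] at h1
    exact zero_ne_one h1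
  have hcyc : ∀ c k : ℕ, (e x) ^ (p ^ (n * c + k)) = (e x) ^ (p ^ k) := by
    intro c k
    have hft : Fintype L := Fintype.ofFinite L
    have h1 : p ^ (n * c + k) = (Fintype.card L) ^ c * p ^ k := by
      rw [← Nat.card_eq_fintype_card, hNL, ← pow_mul, pow_add]
    rw [h1, pow_mul, FiniteField.pow_card_pow]
  intro M
  set d := Module.finrank K M with hd
  have hft : Fintype L := Fintype.ofFinite L
  have hde : d * Module.finrank M L = n := by
    rw [hd, Module.finrank_mul_finrank, hL]
  have hM : Nat.card M = p ^ d := by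
    rw [Module.natCard_eq_pow_finrank (K := K) (V := M), hK]
  have hd1 : 1 ≤ d := by
    rcases Nat.eq_zero_or_pos d with h | h
    · rw [h, zero_mul] at hde
      omega
    · exact h
  have he1 : 1 ≤ Module.finrank M L := by
    rcases Nat.eq_zero_or_pos (Module.finrank M L) with h | h
    · rw [h, mul_zero] at hde
      omega
    · exact h
  apply linearIndependent_of_top_le_span_of_card_eq_finrank _ (Fintype.card_fin _)
  rw [hM]
  set S : Submodule M L := Submodule.span M
    (Set.range (fun i : Fin (Module.finrank M L) => (e x) ^ ((p ^ d) ^ (i : ℕ)))) with hS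
  have hmem : ∀ i : ℕ, (e x) ^ (p ^ (d * i)) ∈ S := by
    intro i
    have h1 : d * i = n * (i / Module.finrank M L) + d * (i % Module.finrank M L) := by
      conv_lhs => rw [← Nat.div_add_mod i (Module.finrank M L)]
      rw [mul_add, ← mul_assoc, hde]
    rw [h1, hcyc, pow_mul]
    apply Submodule.subset_span
    exact ⟨⟨i % Module.finrank M L, Nat.mod_lt _ (by omega)⟩, rfl⟩
  rcases Nat.lt_or_ge d n with hdn | hdn
  · obtain ⟨g, hg1, hg2⟩ := hc d hd1 ⟨_, hde.symm⟩ hdn
    have hgM : e g ∈ M := by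
      apply ex3_mem M
      rw [hM, ← map_pow, hg1]
    have hW := hg2 (AddSubgroup.comap (e : R →+* L).toAddMonoidHom S.toAddSubgroup) (by
      intro i j
      show e (x ^ (p ^ (d * i)) * g ^ j) ∈ S
      rw [map_mul, map_pow, map_pow, mul_comm]
      exact S.smul_mem (⟨e g, hgM⟩ ^ j : M) (hmem i))
    intro y _
    have h1 : e.symm y ∈ AddSubgroup.comap (e : R →+* L).toAddMonoidHom S.toAddSubgroup := by
      rw [hW]
      exact AddSubgroup.mem_top _
    have h2 : e (e.symm y) ∈ S := h1
    rwa [e.apply_symm_apply] at h2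
  · have hdn' : d = n := le_antisymm (Nat.le_of_dvd (by omega) ⟨_, hde.symm⟩) hdn
    intro y _
    have hyM : ∀ z : L, z ∈ M := by
      intro z
      apply ex3_mem M
      rw [hM, hdn', ← hNL, Nat.card_eq_fintype_card]
      exact FiniteField.pow_card z
    have h1 : e x ∈ S := by simpa using hmem 0
    have h2 : y = (⟨y * (e x)⁻¹, hyM _⟩ : M) • (e x) := by
      show y = y * (e x)⁻¹ * (e x)
      rw [inv_mul_cancel_right₀ hx0]
    rw [h2]
    exact S.smul_mem _ h1

end Pool.Agent.MM2
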