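import Mathlib
import Pool.Agent.MM2.EDefs

/-!
Trial division.
-/

namespace Pool.Agent.MM2

open Finset

theorem isp_succ (r F k : ℕ) : tdiv r F (k + 1) =
    cond (Nat.blt r (Nat.pow (Nat.add (Nat.mul 2 (Nat.sub F k)) 1) 2)) true
      (cond (Nat.beq (Nat.mod r (Nat.add (Nat.mul 2 (Nat.sub F k)) 1)) 0) false (tdiv r F k)) :=
  rfl

theorem isp_tdiv (r F k : ℕ) (hk : k ≤ F) (h : tdiv r F k = true) (j : ℕ) (hj : F - k < j)
    (hjr : (2 * j + 1) ^ 2 ≤ r) : ¬ (2 * j + 1) ∣ r := by
  induction k with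
  | zero => cases h
  | succ k ih =>
    rw [isp_succ] at h
    have hj' : F - k ≤ j := by omega
    rcases h1 : Nat.blt r (Nat.pow (Nat.add (Nat.mul 2 (Nat.sub F k)) 1) 2) with _ | _
    · rw [h1, cond_false] at h
      rcases h2 : Nat.beq (Nat.mod r (Nat.add (Nat.mul 2 (Nat.sub F k)) 1)) 0 with _ | _
      · rw [h2, cond_false] at h
        rcases Nat.lt_or_ge (F - k) j with h3 | h3
        · exact ih (by omega) h h3
        · have h4 : j = F - k := by omega
          intro hd
          have h5 : r % (2 * (F - k) + 1) = 0 := by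
            rw [← h4]
            exact Nat.mod_eq_zero_of_dvd hd
          have h6 : Nat.beq (Nat.mod r (Nat.add (Nat.mul 2 (Nat.sub F k)) 1)) 0 = true := by
            change Nat.beq (r % (2 * (F - k) + 1)) 0 = true
            rw [h5]
            rfl
          rw [h6] at h2
          cases h2
      · rw [h2, cond_true] at h
        cases h
    · exfalso
      have h3 : r < (2 * (F - k) + 1) ^ 2 := Nat.le_of_ble_eq_true h1
      have h4 : (2 * (F - k) + 1) ^ 2 ≤ (2 * j + 1) ^ 2 := Nat.pow_le_pow_left (by omega) 2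
      omega

theorem isP_prime (r : ℕ) (h : isP r = true) : r.Prime := by
  unfold isP at h
  rw [Bool.or_eq_true, Bool.and_eq_true, Bool.and_eq_true] at h
  rcases h with h | ⟨⟨h1, h2⟩, h3⟩
  · have : r = 2 := Nat.eq_of_beq_eq_true h
    rw [this]
    exact Nat.prime_two
  · have hr3 : 3 ≤ r := Nat.le_of_ble_eq_true h1
    have hodd : r % 2 = 1 := Nat.eq_of_beq_eq_true h2
    by_contra hnp
    have hm : r.minFac ^ 2 ≤ r := Nat.minFac_sq_le_self (by omega) hnp
    have hmd : r.minFac ∣ r := Nat.minFac_dvd r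
    have hmp : r.minFac.Prime := Nat.minFac_prime (by omega)
    have hmo : r.minFac % 2 = 1 := by
      rcases Nat.mod_two_eq_zero_or_one r.minFac with h0 | h0
      · exfalso
        have : 2 ∣ r := (Nat.dvd_of_mod_eq_zero h0).trans hmd
        omega
      · exact h0
    have hm2 := hmp.two_le
    obtain ⟨j, hj⟩ : ∃ j, r.minFac = 2 * j + 1 := ⟨r.minFac / 2, by omega⟩
    rw [hj] at hm hmd
    exact isp_tdiv r 140000 140000 le_rfl h3 j (by omega) hm hmd

end Pool.Agent.MM2
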