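import Mathlib
import Pool.Agent.MM2.Defs
import Pool.Agent.MM2.EDefs
import Pool.Agent.MM2.OPS
import Pool.Agent.MM2.EVM
import Pool.Agent.MM2.EVL
import Pool.Agent.MM2.ISP
import Pool.Agent.MM2.EX3

/-!
Soundness of chkE.
-/

namespace Pool.Agent.MM2

open Finset Polynomial Pool.Agent.MM

theorem ex4_ring (p n f : ℕ) (hp : p.Prime) (hn : 1 ≤ n) (hf : dg p f n = 1) :
    ∃ (R : Type) (_ : CommRing R) (x : R), Nontrivial R ∧ (p : R) = 0 ∧
      Nat.card R = p ^ n ∧ ev p n x f = 0 ∧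
      ∀ W : AddSubgroup R, (∀ k < n, x ^ k ∈ W) → W = ⊤ := by
  classical
  have hpf : Fact p.Prime := ⟨hp⟩
  obtain ⟨F, hF⟩ : ∃ F : (ZMod p)[X],
      F = ∑ i ∈ range (n + 1), C ((dg p f i : ℕ) : ZMod p) * X ^ i := ⟨_, rfl⟩
  have hcoeff : F.coeff n = 1 := by
    rw [hF, finsetSum_coeff, sum_eq_single n]
    · rw [coeff_C_mul, coeff_X_pow, if_pos rfl, hf]
      simp
    · intro i _ hi
      rw [coeff_C_mul, coeff_X_pow, if_neg (Ne.symm hi), mul_zero]
    · intro h
      exact absurd (mem_range.2 (Nat.lt_succ_self n)) h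
  have hdeg : F.natDegree ≤ n := by
    rw [hF]
    apply natDegree_sum_le_of_forall_le
    intro i hi
    refine (natDegree_C_mul_X_pow_le _ _).trans ?_
    have := mem_range.1 hi
    omega
  have hdn : F.natDegree = n := natDegree_eq_of_le_of_coeff_ne_zero hdeg (by
    rw [hcoeff]; exact one_ne_zero)
  have hmon : F.Monic := monic_of_natDegree_le_of_coeff_eq_one n hdeg hcoeff
  let pb := AdjoinRoot.powerBasis' hmon
  have hdim : pb.dim = n := by
    rw [AdjoinRoot.powerBasis'_dim, hdn]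
  have hgen : pb.gen = AdjoinRoot.root F := AdjoinRoot.powerBasis'_gen hmon
  have hchar : (p : AdjoinRoot F) = 0 := by
    have h1 : algebraMap (ZMod p) (AdjoinRoot F) (p : ZMod p) = (p : AdjoinRoot F) :=
      map_natCast _ p
    rw [← h1, ZMod.natCast_self, map_zero]
  refine ⟨AdjoinRoot F, inferInstance, AdjoinRoot.root F, ?_, hchar, ?_, ?_, ?_⟩
  · apply AdjoinRoot.nontrivial
    intro h
    have h9 : F.natDegree = 0 := natDegree_eq_of_degree_eq_some h
    omega
  · have hfin : Module.Finite (ZMod p) (AdjoinRoot F) := pb.finite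
    have h1 := Module.natCard_eq_pow_finrank (K := ZMod p) (V := AdjoinRoot F)
    rw [h1, pb.finrank, hdim]
    simp
  · have h1 : AdjoinRoot.mk F F = 0 := AdjoinRoot.mk_self
    have h2 : ∀ G : (ZMod p)[X], G = ∑ i ∈ range (n + 1), C ((dg p f i : ℕ) : ZMod p) * X ^ i →
        AdjoinRoot.mk F G = ev p n (AdjoinRoot.root F) f := by
      rintro _ rfl
      unfold ev
      rw [map_sum]
      refine sum_congr rfl fun i _ => ?_
      rw [map_mul, map_pow, AdjoinRoot.mk_X, AdjoinRoot.mk_C]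
      simp
    rw [← h2 F hF, h1]
  · intro W hW
    rw [eq_top_iff]
    intro y _
    have h1 := pb.basis.sum_repr y
    rw [← h1]
    refine W.sum_mem fun i _ => ?_
    rw [pb.basis_eq_pow, hgen]
    have h2 : ((pb.basis.repr y) i) = (((pb.basis.repr y) i).val : ZMod p) :=
      (ZMod.natCast_zmod_val _).symm
    rw [h2, Nat.cast_smul_eq_nsmul]
    apply W.nsmul_mem
    apply hW
    have := i.2
    omega

theorem ex4_chkR {R : Type} [CommRing R] {p n f : ℕ} {A S : ℕ → ℕ → ℕ} {x : R}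
    (hO : Ops p n A S) (hp : 2 ≤ p) (hp0 : (p : R) = 0) (hf : dg p f n = 1)
    (hfx : ev p n x f = 0) (P : List ℕ) (y : R) (m N : ℕ)
    (hP : P.map (ev p n x) = (List.range m).map (fun j => y ^ (p ^ j))) (hN : N < p ^ m)
    (rs : List (ℕ × ℕ)) (h : chkR p n f A S P N rs = true) (u : ℕ × ℕ) (hu : u ∈ rs) :
    u.1.Prime ∧ ∃ c : R, (y ^ (N / u.1) - 1) * c = 1 := by
  induction rs with
  | nil => simp at hu
  | cons v rs ih =>
    simp only [chkR, Bool.and_eq_true, fc_eq] at h
    rcases List.mem_cons.1 hu with h1 | h1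
    · subst h1
      refine ⟨isP_prime _ h.1.1.1, ev p n x u.2, ?_⟩
      have h2 := Nat.eq_of_beq_eq_true h.1.2
      have h3 := congrArg (ev p n x) h2
      have h4 : N.div u.1 = N / u.1 := rfl
      have h5 : p.sub 1 = p - 1 := rfl
      rw [ev_mul hO hp hp0 hf hfx, ev_add hO hp0, h4, h5,
        ev_pwE hO hp hp0 hf hfx P y m hP _ _ ((Nat.div_le_self _ _).trans_lt hN),
        ev_lt hp 1 (by omega), ev_lt hp (p - 1) (by omega), Nat.cast_sub (by omega), hp0] at h3
      push_cast at h3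
      linear_combination h3
    · exact ih h.2 h1

theorem ex4_prR (rs : List (ℕ × ℕ)) (r : ℕ) (hr : r.Prime) (h : r ∣ prR rs) :
    ∃ u ∈ rs, r ∣ u.1 := by
  induction rs with
  | nil =>
    exact absurd (Nat.dvd_one.1 h) hr.one_lt.ne'
  | cons v rs ih =>
    have h1 : prR (v :: rs) = v.1 * prR rs := rfl
    rw [h1] at h
    rcases (Nat.Prime.dvd_mul hr).1 h with h2 | h2
    · exact ⟨v, List.mem_cons_self, h2⟩
    · obtain ⟨u, hu, h3⟩ := ih h2
      exact ⟨u, List.mem_cons_of_mem _ hu, h3⟩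

theorem ex4_chkC (n : ℕ) (l : List ℕ) (k : ℕ) (h : chkC n l k = true) (d : ℕ) (hd : 1 ≤ d)
    (hdk : d ≤ k) (hdn : d ∣ n) (hne : d ≠ n) : d ∈ l := by
  induction k with
  | zero => omega
  | succ k ih =>
    simp only [chkC, Bool.and_eq_true, Bool.or_eq_true] at h
    rcases Nat.eq_or_lt_of_le hdk with h1 | h1
    · subst h1
      rcases h.1 with (h2 | h2) | h2
      · exfalso
        have h3 : 1 ≤ n.mod (k + 1) := by
          simpa [Nat.blt, Nat.ble_eq] using h2
        have h4 : n.mod (k + 1) = 0 := Nat.mod_eq_zero_of_dvd hdn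
        omega
      · exact absurd (Nat.eq_of_beq_eq_true h2).symm hne
      · exact List.elem_iff.1 h2
    · exact ih h.2 (by omega)

theorem ex4_chkDs {p n f : ℕ} {A S : ℕ → ℕ → ℕ} (P : List ℕ) (ds : List (ℕ × ℕ × List ℕ))
    (h : chkDs p n f A S P ds = true) (u : ℕ × ℕ × List ℕ) (hu : u ∈ ds) :
    chkD p n f A S P u = true := by
  induction ds with
  | nil => simp at hu
  | cons v ds ih =>
    simp only [chkDs, Bool.and_eq_true] at h
    rcases List.mem_cons.1 hu with h1 | h1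
    · subst h1; exact h.1
    · exact ih h.2 h1

theorem ex4 (p n f : ℕ) (A S : ℕ → ℕ → ℕ) (hO : Ops p n A S) (rs : List (ℕ × ℕ))
    (ds : List (ℕ × ℕ × List ℕ)) (h : chkE p n f A S rs ds = true) : PN p n := by
  simp only [chkE, Bool.and_eq_true, fl_eq] at h
  obtain ⟨⟨⟨⟨⟨h1, h2⟩, h3⟩, h4⟩, h5⟩, ⟨h6, h7⟩, h8⟩ := h
  have hn : 2 ≤ n := Nat.le_of_ble_eq_true h1
  have hp : p.Prime := isP_prime p h2
  have hp2 := hp.two_le
  have hf : dg p f n = 1 := Nat.eq_of_beq_eq_true h3
  obtain ⟨R, _, x, hnt, hp0, hcard, hfx, hgen⟩ := ex4_ring p n f hp (by omega) hf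
  have hevp : ev p n x p = x := by
    have := ev_pow (x := x) hp2 1 (show 1 ≤ n by omega)
    rwa [pow_one, pow_one] at this
  have hP : (frl p n f A S n p).map (ev p n x) =
      (List.range (n + 1)).map (fun j => x ^ (p ^ j)) := by
    rw [ev_frl hO hp2 hp0 hf hfx, hevp]
  have hNlt : p ^ n - 1 < p ^ (n + 1) := by
    have h9 : 0 < p ^ n := pow_pos (by omega) n
    have h10 : p ^ n ≤ p ^ (n + 1) := Nat.pow_le_pow_right (by omega) (by omega)
    omega
  have hsub : Nat.sub (Nat.pow p n) 1 = p ^ n - 1 := rfl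
  rw [hsub] at h4 h6 h7
  refine ex3 p n hp hn R hcard x ?_ ?_ ?_
  · have h9 := congrArg (ev p n x) (Nat.eq_of_beq_eq_true h6)
    rw [ev_pwE hO hp2 hp0 hf hfx _ x (n + 1) hP _ _ hNlt, ev_lt hp2 1 (by omega)] at h9
    simpa using h9
  · intro r hr hrN h10
    have h11 : p ^ n - 1 ∣ prR rs ^ 8 := Nat.dvd_of_mod_eq_zero (Nat.eq_of_beq_eq_true h4)
    obtain ⟨u, hu, h12⟩ := ex4_prR rs r hr (hr.dvd_of_dvd_pow (hrN.trans h11))
    obtain ⟨h13, c, h14⟩ := ex4_chkR hO hp2 hp0 hf hfx _ x (n + 1) _ hP hNlt rs h7 u hu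
    have h15 : r = u.1 := (Nat.prime_dvd_prime_iff_eq hr h13).1 h12
    rw [← h15, h10, sub_self, zero_mul] at h14
    exact zero_ne_one h14
  · intro d hd1 hdn hdlt
    have h9 := ex4_chkC n _ n h5 d hd1 (by omega) hdn (by omega)
    obtain ⟨u, hu, rfl⟩ := List.mem_map.1 h9
    have h10 := ex4_chkDs _ ds h8 u hu
    simp only [chkD, Bool.and_eq_true, fl_eq] at h10
    obtain ⟨⟨⟨⟨h11, h12⟩, h13⟩, h14⟩, h15⟩ := h10
    have hlen : u.2.2.length = n := Nat.eq_of_beq_eq_true h14
    refine ⟨ev p n x u.2.1, ?_, ?_⟩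
    · have h16 := congrArg (ev p n x) (Nat.eq_of_beq_eq_true h13)
      rw [ev_frp hO hp2 hp0 hf hfx] at h16
      exact h16
    · intro W hW
      apply hgen
      intro k hk
      have hvs : ∀ v ∈ prods p n f A S (gpw p n f A S u.2.1 u.1 1)
          (evy u.1 0 ((frl p n f A S n p).take n)), ev p n x v ∈ W := by
        intro v hv
        obtain ⟨a, ha, g, hg, h16⟩ := prods_mem (x := x) hO hp2 hp0 hf hfx _ _ v hv
        obtain ⟨j, hj, h17⟩ := gpw_mem (x := x) hO hp2 hp0 hf hfx _ _ _ g hg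
        obtain ⟨i, hi⟩ := evy_mem u.1 hd1 _ a ha
        rw [ev_lt hp2 1 (by omega), Nat.cast_one, one_mul] at h17
        have h18 : ev p n x a = x ^ (p ^ (u.1 * i)) := by
          have h19 : (frl p n f A S n p)[u.1 * i]? = some a := by
            rw [List.getElem?_take] at hi
            split_ifs at hi with h20
            exact hi
          have h21 : ((frl p n f A S n p).map (ev p n x))[u.1 * i]? = some (ev p n x a) := by
            rw [List.getElem?_map, h19]
            rfl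
          rw [hP, List.getElem?_map] at h21
          rcases h22 : (List.range (n + 1))[u.1 * i]? with _ | b
          · rw [h22] at h21
            simp at h21
          · rw [h22] at h21
            have h23 := List.getElem?_eq_some_iff.1 h22
            obtain ⟨h24, h25⟩ := h23
            rw [List.getElem_range] at h25
            rw [← h25] at h21
            simpa using h21.symm
        rw [h16, h18, h17]
        exact hW i j
      have hk' : ∃ w, u.2.2[k]? = some w := by
        refine ⟨u.2.2[k]'(by omega), ?_⟩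
        exact List.getElem?_eq_getElem _
      obtain ⟨w, hw⟩ := hk'
      have h16 := chkW_get _ _ _ h15 k w hw
      have h17 := ev_lc (x := x) hO hp2 hp0 W _ hvs w 0 (by
        have : ev p n x 0 = 0 := by
          rw [ev_lt hp2 0 (by omega)]; simp
        rw [this]
        exact W.zero_mem)
      rw [h16, mul_one, ev_pow hp2 k (by omega)] at h17
      exact h17

theorem ex4_two (n f : ℕ) (rs : List (ℕ × ℕ)) (ds : List (ℕ × ℕ × List ℕ))
    (h : chkE 2 n f Nat.xor Nat.mul rs ds = true) : PN 2 n :=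
  ex4 2 n f _ _ (ops_two n) rs ds h

theorem ex4_odd (p n f : ℕ) (rs : List (ℕ × ℕ)) (ds : List (ℕ × ℕ × List ℕ)) (hp : 2 ≤ p)
    (h : chkE p n f (adP p (n + 1)) (sm p (n + 1)) rs ds = true) : PN p n :=
  ex4 p n f _ _ (ops_odd p n hp) rs ds h

end Pool.Agent.MM2
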