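import Mathlib
import Pool.Agent.MM2.Defs
import Pool.Agent.MM2.EDefs
import Pool.Agent.MM2.EX4

/-!
Explicit fields.
-/

namespace Pool.Agent.MM2

theorem ex_3_3 : PN 3 3 := ex4_odd 3 3 49
    [(2, 1), (13, 17)]
    [(1, 1, [13, 1, 17])]
    (by norm_num) (by decide +kernel)

theorem ex_3_4 : PN 3 4 := ex4_odd 3 4 149
    [(2, 1), (5, 80)]
    [(1, 1, [40, 1, 28, 3]),
     (2, 44, [80, 1, 16, 55])]
    (by norm_num) (by decide +kernel)

theorem ex_3_5 : PN 3 5 := ex4_odd 3 5 391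
    [(2, 1), (11, 33)]
    [(1, 1, [242, 1, 19, 3, 188])]
    (by norm_num) (by decide +kernel)

theorem ex_3_6 : PN 3 6 := ex4_odd 3 6 1073
    [(2, 1), (7, 694), (13, 573)]
    [(1, 1, [728, 1, 203, 3, 370, 678]),
     (2, 259, [546, 1, 217, 518, 496, 512]),
     (3, 575, [700, 1, 59, 174, 593, 191])]
    (by norm_num) (by decide +kernel)

theorem ex_3_7 : PN 3 7 := ex4_odd 3 7 3157
    [(2, 1), (1093, 1061)]
    [(1, 1, [2186, 1, 501, 3, 1926, 423, 1503])]
    (by norm_num) (by decide +kernel)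

theorem ex_3_8 : PN 3 8 := ex4_odd 3 8 11549
    [(2, 1), (5, 247), (41, 2184)]
    [(1, 1, [3280, 1, 1239, 3, 5301, 6231, 3717, 5167]),
     (2, 3248, [6560, 1, 255, 5059, 6350, 2708, 3382, 3114]),
     (4, 4860, [656, 1, 1006, 526, 1138, 6313, 1952, 3773])]
    (by norm_num) (by decide +kernel)

theorem ex_3_10 : PN 3 10 := ex4_odd 3 10 98264
    [(2, 1), (11, 41560), (61, 25117)]
    [(1, 1, [59048, 1, 58999, 3, 22898, 2007, 58901, 42219, 7378, 9]),
     (2, 52542, [51667, 1, 45771, 42897, 19167, 8354, 33922, 29260, 30931, 9]),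
     (5, 41415, [2196, 1, 13171, 1653, 51819, 31334, 21894, 1342, 8763, 6197])]
    (by norm_num) (by decide +kernel)

theorem ex_3_12 : PN 3 12 := ex4_odd 3 12 1046486
    [(2, 1), (5, 203457), (7, 35728), (13, 299301), (73, 276122)]
    [(1, 1, [265720, 1, 139113, 3, 21509, 46708, 417339, 30515, 192374, 9, 16845, 353545]),
     (2, 356763, [199290, 1, 165035, 114274, 506650, 48541, 517928, 210666, 85475, 9, 46435, 525133]),
     (3, 280293, [449680, 1, 38054, 160063, 4589, 428042, 415367, 31162, 60029, 79348, 460876, 520522]),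
     (4, 246987, [66430, 1, 302403, 64208, 905, 89581, 308587, 384551, 349441, 516597, 40889, 9583]),
     (6, 128140, [95630, 1, 507542, 4720, 448989, 441182, 313584, 416163, 479439, 398985, 130448, 243115])]
    (by norm_num) (by decide +kernel)

theorem ex_5_3 : PN 5 3 := ex4_odd 5 3 202
    [(2, 2), (31, 46)]
    [(1, 1, [93, 1, 103])]
    (by norm_num) (by decide +kernel)

theorem ex_5_4 : PN 5 4 := ex4_odd 5 4 1067
    [(2, 2), (3, 396), (13, 247)]
    [(1, 1, [468, 1, 346, 491]),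
     (2, 258, [624, 1, 93, 522])]
    (by norm_num) (by decide +kernel)

theorem ex_5_5 : PN 5 5 := ex4_odd 5 5 5228
    [(2, 2), (11, 1141), (71, 2100)]
    [(1, 1, [2343, 1, 1878, 725, 978])]
    (by norm_num) (by decide +kernel)

theorem ex_5_6 : PN 5 6 := ex4_odd 5 6 28898
    [(2, 2), (3, 13196), (7, 209), (31, 6343)]
    [(1, 1, [3906, 1, 2877, 11211, 3059, 5]),
     (2, 8161, [14322, 1, 3423, 3659, 6059, 10947]),
     (3, 6459, [7056, 1, 3112, 2522, 2307, 5009])]
    (by norm_num) (by decide +kernel)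

theorem ex_7_3 : PN 7 3 := ex4_odd 7 3 494
    [(2, 3), (3, 1), (19, 37)]
    [(1, 1, [114, 1, 47])]
    (by norm_num) (by decide +kernel)

theorem ex_7_4 : PN 7 4 := ex4_odd 7 4 4679
    [(2, 3), (3, 1), (5, 1999)]
    [(1, 1, [400, 1, 493, 1730]),
     (2, 1497, [1350, 1, 121, 2066])]
    (by norm_num) (by decide +kernel)

theorem ex_11_3 : PN 11 3 := ex4_odd 11 3 2616
    [(2, 5), (5, 4), (7, 1080), (19, 506)]
    [(1, 1, [133, 1, 451])]
    (by norm_num) (by decide +kernel)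

theorem ex_11_4 : PN 11 4 := ex4_odd 11 4 23360
    [(2, 5), (3, 2691), (5, 3), (61, 7007)]
    [(1, 1, [13176, 1, 11479, 14029]),
     (2, 13428, [13298, 1, 6315, 13430])]
    (by norm_num) (by decide +kernel)

theorem ex_13_3 : PN 13 3 := ex4_odd 13 3 3985
    [(2, 6), (3, 5), (61, 480)]
    [(1, 1, [1647, 1, 128])]
    (by norm_num) (by decide +kernel)

theorem ex_13_4 : PN 13 4 := ex4_odd 13 4 53506
    [(2, 6), (3, 7), (5, 18308), (7, 16684), (17, 3751)]
    [(1, 1, [16660, 1, 695, 5930]),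
     (2, 11998, [21420, 1, 25616, 26413])]
    (by norm_num) (by decide +kernel)

end Pool.Agent.MM2
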