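import Mathlib
import Pool.Agent.MM2.Defs
import Pool.Agent.MM2.EDefs
import Pool.Agent.MM2.EX4

/-!
Explicit fields.
-/

namespace Pool.Agent.MM2

theorem ex_3_16 : PN 3 16 := ex4_odd 3 16 85585238
    [(2, 1), (5, 38150138), (17, 38681237), (41, 22371029), (193, 37459030)]
    [(1, 1, [21523360, 1, 23436214, 3, 35845635, 31290674, 27261922, 19791210, 98178, 9, 38192318,
       36858766, 21443465, 12503915, 5496183, 7778582]),
     (2, 10576115, [43046720, 1, 10268874, 33548526, 36984526, 26386904, 19727154, 37561236, 28655289, 9,
       26720280, 13163965, 10581453, 18565270, 30471769, 22864331]),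
     (4, 27337864, [22061444, 1, 24743110, 2735407, 13485005, 40104743, 22029914, 32501729, 18382527,
       17840567, 12621413, 2207235, 2169445, 4758308, 773866, 15778280]),
     (8, 23168379, [8386236, 1, 34369050, 41472, 11376558, 20727891, 21953384, 16657061, 10708562, 29297095,
       39704126, 4743137, 36194963, 25814660, 1132048, 19007645])]
    (by norm_num) (by decide +kernel)

end Pool.Agent.MM2
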