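import Mathlib
import Pool.Agent.MM2.Defs
import Pool.Agent.MM2.EDefs
import Pool.Agent.MM2.EX4

/-!
Explicit fields.
-/

namespace Pool.Agent.MM2

theorem ex_5_8 : PN 5 8 := ex4_odd 5 8 621253
    [(2, 2), (3, 282029), (13, 254260), (313, 147118)]
    [(1, 1, [195312, 1, 137366, 55419, 224167, 5, 263009, 140431]),
     (2, 95300, [179036, 1, 166352, 47662, 211757, 46142, 101631, 104741]),
     (4, 44041, [238506, 1, 152634, 13102, 233624, 313936, 174880, 55491])]
    (by norm_num) (by decide +kernel)

theorem ex_5_12 : PN 5 12 := ex4_odd 5 12 486400987
    [(2, 2), (3, 145528522), (7, 126874880), (13, 88184817), (31, 22391240), (601, 51267516)]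
    [(1, 1, [61035156, 1, 1530147, 149935487, 199198683, 5, 76170495, 151161667, 126332737, 201496542,
       7650735, 142283051]),
     (2, 145528523, [132242838, 1, 69014778, 188494135, 122211971, 98733049, 97877478, 15659275, 224628628,
       204773307, 161514856, 45278760]),
     (3, 26308024, [208700856, 1, 212734266, 174874013, 181320434, 133176843, 155796293, 80850361, 124576247,
       93003628, 29341729, 51483254]),
     (4, 63342328, [10563777, 1, 19524382, 63747683, 140213687, 227589123, 117456237, 71499142, 128237027,
       145011174, 105221574, 112157341]),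
     (6, 114460367, [69645082, 1, 240896658, 318607, 108011395, 111984953, 16427619, 13829576, 142311679,
       189779202, 83331540, 179190058])]
    (by norm_num) (by decide +kernel)

theorem ex_7_6 : PN 7 6 := ex4_odd 7 6 140789
    [(2, 3), (3, 5), (19, 102588), (43, 73175)]
    [(1, 1, [117648, 1, 26699, 78302, 29968, 110633]),
     (2, 79620, [19608, 1, 65003, 112566, 77905, 20865]),
     (3, 114978, [20296, 1, 70357, 14601, 17050, 50272])]
    (by norm_num) (by decide +kernel)

end Pool.Agent.MM2
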