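import Mathlib
import Pool.Agent.MM2.Defs
import Pool.Agent.MM2.EDefs
import Pool.Agent.MM2.EX4

/-!
Explicit fields.
-/

namespace Pool.Agent.MM2

theorem exp_chkR_cons (p n f : ℕ) (A S : ℕ → ℕ → ℕ) (P : List ℕ) (N : ℕ) (x y : ℕ × ℕ)
    (xs : List (ℕ × ℕ)) : chkR p n f A S P N (x :: y :: xs) =
      (chkR p n f A S P N [x] && chkR p n f A S P N (y :: xs)) := by
  simp [chkR]

end Pool.Agent.MM2
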