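import Mathlib
import Pool.Agent.MM2.NDefs

/-!
Meaning of the computable sums.
-/

namespace Pool.Agent.MM2

open Finset

/-- the entry is correct -/
def EntOK (e : Ent) : Prop := 0 < e.t ∧ e.ds.Nodup ∧ (∀ d, d ∈ e.ds ↔ d ∈ e.t.divisors) ∧
  e.u = if e.t ≤ 1 then 0 else e.t / e.t.minFac

theorem tab_len : tab.length = 96 := rfl

/-- a check of one entry -/
def num0Chk (e : Ent) (i : ℕ) : Bool :=
  (e.t == i + 1) && (e.ds == (List.range (e.t + 1)).filter (fun d => decide (0 < d) &&
    (e.t % d == 0))) &&
  (((e.t == 1) && (e.u == 0)) || (decide (2 ≤ e.t) && decide (0 < e.u) && (e.t % e.u == 0) &&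
    decide (2 ≤ e.t / e.u) && (List.range (e.t / e.u)).all (fun m => decide (m < 2) ||
      !(e.t % m == 0))))

theorem num0_minFac {t p : ℕ} (h2 : 2 ≤ p) (hd : p ∣ t) (h : ∀ m, 2 ≤ m → m < p → ¬ m ∣ t)
    (ht : 2 ≤ t) : t.minFac = p := by
  refine le_antisymm (Nat.minFac_le_of_dvd h2 hd) (not_lt.1 fun hlt => ?_)
  exact h _ (Nat.minFac_prime (by omega)).two_le hlt (Nat.minFac_dvd t)

theorem num0_chk {e : Ent} {i : ℕ} (h : num0Chk e i = true) : EntOK e ∧ e.t = i + 1 := by
  unfold num0Chk at h
  rw [Bool.and_eq_true, Bool.and_eq_true, Bool.or_eq_true] at h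
  obtain ⟨⟨h1, h2⟩, h3⟩ := h
  have ht : e.t = i + 1 := by simpa using h1
  have hds : e.ds = (List.range (e.t + 1)).filter (fun d => decide (0 < d) &&
    (e.t % d == 0)) := by simpa using h2
  refine ⟨⟨by omega, ?_, ?_, ?_⟩, ht⟩
  · rw [hds]
    exact List.Nodup.filter _ List.nodup_range
  · intro d
    rw [hds, List.mem_filter, List.mem_range, Bool.and_eq_true, decide_eq_true_eq, beq_iff_eq,
      Nat.mem_divisors, ← Nat.dvd_iff_mod_eq_zero]
    constructor
    · rintro ⟨-, -, h⟩
      exact ⟨h, by omega⟩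
    · rintro ⟨h, h0⟩
      have := Nat.le_of_dvd (by omega) h
      have := Nat.pos_of_dvd_of_pos h (by omega)
      exact ⟨by omega, by omega, h⟩
  · rcases h3 with h3 | h3
    · rw [Bool.and_eq_true, beq_iff_eq, beq_iff_eq] at h3
      rw [if_pos (by omega)]
      exact h3.2
    · simp only [Bool.and_eq_true, decide_eq_true_eq, beq_iff_eq] at h3
      obtain ⟨⟨⟨⟨h4, h5⟩, h6⟩, h7⟩, h8⟩ := h3
      rw [if_neg (by omega)]
      have hu : e.u ∣ e.t := Nat.dvd_of_mod_eq_zero h6
      have hm : e.t.minFac = e.t / e.u := by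
        refine num0_minFac h7 (Nat.div_dvd_of_dvd hu) ?_ h4
        intro m hm2 hmp hmt
        rw [List.all_eq_true] at h8
        have := h8 m (List.mem_range.2 hmp)
        rw [Bool.or_eq_true, decide_eq_true_eq] at this
        rcases this with h9 | h9
        · omega
        · rw [Bool.not_eq_true', beq_eq_false_iff_ne] at h9
          exact h9 (Nat.mod_eq_zero_of_dvd hmt)
      rw [hm, Nat.div_div_self hu (by omega)]

/-- the whole table -/
def num0All : List Ent → ℕ → Bool
  | [], _ => true
  | e :: es, i => num0Chk e i && num0All es (i + 1)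

theorem num0_all : ∀ (l : List Ent) (i : ℕ), num0All l i = true → ∀ (j : ℕ) (hj : j < l.length),
    num0Chk l[j] (i + j) = true
  | [], _, _, j, hj => absurd hj (by simp)
  | e :: es, i, h, 0, _ => by
    unfold num0All at h
    rw [Bool.and_eq_true] at h
    simpa using h.1
  | e :: es, i, h, j + 1, hj => by
    unfold num0All at h
    rw [Bool.and_eq_true] at h
    have := num0_all es (i + 1) h.2 j (by simpa using hj)
    rw [show i + (j + 1) = i + 1 + j by omega]
    simpa using this

theorem num0_tab : num0All tab 0 = true := by decide +kernel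

theorem tab_ok (i : ℕ) (hi : i < tab.length) : EntOK tab[i] ∧ tab[i].t = i + 1 := by
  have := num0_chk (num0_all tab 0 num0_tab i hi)
  rw [zero_add] at this
  exact this

theorem num0_aux (q n t u : ℕ) (l : List ℕ) : ∀ acc, sNaux q n t u l acc = acc +
    (l.map (fun d => if d ∣ n then d * zN q (n / d) t u else 0)).sum := by
  induction l with
  | nil =>
    intro acc
    simp [sNaux]
  | cons d ds ih =>
    intro acc
    rw [sNaux, ih, List.map_cons, List.sum_cons, ← add_assoc]
    congr 1
    by_cases h : d ∣ n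
    · rw [if_pos h]
      have : Nat.beq (Nat.mod n d) 0 = true := by
        rw [Nat.beq_eq]
        exact Nat.mod_eq_zero_of_dvd h
      rw [this]
      rfl
    · rw [if_neg h]
      have : Nat.beq (Nat.mod n d) 0 = false := by
        rw [← Bool.not_eq_true, Nat.beq_eq]
        exact fun h' => h (Nat.dvd_of_mod_eq_zero h')
      rw [this]
      rfl

theorem sN_eq (q n : ℕ) (e : Ent) (he : EntOK e) : SB q n e.t = sN q n e := by
  classical
  obtain ⟨h0, hnd, hmem, hu⟩ := he
  unfold sN
  rw [num0_aux, zero_add, SB]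
  have hfin : e.t.divisors = e.ds.toFinset := by
    ext d
    rw [List.mem_toFinset, hmem]
  rw [hfin, List.sum_toFinset _ hnd]
  congr 1
  refine List.map_congr_left fun d _ => ?_
  by_cases hd : d ∣ n
  · rw [if_pos hd, if_pos hd]
    congr 1
    unfold zN
    by_cases ht : e.t ≤ 1
    · rw [if_pos ht] at hu
      rw [if_pos ht, hu]
      rfl
    · rw [if_neg ht] at hu
      have hpos : e.u ≠ 0 := by
        rw [hu]
        have := Nat.minFac_le (n := e.t) (by omega)
        exact (Nat.div_pos this (Nat.minFac_pos _)).ne'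
      have hb : Nat.beq e.u 0 = false := by
        rw [← Bool.not_eq_true, Nat.beq_eq]
        exact hpos
      rw [if_neg ht, hb, hu]
      rfl
  · rw [if_neg hd, if_neg hd]

theorem num0_sumP (q n : ℕ) (l : List Ent) : ∀ k e, sumP q n l k e =
    (k + (l.map (fun x => sN q n x / x.t)).sum,
      e + (l.map (fun x => 1048576 * sN q n x / (x.t * q ^ x.t) + 1)).sum) := by
  induction l with
  | nil =>
    intro k e
    simp [sumP]
  | cons x xs ih =>
    intro k e
    rw [sumP, ih, List.map_cons, List.sum_cons, List.map_cons, List.sum_cons, ← add_assoc,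
      ← add_assoc]
    rfl

theorem num0_take (T m : ℕ) (h : T + m < tab.length) :
    (tab.drop T).take (m + 1) = (tab.drop T).take m ++ [tab[T + m]] := by
  have h1 : m < (tab.drop T).length := by
    rw [List.length_drop]
    omega
  rw [List.take_succ_eq_append_getElem h1, List.getElem_drop]

theorem num0_round (a b : ℕ) (hb : 0 < b) : (a : ℝ) / b ≤ ((a / b + 1 : ℕ) : ℝ) := by
  rw [div_le_iff₀ (by exact_mod_cast hb)]
  have h1 : a ≤ (a / b + 1) * b := by
    have := Nat.div_add_mod a b
    have := Nat.mod_lt a hb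
    nlinarith
  exact_mod_cast h1

theorem num0_main (q n T : ℕ) (hq : 2 ≤ q) (m : ℕ) (h : T + m ≤ tab.length) :
    (∑ t ∈ Ioc T (T + m), SB q n t / t) = (((tab.drop T).take m).map
        (fun x => sN q n x / x.t)).sum ∧
      1048576 * ∑ t ∈ Ioc T (T + m), (SB q n t : ℝ) / t / (q : ℝ) ^ t ≤
        (((((tab.drop T).take m).map
          (fun x => 1048576 * sN q n x / (x.t * q ^ x.t) + 1)).sum : ℕ) : ℝ) := by
  induction m with
  | zero => simp
  | succ m ih =>
    obtain ⟨ih1, ih2⟩ := ih (by omega)
    have hT : T + m < tab.length := by omega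
    obtain ⟨hok, ht⟩ := tab_ok (T + m) hT
    have hIoc : Ioc T (T + (m + 1)) = insert (T + m + 1) (Ioc T (T + m)) := by
      ext x
      simp only [Finset.mem_Ioc, Finset.mem_insert]
      omega
    have hnot : T + m + 1 ∉ Ioc T (T + m) := by
      simp only [Finset.mem_Ioc]
      omega
    rw [hIoc, Finset.sum_insert hnot, Finset.sum_insert hnot, num0_take T m hT, List.map_append,
      List.sum_append, List.map_append, List.sum_append, List.map_cons, List.map_nil,
      List.sum_singleton, List.map_cons, List.map_nil, List.sum_singleton]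
    have hsb : SB q n (T + m + 1) = sN q n tab[T + m] := by
      rw [← ht, sN_eq q n _ hok]
    constructor
    · rw [ih1, hsb, ht, add_comm]
    · rw [mul_add, add_comm, Nat.cast_add (List.sum _)]
      refine add_le_add ih2 ?_
      rw [hsb, ht]
      refine le_trans (le_of_eq ?_) (num0_round _ _ (by positivity))
      push_cast
      have h1 : ((T : ℝ) + m + 1) ≠ 0 := by positivity
      have h2 : (q : ℝ) ^ (T + m + 1) ≠ 0 := by
        have : (0 : ℝ) < q := by exact_mod_cast (by omega : 0 < q)
        positivity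
      field_simp

theorem sumP_drop (q n T T2 : ℕ) (hq : 2 ≤ q) (hT : T ≤ T2) (hT2 : T2 ≤ 96) :
    1048576 * ∑ t ∈ Ioc T T2, (SB q n t : ℝ) / t / (q : ℝ) ^ t ≤
      ((sumP q n ((tab.drop T).take (T2 - T)) 0 0).2 : ℝ) := by
  have h := (num0_main q n T hq (T2 - T) (by rw [tab_len]; omega)).2
  rw [show T + (T2 - T) = T2 by omega] at h
  rw [num0_sumP]
  simpa using h

theorem sumP_take (q n T : ℕ) (hq : 2 ≤ q) (hT : T ≤ 96) :
    KB q n T = (sumP q n (tab.take T) 0 0).1 ∧
      1048576 * EB q n T ≤ ((sumP q n (tab.take T) 0 0).2 : ℝ) := by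
  have h := num0_main q n 0 hq T (by rw [tab_len]; omega)
  have hI : Ioc 0 (0 + T) = Icc 1 T := by
    ext x
    simp only [Finset.mem_Ioc, Finset.mem_Icc]
    omega
  rw [hI, List.drop_zero] at h
  rw [num0_sumP]
  unfold KB EB
  refine ⟨?_, ?_⟩
  · rw [h.1]
    simp
  · simpa using h.2

end Pool.Agent.MM2
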