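import Mathlib
import Pool.Agent.MM2.NDefs

/-!
Number of small and large prime factors.
-/

namespace Pool.Agent.MM2

open Finset

theorem rhoN_eq (N B : ℕ) (l : List ℕ) (acc : ℕ) :
    rhoN N B l acc = acc + (l.filter (fun r => decide (r < B ∧ N % r = 1))).length := by
  induction l generalizing acc with
  | nil => simp [rhoN]
  | cons r rs ih =>
    unfold rhoN
    rw [ih, List.filter_cons]
    by_cases h1 : B ≤ r
    · have e1 : Nat.ble B r = true := Nat.ble_eq.mpr h1
      have h2 : ¬ (r < B ∧ N % r = 1) := fun h => absurd h.1 (by omega)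
      rw [e1, cond_true, if_neg (by simpa using h2)]
    · have e1 : Nat.ble B r = false := by
        cases h : Nat.ble B r with
        | false => rfl
        | true => exact absurd (Nat.ble_eq.mp h) h1
      rw [e1, cond_false]
      by_cases h2 : N % r = 1
      · have e2 : Nat.beq (Nat.mod N r) 1 = true := Nat.beq_eq.mpr h2
        have h3 : r < B ∧ N % r = 1 := ⟨by omega, h2⟩
        rw [e2, cond_true, if_pos (by simpa using h3), List.length_cons]
        show acc + 1 + _ = _
        omega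
      · have e2 : Nat.beq (Nat.mod N r) 1 = false := by
          cases h : Nat.beq (Nat.mod N r) 1 with
          | false => rfl
          | true => exact absurd (Nat.beq_eq.mp h) h2
        have h3 : ¬ (r < B ∧ N % r = 1) := fun h => h2 h.2
        rw [e2, cond_false, if_neg (by simpa using h3)]

theorem prs_check : ((List.range 512).all fun r => Nat.blt r 2 || prs.contains r ||
    (List.range 23).any fun d => Nat.ble 2 d && Nat.blt d r && Nat.beq (Nat.mod r d) 0) = true := by
  decide +kernel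

theorem mem_prs (r : ℕ) (hr : r.Prime) (h : r < 512) : r ∈ prs := by
  have h1 := List.all_eq_true.mp prs_check r (List.mem_range.mpr h)
  have h2 := hr.two_le
  simp only [Bool.or_eq_true, List.any_eq_true, Bool.and_eq_true] at h1
  rcases h1 with (h1 | h1) | ⟨d, hd, ⟨h3, h4⟩, h5⟩
  · have := Nat.ble_eq.mp h1
    omega
  · exact List.contains_iff_mem.mp h1
  · exfalso
    have h6 : 2 ≤ d := Nat.ble_eq.mp h3
    have h7 : d + 1 ≤ r := Nat.ble_eq.mp h4
    have h8 : r % d = 0 := Nat.beq_eq.mp h5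
    rcases (Nat.dvd_prime hr).mp (Nat.dvd_of_mod_eq_zero h8) with h9 | h9 <;> omega

theorem omb_rho (N b : ℕ) (hN : 2 ≤ N) (hb : b ≤ 9) :
    ((N - 1).primeFactors.filter (fun r => r < 2 ^ b)).card ≤ rhoN N (2 ^ b) prs 0 := by
  classical
  rw [rhoN_eq, zero_add]
  refine le_trans (Finset.card_le_card ?_)
    (List.toFinset_card_le (prs.filter (fun r => decide (r < 2 ^ b ∧ N % r = 1))))
  intro r hr
  rw [Finset.mem_filter, Nat.mem_primeFactors] at hr
  obtain ⟨⟨h1, h2, h3⟩, h4⟩ := hr
  rw [List.mem_toFinset, List.mem_filter]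
  have h5 : 2 ^ b ≤ 2 ^ 9 := Nat.pow_le_pow_right (by norm_num) hb
  refine ⟨mem_prs r h1 (lt_of_lt_of_le h4 (by norm_num at h5 ⊢; exact h5)), ?_⟩
  rw [decide_eq_true_eq]
  refine ⟨h4, ?_⟩
  obtain ⟨c, hc⟩ := h2
  have h6 : N = 1 + r * c := by omega
  rw [h6, Nat.add_mul_mod_self_left, Nat.mod_eq_of_lt h1.one_lt]

theorem omb_s (N b : ℕ) (hN : 2 ≤ N) (hb : 1 ≤ b) :
    ((N - 1).primeFactors.filter (fun r => 2 ^ b ≤ r)).card ≤ Nat.log2 N / b := by
  classical
  set S := (N - 1).primeFactors.filter (fun r => 2 ^ b ≤ r) with hS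
  rw [Nat.le_div_iff_mul_le (by omega), Nat.le_log2 (by omega)]
  have h1 : (2 ^ b) ^ S.card ≤ ∏ r ∈ S, r := by
    apply Finset.pow_card_le_prod
    intro r hr
    rw [hS, Finset.mem_filter] at hr
    exact hr.2
  have h2 : ∏ r ∈ S, r ≤ N - 1 := by
    apply Nat.le_of_dvd (by omega)
    exact (Finset.prod_dvd_prod_of_subset _ _ _ (Finset.filter_subset _ _)).trans
      (Nat.prod_primeFactors_dvd (N - 1))
  rw [mul_comm, pow_mul]
  omega

end Pool.Agent.MM2
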