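import Mathlib
import Pool.Agent.MM2.NDefs
import Pool.Agent.MM2.SIG
import Pool.Agent.MM2.OMB
import Pool.Agent.MM2.TBL
import Pool.Agent.MM2.NUM0
import Pool.Agent.MM2.CRITN

/-!
Soundness of chkA.
-/

namespace Pool.Agent.MM2

open Finset

theorem numa_beqF {a b : ℕ} (h : a ≠ b) : Nat.beq a b = false := by
  cases h' : Nat.beq a b with
  | false => rfl
  | true => exact absurd (Nat.beq_eq.mp h') h

theorem numa_div (x y : ℕ) : (x : ℝ) / y ≤ ((x / y + 1 : ℕ) : ℝ) := by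
  rcases Nat.eq_zero_or_pos y with rfl | hy
  · simp
  · rw [div_le_iff₀ (by exact_mod_cast hy)]
    have h1 : x < x / y * y + y := Nat.lt_div_mul_add hy
    have h2 : x ≤ (x / y + 1) * y := by nlinarith
    exact_mod_cast h2

theorem numa_cq (q : ℕ) (hq : QOK q) : (c2num q : ℝ) / c2den q = 2 * cq q := by
  unfold c2num c2den cq
  rcases hq with rfl | rfl | hq
  · norm_num
  · rw [numa_beqF (show 3 ≠ 2 by omega), show Nat.beq 3 3 = true from rfl]
    norm_num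
  · rw [numa_beqF (show q ≠ 2 by omega), numa_beqF (show q ≠ 3 by omega),
      if_neg (show q ≠ 2 by omega), if_neg (show q ≠ 3 by omega)]
    norm_num

theorem numa_lq (q : ℕ) (hq : QOK q) : (l4 q : ℝ) = 4 * lq q := by
  unfold l4 lq
  rcases hq with rfl | rfl | hq
  · norm_num
  · rw [numa_beqF (show 3 ≠ 2 by omega), show Nat.beq 3 3 = true from rfl]
    norm_num
  · rw [numa_beqF (show q ≠ 2 by omega), numa_beqF (show q ≠ 3 by omega),
      if_neg (show q ≠ 2 by omega), if_neg (show q ≠ 3 by omega)]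
    norm_num

theorem numa_den_pos (q : ℕ) : 0 < c2den q := by
  unfold c2den
  cases Nat.beq q 2 <;> simp

theorem numa_two_le (q : ℕ) (hq : QOK q) : 2 ≤ q := by
  rcases hq with rfl | rfl | hq <;> omega

theorem numa_cq_nonneg (q : ℕ) : 0 ≤ cq q := by
  unfold cq
  split_ifs <;> norm_num

theorem numa_lq_nonneg (q : ℕ) : 0 ≤ lq q := by
  unfold lq
  split_ifs <;> norm_num

/-- the tail term -/
theorem numa_tail (q n T2 : ℕ) (hq : 2 ≤ q) :
    1048576 * ((n : ℝ) / ((q : ℝ) ^ T2 * (q - 1))) ≤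
      ((1048576 * n / (q ^ T2 * (q - 1)) + 1 : ℕ) : ℝ) := by
  have h := numa_div (1048576 * n) (q ^ T2 * (q - 1))
  have e : ((q ^ T2 * (q - 1) : ℕ) : ℝ) = (q : ℝ) ^ T2 * (q - 1) := by
    rw [Nat.cast_mul, Nat.cast_pow, Nat.cast_sub (by omega)]
    simp
  rw [e] at h
  refine le_trans (le_of_eq ?_) h
  push_cast
  ring

/-- the final comparison -/
theorem numa_fin (N del dl x : ℝ) (a rk eb M : ℕ) (y : ℝ) (hN : 0 ≤ N) (hdel : 0 ≤ del)
    (hdl0 : 0 ≤ dl) (hdl : dl ≤ 1048576 * del) (ha : a ≤ rk) (hy0 : 0 ≤ y) (hy : y ≤ M)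
    (hx : 2 * x ≤ eb) (hchk : (2 : ℝ) ^ (2 * rk + eb + 40) * (M : ℝ) ^ 2 ≤ N * dl ^ 2) :
    (2 : ℝ) ^ a * y * (2 : ℝ) ^ x ≤ √N * del := by
  have hR0 : (0 : ℝ) ≤ √N * del := by positivity
  rw [← pow_le_pow_iff_left₀ (by positivity) hR0 (two_ne_zero)]
  have hsq : (√N * del) ^ 2 = N * del ^ 2 := by
    rw [mul_pow, Real.sq_sqrt hN]
  rw [hsq]
  have hdl2 : dl ^ 2 ≤ 2 ^ 40 * del ^ 2 := by
    have : dl ^ 2 ≤ (1048576 * del) ^ 2 := pow_le_pow_left₀ hdl0 hdl 2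
    refine le_trans this (le_of_eq ?_)
    rw [mul_pow]
    norm_num
  have hA : ((2 : ℝ) ^ a * y * (2 : ℝ) ^ x) ^ 2 ≤ (2 : ℝ) ^ (2 * rk + eb) * (M : ℝ) ^ 2 := by
    rw [mul_pow, mul_pow]
    have a1 : ((2 : ℝ) ^ a) ^ 2 ≤ (2 : ℝ) ^ (2 * rk) := by
      rw [← pow_mul]
      apply pow_le_pow_right₀ (by norm_num)
      omega
    have a2 : y ^ 2 ≤ (M : ℝ) ^ 2 := pow_le_pow_left₀ hy0 hy 2
    have a3 : ((2 : ℝ) ^ x) ^ 2 ≤ (2 : ℝ) ^ eb := by
      rw [← Real.rpow_natCast, ← Real.rpow_mul (by norm_num), ← Real.rpow_natCast 2 eb]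
      apply Real.rpow_le_rpow_of_exponent_le (by norm_num)
      push_cast
      linarith
    calc ((2 : ℝ) ^ a) ^ 2 * y ^ 2 * ((2 : ℝ) ^ x) ^ 2
        ≤ (2 : ℝ) ^ (2 * rk) * (M : ℝ) ^ 2 * (2 : ℝ) ^ eb := by
          apply mul_le_mul _ a3 (by positivity) (by positivity)
          exact mul_le_mul a1 a2 (by positivity) (by positivity)
      _ = (2 : ℝ) ^ (2 * rk + eb) * (M : ℝ) ^ 2 := by
          rw [pow_add]
          ring
  have hB : (2 : ℝ) ^ 40 * ((2 : ℝ) ^ (2 * rk + eb) * (M : ℝ) ^ 2) ≤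
      2 ^ 40 * (N * del ^ 2) := by
    calc (2 : ℝ) ^ 40 * ((2 : ℝ) ^ (2 * rk + eb) * (M : ℝ) ^ 2)
        = (2 : ℝ) ^ (2 * rk + eb + 40) * (M : ℝ) ^ 2 := by
          rw [pow_add _ _ 40]
          ring
      _ ≤ N * dl ^ 2 := hchk
      _ ≤ N * (2 ^ 40 * del ^ 2) := mul_le_mul_of_nonneg_left hdl2 hN
      _ = 2 ^ 40 * (N * del ^ 2) := by ring
  exact le_trans hA (le_of_mul_le_mul_left hB (by positivity))

theorem numA (q n T T2 b : ℕ) (hq : QOK q) (hn : 1 ≤ n) (h : chkA q n T T2 b = true) :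
    PN q n := by
  classical
  have hq2 : 2 ≤ q := numa_two_le q hq
  unfold chkA at h
  extract_lets p eb tl s dl M at h
  simp only [Bool.and_eq_true] at h
  obtain ⟨⟨⟨⟨⟨h1, h2⟩, h3⟩, h4⟩, h5⟩, h6⟩ := h
  have hb1 : 1 ≤ b := Nat.ble_eq.mp h1
  have hb9 : b ≤ 9 := Nat.ble_eq.mp h2
  have hT : T ≤ T2 := Nat.ble_eq.mp h3
  have hT2 : T2 ≤ 96 := Nat.ble_eq.mp h4
  have h5' : 2 ^ (2 * (rhoN (q ^ n) (2 ^ b) prs 0 + p.1) + eb + 40) * M ^ 2 ≤
    q ^ n * dl ^ 2 := Nat.ble_eq.mp h5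
  have h6' : 1 ≤ dl := Nat.ble_eq.mp h6
  clear h1 h2 h3 h4 h5 h6
  set c4 : ℕ := cond (Nat.beq T 0) 4 (l4 q) with hc4
  have hp : p = sumP q n (tab.take T) 0 0 := rfl
  have heb0 : eb = c2num q * p.2 / (c2den q * 1048576) + 1 := rfl
  have htl0 : tl = (sumP q n ((tab.drop T).take (T2 - T)) 0 0).2 +
    (1048576 * n / (q ^ T2 * (q - 1)) + 1) := rfl
  have hs0 : s = Nat.log2 (q ^ n) / b := rfl
  have hdl0 : dl = 1048576 - ((c4 * tl / 4 + 1) + (1048576 * s / 2 ^ b + 1)) := rfl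
  have hM0 : M = 2 + (s + sigN n n 0) := rfl
  clear_value c4 M dl s tl eb p
  have hN : 2 ≤ q ^ n := le_trans hq2 (Nat.le_self_pow (by omega) q)
  -- the sets
  obtain ⟨P, hP⟩ : ∃ P, P = (q ^ n - 1).primeFactors := ⟨_, rfl⟩
  obtain ⟨R, hR⟩ : ∃ R, R = P.filter (fun r => r < 2 ^ b) := ⟨_, rfl⟩
  obtain ⟨S, hS⟩ : ∃ S, S = P.filter (fun r => 2 ^ b ≤ r) := ⟨_, rfl⟩
  have hRS : R ∪ S = P := by
    ext r
    rw [Finset.mem_union, hR, hS, Finset.mem_filter, Finset.mem_filter]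
    constructor
    · rintro (⟨h, _⟩ | ⟨h, _⟩) <;> exact h
    · intro h
      rcases lt_or_ge r (2 ^ b) with h' | h'
      · exact Or.inl ⟨h, h'⟩
      · exact Or.inr ⟨h, h'⟩
  have hdis : Disjoint R S := by
    rw [Finset.disjoint_left]
    intro r h1 h2
    rw [hR, Finset.mem_filter] at h1
    rw [hS, Finset.mem_filter] at h2
    omega
  have hRc : R.card ≤ rhoN (q ^ n) (2 ^ b) prs 0 := by
    rw [hR, hP]
    exact omb_rho (q ^ n) b hN hb9
  have hSc : S.card ≤ s := by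
    rw [hS, hP, hs0]
    exact omb_s (q ^ n) b hN hb1
  obtain ⟨hKB, hEB⟩ := sumP_take q n T hq2 (by omega)
  rw [← hp] at hKB hEB
  -- eb
  have heb : 2 * cq q * EB q n T ≤ (eb : ℝ) := by
    have h1 := numa_div (c2num q * p.2) (c2den q * 1048576)
    rw [← heb0] at h1
    refine le_trans ?_ h1
    have hd : (0 : ℝ) < c2den q := by exact_mod_cast numa_den_pos q
    rw [Nat.cast_mul, Nat.cast_mul, mul_div_mul_comm, numa_cq q hq]
    apply mul_le_mul_of_nonneg_left _ (by have := numa_cq_nonneg q; positivity)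
    push_cast
    rw [le_div_iff₀ (by norm_num)]
    linarith
  -- tl
  have htl : 1048576 * TB q n T ≤ (tl : ℝ) := by
    have h1 := tb_le2 q n T T2 hq2 hn hT
    have h2 := sumP_drop q n T T2 hq2 hT hT2
    have h3 := numa_tail q n T2 hq2
    rw [htl0, Nat.cast_add]
    linarith
  -- lam
  obtain ⟨lam, hlam⟩ : ∃ lam : ℝ, lam = if T = 0 then 1 else lq q := ⟨_, rfl⟩
  have hlam0 : 0 ≤ lam := by
    rw [hlam]
    split_ifs
    · norm_num
    · exact numa_lq_nonneg q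
  have hlam1 : lq q ≤ lam ∨ (T = 0 ∧ 1 ≤ lam) := by
    rw [hlam]
    by_cases h0 : T = 0
    · right
      rw [if_pos h0]
      exact ⟨h0, le_refl _⟩
    · left
      rw [if_neg h0]
  have hc4' : (c4 : ℝ) = 4 * lam := by
    rw [hc4, hlam]
    by_cases h0 : T = 0
    · rw [if_pos h0, h0]
      norm_num
    · rw [if_neg h0, numa_beqF h0]
      exact numa_lq q hq
  -- delta
  have hsum : ∑ r ∈ S, 1 / (r : ℝ) ≤ s / 2 ^ b := by
    calc ∑ r ∈ S, 1 / (r : ℝ) ≤ ∑ r ∈ S, 1 / (2 : ℝ) ^ b := by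
          apply Finset.sum_le_sum
          intro r hr
          rw [hS, Finset.mem_filter] at hr
          apply one_div_le_one_div_of_le (by positivity)
          exact_mod_cast hr.2
      _ = S.card * (1 / (2 : ℝ) ^ b) := by rw [Finset.sum_const, nsmul_eq_mul]
      _ ≤ s * (1 / (2 : ℝ) ^ b) := by
          apply mul_le_mul_of_nonneg_right _ (by positivity)
          exact_mod_cast hSc
      _ = s / 2 ^ b := by ring
  have hdl : (dl : ℝ) ≤ 1048576 * (1 - ∑ r ∈ S, 1 / (r : ℝ) - lam * TB q n T) := by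
    have e2 : dl + ((c4 * tl / 4 + 1) + (1048576 * s / 2 ^ b + 1)) = 1048576 := by omega
    have e3 : (dl : ℝ) + (((c4 * tl / 4 + 1 : ℕ) : ℝ) +
        ((1048576 * s / 2 ^ b + 1 : ℕ) : ℝ)) = 1048576 := by
      exact_mod_cast e2
    have h1 := numa_div (c4 * tl) 4
    have h2 := numa_div (1048576 * s) (2 ^ b)
    have h3 : lam * (1048576 * TB q n T) ≤ ((c4 * tl : ℕ) : ℝ) / (4 : ℕ) := by
      rw [Nat.cast_mul, hc4']
      push_cast
      rw [le_div_iff₀ (by norm_num)]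
      nlinarith [mul_le_mul_of_nonneg_left htl hlam0]
    have h4 : 1048576 * ((s : ℝ) / 2 ^ b) = ((1048576 * s : ℕ) : ℝ) / ((2 ^ b : ℕ) : ℝ) := by
      push_cast
      ring
    have h5 : 1048576 * ∑ r ∈ S, 1 / (r : ℝ) ≤ 1048576 * ((s : ℝ) / 2 ^ b) := by
      linarith
    linarith
  -- the criterion
  refine critn q n T hq R S (by rw [hRS, hP]) hdis lam hlam1 (sigN n n 0)
    (le_of_eq (sig_sum n)) ?_
  have hdlpos : (1 : ℝ) ≤ dl := by exact_mod_cast h6'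
  have hchk : (2 : ℝ) ^ (2 * (rhoN (q ^ n) (2 ^ b) prs 0 + p.1) + eb + 40) * (M : ℝ) ^ 2 ≤
    (q : ℝ) ^ n * (dl : ℝ) ^ 2 := by exact_mod_cast h5'
  have hM : (2 : ℝ) + S.card + (sigN n n 0 : ℕ) ≤ (M : ℝ) := by
    rw [hM0]
    push_cast
    have : (S.card : ℝ) ≤ s := by exact_mod_cast hSc
    linarith
  exact numa_fin _ _ (dl : ℝ) _ _ _ eb M _ (by positivity) (by linarith) (by linarith) hdl
    (by omega) (by positivity) hM (by linarith) hchk

theorem numA_run (q : ℕ) (hq : QOK q) (l : List (ℕ × ℕ × ℕ × ℕ)) (h : runA q l = true) :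
    ∀ x ∈ l, 1 ≤ x.1 → PN q x.1 := by
  induction l with
  | nil => intro x hx; simp at hx
  | cons y ys ih =>
    rw [runA, Bool.and_eq_true] at h
    intro x hx h1
    rcases List.mem_cons.mp hx with rfl | hx
    · exact numA q x.1 x.2.1 x.2.2.1 x.2.2.2 hq h1 h.1
    · exact ih h.2 x hx h1

end Pool.Agent.MM2
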