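import Mathlib
import Pool.Agent.MM2.NDefs
import Pool.Agent.MM2.SIG
import Pool.Agent.MM2.OM8
import Pool.Agent.MM2.TBL
import Pool.Agent.MM2.NUM0
import Pool.Agent.MM2.CRITN

/-!
Soundness of chkB.
-/

namespace Pool.Agent.MM2

open Finset

theorem numb_beqF {a b : ℕ} (h : a ≠ b) : Nat.beq a b = false := by
  cases h' : Nat.beq a b with
  | false => rfl
  | true => exact absurd (Nat.beq_eq.mp h') h

theorem numb_div (x y : ℕ) : (x : ℝ) / y ≤ ((x / y + 1 : ℕ) : ℝ) := by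
  rcases Nat.eq_zero_or_pos y with rfl | hy
  · simp
  · rw [div_le_iff₀ (by exact_mod_cast hy)]
    have h1 : x < x / y * y + y := Nat.lt_div_mul_add hy
    have h2 : x ≤ (x / y + 1) * y := by nlinarith
    exact_mod_cast h2

theorem numb_cq (q : ℕ) (hq : QOK q) : (c2num q : ℝ) / c2den q = 2 * cq q := by
  unfold c2num c2den cq
  rcases hq with rfl | rfl | hq
  · norm_num
  · rw [numb_beqF (show 3 ≠ 2 by omega), show Nat.beq 3 3 = true from rfl]
    norm_num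
  · rw [numb_beqF (show q ≠ 2 by omega), numb_beqF (show q ≠ 3 by omega),
      if_neg (show q ≠ 2 by omega), if_neg (show q ≠ 3 by omega)]
    norm_num

theorem numb_lq (q : ℕ) (hq : QOK q) : (l4 q : ℝ) = 4 * lq q := by
  unfold l4 lq
  rcases hq with rfl | rfl | hq
  · norm_num
  · rw [numb_beqF (show 3 ≠ 2 by omega), show Nat.beq 3 3 = true from rfl]
    norm_num
  · rw [numb_beqF (show q ≠ 2 by omega), numb_beqF (show q ≠ 3 by omega),
      if_neg (show q ≠ 2 by omega), if_neg (show q ≠ 3 by omega)]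
    norm_num

theorem numb_den_pos (q : ℕ) : 0 < c2den q := by
  unfold c2den
  cases Nat.beq q 2 <;> simp

theorem numb_two_le (q : ℕ) (hq : QOK q) : 2 ≤ q := by
  rcases hq with rfl | rfl | hq <;> omega

theorem numb_cq_nonneg (q : ℕ) : 0 ≤ cq q := by
  unfold cq
  split_ifs <;> norm_num

theorem numb_lq_nonneg (q : ℕ) : 0 ≤ lq q := by
  unfold lq
  split_ifs <;> norm_num

/-- the tail term -/
theorem numb_tail (q n T2 : ℕ) (hq : 2 ≤ q) :
    1048576 * ((n : ℝ) / ((q : ℝ) ^ T2 * (q - 1))) ≤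
      ((1048576 * n / (q ^ T2 * (q - 1)) + 1 : ℕ) : ℝ) := by
  have h := numb_div (1048576 * n) (q ^ T2 * (q - 1))
  have e : ((q ^ T2 * (q - 1) : ℕ) : ℝ) = (q : ℝ) ^ T2 * (q - 1) := by
    rw [Nat.cast_mul, Nat.cast_pow, Nat.cast_sub (by omega)]
    simp
  rw [e] at h
  refine le_trans (le_of_eq ?_) h
  push_cast
  ring

/-- the final comparison, abstract constants -/
theorem numb_fin0 (N del dl x C1 C2 : ℝ) (w eb k M : ℕ) (y : ℝ) (hN : 0 ≤ N) (hdel : 0 ≤ del)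
    (hC1 : 0 < C1) (hC2 : 0 < C2) (hdl2 : dl ^ 8 ≤ C2 * del ^ 8)
    (hw : ((2 : ℝ) ^ w) ^ 8 ≤ C1 * N) (hy0 : 0 ≤ y) (hy : y ≤ M) (hx : 8 * x ≤ eb)
    (hchk : (2 : ℝ) ^ (8 * k + eb) * (C1 * C2) * (M : ℝ) ^ 8 ≤ N ^ 3 * dl ^ 8) :
    (2 : ℝ) ^ (w + k) * y * (2 : ℝ) ^ x ≤ √N * del := by
  have hR0 : (0 : ℝ) ≤ √N * del := by positivity
  rw [← pow_le_pow_iff_left₀ (by positivity) hR0 (show (8 : ℕ) ≠ 0 by norm_num)]
  have hsq : (√N * del) ^ 8 = N ^ 4 * del ^ 8 := by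
    rw [mul_pow, show (8 : ℕ) = 2 * 4 from rfl, pow_mul √N, Real.sq_sqrt hN]
  rw [hsq]
  have hA : ((2 : ℝ) ^ (w + k) * y * (2 : ℝ) ^ x) ^ 8 ≤
      (2 : ℝ) ^ (8 * k + eb) * C1 * (M : ℝ) ^ 8 * N := by
    rw [mul_pow, mul_pow, pow_add, mul_pow]
    have a1 : ((2 : ℝ) ^ k) ^ 8 = (2 : ℝ) ^ (8 * k) := by
      rw [← pow_mul, mul_comm]
    have a2 : y ^ 8 ≤ (M : ℝ) ^ 8 := pow_le_pow_left₀ hy0 hy 8
    have a3 : ((2 : ℝ) ^ x) ^ 8 ≤ (2 : ℝ) ^ eb := by
      rw [← Real.rpow_natCast, ← Real.rpow_mul (by norm_num), ← Real.rpow_natCast 2 eb]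
      apply Real.rpow_le_rpow_of_exponent_le (by norm_num)
      push_cast
      linarith
    rw [a1]
    calc ((2 : ℝ) ^ w) ^ 8 * (2 : ℝ) ^ (8 * k) * y ^ 8 * ((2 : ℝ) ^ x) ^ 8
        ≤ (C1 * N) * (2 : ℝ) ^ (8 * k) * (M : ℝ) ^ 8 * (2 : ℝ) ^ eb := by
          apply mul_le_mul _ a3 (by positivity) (by positivity)
          apply mul_le_mul _ a2 (by positivity) (by positivity)
          exact mul_le_mul_of_nonneg_right hw (by positivity)
      _ = (2 : ℝ) ^ (8 * k + eb) * C1 * (M : ℝ) ^ 8 * N := by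
          rw [pow_add]
          ring
  have hB : C2 * ((2 : ℝ) ^ (8 * k + eb) * C1 * (M : ℝ) ^ 8 * N) ≤
      C2 * (N ^ 4 * del ^ 8) := by
    calc C2 * ((2 : ℝ) ^ (8 * k + eb) * C1 * (M : ℝ) ^ 8 * N)
        = ((2 : ℝ) ^ (8 * k + eb) * (C1 * C2) * (M : ℝ) ^ 8) * N := by ring
      _ ≤ (N ^ 3 * dl ^ 8) * N := mul_le_mul_of_nonneg_right hchk hN
      _ ≤ (N ^ 3 * (C2 * del ^ 8)) * N := by
          apply mul_le_mul_of_nonneg_right _ hN
          exact mul_le_mul_of_nonneg_left hdl2 (by positivity)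
      _ = C2 * (N ^ 4 * del ^ 8) := by ring
  exact le_trans hA (le_of_mul_le_mul_left hB hC2)

/-- the final comparison -/
theorem numb_fin (N del dl x : ℝ) (w eb k M : ℕ) (y : ℝ) (hN : 0 ≤ N) (hdel : 0 ≤ del)
    (hdl0 : 0 ≤ dl) (hdl : dl ≤ 1048576 * del) (hw : ((2 : ℝ) ^ w) ^ 8 ≤ 2 ^ 98 * N)
    (hy0 : 0 ≤ y) (hy : y ≤ M)
    (hx : 8 * x ≤ eb) (hchk : (2 : ℝ) ^ (8 * k + eb + 258) * (M : ℝ) ^ 8 ≤ N ^ 3 * dl ^ 8) :
    (2 : ℝ) ^ (w + k) * y * (2 : ℝ) ^ x ≤ √N * del := by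
  refine numb_fin0 N del dl x (2 ^ 98) (2 ^ 160) w eb k M y hN hdel (pow_pos (by norm_num) _)
    (pow_pos (by norm_num) _) ?_ hw hy0 hy hx ?_
  · have : dl ^ 8 ≤ (1048576 * del) ^ 8 := pow_le_pow_left₀ hdl0 hdl 8
    refine le_trans this (le_of_eq ?_)
    rw [mul_pow, show (1048576 : ℝ) = 2 ^ 20 by norm_num, ← pow_mul]
  · rw [← pow_add 2 98 160]
    rw [pow_add] at hchk
    exact hchk

theorem numB (q n T : ℕ) (hq : QOK q) (hn : 1 ≤ n) (hT : T ≤ 96)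
    (h : chkB q n T (tab.take T) = true) : PN q n := by
  classical
  have hq2 : 2 ≤ q := numb_two_le q hq
  unfold chkB at h
  extract_lets p eb tl dl M at h
  simp only [Bool.and_eq_true] at h
  obtain ⟨h5, h6⟩ := h
  have h5' : 2 ^ (8 * p.1 + eb + 258) * M ^ 8 ≤ q ^ (3 * n) * dl ^ 8 := Nat.ble_eq.mp h5
  have h6' : 1 ≤ dl := Nat.ble_eq.mp h6
  clear h5 h6
  have hp : p = sumP q n (tab.take T) 0 0 := rfl
  have heb0 : eb = 4 * c2num q * p.2 / (c2den q * 1048576) + 1 := rfl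
  have htl0 : tl = 1048576 * n / (q ^ T * (q - 1)) + 1 := rfl
  have hdl0 : dl = 1048576 - (l4 q * tl / 4 + 1) := rfl
  have hM0 : M = 2 + n * (Nat.log2 n + 1) := rfl
  clear_value M dl tl eb p
  have hN : 2 ≤ q ^ n := le_trans hq2 (Nat.le_self_pow (by omega) q)
  obtain ⟨hKB, hEB⟩ := sumP_take q n T hq2 hT
  rw [← hp] at hKB hEB
  -- eb
  have heb : 8 * (cq q * EB q n T) ≤ (eb : ℝ) := by
    have h1 := numb_div (4 * c2num q * p.2) (c2den q * 1048576)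
    rw [← heb0] at h1
    refine le_trans ?_ h1
    have e1 : ((4 * c2num q * p.2 : ℕ) : ℝ) / ((c2den q * 1048576 : ℕ) : ℝ) =
        4 * ((c2num q : ℝ) / c2den q) * ((p.2 : ℝ) / 1048576) := by
      push_cast
      ring
    rw [e1, numb_cq q hq]
    have e2 : EB q n T ≤ (p.2 : ℝ) / 1048576 := by
      rw [le_div_iff₀ (by norm_num)]
      linarith
    have e3 := mul_le_mul_of_nonneg_left e2 (numb_cq_nonneg q)
    linarith
  -- tl
  have htl : 1048576 * TB q n T ≤ (tl : ℝ) := by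
    have h1 := tb_le q n T hq2 hn
    have h3 := numb_tail q n T hq2
    rw [htl0]
    linarith
  have hdl : (dl : ℝ) ≤ 1048576 * (1 - lq q * TB q n T) := by
    have e2 : dl + (l4 q * tl / 4 + 1) = 1048576 := by omega
    have e3 : (dl : ℝ) + ((l4 q * tl / 4 + 1 : ℕ) : ℝ) = 1048576 := by
      exact_mod_cast e2
    have h1 := numb_div (l4 q * tl) 4
    have h3 : lq q * (1048576 * TB q n T) ≤ ((l4 q * tl : ℕ) : ℝ) / (4 : ℕ) := by
      rw [Nat.cast_mul, numb_lq q hq]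
      push_cast
      rw [le_div_iff₀ (by norm_num)]
      nlinarith [mul_le_mul_of_nonneg_left htl (numb_lq_nonneg q)]
    linarith
  refine critn q n T hq ((q ^ n - 1).primeFactors) ∅ (by rw [Finset.union_empty])
    (Finset.disjoint_empty_right _) (lq q) (Or.inl (le_refl _)) (n * (Nat.log2 n + 1))
    (sig_log n hn) ?_
  have hdlpos : (1 : ℝ) ≤ dl := by exact_mod_cast h6'
  have hchk : (2 : ℝ) ^ (8 * p.1 + eb + 258) * (M : ℝ) ^ 8 ≤
    ((q : ℝ) ^ n) ^ 3 * (dl : ℝ) ^ 8 := by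
    have : (2 : ℝ) ^ (8 * p.1 + eb + 258) * (M : ℝ) ^ 8 ≤
      (q : ℝ) ^ (3 * n) * (dl : ℝ) ^ 8 := by exact_mod_cast h5'
    rw [← pow_mul, mul_comm n 3]
    exact this
  have hw : ((2 : ℝ) ^ ((q ^ n - 1).primeFactors).card) ^ 8 ≤ 2 ^ 98 * (q : ℝ) ^ n := by
    refine le_trans (om8 (q ^ n - 1) (by omega)) ?_
    apply mul_le_mul_of_nonneg_left _ (by positivity)
    have : ((q ^ n - 1 : ℕ) : ℝ) ≤ ((q ^ n : ℕ) : ℝ) := by exact_mod_cast Nat.sub_le _ _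
    refine le_trans this (le_of_eq ?_)
    push_cast
    ring
  have hM : (2 : ℝ) + (∅ : Finset ℕ).card + (n * (Nat.log2 n + 1) : ℕ) ≤ (M : ℝ) := by
    rw [hM0, Finset.card_empty]
    push_cast
    linarith
  rw [hKB, Finset.sum_empty, sub_zero]
  exact numb_fin _ _ (dl : ℝ) _ _ eb p.1 M _ (by positivity) (by linarith) (by linarith) hdl
    hw (by positivity) hM heb hchk

theorem numB_run (q T n0 c : ℕ) (hq : QOK q) (hn : 1 ≤ n0) (hT : T ≤ 96)
    (h : runB q T (tab.take T) n0 c = true) (n : ℕ) (h1 : n0 ≤ n) (h2 : n < n0 + c) :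
    PN q n := by
  induction c with
  | zero => omega
  | succ c ih =>
    rw [runB, Bool.and_eq_true] at h
    rcases Nat.lt_or_ge n (n0 + c) with h3 | h3
    · exact ih h.2 h3
    · have h4 : n = n0 + c := by omega
      rw [h4]
      exact numB q (n0 + c) T hq (by omega) hT h.1

end Pool.Agent.MM2
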