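import Mathlib
import Pool.Agent.MM2.NDefs
import Pool.Agent.MM2.SIG
import Pool.Agent.MM2.OM8
import Pool.Agent.MM2.OM12
import Pool.Agent.MM2.SBL
import Pool.Agent.MM2.TAU
import Pool.Agent.MM2.TBL
import Pool.Agent.MM2.EBL
import Pool.Agent.MM2.NUM0
import Pool.Agent.MM2.BIGC

/-!
Soundness of chkP.
-/

namespace Pool.Agent.MM2

open Finset

/-! ### the check, unfolded -/

private theorem nump_div (a b : ℕ) : Nat.div a b = a / b := rfl

private structure NumpC (q k T T2 J kp C : ℕ) : Prop where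
  jk : J ≤ k
  t1 : 1 ≤ T
  tt : T ≤ T2
  t6 : 6 ≤ T2
  t96 : T2 ≤ 96
  pl : pwL q k J (tab.take T) 0 ≤ kp
  pa : pwAll q k J kp (tab.take T) T = true
  tl : l4 q * 5 * (tlS q k ((tab.drop T).take (T2 - T)) 0 +
    (2 ^ (k + 20) / (q ^ T2 * (q - 1)) + 1)) ≤ 16 * 1048576
  c : 2 ^ (k + 1) ≤ q ^ C
  fin : (kp + (133 + (c2num q * (C + 1) / c2den q + (k + 2) + (Nat.log2 (5 * (k + 2)) + 1)))) *
      12 * lgd q ≤ 5 * (lgn q * 2 ^ k) ∨
    (kp + (13 + (c2num q * (C + 1) / c2den q + (k + 2) + (Nat.log2 (5 * (k + 2)) + 1)))) *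
      8 * lgd q ≤ 3 * (lgn q * 2 ^ k)

private theorem nump_c (q k T T2 J kp C : ℕ) (h : chkP q k T T2 J kp C = true) :
    NumpC q k T T2 J kp C := by
  unfold chkP at h
  simp only [Bool.and_eq_true, Bool.or_eq_true, Nat.ble_eq, Nat.add_eq, Nat.mul_eq, Nat.sub_eq,
    nump_div, Nat.pow_eq] at h
  obtain ⟨⟨⟨⟨⟨⟨⟨⟨⟨h1, h2⟩, h3⟩, h4⟩, h5⟩, h6⟩, h7⟩, h8⟩, h9⟩, h10⟩ := h
  exact ⟨h1, h2, h3, h4, h5, h6, h7, h8, h9, h10⟩

/-! ### sums over lists -/

private theorem nump_minS (cap m : ℕ) (ds : List ℕ) (acc : ℕ) :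
    minS cap m ds acc = acc + (ds.map fun d => min cap (d * m)).sum := by
  induction ds generalizing acc with
  | nil => simp [minS]
  | cons d ds ih =>
    rw [minS, ih, List.map_cons, List.sum_cons]
    have : cond (Nat.ble cap (Nat.mul d m)) cap (Nat.mul d m) = min cap (d * m) := by
      rcases le_total cap (d * m) with h | h
      · rw [min_eq_left h]
        have : Nat.ble cap (Nat.mul d m) = true := by simpa [Nat.ble_eq] using h
        rw [this]; rfl
      · rw [min_eq_right h]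
        cases hb : Nat.ble cap (Nat.mul d m) with
        | false => rfl
        | true =>
          have h2 : cap ≤ d * m := by simpa [Nat.ble_eq] using hb
          exact le_antisymm h2 h
    rw [this]
    simp only [Nat.add_eq]
    ring

private theorem nump_mnN (a b : ℕ) : mnN a b = min a b := by
  unfold mnN
  rcases le_total a b with h | h
  · rw [min_eq_left h]
    have : Nat.ble a b = true := by simpa [Nat.ble_eq] using h
    rw [this]; rfl
  · rw [min_eq_right h]
    cases hb : Nat.ble a b with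
    | false => rfl
    | true =>
      have h2 : a ≤ b := by simpa [Nat.ble_eq] using hb
      exact le_antisymm h2 h

/-- multiplier of an entry -/
private def numpM (q j t0 t : ℕ) : ℕ :=
  if t = t0 then q ^ t - 1 else min (q ^ t - 1) ((2 ^ (j + 1) - 1) * t0 * (q ^ (t.gcd t0) - 1))

private theorem nump_pwS (q k j t0 : ℕ) (es : List Ent) (acc : ℕ) :
    pwS q k j t0 es acc = acc + (es.map fun e =>
      (minS (2 ^ (k - j)) (numpM q j t0 e.t) e.ds 0) / e.t + 1).sum := by
  induction es generalizing acc with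
  | nil => simp [pwS]
  | cons e es ih =>
    rw [pwS, ih, List.map_cons, List.sum_cons]
    have : cond (Nat.beq e.t t0) (Nat.sub (Nat.pow q e.t) 1)
        (mnN (Nat.sub (Nat.pow q e.t) 1) (Nat.mul (Nat.mul (Nat.sub (Nat.pow 2 (j + 1)) 1) t0)
          (Nat.sub (Nat.pow q (Nat.gcd e.t t0)) 1))) = numpM q j t0 e.t := by
      unfold numpM
      by_cases h : e.t = t0
      · rw [if_pos h]
        have : Nat.beq e.t t0 = true := by simpa [Nat.beq_eq] using h
        rw [this]; rfl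
      · rw [if_neg h]
        cases hb : Nat.beq e.t t0 with
        | true => exact absurd (by simpa [Nat.beq_eq] using hb) h
        | false =>
          simp only [cond_false]
          rw [nump_mnN]; rfl
    rw [this]
    simp only [Nat.add_eq, nump_div, Nat.pow_eq, Nat.sub_eq]
    ring

private theorem nump_pwL (q k J : ℕ) (es : List Ent) (acc : ℕ) :
    pwL q k J es acc = acc + (es.map fun e =>
      (minS (2 ^ (k - J)) (q ^ e.t - 1) e.ds 0) / e.t + 1).sum := by
  induction es generalizing acc with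
  | nil => simp [pwL]
  | cons e es ih =>
    rw [pwL, ih, List.map_cons, List.sum_cons]
    simp only [Nat.add_eq, nump_div, Nat.pow_eq, Nat.sub_eq]
    ring

private theorem nump_tlS (q k : ℕ) (es : List Ent) (acc : ℕ) :
    tlS q k es acc = acc + (es.map fun e =>
      (e.ds.length * 2 ^ (k + 21)) / (e.t * q ^ e.t) + 1).sum := by
  induction es generalizing acc with
  | nil => simp [tlS]
  | cons e es ih =>
    rw [tlS, ih, List.map_cons, List.sum_cons]
    simp only [Nat.add_eq, nump_div, Nat.pow_eq, Nat.mul_eq]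
    ring

private theorem nump_pwJ (q k kp : ℕ) (tb : List Ent) (t0 J : ℕ) (h : pwJ q k kp tb t0 J = true)
    (j : ℕ) (hj : j < J) :
    (2 ^ (j + 1) - 1) * t0 * (q ^ t0 - 1) < 2 ^ k ∨ pwS q k j t0 tb 0 ≤ kp := by
  induction J with
  | zero => omega
  | succ J ih =>
    rw [pwJ] at h
    simp only [Bool.and_eq_true, Bool.or_eq_true, Nat.ble_eq, Nat.blt_eq] at h
    rcases Nat.lt_or_ge j J with h1 | h1
    · exact ih h.2 h1
    · have : j = J := by omega
      subst this
      exact h.1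

private theorem nump_pwAll (q k J kp : ℕ) (tb : List Ent) (c : ℕ)
    (h : pwAll q k J kp tb c = true) (t0 : ℕ) (h0 : 1 ≤ t0) (h1 : t0 ≤ c) :
    pwJ q k kp tb t0 J = true := by
  induction c with
  | zero => omega
  | succ c ih =>
    rw [pwAll] at h
    simp only [Bool.and_eq_true] at h
    rcases Nat.lt_or_ge c t0 with h2 | h2
    · have : t0 = c + 1 := by omega
      subst this
      exact h.1
    · exact ih h.2 h2

/-- sums over an initial segment of the table -/
private theorem nump_take (T : ℕ) (hT : T ≤ 96) (F : Ent → ℕ) (G : ℕ → ℕ)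
    (hFG : ∀ e : Ent, EntOK e → G e.t ≤ F e) :
    ∑ t ∈ Icc 1 T, G t ≤ ((tab.take T).map F).sum := by
  induction T with
  | zero => simp
  | succ T ih =>
    have hlen : T < tab.length := by rw [tab_len]; omega
    have h1 := tab_ok T hlen
    rw [List.take_succ_eq_append_getElem hlen, List.map_append, List.sum_append,
      Finset.sum_Icc_succ_top (by omega)]
    apply Nat.add_le_add (ih (by omega))
    simp only [List.map_cons, List.map_nil, List.sum_cons, List.sum_nil, add_zero]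
    have h2 := hFG _ h1.1
    rw [h1.2] at h2
    exact h2

/-- sums over a middle segment of the table -/
private theorem nump_drop (T T2 : ℕ) (hT : T ≤ T2) (hT2 : T2 ≤ 96) (F : Ent → ℕ) (G : ℕ → ℝ)
    (hFG : ∀ e : Ent, EntOK e → G e.t ≤ (F e : ℝ)) :
    ∑ t ∈ Ioc T T2, G t ≤ ((((tab.drop T).take (T2 - T)).map F).sum : ℕ) := by
  induction T2, hT using Nat.le_induction with
  | base => simp
  | succ T2 hT ih =>
    have hlen : T2 < tab.length := by rw [tab_len]; omega
    have h1 := tab_ok T2 hlen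
    have h3 : T2 + 1 - T = (T2 - T) + 1 := by omega
    have hlen2 : T2 - T < (tab.drop T).length := by
      rw [List.length_drop, tab_len]; omega
    have h4 : (tab.drop T)[T2 - T] = tab[T2] := by
      rw [List.getElem_drop]
      congr 1
      omega
    rw [h3, List.take_succ_eq_append_getElem hlen2, List.map_append, List.sum_append,
      Finset.sum_Ioc_succ_top (by omega)]
    rw [Nat.cast_add]
    apply add_le_add (ih (by omega))
    simp only [List.map_cons, List.map_nil, List.sum_cons, List.sum_nil, add_zero]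
    rw [h4]
    have h2 := hFG _ h1.1
    rw [h1.2] at h2
    exact h2

private theorem nump_ds (e : Ent) (he : EntOK e) (f : ℕ → ℕ) :
    ∑ d ∈ e.t.divisors, f d = (e.ds.map f).sum := by
  have h1 : e.t.divisors = e.ds.toFinset := by
    ext d
    rw [List.mem_toFinset, he.2.2.1 d]
  rw [h1, List.sum_toFinset _ he.2.1]

/-- one class of the kernel count -/
private theorem nump_class (q k n T kp c : ℕ) (hT : T ≤ 96) (m : ℕ → ℕ)
    (hG : ∀ t ∈ Icc 1 T, ∀ d ∈ t.divisors, 2 ^ k * GG q n d t ≤ n * min (2 ^ c) (d * m t))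
    (h : ((tab.take T).map fun e => (minS (2 ^ c) (m e.t) e.ds 0) / e.t + 1).sum ≤ kp) :
    2 ^ k * KB q n T ≤ n * kp := by
  -- extend by zero beyond `T`
  have h1 : ∑ t ∈ Icc 1 T, (∑ d ∈ t.divisors, min (2 ^ c) (d * m t)) / t + T ≤
      ((tab.take T).map fun e => (minS (2 ^ c) (m e.t) e.ds 0) / e.t + 1).sum := by
    have h2 := nump_take T hT (fun e => (minS (2 ^ c) (m e.t) e.ds 0) / e.t + 1)
      (fun t => (∑ d ∈ t.divisors, min (2 ^ c) (d * m t)) / t + 1) (by
        intro e he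
        rw [nump_ds e he, nump_minS, zero_add])
    rw [Finset.sum_add_distrib] at h2
    simpa using h2
  have h3 : 2 ^ k * KB q n T ≤
      n * (∑ t ∈ Icc 1 T, (∑ d ∈ t.divisors, min (2 ^ c) (d * m t)) / t + T) := by
    have h4 : ∑ t ∈ Icc 1 T, (∑ d ∈ t.divisors, min (2 ^ c) (d * m t)) / t + T =
        ∑ t ∈ Icc 1 T, ((∑ d ∈ t.divisors, min (2 ^ c) (d * m t)) / t + 1) := by
      rw [Finset.sum_add_distrib]; simp
    rw [h4, KB, Finset.mul_sum, Finset.mul_sum]
    apply Finset.sum_le_sum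
    intro t ht
    have ht1 : 0 < t := by
      have := (mem_Icc.mp ht).1
      omega
    set W := ∑ d ∈ t.divisors, min (2 ^ c) (d * m t) with hW
    have h5 : 2 ^ k * SB q n t ≤ n * W := by
      calc 2 ^ k * SB q n t ≤ 2 ^ k * ∑ d ∈ t.divisors, GG q n d t :=
            Nat.mul_le_mul_left _ (sb_gg q n t)
        _ = ∑ d ∈ t.divisors, 2 ^ k * GG q n d t := by rw [Finset.mul_sum]
        _ ≤ ∑ d ∈ t.divisors, n * min (2 ^ c) (d * m t) :=
            Finset.sum_le_sum (hG t ht)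
        _ = n * W := by rw [hW, Finset.mul_sum]
    have h6 : W ≤ t * (W / t + 1) := by
      have := Nat.lt_mul_div_succ W ht1
      exact this.le
    have h7 : 2 ^ k * (SB q n t / t) * t ≤ n * (W / t + 1) * t := by
      calc 2 ^ k * (SB q n t / t) * t = 2 ^ k * (SB q n t / t * t) := by ring
        _ ≤ 2 ^ k * SB q n t := Nat.mul_le_mul_left _ (Nat.div_mul_le_self _ _)
        _ ≤ n * W := h5
        _ ≤ n * (t * (W / t + 1)) := Nat.mul_le_mul_left _ h6
        _ = _ := by ring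
    exact Nat.le_of_mul_le_mul_right h7 ht1
  exact h3.trans (Nat.mul_le_mul_left _ (h1.trans h))

theorem numP_kb (q k T T2 J kp C n : ℕ) (hq : 2 ≤ q) (h : chkP q k T T2 J kp C = true)
    (h1 : 2 ^ k ≤ n) (h2 : n < 2 ^ (k + 1)) : 2 ^ k * KB q n T ≤ n * kp := by
  have hc := nump_c q k T T2 J kp C h
  have hT96 : T ≤ 96 := hc.tt.trans hc.t96
  have hn : 1 ≤ n := le_trans Nat.one_le_two_pow h1
  -- the trivial bound
  have hGd : ∀ t ∈ Icc 1 T, ∀ d ∈ t.divisors, 2 ^ k * GG q n d t ≤ n * (d * (q ^ t - 1)) := by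
    intro t ht d hd
    have ht1 := (mem_Icc.mp ht).1
    exact Nat.mul_le_mul h1 (gg_d q n d t hq (Nat.pos_of_mem_divisors hd) ht1)
  -- the largest `GG`
  set P : Finset (ℕ × ℕ) := (Icc 1 T ×ˢ Icc 1 T).filter fun p => p.1 ∈ p.2.divisors with hP
  have hPne : P.Nonempty := by
    refine ⟨(1, 1), ?_⟩
    simp only [hP, mem_filter, mem_product, mem_Icc, le_refl, true_and]
    exact ⟨⟨hc.t1, hc.t1⟩, by simp⟩
  have hPm : ∀ t ∈ Icc 1 T, ∀ d ∈ t.divisors, (d, t) ∈ P := by
    intro t ht d hd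
    simp only [hP, mem_filter, mem_product, mem_Icc]
    have h3 := Nat.divisor_le hd
    have h4 := Nat.pos_of_mem_divisors hd
    have h5 := mem_Icc.mp ht
    exact ⟨⟨⟨h4, h3.trans h5.2⟩, h5⟩, hd⟩
  obtain ⟨⟨d0, t0⟩, hp0, hmax⟩ := Finset.exists_max_image P (fun p => GG q n p.1 p.2) hPne
  have hp0' := hp0
  simp only [hP, mem_filter, mem_product, mem_Icc] at hp0'
  obtain ⟨⟨⟨hd1, hd2⟩, ht1, ht2⟩, hdt⟩ := hp0'
  simp only at hmax
  have hd0t0 : d0 ≤ t0 := Nat.divisor_le hdt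
  set M := GG q n d0 t0 with hM
  have hM1 : 1 ≤ M := by
    have h3 := hmax (1, 1) (hPm 1 (mem_Icc.mpr ⟨le_refl _, hc.t1⟩) 1 (by simp))
    have h4 : 1 ≤ GG q n 1 1 := by
      unfold GG
      rw [if_pos (one_dvd n)]
      exact Nat.gcd_pos_of_pos_left _ (by omega)
    exact h4.trans h3
  have hMd : M ∣ n := gg_dvd q n d0 t0 (by omega)
  obtain ⟨m, hm⟩ := hMd
  have hm1 : 1 ≤ m := by
    rcases Nat.eq_zero_or_pos m with h0 | h0
    · rw [h0] at hm; omega
    · exact h0
  have hle : ∀ t ∈ Icc 1 T, ∀ d ∈ t.divisors, GG q n d t ≤ M := fun t ht d hd =>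
    hmax (d, t) (hPm t ht d hd)
  rcases Nat.lt_or_ge m (2 ^ J) with hmJ | hmJ
  · -- a class with `2^j ≤ m < 2^(j+1)`
    set j := Nat.log 2 m with hj
    have hj1 : 2 ^ j ≤ m := Nat.pow_log_le_self 2 (by omega)
    have hj2 : m < 2 ^ (j + 1) := Nat.lt_pow_succ_log_self (by norm_num) m
    have hjJ : j < J := by
      by_contra hcon
      have : 2 ^ J ≤ 2 ^ j := Nat.pow_le_pow_right (by norm_num) (by omega)
      omega
    have hjk : j ≤ k := by have := hc.jk; omega
    have hM2 : M ≤ t0 * (q ^ t0 - 1) :=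
      (gg_d q n d0 t0 hq hd1 ht1).trans (Nat.mul_le_mul_right _ hd0t0)
    have hall := nump_pwJ q k kp (tab.take T) t0 J
      (nump_pwAll q k J kp (tab.take T) T hc.pa t0 ht1 ht2) j hjJ
    have hmle : m ≤ 2 ^ (j + 1) - 1 := by omega
    rcases hall with hsm | hpw
    · exfalso
      have : n ≤ (2 ^ (j + 1) - 1) * t0 * (q ^ t0 - 1) := by
        calc n = M * m := hm
          _ ≤ (t0 * (q ^ t0 - 1)) * (2 ^ (j + 1) - 1) := Nat.mul_le_mul hM2 hmle
          _ = _ := by ring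
      omega
    · rw [nump_pwS, zero_add] at hpw
      apply nump_class q k n T kp (k - j) hT96 (numpM q j t0) _ hpw
      intro t ht d hd
      have htt := (mem_Icc.mp ht).1
      have hd1' := Nat.pos_of_mem_divisors hd
      have hcap : 2 ^ k * GG q n d t ≤ n * 2 ^ (k - j) := by
        have e1 : 2 ^ k = 2 ^ (k - j) * 2 ^ j := by
          rw [← pow_add]; congr 1; omega
        calc 2 ^ k * GG q n d t ≤ 2 ^ k * M := Nat.mul_le_mul_left _ (hle t ht d hd)
          _ = 2 ^ (k - j) * (M * 2 ^ j) := by rw [e1]; ring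
          _ ≤ 2 ^ (k - j) * (M * m) := Nat.mul_le_mul_left _ (Nat.mul_le_mul_left _ hj1)
          _ = n * 2 ^ (k - j) := by rw [← hm]; ring
      have hmul : 2 ^ k * GG q n d t ≤ n * (d * numpM q j t0 t) := by
        unfold numpM
        split_ifs with htt0
        · exact hGd t ht d hd
        · rcases le_total (q ^ t - 1) ((2 ^ (j + 1) - 1) * t0 * (q ^ (t.gcd t0) - 1)) with h5 | h5
          · rw [min_eq_left h5]; exact hGd t ht d hd
          · rw [min_eq_right h5]
            have h6 := gg_mul q n d t d0 t0 hq hn hd1' htt hd1 ht1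
            rw [← hM] at h6
            have h7 : GG q n d t * M ≤
                (d * ((2 ^ (j + 1) - 1) * t0 * (q ^ (t.gcd t0) - 1))) * M := by
              calc GG q n d t * M ≤ n * (d * d0 * (q ^ (t.gcd t0) - 1)) := h6
                _ = (M * m) * (d * d0 * (q ^ (t.gcd t0) - 1)) := by rw [← hm]
                _ ≤ (M * (2 ^ (j + 1) - 1)) * (d * t0 * (q ^ (t.gcd t0) - 1)) :=
                    Nat.mul_le_mul (Nat.mul_le_mul_left _ hmle)
                      (Nat.mul_le_mul_right _ (Nat.mul_le_mul_left _ hd0t0))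
                _ = _ := by ring
            exact Nat.mul_le_mul h1 (Nat.le_of_mul_le_mul_right h7 hM1)
      rcases le_total (2 ^ (k - j)) (d * numpM q j t0 t) with h5 | h5
      · rw [min_eq_left h5]; exact hcap
      · rw [min_eq_right h5]; exact hmul
  · -- all `GG` are small
    have hpl := hc.pl
    rw [nump_pwL, zero_add] at hpl
    apply nump_class q k n T kp (k - J) hT96 (fun t => q ^ t - 1) _ hpl
    intro t ht d hd
    have hcap : 2 ^ k * GG q n d t ≤ n * 2 ^ (k - J) := by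
      have e1 : 2 ^ k = 2 ^ (k - J) * 2 ^ J := by
        have := hc.jk
        rw [← pow_add]; congr 1; omega
      calc 2 ^ k * GG q n d t ≤ 2 ^ k * M := Nat.mul_le_mul_left _ (hle t ht d hd)
        _ = 2 ^ (k - J) * (M * 2 ^ J) := by rw [e1]; ring
        _ ≤ 2 ^ (k - J) * (M * m) := Nat.mul_le_mul_left _ (Nat.mul_le_mul_left _ hmJ)
        _ = n * 2 ^ (k - J) := by rw [← hm]; ring
    rcases le_total (2 ^ (k - J)) (d * (q ^ t - 1)) with h5 | h5
    · rw [min_eq_left h5]; exact hcap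
    · rw [min_eq_right h5]; exact hGd t ht d hd

private theorem nump_l4 (q : ℕ) : (l4 q : ℝ) = 4 * lq q := by
  unfold l4 lq
  by_cases h2 : q = 2
  · subst h2; norm_num [Nat.beq]
  · by_cases h3 : q = 3
    · subst h3; norm_num [Nat.beq]
    · rw [if_neg h2, if_neg h3]
      have e2 : Nat.beq q 2 = false := by
        cases hb : Nat.beq q 2 with
        | false => rfl
        | true => exact absurd (by simpa [Nat.beq_eq] using hb) h2
      have e3 : Nat.beq q 3 = false := by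
        cases hb : Nat.beq q 3 with
        | false => rfl
        | true => exact absurd (by simpa [Nat.beq_eq] using hb) h3
      rw [e2, e3]
      norm_num

theorem numP_tb (q k T T2 J kp C n : ℕ) (hq : QOK q) (h : chkP q k T T2 J kp C = true)
    (h1 : 2 ^ k ≤ n) (h2 : n < 2 ^ (k + 1)) : lq q * TB q n T ≤ 1 - 1 / 5 := by
  have hc := nump_c q k T T2 J kp C h
  have hq2 : 2 ≤ q := by
    unfold QOK at hq; omega
  have hn : 1 ≤ n := le_trans Nat.one_le_two_pow h1
  have hq2' : (2 : ℝ) ≤ q := by exact_mod_cast hq2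
  have hn2 : (n : ℝ) ≤ 2 ^ (k + 1) := by exact_mod_cast h2.le
  have hlq : 0 ≤ lq q := by unfold lq; split_ifs <;> norm_num
  have htb := tb_le3 q n T T2 hq2 hn hc.tt hc.t6
  -- first part
  have hA : ∑ t ∈ Ioc T T2, (1048576 * ((t.divisors.card * n : ℝ) / t / (q : ℝ) ^ t)) ≤
      ((tlS q k ((tab.drop T).take (T2 - T)) 0 : ℕ) : ℝ) := by
    rw [nump_tlS, zero_add]
    apply nump_drop T T2 hc.tt hc.t96 (fun e =>
      (e.ds.length * 2 ^ (k + 21)) / (e.t * q ^ e.t) + 1)
      (fun t => 1048576 * ((t.divisors.card * n : ℝ) / t / (q : ℝ) ^ t))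
    intro e he
    have hlen : e.t.divisors.card = e.ds.length := by
      have h3 : e.t.divisors = e.ds.toFinset := by
        ext d
        rw [List.mem_toFinset, he.2.2.1 d]
      rw [h3, List.toFinset_card_of_nodup he.2.1]
    rw [hlen]
    have ht : (0 : ℝ) < e.t := by exact_mod_cast he.1
    have hD : 0 < e.t * q ^ e.t := Nat.mul_pos he.1 (Nat.pow_pos (by omega))
    have h3 := Nat.lt_mul_div_succ (e.ds.length * 2 ^ (k + 21)) hD
    have h4 : ((e.ds.length * 2 ^ (k + 21) : ℕ) : ℝ) ≤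
        ((e.t * q ^ e.t * (e.ds.length * 2 ^ (k + 21) / (e.t * q ^ e.t) + 1) : ℕ) : ℝ) := by
      exact_mod_cast h3.le
    set Y : ℕ := e.ds.length * 2 ^ (k + 21) / (e.t * q ^ e.t) + 1 with hY
    push_cast at h4
    rw [div_div, mul_div_assoc', div_le_iff₀ (by positivity)]
    calc (1048576 : ℝ) * ((e.ds.length : ℝ) * n)
        ≤ 1048576 * ((e.ds.length : ℝ) * 2 ^ (k + 1)) := by gcongr
      _ = (e.ds.length : ℝ) * 2 ^ (k + 21) := by ring
      _ ≤ (e.t : ℝ) * (q : ℝ) ^ e.t * (Y : ℝ) := h4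
      _ = _ := by ring
  rw [← Finset.mul_sum] at hA
  -- second part
  have hB : 1048576 * ((n : ℝ) / (2 * (q : ℝ) ^ T2 * (q - 1))) ≤
      ((2 ^ (k + 20) / (q ^ T2 * (q - 1)) + 1 : ℕ) : ℝ) := by
    have hD : 0 < q ^ T2 * (q - 1) := Nat.mul_pos (Nat.pow_pos (by omega)) (by omega)
    have h3 := Nat.lt_mul_div_succ (2 ^ (k + 20)) hD
    have h4 : ((2 ^ (k + 20) : ℕ) : ℝ) ≤
        ((q ^ T2 * (q - 1) * (2 ^ (k + 20) / (q ^ T2 * (q - 1)) + 1) : ℕ) : ℝ) := by
      exact_mod_cast h3.le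
    set Y : ℕ := 2 ^ (k + 20) / (q ^ T2 * (q - 1)) + 1 with hY
    have e1 : ((q - 1 : ℕ) : ℝ) = (q : ℝ) - 1 := by
      rw [Nat.cast_sub (by omega)]; simp
    rw [Nat.cast_mul (q ^ T2 * (q - 1)) Y, Nat.cast_mul (q ^ T2) (q - 1), e1] at h4
    push_cast at h4
    have hpos : (0 : ℝ) < 2 * (q : ℝ) ^ T2 * (q - 1) := mul_pos (by positivity) (by linarith)
    rw [mul_div_assoc', div_le_iff₀ hpos]
    calc (1048576 : ℝ) * n ≤ 1048576 * 2 ^ (k + 1) := by gcongr
      _ = 2 * 2 ^ (k + 20) := by ring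
      _ ≤ 2 * ((q : ℝ) ^ T2 * (q - 1) * Y) := by linarith
      _ = _ := by ring
  have htl := hc.tl
  have htl' : (l4 q : ℝ) * 5 * ((tlS q k ((tab.drop T).take (T2 - T)) 0 : ℕ) +
    ((2 ^ (k + 20) / (q ^ T2 * (q - 1)) + 1 : ℕ) : ℝ)) ≤ 16 * 1048576 := by
    exact_mod_cast htl
  rw [nump_l4] at htl'
  set X1 := ∑ t ∈ Ioc T T2, ((t.divisors.card * n : ℝ) / t / (q : ℝ) ^ t) with hX1
  set X2 := (n : ℝ) / (2 * (q : ℝ) ^ T2 * (q - 1)) with hX2
  have h5 : lq q * TB q n T ≤ lq q * (X1 + X2) := mul_le_mul_of_nonneg_left htb hlq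
  have h6 : lq q * (1048576 * (X1 + X2)) ≤ lq q *
      ((tlS q k ((tab.drop T).take (T2 - T)) 0 : ℕ) +
      ((2 ^ (k + 20) / (q ^ T2 * (q - 1)) + 1 : ℕ) : ℝ)) := by
    apply mul_le_mul_of_nonneg_left _ hlq
    linarith
  nlinarith

/-! ### conclusion -/

private theorem nump_lg (q : ℕ) (hq : q = 2 ∨ q = 3 ∨ q = 5 ∨ q = 7) :
    0 < lgd q ∧ (lgn q : ℝ) / lgd q ≤ Real.logb 2 q := by
  have key : ∀ a b q : ℕ, 0 < b → 0 < q → 2 ^ a ≤ q ^ b → (a : ℝ) / b ≤ Real.logb 2 q := by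
    intro a b q hb hq h
    have hq' : (0 : ℝ) < q := by exact_mod_cast hq
    have h1 : Real.logb 2 ((2 : ℝ) ^ a) ≤ Real.logb 2 ((q : ℝ) ^ b) := by
      apply Real.logb_le_logb_of_le (by norm_num) (by positivity)
      exact_mod_cast h
    rw [Real.logb_pow, Real.logb_pow, Real.logb_self_eq_one (by norm_num), mul_one] at h1
    rw [div_le_iff₀ (by exact_mod_cast hb)]
    linarith
  rcases hq with rfl | rfl | rfl | rfl
  · exact ⟨by decide, key 1 1 2 (by norm_num) (by norm_num) (by norm_num)⟩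
  · exact ⟨by decide, key 84 53 3 (by norm_num) (by norm_num) (by norm_num)⟩
  · exact ⟨by decide, key 65 28 5 (by norm_num) (by norm_num) (by norm_num)⟩
  · exact ⟨by decide, key 14 5 7 (by norm_num) (by norm_num) (by norm_num)⟩

private theorem nump_c2 (q : ℕ) (hq : q = 2 ∨ q = 3 ∨ q = 5 ∨ q = 7) :
    0 < c2den q ∧ (c2num q : ℝ) = 2 * cq q * c2den q := by
  rcases hq with rfl | rfl | rfl | rfl
  · exact ⟨by decide, by norm_num [c2num, c2den, cq, Nat.beq]⟩
  · exact ⟨by decide, by norm_num [c2num, c2den, cq, Nat.beq]⟩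
  · exact ⟨by decide, by norm_num [c2num, c2den, cq, Nat.beq]⟩
  · exact ⟨by decide, by norm_num [c2num, c2den, cq, Nat.beq]⟩

private theorem nump_log (n k : ℕ) (h1 : 2 ^ k ≤ n) (h2 : n < 2 ^ (k + 1)) :
    Real.logb 2 ((2 + n * (Nat.log 2 n + 1)) / (1 / 5 : ℝ)) ≤
      (k : ℝ) + 1 + (Nat.log2 (5 * (k + 2)) + 1) := by
  have hk : Nat.log 2 n = k := by
    rw [Nat.log_eq_iff (Or.inr ⟨by norm_num, by have := @Nat.one_le_two_pow k; omega⟩)]
    exact ⟨h1, h2⟩
  rw [hk]
  have hn : (n : ℝ) ≤ 2 ^ (k + 1) := by exact_mod_cast h2.le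
  have hA : (2 + n * (k + 1) : ℝ) ≤ 2 ^ (k + 1) * (k + 2) := by
    have h2 : (2 : ℝ) ≤ 2 ^ (k + 1) := by
      calc (2 : ℝ) = 2 ^ 1 := by norm_num
        _ ≤ 2 ^ (k + 1) := pow_le_pow_right₀ (by norm_num) (by omega)
    have : (n : ℝ) * (k + 1) ≤ 2 ^ (k + 1) * (k + 1) :=
      mul_le_mul_of_nonneg_right hn (by positivity)
    nlinarith
  have hB : (5 * (k + 2) : ℝ) ≤ 2 ^ (Nat.log2 (5 * (k + 2)) + 1) := by
    have h3 : 5 * (k + 2) < 2 ^ (Nat.log2 (5 * (k + 2)) + 1) := by
      rw [Nat.log2_eq_log_two]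
      exact Nat.lt_pow_succ_log_self (by norm_num) _
    exact_mod_cast h3.le
  have hC : Real.logb 2 ((2 + n * (k + 1)) / (1 / 5 : ℝ)) ≤
      Real.logb 2 (2 ^ (k + 1) * 2 ^ (Nat.log2 (5 * (k + 2)) + 1)) := by
    apply Real.logb_le_logb_of_le (by norm_num) (by positivity)
    calc (2 + n * (k + 1)) / (1 / 5 : ℝ) = (2 + n * (k + 1)) * 5 := by ring
      _ ≤ 2 ^ (k + 1) * (k + 2) * 5 := by linarith
      _ = 2 ^ (k + 1) * (5 * (k + 2)) := by ring
      _ ≤ _ := mul_le_mul_of_nonneg_left hB (by positivity)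
  rw [Real.logb_mul (by positivity) (by positivity), Real.logb_pow, Real.logb_pow,
    Real.logb_self_eq_one (by norm_num)] at hC
  push_cast at hC
  linarith

theorem numP (q k T T2 J kp C : ℕ) (hq : q = 2 ∨ q = 3 ∨ q = 5 ∨ q = 7)
    (h : chkP q k T T2 J kp C = true) (n : ℕ) (h1 : 2 ^ k ≤ n) (h2 : n < 2 ^ (k + 1)) :
    PN q n := by
  have hc := nump_c q k T T2 J kp C h
  have hQ : QOK q := by unfold QOK; omega
  have hq2 : 2 ≤ q := by omega
  have hn : 1 ≤ n := le_trans Nat.one_le_two_pow h1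
  have hkb := numP_kb q k T T2 J kp C n hq2 h h1 h2
  have htb := numP_tb q k T T2 J kp C n hQ h h1 h2
  obtain ⟨hlgd, hlg⟩ := nump_lg q hq
  obtain ⟨hcd, hcn⟩ := nump_c2 q hq
  have hk0 : (0 : ℝ) < 2 ^ k := by positivity
  have hcq0 : 0 ≤ cq q := by unfold cq; split_ifs <;> norm_num
  have hn' : (2 : ℝ) ^ k ≤ n := by exact_mod_cast h1
  -- kernels
  have hK : (KB q n T : ℝ) ≤ kp * (n / 2 ^ k) := by
    have h3 : (2 : ℝ) ^ k * KB q n T ≤ n * kp := by exact_mod_cast hkb
    rw [mul_div_assoc', le_div_iff₀ hk0]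
    linarith
  -- density
  have hclog : Nat.clog q n ≤ C := by
    apply Nat.clog_le_of_le_pow
    exact h2.le.trans hc.c
  have hE : cq q * EB q n T ≤ cq q * (2 * C + 2) := by
    apply mul_le_mul_of_nonneg_left _ hcq0
    have h3 := eb_le q n T hq2 hn
    have h4 : (Nat.clog q n : ℝ) ≤ C := by exact_mod_cast hclog
    linarith
  set F : ℕ := c2num q * (C + 1) / c2den q with hF
  have hEF : cq q * (2 * C + 2) ≤ (F : ℝ) + 1 := by
    have h3 := Nat.lt_mul_div_succ (c2num q * (C + 1)) hcd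
    rw [← hF] at h3
    have h4 : (c2num q : ℝ) * (C + 1) ≤ c2den q * (F + 1) := by exact_mod_cast h3.le
    rw [hcn] at h4
    have hcd' : (0 : ℝ) < c2den q := by exact_mod_cast hcd
    have h5 : (c2den q : ℝ) * (cq q * (2 * C + 2)) ≤ c2den q * (F + 1) := by linarith
    exact le_of_mul_le_mul_left h5 hcd'
  have hL := nump_log n k h1 h2
  set lgk : ℕ := Nat.log2 (5 * (k + 2)) with hlgk
  have hr1 : (1 : ℝ) ≤ n / 2 ^ k := by
    rw [le_div_iff₀ hk0]; linarith
  have hlgd' : (0 : ℝ) < lgd q := by exact_mod_cast hlgd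
  have hlogn : (n : ℝ) * ((lgn q : ℝ) / lgd q) ≤ n * Real.logb 2 q :=
    mul_le_mul_of_nonneg_left hlg (by positivity)
  have hfin : ∀ (B a : ℕ) (j : ℕ), 0 < j →
      (kp + (B + (F + (k + 2) + (lgk + 1)))) * j * lgd q ≤ a * (lgn q * 2 ^ k) →
      (kp : ℝ) * (n / 2 ^ k) + (B + (F + (k + 2) + (lgk + 1))) ≤ (a / j : ℝ) * (n * Real.logb 2 q) := by
    intro B a j hj hh
    have hh' : ((kp : ℝ) + (B + (F + (k + 2) + (lgk + 1)))) * j * lgd q ≤
      a * (lgn q * 2 ^ k) := by exact_mod_cast hh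
    have hj' : (0 : ℝ) < j := by exact_mod_cast hj
    have s1 : (kp : ℝ) * (n / 2 ^ k) + (B + (F + (k + 2) + (lgk + 1))) ≤
        ((kp : ℝ) + (B + (F + (k + 2) + (lgk + 1)))) * (n / 2 ^ k) := by
      have h7 : (0 : ℝ) ≤ (B + (F + (k + 2) + (lgk + 1)) : ℝ) := by positivity
      nlinarith
    have s2 : ((kp : ℝ) + (B + (F + (k + 2) + (lgk + 1)))) ≤
        (a / j : ℝ) * ((lgn q : ℝ) / lgd q * 2 ^ k) := by
      have e1 : (a / j : ℝ) * ((lgn q : ℝ) / lgd q * 2 ^ k) =
          (a * (lgn q * 2 ^ k)) / (j * lgd q) := by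
        field_simp
      rw [e1, le_div_iff₀ (by positivity)]
      linarith
    have s3 : ((kp : ℝ) + (B + (F + (k + 2) + (lgk + 1)))) * (n / 2 ^ k) ≤
        (a / j : ℝ) * ((lgn q : ℝ) / lgd q * 2 ^ k) * (n / 2 ^ k) :=
      mul_le_mul_of_nonneg_right s2 (by positivity)
    have s4 : (a / j : ℝ) * ((lgn q : ℝ) / lgd q * 2 ^ k) * (n / 2 ^ k) =
        (a / j : ℝ) * (n * ((lgn q : ℝ) / lgd q)) := by
      field_simp
    have s5 : (a / j : ℝ) * (n * ((lgn q : ℝ) / lgd q)) ≤ (a / j : ℝ) * (n * Real.logb 2 q) :=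
      mul_le_mul_of_nonneg_left hlogn (by positivity)
    linarith
  rcases hc.fin with hf | hf
  · have h3 := hfin 133 5 12 (by norm_num) hf
    apply bigc q n T 12 1596 hQ hn (by norm_num) (fun N hN => om12 N hN) (lq q) (1 / 5)
      (kp * (n / 2 ^ k)) (cq q * (2 * C + 2)) (Or.inl le_rfl) (by norm_num) htb hK hE
    norm_num at h3 hL ⊢
    linarith
  · have h3 := hfin 13 3 8 (by norm_num) hf
    apply bigc q n T 8 98 hQ hn (by norm_num) (fun N hN => om8 N hN) (lq q) (1 / 5)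
      (kp * (n / 2 ^ k)) (cq q * (2 * C + 2)) (Or.inl le_rfl) (by norm_num) htb hK hE
    norm_num at h3 hL ⊢
    linarith

end Pool.Agent.MM2
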