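import Mathlib
import Pool.Agent.MM2.Defs
import Pool.Agent.MM2.NDefs
import Pool.Agent.MM2.NUMA
import Pool.Agent.MM2.NUMB
import Pool.Agent.MM2.NUMP

/-!
Using the tables.
-/

namespace Pool.Agent.MM2


theorem finu_A (q : ℕ) (hq : QOK q) (l : List (ℕ × ℕ × ℕ × ℕ)) (h : runA q l = true) (n : ℕ)
    (hn : 1 ≤ n) (hm : n ∈ l.map Prod.fst) : PN q n := by
  obtain ⟨x, hx, rfl⟩ := List.mem_map.1 hm
  exact numA_run q hq l h x hx hn

theorem finu_P (q : ℕ) (hq : q = 2 ∨ q = 3 ∨ q = 5 ∨ q = 7)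
    (l : List (ℕ × ℕ × ℕ × ℕ × ℕ × ℕ)) (h : runP q l = true) (n : ℕ) (hn : 1 ≤ n)
    (hm : Nat.log 2 n ∈ l.map Prod.fst) : PN q n := by
  obtain ⟨x, hx, hxn⟩ := List.mem_map.1 hm
  have h1 : ∀ l : List (ℕ × ℕ × ℕ × ℕ × ℕ × ℕ), runP q l = true → x ∈ l →
      chkP q x.1 x.2.1 x.2.2.1 x.2.2.2.1 x.2.2.2.2.1 x.2.2.2.2.2 = true := by
    intro l
    induction l with
    | nil => intro _ h; simp at h
    | cons y l ih =>
      intro h2 h3
      rw [runP, Bool.and_eq_true] at h2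
      rcases List.mem_cons.1 h3 with h4 | h4
      · subst h4; exact h2.1
      · exact ih h2.2 h4
  refine numP q _ _ _ _ _ _ hq (h1 l h hx) n ?_ ?_
  · rw [hxn]; exact Nat.pow_log_le_self 2 (by omega)
  · rw [hxn]; exact Nat.lt_pow_succ_log_self (by norm_num) n

end Pool.Agent.MM2
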