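import Mathlib
import Pool.Agent.MM2.NDefs

/-!
Parameters for the finite checks.
-/

namespace Pool.Agent.MM2

/-- parameters `(n, T, T2, b)` for `q = 2` -/
def lA2 : List (ℕ × ℕ × ℕ × ℕ) := [
  (13, 0, 8, 5), (17, 0, 8, 4), (19, 0, 8, 4), (22, 0, 8, 4), (23, 0, 8, 4), (25, 0, 8, 5),
  (26, 0, 8, 4), (27, 0, 8, 7), (29, 0, 8, 5), (31, 0, 8, 5), (32, 0, 8, 5), (33, 0, 8, 6),
  (34, 0, 8, 5), (35, 0, 8, 7), (37, 0, 8, 5), (38, 0, 8, 5), (39, 0, 8, 7), (41, 0, 8, 5),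
  (43, 0, 8, 5), (44, 0, 8, 5), (45, 4, 8, 6), (46, 0, 8, 5), (47, 0, 8, 5), (48, 2, 10, 5),
  (49, 0, 8, 7), (50, 0, 8, 7), (51, 0, 8, 9), (52, 0, 8, 6), (53, 0, 8, 6), (55, 0, 8, 6),
  (56, 0, 8, 8), (57, 0, 8, 9), (58, 0, 8, 6), (59, 0, 8, 6), (61, 0, 8, 6), (62, 0, 8, 7),
  (64, 0, 8, 6), (65, 0, 8, 6), (66, 2, 10, 5), (67, 0, 8, 6), (68, 0, 8, 6), (69, 2, 10, 5),
  (70, 3, 11, 7), (71, 0, 8, 6), (72, 2, 10, 6), (73, 0, 8, 6), (74, 0, 8, 6), (75, 3, 11, 8),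
  (76, 0, 8, 6), (77, 3, 11, 5), (78, 2, 10, 5), (79, 0, 8, 7), (80, 4, 12, 5), (81, 2, 10, 6),
  (82, 0, 8, 7), (83, 0, 8, 7), (84, 3, 11, 6), (85, 0, 8, 8), (86, 0, 8, 7), (87, 2, 10, 5),
  (88, 0, 8, 7), (89, 0, 8, 7), (90, 4, 12, 6), (91, 3, 11, 5), (92, 0, 8, 7), (93, 3, 11, 9),
  (94, 0, 8, 7), (95, 0, 8, 8), (96, 2, 10, 6), (97, 0, 8, 7), (98, 3, 11, 5), (99, 2, 10, 6),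
  (100, 4, 12, 5), (101, 0, 8, 8), (102, 2, 10, 7), (103, 0, 8, 8), (104, 0, 8, 8),
  (105, 4, 12, 5), (106, 0, 8, 8), (107, 0, 8, 8), (108, 6, 10, 6), (109, 0, 8, 8),
  (110, 4, 12, 5), (111, 2, 10, 6), (112, 3, 11, 5), (113, 0, 8, 8), (114, 2, 10, 6),
  (115, 2, 10, 6), (116, 0, 8, 9), (117, 2, 10, 6), (118, 0, 8, 9), (119, 3, 11, 5),
  (120, 4, 12, 5), (121, 0, 8, 9), (122, 1, 9, 9), (123, 2, 10, 6), (124, 4, 12, 8),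
  (125, 2, 10, 7), (127, 3, 11, 7), (136, 3, 11, 7), (155, 5, 13, 6), (189, 6, 10, 7),
  (252, 6, 14, 6), (378, 6, 14, 7)]

/-- parameters `(n, T, T2, b)` for `q = 3` -/
def lA3 : List (ℕ × ℕ × ℕ × ℕ) := [
  (9, 0, 5, 9), (11, 0, 3, 4), (13, 0, 3, 5), (14, 0, 3, 7), (15, 0, 3, 5), (17, 0, 3, 5),
  (18, 0, 5, 5), (19, 0, 3, 5), (20, 0, 5, 8), (21, 0, 3, 5), (22, 0, 5, 5), (23, 0, 3, 5),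
  (24, 1, 6, 8), (25, 0, 3, 6), (26, 1, 4, 5), (27, 0, 3, 6), (28, 0, 5, 6), (29, 0, 3, 6),
  (30, 0, 5, 6), (31, 0, 3, 7), (32, 2, 4, 5), (33, 0, 3, 7), (34, 0, 5, 6), (35, 0, 3, 9),
  (36, 0, 5, 6), (37, 0, 5, 5), (38, 0, 5, 6), (39, 1, 6, 7), (40, 2, 4, 6), (41, 0, 5, 5),
  (42, 0, 5, 6), (43, 0, 5, 5), (44, 0, 5, 7), (45, 0, 5, 5), (46, 0, 5, 6), (47, 0, 5, 5),
  (48, 2, 4, 5), (49, 0, 5, 5), (50, 0, 5, 7), (51, 0, 5, 5), (52, 1, 6, 6), (53, 0, 5, 5),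
  (54, 0, 5, 6), (55, 0, 5, 6), (56, 1, 6, 8), (57, 0, 5, 6), (58, 0, 5, 7), (59, 0, 5, 6),
  (60, 1, 4, 8), (61, 0, 5, 6), (62, 0, 5, 7), (63, 0, 5, 6), (64, 2, 4, 7), (78, 3, 4, 7),
  (80, 2, 7, 9), (160, 4, 5, 7)]

/-- parameters `(n, T, T2, b)` for `q = 5` -/
def lA5 : List (ℕ × ℕ × ℕ × ℕ) := [
  (7, 0, 1, 4), (9, 0, 1, 5), (10, 0, 2, 4), (11, 0, 1, 5), (13, 0, 1, 6), (14, 0, 2, 5),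
  (15, 0, 1, 7), (16, 1, 2, 5), (17, 0, 2, 4), (18, 0, 2, 5), (19, 0, 2, 5), (20, 0, 3, 6),
  (21, 0, 2, 5), (22, 0, 2, 5), (23, 0, 2, 5), (24, 1, 3, 8), (25, 0, 2, 5), (26, 0, 2, 6),
  (27, 0, 2, 5), (28, 0, 3, 7), (29, 0, 2, 5), (30, 0, 2, 7), (31, 0, 2, 5), (32, 1, 2, 6),
  (33, 0, 2, 6), (34, 0, 2, 6), (35, 0, 2, 6), (36, 1, 2, 7), (37, 0, 2, 6), (38, 0, 2, 6),
  (39, 0, 2, 6), (40, 0, 3, 9), (41, 0, 2, 6), (42, 0, 2, 9), (43, 0, 2, 6), (44, 0, 3, 7),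
  (45, 0, 2, 6), (46, 0, 2, 7), (47, 0, 2, 6), (48, 2, 2, 6), (49, 0, 2, 6), (156, 1, 3, 8),
  (208, 1, 3, 9)]

/-- parameters `(n, T, T2, b)` for `q = 7` -/
def lA7 : List (ℕ × ℕ × ℕ × ℕ) := [
  (5, 0, 1, 4), (7, 0, 1, 4), (8, 0, 1, 4), (9, 0, 1, 5), (10, 0, 1, 4), (11, 0, 1, 4),
  (12, 0, 3, 7), (13, 0, 1, 5), (14, 0, 1, 5), (15, 0, 1, 6), (16, 0, 1, 5), (17, 0, 1, 5),
  (18, 0, 2, 7), (19, 0, 1, 5), (20, 0, 1, 6), (21, 0, 1, 7), (22, 0, 1, 6), (23, 0, 1, 6),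
  (24, 1, 1, 6), (32, 0, 2, 7), (48, 2, 2, 6), (57, 0, 2, 7)]

/-- parameters `(n, T, T2, b)` for `q = 11` -/
def lA11 : List (ℕ × ℕ × ℕ × ℕ) := [
  (5, 0, 0, 4), (6, 0, 1, 4), (7, 0, 0, 5), (8, 0, 0, 5), (9, 0, 0, 6), (10, 0, 2, 6),
  (11, 0, 1, 4), (12, 0, 1, 4), (13, 0, 1, 4), (14, 0, 1, 5), (15, 0, 1, 5), (16, 0, 1, 5),
  (17, 0, 1, 5), (18, 0, 1, 5), (19, 0, 1, 5), (20, 0, 2, 8), (21, 0, 1, 5), (22, 0, 1, 5),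
  (23, 0, 1, 5), (24, 0, 1, 5), (25, 0, 1, 6), (26, 0, 1, 5), (27, 0, 1, 5), (28, 0, 1, 6),
  (29, 0, 1, 5), (30, 1, 1, 5), (31, 0, 1, 6), (32, 0, 1, 6), (33, 0, 1, 6), (34, 0, 1, 6),
  (35, 0, 1, 7), (36, 0, 1, 6), (37, 0, 1, 6), (38, 0, 1, 6), (39, 0, 1, 6), (40, 1, 1, 6),
  (41, 0, 1, 6), (42, 0, 1, 6), (43, 0, 1, 6), (44, 0, 1, 6), (45, 0, 1, 8), (46, 0, 1, 7),
  (47, 0, 1, 6), (48, 0, 1, 7), (49, 0, 1, 6), (50, 0, 2, 9), (51, 0, 1, 7), (52, 0, 1, 7),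
  (53, 0, 1, 7), (54, 0, 1, 7), (55, 0, 1, 9), (56, 0, 1, 7), (57, 0, 1, 7), (58, 0, 1, 7),
  (59, 0, 1, 7), (60, 1, 1, 7)]

/-- parameters `(n, T, T2, b)` for `q = 13` -/
def lA13 : List (ℕ × ℕ × ℕ × ℕ) := [
  (5, 0, 0, 4), (6, 0, 0, 4), (7, 0, 0, 4), (8, 0, 0, 5), (9, 0, 0, 5), (10, 0, 0, 6),
  (11, 0, 0, 7), (12, 0, 2, 7), (13, 0, 1, 4), (14, 0, 1, 4), (15, 0, 1, 5), (16, 0, 1, 5),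
  (17, 0, 1, 5), (18, 0, 1, 5), (19, 0, 1, 5), (20, 0, 1, 5), (21, 0, 1, 5), (22, 0, 1, 5),
  (23, 0, 1, 5), (24, 0, 2, 9), (25, 0, 1, 5), (26, 0, 1, 5), (27, 0, 1, 5), (28, 0, 1, 6),
  (29, 0, 1, 5), (30, 0, 1, 6), (31, 0, 1, 5), (32, 0, 1, 6), (33, 0, 1, 6), (34, 0, 1, 6),
  (35, 0, 1, 6), (36, 0, 2, 9), (37, 0, 1, 6), (38, 0, 1, 6), (39, 0, 1, 6), (40, 0, 1, 6),
  (41, 0, 1, 6), (42, 0, 1, 7), (43, 0, 1, 6), (44, 0, 1, 7), (45, 0, 1, 6), (46, 0, 1, 6),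
  (47, 0, 1, 6), (48, 1, 1, 6), (49, 0, 1, 6), (50, 0, 1, 6), (51, 0, 1, 7), (52, 0, 1, 7),
  (53, 0, 1, 6), (54, 0, 1, 8), (55, 0, 1, 6), (56, 0, 1, 7), (57, 0, 1, 7), (58, 0, 1, 7),
  (59, 0, 1, 7), (60, 0, 2, 9)]

/-- parameters `(n, T, T2, b)` for `q = 17` -/
def lA17 : List (ℕ × ℕ × ℕ × ℕ) := [
  (3, 0, 0, 4), (4, 0, 2, 4), (5, 0, 0, 4), (6, 0, 0, 4), (7, 0, 0, 4), (8, 0, 0, 5),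
  (9, 0, 0, 5), (10, 0, 0, 5), (11, 0, 0, 5), (12, 0, 0, 6), (13, 0, 0, 6), (14, 0, 0, 7),
  (15, 0, 0, 8), (16, 0, 2, 8), (17, 0, 1, 5), (18, 0, 1, 5), (19, 0, 1, 5), (20, 0, 1, 5),
  (21, 0, 1, 5), (22, 0, 1, 5), (23, 0, 1, 5), (24, 0, 1, 6), (25, 0, 1, 5), (26, 0, 1, 5),
  (27, 0, 1, 5), (28, 0, 1, 6), (29, 0, 1, 5), (30, 0, 1, 5), (31, 0, 1, 5), (32, 0, 3, 9),
  (33, 0, 1, 5), (34, 0, 1, 6), (35, 0, 1, 6), (36, 0, 1, 6), (37, 0, 1, 6), (38, 0, 1, 6),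
  (39, 0, 1, 6), (40, 0, 1, 7), (41, 0, 1, 6), (42, 0, 1, 6), (43, 0, 1, 6), (44, 0, 1, 6),
  (45, 0, 1, 6), (46, 0, 1, 6), (47, 0, 1, 6), (48, 1, 1, 6), (49, 0, 1, 6), (50, 0, 1, 6),
  (51, 0, 1, 6), (52, 0, 1, 6), (53, 0, 1, 6), (54, 0, 1, 6), (55, 0, 1, 6), (56, 0, 1, 7),
  (57, 0, 1, 6), (58, 0, 1, 6), (59, 0, 1, 6), (60, 0, 1, 7), (61, 0, 1, 6), (62, 0, 1, 7),
  (63, 0, 1, 6)]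

/-- parameters `(n, T, T2, b)` for `q = 19` -/
def lA19 : List (ℕ × ℕ × ℕ × ℕ) := [
  (3, 0, 0, 4), (4, 0, 0, 4), (5, 0, 0, 4), (6, 0, 0, 4), (7, 0, 0, 4), (8, 0, 0, 4),
  (9, 0, 0, 5), (10, 0, 0, 5), (11, 0, 0, 5), (12, 0, 0, 5), (13, 0, 0, 6), (14, 0, 0, 6),
  (15, 0, 0, 6), (16, 0, 0, 7), (17, 0, 0, 8), (18, 0, 2, 8), (19, 0, 1, 5), (20, 0, 1, 5),
  (21, 0, 1, 5), (22, 0, 1, 5), (23, 0, 1, 5), (24, 0, 1, 6), (25, 0, 1, 5), (26, 0, 1, 5),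
  (27, 0, 1, 6), (28, 0, 1, 5), (29, 0, 1, 5), (30, 0, 1, 6), (31, 0, 1, 5), (32, 0, 1, 6),
  (33, 0, 1, 6), (34, 0, 1, 6), (35, 0, 1, 6), (36, 1, 1, 6), (37, 0, 1, 6), (38, 0, 1, 6),
  (39, 0, 1, 6), (40, 0, 1, 6), (41, 0, 1, 6), (42, 0, 1, 6), (43, 0, 1, 6), (44, 0, 1, 6),
  (45, 0, 1, 7), (46, 0, 1, 6), (47, 0, 1, 6), (48, 0, 1, 6), (49, 0, 1, 6), (50, 0, 1, 6),
  (51, 0, 1, 6), (52, 0, 1, 6), (53, 0, 1, 6), (54, 0, 3, 9), (55, 0, 1, 6), (56, 0, 1, 6),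
  (57, 0, 1, 6), (58, 0, 1, 6), (59, 0, 1, 6), (60, 0, 1, 7), (61, 0, 1, 6), (62, 0, 1, 6),
  (63, 0, 1, 7)]

/-- parameters `(n, T, T2, b)` for `q = 23` -/
def lA23 : List (ℕ × ℕ × ℕ × ℕ) := [
  (3, 0, 0, 6), (4, 0, 0, 4), (5, 0, 0, 4), (6, 0, 0, 4), (7, 0, 0, 4), (8, 0, 0, 4),
  (9, 0, 0, 5), (10, 0, 0, 5), (11, 0, 0, 5), (12, 0, 0, 5), (13, 0, 0, 5), (14, 0, 0, 6),
  (15, 0, 0, 6), (16, 0, 0, 6), (17, 0, 0, 6), (18, 0, 0, 7), (19, 0, 0, 7), (20, 0, 0, 8),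
  (21, 0, 0, 8), (22, 0, 2, 9), (23, 0, 1, 5), (24, 0, 1, 5), (25, 0, 1, 5), (26, 0, 1, 5),
  (27, 0, 1, 5), (28, 0, 1, 5), (29, 0, 1, 5), (30, 0, 1, 5), (31, 0, 1, 5), (32, 0, 1, 6),
  (33, 0, 1, 6), (34, 0, 1, 6), (35, 0, 1, 6), (36, 0, 1, 6), (37, 0, 1, 6), (38, 0, 1, 6),
  (39, 0, 1, 6), (40, 0, 1, 6), (41, 0, 1, 6), (42, 0, 1, 6), (43, 0, 1, 6), (44, 1, 1, 6),
  (45, 0, 1, 6), (46, 0, 1, 6), (47, 0, 1, 6), (48, 0, 1, 6), (49, 0, 1, 6), (50, 0, 1, 6),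
  (51, 0, 1, 6), (52, 0, 1, 6), (53, 0, 1, 6), (54, 0, 1, 6), (55, 0, 1, 7), (56, 0, 1, 6),
  (57, 0, 1, 6), (58, 0, 1, 6), (59, 0, 1, 6), (60, 0, 1, 6), (61, 0, 1, 6), (62, 0, 1, 6),
  (63, 0, 1, 6)]

/-- parameters `(n, T, T2, b)` for `q = 29` -/
def lA29 : List (ℕ × ℕ × ℕ × ℕ) := [
  (3, 0, 0, 3), (4, 0, 0, 4), (5, 0, 0, 4), (6, 0, 0, 4), (7, 0, 0, 4), (8, 0, 0, 4),
  (9, 0, 0, 4), (10, 0, 0, 5), (11, 0, 0, 5), (12, 0, 0, 5), (13, 0, 0, 5), (14, 0, 0, 5),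
  (15, 0, 0, 5), (16, 0, 0, 6), (17, 0, 0, 6), (18, 0, 0, 6), (19, 0, 0, 6), (20, 0, 0, 6),
  (21, 0, 0, 7), (22, 0, 0, 7), (23, 0, 0, 7), (24, 0, 0, 7), (25, 0, 0, 8), (26, 0, 0, 8),
  (27, 0, 0, 9), (28, 0, 2, 9), (29, 0, 1, 5), (30, 0, 1, 6), (31, 0, 1, 6), (32, 0, 1, 6),
  (33, 0, 1, 6), (34, 0, 1, 6), (35, 0, 1, 6), (36, 0, 1, 6), (37, 0, 1, 6), (38, 0, 1, 6),
  (39, 0, 1, 6), (40, 0, 1, 6), (41, 0, 1, 6), (42, 0, 1, 7), (43, 0, 1, 6), (44, 0, 1, 6),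
  (45, 0, 1, 6), (46, 0, 1, 6), (47, 0, 1, 6), (48, 0, 1, 6), (49, 0, 1, 6), (50, 0, 1, 6),
  (51, 0, 1, 6), (52, 0, 1, 6), (53, 0, 1, 6), (54, 0, 1, 6), (55, 0, 1, 6), (56, 1, 1, 6),
  (57, 0, 1, 6), (58, 0, 1, 6), (59, 0, 1, 6), (60, 0, 1, 6), (61, 0, 1, 6), (62, 0, 1, 6),
  (63, 0, 1, 7)]

/-- parameters `(n, T, T2, b)` for `q = 31` -/
def lA31 : List (ℕ × ℕ × ℕ × ℕ) := [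
  (3, 0, 0, 4), (4, 0, 0, 4), (5, 0, 0, 4), (6, 0, 0, 4), (7, 0, 0, 4), (8, 0, 0, 4),
  (9, 0, 0, 4), (10, 0, 0, 5), (11, 0, 0, 5), (12, 0, 0, 5), (13, 0, 0, 5), (14, 0, 0, 5),
  (15, 0, 0, 5), (16, 0, 0, 6), (17, 0, 0, 6), (18, 0, 0, 6), (19, 0, 0, 6), (20, 0, 0, 6),
  (21, 0, 0, 6), (22, 0, 0, 7), (23, 0, 0, 7), (24, 0, 0, 7), (25, 0, 0, 7), (26, 0, 0, 8),
  (27, 0, 0, 8), (28, 0, 0, 8), (29, 0, 0, 9), (30, 0, 3, 9), (31, 0, 1, 6), (32, 0, 1, 6),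
  (33, 0, 1, 6), (34, 0, 1, 6), (35, 0, 1, 6), (36, 0, 1, 6), (37, 0, 1, 6), (38, 0, 1, 6),
  (39, 0, 1, 6), (40, 0, 1, 6), (41, 0, 1, 6), (42, 0, 1, 6), (43, 0, 1, 6), (44, 0, 1, 6),
  (45, 0, 1, 7), (46, 0, 1, 6), (47, 0, 1, 6), (48, 0, 1, 6), (49, 0, 1, 6), (50, 0, 1, 7),
  (51, 0, 1, 6), (52, 0, 1, 6), (53, 0, 1, 6), (54, 0, 1, 6), (55, 0, 1, 6), (56, 0, 1, 6),
  (57, 0, 1, 6), (58, 0, 1, 6), (59, 0, 1, 6), (60, 1, 1, 6), (61, 0, 1, 6), (62, 0, 1, 6),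
  (63, 0, 1, 6)]

/-- parameters `(n, T, T2, b)` for `q = 37` -/
def lA37 : List (ℕ × ℕ × ℕ × ℕ) := [
  (3, 0, 0, 4), (4, 0, 0, 3), (5, 0, 0, 4), (6, 0, 0, 4), (7, 0, 0, 4), (8, 0, 0, 4),
  (9, 0, 0, 4), (10, 0, 0, 5), (11, 0, 0, 5), (12, 0, 0, 5), (13, 0, 0, 5), (14, 0, 0, 5),
  (15, 0, 0, 5), (16, 0, 0, 5), (17, 0, 0, 6), (18, 0, 0, 6), (19, 0, 0, 6), (20, 0, 0, 6),
  (21, 0, 0, 6), (22, 0, 0, 6), (23, 0, 0, 6), (24, 0, 0, 6), (25, 0, 0, 7), (26, 0, 0, 7),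
  (27, 0, 0, 7), (28, 0, 0, 7), (29, 0, 0, 7), (30, 0, 0, 8), (31, 0, 0, 8)]

/-- parameters `(n, T, T2, b)` for `q = 41` -/
def lA41 : List (ℕ × ℕ × ℕ × ℕ) := [
  (3, 0, 0, 3), (4, 0, 0, 4), (5, 0, 0, 4), (6, 0, 0, 4), (7, 0, 0, 4), (8, 0, 0, 4),
  (9, 0, 0, 4), (10, 0, 0, 5), (11, 0, 0, 5), (12, 0, 0, 5), (13, 0, 0, 5), (14, 0, 0, 5),
  (15, 0, 0, 5), (16, 0, 0, 5), (17, 0, 0, 5), (18, 0, 0, 6), (19, 0, 0, 6), (20, 0, 0, 6),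
  (21, 0, 0, 6), (22, 0, 0, 6), (23, 0, 0, 6), (24, 0, 0, 6), (25, 0, 0, 6), (26, 0, 0, 7),
  (27, 0, 0, 7), (28, 0, 0, 7), (29, 0, 0, 7), (30, 0, 0, 7), (31, 0, 0, 7)]

/-- parameters `(n, T, T2, b)` for `q = 43` -/
def lA43 : List (ℕ × ℕ × ℕ × ℕ) := [
  (3, 0, 0, 4), (4, 0, 0, 4), (5, 0, 0, 4), (6, 0, 0, 4), (7, 0, 0, 4), (8, 0, 0, 4),
  (9, 0, 0, 4), (10, 0, 0, 5), (11, 0, 0, 5), (12, 0, 0, 5), (13, 0, 0, 5), (14, 0, 0, 5),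
  (15, 0, 0, 5), (16, 0, 0, 5), (17, 0, 0, 5), (18, 0, 0, 6), (19, 0, 0, 6), (20, 0, 0, 6),
  (21, 0, 0, 6), (22, 0, 0, 6), (23, 0, 0, 6), (24, 0, 0, 6), (25, 0, 0, 6), (26, 0, 0, 6),
  (27, 0, 0, 7), (28, 0, 0, 7), (29, 0, 0, 7), (30, 0, 0, 7), (31, 0, 0, 7)]

/-- parameters `(n, T, T2, b)` for `q = 47` -/
def lA47 : List (ℕ × ℕ × ℕ × ℕ) := [
  (3, 0, 0, 3), (4, 0, 0, 4), (5, 0, 0, 4), (6, 0, 0, 4), (7, 0, 0, 4), (8, 0, 0, 4),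
  (9, 0, 0, 4), (10, 0, 0, 5), (11, 0, 0, 5), (12, 0, 0, 5), (13, 0, 0, 5), (14, 0, 0, 5),
  (15, 0, 0, 5), (16, 0, 0, 5), (17, 0, 0, 5), (18, 0, 0, 5), (19, 0, 0, 6), (20, 0, 0, 6),
  (21, 0, 0, 6), (22, 0, 0, 6), (23, 0, 0, 6), (24, 0, 0, 6), (25, 0, 0, 6), (26, 0, 0, 6),
  (27, 0, 0, 6), (28, 0, 0, 6), (29, 0, 0, 7), (30, 0, 0, 7), (31, 0, 0, 7)]

/-- parameters `(n, T, T2, b)` for `q = 53` -/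
def lA53 : List (ℕ × ℕ × ℕ × ℕ) := [
  (3, 0, 0, 3), (4, 0, 0, 4), (5, 0, 0, 4), (6, 0, 0, 4), (7, 0, 0, 4), (8, 0, 0, 4),
  (9, 0, 0, 4), (10, 0, 0, 5), (11, 0, 0, 5), (12, 0, 0, 5), (13, 0, 0, 5), (14, 0, 0, 5),
  (15, 0, 0, 5), (16, 0, 0, 5), (17, 0, 0, 5), (18, 0, 0, 5), (19, 0, 0, 6), (20, 0, 0, 6),
  (21, 0, 0, 6), (22, 0, 0, 6), (23, 0, 0, 6), (24, 0, 0, 6), (25, 0, 0, 6), (26, 0, 0, 6),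
  (27, 0, 0, 6), (28, 0, 0, 6), (29, 0, 0, 6), (30, 0, 0, 7), (31, 0, 0, 7)]

/-- parameters `(n, T, T2, b)` for `q = 59` -/
def lA59 : List (ℕ × ℕ × ℕ × ℕ) := [
  (3, 0, 0, 3), (4, 0, 0, 3), (5, 0, 0, 4), (6, 0, 0, 4), (7, 0, 0, 4), (8, 0, 0, 4),
  (9, 0, 0, 4), (10, 0, 0, 5), (11, 0, 0, 5), (12, 0, 0, 5), (13, 0, 0, 5), (14, 0, 0, 5),
  (15, 0, 0, 5), (16, 0, 0, 5), (17, 0, 0, 5), (18, 0, 0, 5), (19, 0, 0, 6), (20, 0, 0, 6),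
  (21, 0, 0, 6), (22, 0, 0, 6), (23, 0, 0, 6), (24, 0, 0, 6), (25, 0, 0, 6), (26, 0, 0, 6),
  (27, 0, 0, 6), (28, 0, 0, 6), (29, 0, 0, 6), (30, 0, 0, 6), (31, 0, 0, 7)]

/-- parameters `(n, T, T2, b)` for `q = 61` -/
def lA61 : List (ℕ × ℕ × ℕ × ℕ) := [
  (3, 0, 0, 3), (4, 0, 0, 3), (5, 0, 0, 4), (6, 0, 0, 4), (7, 0, 0, 4), (8, 0, 0, 4),
  (9, 0, 0, 4), (10, 0, 0, 5), (11, 0, 0, 5), (12, 0, 0, 5), (13, 0, 0, 5), (14, 0, 0, 5),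
  (15, 0, 0, 5), (16, 0, 0, 5), (17, 0, 0, 5), (18, 0, 0, 5), (19, 0, 0, 6), (20, 0, 0, 6),
  (21, 0, 0, 6), (22, 0, 0, 6), (23, 0, 0, 6), (24, 0, 0, 6), (25, 0, 0, 6), (26, 0, 0, 6),
  (27, 0, 0, 6), (28, 0, 0, 6), (29, 0, 0, 6), (30, 0, 0, 6), (31, 0, 0, 6)]

/-- parameters `(n, T, T2, b)` for `q = 67` -/
def lA67 : List (ℕ × ℕ × ℕ × ℕ) := [
  (3, 0, 0, 4), (4, 0, 0, 4), (5, 0, 0, 4), (6, 0, 0, 4), (7, 0, 0, 4), (8, 0, 0, 4),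
  (9, 0, 0, 4), (10, 0, 0, 5), (11, 0, 0, 5), (12, 0, 0, 5), (13, 0, 0, 5), (14, 0, 0, 5),
  (15, 0, 0, 5), (16, 0, 0, 5), (17, 0, 0, 5), (18, 0, 0, 5), (19, 0, 0, 6), (20, 0, 0, 6),
  (21, 0, 0, 6), (22, 0, 0, 6), (23, 0, 0, 6), (24, 0, 0, 6), (25, 0, 0, 6), (26, 0, 0, 6),
  (27, 0, 0, 6), (28, 0, 0, 6), (29, 0, 0, 6), (30, 0, 0, 6), (31, 0, 0, 6)]

/-- parameters `(n, T, T2, b)` for `q = 71` -/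
def lA71 : List (ℕ × ℕ × ℕ × ℕ) := [
  (3, 0, 0, 4), (4, 0, 0, 4), (5, 0, 0, 4), (6, 0, 0, 4), (7, 0, 0, 4), (8, 0, 0, 4),
  (9, 0, 0, 4), (10, 0, 0, 5), (11, 0, 0, 5), (12, 0, 0, 5), (13, 0, 0, 5), (14, 0, 0, 5),
  (15, 0, 0, 5), (16, 0, 0, 5), (17, 0, 0, 5), (18, 0, 0, 5), (19, 0, 0, 5), (20, 0, 0, 6),
  (21, 0, 0, 6), (22, 0, 0, 6), (23, 0, 0, 6), (24, 0, 0, 6), (25, 0, 0, 6), (26, 0, 0, 6),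
  (27, 0, 0, 6), (28, 0, 0, 6), (29, 0, 0, 6), (30, 0, 0, 6), (31, 0, 0, 6)]

/-- parameters `(n, T, T2, b)` for `q = 73` -/
def lA73 : List (ℕ × ℕ × ℕ × ℕ) := [
  (3, 0, 0, 3), (4, 0, 0, 4), (5, 0, 0, 4), (6, 0, 0, 4), (7, 0, 0, 4), (8, 0, 0, 4),
  (9, 0, 0, 4), (10, 0, 0, 5), (11, 0, 0, 5), (12, 0, 0, 5), (13, 0, 0, 5), (14, 0, 0, 5),
  (15, 0, 0, 5), (16, 0, 0, 5), (17, 0, 0, 5), (18, 0, 0, 5), (19, 0, 0, 5), (20, 0, 0, 6),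
  (21, 0, 0, 6), (22, 0, 0, 6), (23, 0, 0, 6), (24, 0, 0, 6), (25, 0, 0, 6), (26, 0, 0, 6),
  (27, 0, 0, 6), (28, 0, 0, 6), (29, 0, 0, 6), (30, 0, 0, 6), (31, 0, 0, 6)]

/-- parameters `(n, T, T2, b)` for `q = 79` -/
def lA79 : List (ℕ × ℕ × ℕ × ℕ) := [
  (3, 0, 0, 3), (4, 0, 0, 4), (5, 0, 0, 4), (6, 0, 0, 4), (7, 0, 0, 4), (8, 0, 0, 4),
  (9, 0, 0, 4), (10, 0, 0, 5), (11, 0, 0, 5), (12, 0, 0, 5), (13, 0, 0, 5), (14, 0, 0, 5),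
  (15, 0, 0, 5), (16, 0, 0, 5), (17, 0, 0, 5), (18, 0, 0, 5), (19, 0, 0, 5), (20, 0, 0, 6),
  (21, 0, 0, 6), (22, 0, 0, 6), (23, 0, 0, 6), (24, 0, 0, 6), (25, 0, 0, 6), (26, 0, 0, 6),
  (27, 0, 0, 6), (28, 0, 0, 6), (29, 0, 0, 6), (30, 0, 0, 6), (31, 0, 0, 6)]

/-- parameters `(n, T, T2, b)` for `q = 83` -/
def lA83 : List (ℕ × ℕ × ℕ × ℕ) := [
  (3, 0, 0, 3), (4, 0, 0, 4), (5, 0, 0, 4), (6, 0, 0, 4), (7, 0, 0, 4), (8, 0, 0, 4),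
  (9, 0, 0, 4), (10, 0, 0, 5), (11, 0, 0, 5), (12, 0, 0, 5), (13, 0, 0, 5), (14, 0, 0, 5),
  (15, 0, 0, 5), (16, 0, 0, 5), (17, 0, 0, 5), (18, 0, 0, 5), (19, 0, 0, 5), (20, 0, 0, 6),
  (21, 0, 0, 6), (22, 0, 0, 6), (23, 0, 0, 6), (24, 0, 0, 6), (25, 0, 0, 6), (26, 0, 0, 6),
  (27, 0, 0, 6), (28, 0, 0, 6), (29, 0, 0, 6), (30, 0, 0, 6), (31, 0, 0, 6)]

/-- parameters `(n, T, T2, b)` for `q = 89` -/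
def lA89 : List (ℕ × ℕ × ℕ × ℕ) := [
  (3, 0, 0, 3), (4, 0, 0, 4), (5, 0, 0, 4), (6, 0, 0, 4), (7, 0, 0, 4), (8, 0, 0, 4),
  (9, 0, 0, 4), (10, 0, 0, 5), (11, 0, 0, 5), (12, 0, 0, 5), (13, 0, 0, 5), (14, 0, 0, 5),
  (15, 0, 0, 5), (16, 0, 0, 5), (17, 0, 0, 5), (18, 0, 0, 5), (19, 0, 0, 5), (20, 0, 0, 6),
  (21, 0, 0, 6), (22, 0, 0, 6), (23, 0, 0, 6), (24, 0, 0, 6), (25, 0, 0, 6), (26, 0, 0, 6),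
  (27, 0, 0, 6), (28, 0, 0, 6), (29, 0, 0, 6), (30, 0, 0, 6), (31, 0, 0, 6)]

/-- parameters `(n, T, T2, b)` for `q = 97` -/
def lA97 : List (ℕ × ℕ × ℕ × ℕ) := [
  (3, 0, 0, 3), (4, 0, 0, 4), (5, 0, 0, 4), (6, 0, 0, 4), (7, 0, 0, 4), (8, 0, 0, 4),
  (9, 0, 0, 4), (10, 0, 0, 5), (11, 0, 0, 5), (12, 0, 0, 5), (13, 0, 0, 5), (14, 0, 0, 5),
  (15, 0, 0, 5), (16, 0, 0, 5), (17, 0, 0, 5), (18, 0, 0, 5), (19, 0, 0, 5), (20, 0, 0, 6),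
  (21, 0, 0, 6), (22, 0, 0, 6), (23, 0, 0, 6), (24, 0, 0, 6), (25, 0, 0, 6), (26, 0, 0, 6),
  (27, 0, 0, 6), (28, 0, 0, 6), (29, 0, 0, 6), (30, 0, 0, 6), (31, 0, 0, 6)]

/-- parameters `(n, T, T2, b)` for `q = 101` -/
def lA101 : List (ℕ × ℕ × ℕ × ℕ) := [
  (3, 0, 0, 3), (4, 0, 0, 4), (5, 0, 0, 4), (6, 0, 0, 4), (7, 0, 0, 4), (8, 0, 0, 4),
  (9, 0, 0, 4), (10, 0, 0, 5), (11, 0, 0, 5), (12, 0, 0, 5), (13, 0, 0, 5), (14, 0, 0, 5),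
  (15, 0, 0, 5), (16, 0, 0, 5), (17, 0, 0, 5), (18, 0, 0, 5), (19, 0, 0, 5), (20, 0, 0, 6),
  (21, 0, 0, 6), (22, 0, 0, 6), (23, 0, 0, 6), (24, 0, 0, 6), (25, 0, 0, 6), (26, 0, 0, 6),
  (27, 0, 0, 6), (28, 0, 0, 6), (29, 0, 0, 6), (30, 0, 0, 6), (31, 0, 0, 6)]

/-- parameters `(n, T, T2, b)` for `q = 103` -/
def lA103 : List (ℕ × ℕ × ℕ × ℕ) := [
  (3, 0, 0, 3), (4, 0, 0, 4), (5, 0, 0, 4), (6, 0, 0, 4), (7, 0, 0, 4), (8, 0, 0, 4),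
  (9, 0, 0, 5), (10, 0, 0, 5), (11, 0, 0, 5), (12, 0, 0, 5), (13, 0, 0, 5), (14, 0, 0, 5),
  (15, 0, 0, 5), (16, 0, 0, 5), (17, 0, 0, 5), (18, 0, 0, 5), (19, 0, 0, 5), (20, 0, 0, 6),
  (21, 0, 0, 6), (22, 0, 0, 6), (23, 0, 0, 6), (24, 0, 0, 6), (25, 0, 0, 6), (26, 0, 0, 6),
  (27, 0, 0, 6), (28, 0, 0, 6), (29, 0, 0, 6), (30, 0, 0, 6), (31, 0, 0, 6)]

/-- parameters `(n, T, T2, b)` for `q = 107` -/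
def lA107 : List (ℕ × ℕ × ℕ × ℕ) := [
  (3, 0, 0, 3), (4, 0, 0, 4), (5, 0, 0, 4), (6, 0, 0, 4), (7, 0, 0, 4), (8, 0, 0, 4),
  (9, 0, 0, 5), (10, 0, 0, 5), (11, 0, 0, 5), (12, 0, 0, 5), (13, 0, 0, 5), (14, 0, 0, 5),
  (15, 0, 0, 5), (16, 0, 0, 5), (17, 0, 0, 5), (18, 0, 0, 5), (19, 0, 0, 5), (20, 0, 0, 6),
  (21, 0, 0, 6), (22, 0, 0, 6), (23, 0, 0, 6), (24, 0, 0, 6), (25, 0, 0, 6), (26, 0, 0, 6),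
  (27, 0, 0, 6), (28, 0, 0, 6), (29, 0, 0, 6), (30, 0, 0, 6), (31, 0, 0, 6)]

/-- parameters `(n, T, T2, b)` for `q = 109` -/
def lA109 : List (ℕ × ℕ × ℕ × ℕ) := [
  (3, 0, 0, 3), (4, 0, 0, 4), (5, 0, 0, 4), (6, 0, 0, 4), (7, 0, 0, 4), (8, 0, 0, 4),
  (9, 0, 0, 5), (10, 0, 0, 5), (11, 0, 0, 5), (12, 0, 0, 5), (13, 0, 0, 5), (14, 0, 0, 5),
  (15, 0, 0, 5), (16, 0, 0, 5), (17, 0, 0, 5), (18, 0, 0, 5), (19, 0, 0, 5), (20, 0, 0, 6),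
  (21, 0, 0, 6), (22, 0, 0, 6), (23, 0, 0, 6), (24, 0, 0, 6), (25, 0, 0, 6), (26, 0, 0, 6),
  (27, 0, 0, 6), (28, 0, 0, 6), (29, 0, 0, 6), (30, 0, 0, 6), (31, 0, 0, 6)]

/-- parameters `(n, T, T2, b)` for `q = 113` -/
def lA113 : List (ℕ × ℕ × ℕ × ℕ) := [
  (3, 0, 0, 3), (4, 0, 0, 4), (5, 0, 0, 4), (6, 0, 0, 4), (7, 0, 0, 4), (8, 0, 0, 4),
  (9, 0, 0, 5), (10, 0, 0, 5), (11, 0, 0, 5), (12, 0, 0, 5), (13, 0, 0, 5), (14, 0, 0, 5),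
  (15, 0, 0, 5), (16, 0, 0, 5), (17, 0, 0, 5), (18, 0, 0, 5), (19, 0, 0, 5), (20, 0, 0, 6),
  (21, 0, 0, 6), (22, 0, 0, 6), (23, 0, 0, 6), (24, 0, 0, 6), (25, 0, 0, 6), (26, 0, 0, 6),
  (27, 0, 0, 6), (28, 0, 0, 6), (29, 0, 0, 6), (30, 0, 0, 6), (31, 0, 0, 6)]

/-- parameters `(n, T, T2, b)` for `q = 127` -/
def lA127 : List (ℕ × ℕ × ℕ × ℕ) := [
  (3, 0, 0, 3), (4, 0, 0, 4), (5, 0, 0, 4), (6, 0, 0, 4), (7, 0, 0, 4), (8, 0, 0, 4),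
  (9, 0, 0, 5), (10, 0, 0, 5), (11, 0, 0, 5), (12, 0, 0, 5), (13, 0, 0, 5), (14, 0, 0, 5),
  (15, 0, 0, 5), (16, 0, 0, 5), (17, 0, 0, 5), (18, 0, 0, 5), (19, 0, 0, 5), (20, 0, 0, 6),
  (21, 0, 0, 6), (22, 0, 0, 6), (23, 0, 0, 6), (24, 0, 0, 6), (25, 0, 0, 6), (26, 0, 0, 6),
  (27, 0, 0, 6), (28, 0, 0, 6), (29, 0, 0, 6), (30, 0, 0, 6), (31, 0, 0, 6)]

/-- parameters for `n = 3` -/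
def lA0 : List (ℕ × List (ℕ × ℕ × ℕ × ℕ)) := [
  (131, [(3, 0, 0, 3)]),
  (137, [(3, 0, 0, 3)]),
  (139, [(3, 0, 0, 3)]),
  (149, [(3, 0, 0, 3)]),
  (151, [(3, 0, 0, 4)]),
  (157, [(3, 0, 0, 3)]),
  (163, [(3, 0, 0, 3)]),
  (167, [(3, 0, 0, 3)]),
  (173, [(3, 0, 0, 3)]),
  (179, [(3, 0, 0, 3)]),
  (181, [(3, 0, 0, 3)]),
  (191, [(3, 0, 0, 3)]),
  (193, [(3, 0, 0, 3)]),
  (197, [(3, 0, 0, 3)]),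
  (199, [(3, 0, 0, 3)]),
  (211, [(3, 0, 0, 3)]),
  (223, [(3, 0, 0, 3)]),
  (227, [(3, 0, 0, 3)]),
  (229, [(3, 0, 0, 3)]),
  (233, [(3, 0, 0, 3)]),
  (239, [(3, 0, 0, 3)]),
  (241, [(3, 0, 0, 3)]),
  (251, [(3, 0, 0, 3)]),
  (257, [(3, 0, 0, 4)]),
  (263, [(3, 0, 0, 4)]),
  (269, [(3, 0, 0, 4)]),
  (271, [(3, 0, 0, 4)]),
  (277, [(3, 0, 0, 4)]),
  (281, [(3, 0, 0, 4)])]


end Pool.Agent.MM2
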