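import Mathlib
import Pool.Agent.MM2.TABD

/-!
The checks `chkA`.
-/

namespace Pool.Agent.MM2

theorem ta_2 : runA 2 lA2 = true := by decide +kernel

theorem ta_3 : runA 3 lA3 = true := by decide +kernel

theorem ta_5 : runA 5 lA5 = true := by decide +kernel

theorem ta_7 : runA 7 lA7 = true := by decide +kernel

theorem ta_11 : runA 11 lA11 = true := by decide +kernel

theorem ta_13 : runA 13 lA13 = true := by decide +kernel

theorem ta_17 : runA 17 lA17 = true := by decide +kernel

theorem ta_19 : runA 19 lA19 = true := by decide +kernel

theorem ta_23 : runA 23 lA23 = true := by decide +kernel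

theorem ta_29 : runA 29 lA29 = true := by decide +kernel

theorem ta_31 : runA 31 lA31 = true := by decide +kernel

theorem ta_37 : runA 37 lA37 = true := by decide +kernel

theorem ta_41 : runA 41 lA41 = true := by decide +kernel

theorem ta_43 : runA 43 lA43 = true := by decide +kernel

theorem ta_47 : runA 47 lA47 = true := by decide +kernel

theorem ta_53 : runA 53 lA53 = true := by decide +kernel

theorem ta_59 : runA 59 lA59 = true := by decide +kernel

theorem ta_61 : runA 61 lA61 = true := by decide +kernel

theorem ta_67 : runA 67 lA67 = true := by decide +kernel

theorem ta_71 : runA 71 lA71 = true := by decide +kernel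

theorem ta_73 : runA 73 lA73 = true := by decide +kernel

theorem ta_79 : runA 79 lA79 = true := by decide +kernel

theorem ta_83 : runA 83 lA83 = true := by decide +kernel

theorem ta_89 : runA 89 lA89 = true := by decide +kernel

theorem ta_97 : runA 97 lA97 = true := by decide +kernel

theorem ta_101 : runA 101 lA101 = true := by decide +kernel

theorem ta_103 : runA 103 lA103 = true := by decide +kernel

theorem ta_107 : runA 107 lA107 = true := by decide +kernel

theorem ta_109 : runA 109 lA109 = true := by decide +kernel

theorem ta_113 : runA 113 lA113 = true := by decide +kernel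

theorem ta_127 : runA 127 lA127 = true := by decide +kernel

theorem ta_0 : (lA0.all fun x => runA x.1 x.2) = true := by decide +kernel

end Pool.Agent.MM2
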