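import Mathlib
import Pool.Agent.MM2.NDefs

/-!
The checks `chkP`.
-/

namespace Pool.Agent.MM2

theorem runP_append (q : ℕ) (l1 l2 : List (ℕ × ℕ × ℕ × ℕ × ℕ × ℕ)) :
    runP q (l1 ++ l2) = (runP q l1 && runP q l2) := by
  induction l1 with
  | nil => simp [runP]
  | cons x l1 ih => simp [runP, ih, Bool.and_assoc]

/-- parameters `(k, T, T2, J, kp, C)` for `q = 2` -/
def lP2_0 : List (ℕ × ℕ × ℕ × ℕ × ℕ × ℕ) := [
  (15, 17, 21, 3, 11734, 16), (16, 18, 22, 3, 26106, 17), (17, 18, 22, 3, 47951, 18),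
  (18, 20, 24, 3, 91775, 19), (19, 21, 25, 3, 164785, 20), (20, 21, 25, 2, 417375, 21)]

theorem tp_2_0 : runP 2 lP2_0 = true := by decide +kernel

/-- parameters `(k, T, T2, J, kp, C)` for `q = 2` -/
def lP2_1 : List (ℕ × ℕ × ℕ × ℕ × ℕ × ℕ) := [
  (21, 22, 26, 2, 805166, 22), (22, 24, 28, 3, 1425529, 23), (23, 24, 28, 2, 3147227, 24),
  (24, 25, 29, 2, 5881437, 25), (25, 26, 30, 2, 11231143, 26), (26, 27, 31, 2, 21243490, 27)]

theorem tp_2_1 : runP 2 lP2_1 = true := by decide +kernel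

/-- parameters `(k, T, T2, J, kp, C)` for `q = 2` -/
def lP2_2 : List (ℕ × ℕ × ℕ × ℕ × ℕ × ℕ) := [
  (27, 28, 32, 2, 43670244, 28), (28, 30, 34, 2, 97946894, 29), (29, 30, 34, 2, 171753739, 30),
  (30, 31, 35, 2, 305770957, 31), (31, 32, 36, 2, 623616990, 32),
  (32, 33, 37, 2, 1212844098, 33)]

theorem tp_2_2 : runP 2 lP2_2 = true := by decide +kernel

/-- parameters `(k, T, T2, J, kp, C)` for `q = 2` -/
def lP2_3 : List (ℕ × ℕ × ℕ × ℕ × ℕ × ℕ) := [
  (33, 34, 38, 2, 2329812482, 34), (34, 35, 39, 2, 4462194440, 35),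
  (35, 36, 40, 2, 9736076830, 36), (36, 37, 41, 2, 17785349010, 37),
  (37, 38, 42, 2, 34072443704, 38), (38, 39, 43, 1, 113630605945, 39)]

theorem tp_2_3 : runP 2 lP2_3 = true := by decide +kernel

/-- parameters `(k, T, T2, J, kp, C)` for `q = 2` -/
def lP2_4 : List (ℕ × ℕ × ℕ × ℕ × ℕ × ℕ) := [
  (39, 40, 44, 2, 141118396640, 40), (40, 41, 45, 1, 435981989505, 41),
  (41, 42, 46, 2, 540697382627, 42), (42, 43, 47, 1, 1678199359755, 43),
  (43, 44, 48, 1, 3478139948515, 44), (44, 45, 49, 1, 7102079613209, 45)]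

theorem tp_2_4 : runP 2 lP2_4 = true := by decide +kernel

/-- parameters `(k, T, T2, J, kp, C)` for `q = 2` -/
def lP2_5 : List (ℕ × ℕ × ℕ × ℕ × ℕ × ℕ) := [
  (45, 46, 50, 1, 13338805890062, 46), (46, 47, 51, 1, 23977295309103, 47),
  (47, 48, 52, 1, 54502159845202, 48), (48, 49, 53, 1, 101515537811625, 49),
  (49, 50, 54, 1, 204423980616933, 50), (50, 51, 55, 1, 394146762393913, 51)]

theorem tp_2_5 : runP 2 lP2_5 = true := by decide +kernel

/-- parameters `(k, T, T2, J, kp, C)` for `q = 2` -/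
def lP2_6 : List (ℕ × ℕ × ℕ × ℕ × ℕ × ℕ) := [
  (51, 52, 56, 1, 800465312782553, 52), (52, 53, 57, 1, 1460514810079704, 53),
  (53, 54, 58, 1, 3099056552820558, 54), (54, 55, 59, 1, 5815373683698584, 55),
  (55, 56, 60, 1, 12277329600076648, 56), (56, 57, 61, 1, 23868382269049756, 57)]

theorem tp_2_6 : runP 2 lP2_6 = true := by decide +kernel

/-- parameters `(k, T, T2, J, kp, C)` for `q = 2` -/
def lP2_7 : List (ℕ × ℕ × ℕ × ℕ × ℕ × ℕ) := [
  (57, 58, 62, 1, 45802459870499235, 58), (58, 59, 63, 1, 84106578843832365, 59),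
  (59, 60, 64, 1, 198289744916915693, 60), (60, 60, 64, 1, 338153653406217896, 61),
  (61, 62, 66, 1, 661632357250987040, 62), (62, 63, 67, 1, 1355633860894927391, 63)]

theorem tp_2_7 : runP 2 lP2_7 = true := by decide +kernel

/-- parameters `(k, T, T2, J, kp, C)` for `q = 2` -/
def lP2_8 : List (ℕ × ℕ × ℕ × ℕ × ℕ × ℕ) := [
  (63, 64, 68, 1, 2828811830095206520, 64), (64, 65, 69, 1, 5443065264516321247, 65),
  (65, 66, 70, 1, 11432680610365546180, 66), (66, 66, 70, 1, 19665428833317381919, 67),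
  (67, 68, 72, 1, 41964653589496465214, 68), (68, 69, 73, 1, 80966917271128270476, 69)]

theorem tp_2_8 : runP 2 lP2_8 = true := by decide +kernel

/-- parameters `(k, T, T2, J, kp, C)` for `q = 2` -/
def lP2_9 : List (ℕ × ℕ × ℕ × ℕ × ℕ × ℕ) := [
  (69, 70, 74, 1, 168106551457469322775, 70), (70, 70, 74, 1, 286319283702599542807, 71),
  (71, 72, 76, 1, 701492164819313528867, 72), (72, 72, 76, 1, 1222699811231227184087, 73),
  (73, 73, 77, 1, 2226566056113960556513, 74), (74, 75, 79, 1, 5100180236933419839951, 75)]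

theorem tp_2_9 : runP 2 lP2_9 = true := by decide +kernel

/-- parameters `(k, T, T2, J, kp, C)` for `q = 2` -/
def lP2_10 : List (ℕ × ℕ × ℕ × ℕ × ℕ × ℕ) := [
  (75, 75, 79, 1, 8630590617739191104959, 76), (76, 76, 80, 1, 17213366672306342005931, 77),
  (77, 78, 82, 1, 39519629689636743237534, 78), (78, 78, 82, 1, 67695868182105717855739, 79),
  (79, 80, 84, 1, 157762974790246838323875, 80)]

theorem tp_2_10 : runP 2 lP2_10 = true := by decide +kernel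

/-- all parameters for `q = 2` -/
def lP2 : List (ℕ × ℕ × ℕ × ℕ × ℕ × ℕ) :=
  lP2_0 ++ lP2_1 ++ lP2_2 ++ lP2_3 ++ lP2_4 ++ lP2_5 ++ lP2_6 ++ lP2_7 ++ lP2_8 ++ lP2_9 ++ lP2_10

theorem tp_2 : runP 2 lP2 = true := by
  simp only [lP2, runP_append, tp_2_0, tp_2_1, tp_2_2, tp_2_3, tp_2_4, tp_2_5, tp_2_6, tp_2_7, tp_2_8, tp_2_9, tp_2_10, Bool.and_self]

/-- parameters `(k, T, T2, J, kp, C)` for `q = 3` -/
def lP3_0 : List (ℕ × ℕ × ℕ × ℕ × ℕ × ℕ) := [
  (12, 8, 12, 2, 2396, 9), (13, 8, 12, 1, 4841, 9), (14, 9, 13, 1, 10047, 10),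
  (15, 10, 14, 2, 13947, 11), (16, 10, 14, 1, 36853, 11), (17, 11, 15, 1, 70252, 12)]

theorem tp_3_0 : runP 3 lP3_0 = true := by decide +kernel

/-- parameters `(k, T, T2, J, kp, C)` for `q = 3` -/
def lP3_1 : List (ℕ × ℕ × ℕ × ℕ × ℕ × ℕ) := [
  (18, 12, 16, 2, 135231, 12), (19, 12, 16, 1, 286323, 13), (20, 12, 16, 1, 485352, 14),
  (21, 13, 17, 1, 905401, 14), (22, 14, 18, 1, 2017864, 15), (23, 14, 18, 1, 3046473, 16)]

theorem tp_3_1 : runP 3 lP3_1 = true := by decide +kernel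

/-- parameters `(k, T, T2, J, kp, C)` for `q = 3` -/
def lP3_2 : List (ℕ × ℕ × ℕ × ℕ × ℕ × ℕ) := [
  (24, 15, 19, 1, 6728816, 16), (25, 16, 20, 1, 15974516, 17), (26, 16, 20, 1, 27268091, 18),
  (27, 17, 21, 1, 51638094, 18), (28, 18, 22, 1, 122526234, 19),
  (29, 18, 22, 1, 199711983, 19)]

theorem tp_3_2 : runP 3 lP3_2 = true := by decide +kernel

/-- parameters `(k, T, T2, J, kp, C)` for `q = 3` -/
def lP3_3 : List (ℕ × ℕ × ℕ × ℕ × ℕ × ℕ) := [
  (30, 18, 22, 1, 318201348, 20), (31, 19, 23, 1, 604824939, 21),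
  (32, 20, 24, 1, 1557277703, 21), (33, 20, 24, 1, 2480502462, 22),
  (34, 21, 25, 1, 5484466118, 23), (35, 22, 26, 1, 11932731923, 23)]

theorem tp_3_3 : runP 3 lP3_3 = true := by decide +kernel

/-- parameters `(k, T, T2, J, kp, C)` for `q = 3` -/
def lP3_4 : List (ℕ × ℕ × ℕ × ℕ × ℕ × ℕ) := [
  (36, 22, 26, 1, 19222122578, 24), (37, 23, 27, 1, 34628107376, 24),
  (38, 24, 28, 1, 94319093677, 25), (39, 24, 28, 1, 172114948193, 26),
  (40, 25, 29, 1, 336617591194, 26), (41, 25, 29, 1, 550352917298, 27)]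

theorem tp_3_4 : runP 3 lP3_4 = true := by decide +kernel

/-- parameters `(k, T, T2, J, kp, C)` for `q = 3` -/
def lP3_5 : List (ℕ × ℕ × ℕ × ℕ × ℕ × ℕ) := [
  (42, 26, 30, 1, 1186455401074, 28), (43, 27, 31, 1, 2418127252501, 28),
  (44, 27, 31, 1, 3666121246672, 29), (45, 28, 32, 1, 9441685329239, 30),
  (46, 29, 33, 1, 18111776623401, 30), (47, 29, 33, 1, 29612638692738, 31)]

theorem tp_3_5 : runP 3 lP3_5 = true := by decide +kernel

/-- parameters `(k, T, T2, J, kp, C)` for `q = 3` -/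
def lP3_6 : List (ℕ × ℕ × ℕ × ℕ × ℕ × ℕ) := [
  (48, 30, 34, 1, 80469845869455, 31), (49, 30, 34, 1, 133492033016691, 32),
  (50, 31, 35, 1, 251594386348902, 33), (51, 32, 36, 1, 597243370270763, 33),
  (52, 32, 36, 1, 971821937791327, 34), (53, 33, 37, 1, 2020217065765846, 35)]

theorem tp_3_6 : runP 3 lP3_6 = true := by decide +kernel

/-- parameters `(k, T, T2, J, kp, C)` for `q = 3` -/
def lP3_7 : List (ℕ × ℕ × ℕ × ℕ × ℕ × ℕ) := [
  (54, 34, 38, 1, 4235440431257471, 35), (55, 34, 38, 1, 7069380438612860, 36),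
  (56, 35, 39, 1, 14752658768493865, 36), (57, 36, 40, 1, 40954799868150366, 37),
  (58, 36, 40, 1, 71567809038809157, 38), (59, 37, 41, 1, 140134987370405109, 38)]

theorem tp_3_7 : runP 3 lP3_7 = true := by decide +kernel

/-- parameters `(k, T, T2, J, kp, C)` for `q = 3` -/
def lP3_8 : List (ℕ × ℕ × ℕ × ℕ × ℕ × ℕ) := [
  (60, 37, 41, 1, 223383023854534193, 39), (61, 38, 42, 1, 450512061374753114, 40),
  (62, 39, 43, 1, 919043764140707153, 40), (63, 39, 43, 1, 1410348731171121182, 41),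
  (64, 40, 44, 1, 3999120942198418868, 42), (65, 41, 45, 1, 7821085503284026769, 42)]

theorem tp_3_8 : runP 3 lP3_8 = true := by decide +kernel

/-- parameters `(k, T, T2, J, kp, C)` for `q = 3` -/
def lP3_9 : List (ℕ × ℕ × ℕ × ℕ × ℕ × ℕ) := [
  (66, 41, 45, 1, 13245809797353882406, 43), (67, 42, 46, 1, 34511284427046334716, 43),
  (68, 42, 46, 1, 56820100623915326346, 44), (69, 43, 47, 1, 103273470987826998373, 45),
  (70, 44, 48, 1, 239304900789032528567, 45), (71, 44, 48, 1, 391397025978087139618, 46)]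

theorem tp_3_9 : runP 3 lP3_9 = true := by decide +kernel

/-- parameters `(k, T, T2, J, kp, C)` for `q = 3` -/
def lP3_10 : List (ℕ × ℕ × ℕ × ℕ × ℕ × ℕ) := [
  (72, 45, 49, 1, 929685519661028326225, 47), (73, 46, 50, 1, 1920823148806309131049, 47),
  (74, 46, 50, 1, 3262396620385507367168, 48), (75, 47, 51, 1, 5974349737980851117284, 48),
  (76, 47, 51, 1, 8864364221872731178556, 49), (77, 48, 52, 1, 29995999795363007122632, 50)]

theorem tp_3_10 : runP 3 lP3_10 = true := by decide +kernel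

/-- parameters `(k, T, T2, J, kp, C)` for `q = 3` -/
def lP3_11 : List (ℕ × ℕ × ℕ × ℕ × ℕ × ℕ) := [
  (78, 49, 53, 1, 57837634062148123417063, 50), (79, 49, 53, 1, 97502211680379112085642, 51)]

theorem tp_3_11 : runP 3 lP3_11 = true := by decide +kernel

/-- all parameters for `q = 3` -/
def lP3 : List (ℕ × ℕ × ℕ × ℕ × ℕ × ℕ) :=
  lP3_0 ++ lP3_1 ++ lP3_2 ++ lP3_3 ++ lP3_4 ++ lP3_5 ++ lP3_6 ++ lP3_7 ++ lP3_8 ++ lP3_9 ++ lP3_10 ++ lP3_11

theorem tp_3 : runP 3 lP3 = true := by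
  simp only [lP3, runP_append, tp_3_0, tp_3_1, tp_3_2, tp_3_3, tp_3_4, tp_3_5, tp_3_6, tp_3_7, tp_3_8, tp_3_9, tp_3_10, tp_3_11, Bool.and_self]

/-- parameters `(k, T, T2, J, kp, C)` for `q = 5` -/
def lP5_0 : List (ℕ × ℕ × ℕ × ℕ × ℕ × ℕ) := [
  (10, 4, 8, 1, 733, 5), (11, 5, 9, 1, 1287, 6), (12, 5, 9, 1, 2009, 6),
  (13, 6, 10, 1, 5952, 7), (14, 6, 10, 1, 11287, 7), (15, 6, 10, 1, 19225, 7)]

theorem tp_5_0 : runP 5 lP5_0 = true := by decide +kernel

/-- parameters `(k, T, T2, J, kp, C)` for `q = 5` -/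
def lP5_1 : List (ℕ × ℕ × ℕ × ℕ × ℕ × ℕ) := [
  (16, 7, 11, 1, 33148, 8), (17, 7, 11, 1, 50322, 8), (18, 8, 12, 1, 132712, 9),
  (19, 8, 12, 1, 247076, 9), (20, 8, 12, 1, 410268, 10), (21, 9, 13, 1, 883739, 10)]

theorem tp_5_1 : runP 5 lP5_1 = true := by decide +kernel

/-- parameters `(k, T, T2, J, kp, C)` for `q = 5` -/
def lP5_2 : List (ℕ × ℕ × ℕ × ℕ × ℕ × ℕ) := [
  (22, 9, 13, 1, 1412573, 10), (23, 10, 14, 1, 3684809, 11), (24, 10, 14, 1, 6015030, 11),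
  (25, 10, 14, 1, 9645876, 12), (26, 11, 15, 1, 19420565, 12), (27, 11, 15, 1, 28742298, 13)]

theorem tp_5_2 : runP 5 lP5_2 = true := by decide +kernel

/-- parameters `(k, T, T2, J, kp, C)` for `q = 5` -/
def lP5_3 : List (ℕ × ℕ × ℕ × ℕ × ℕ × ℕ) := [
  (28, 12, 16, 1, 132242585, 13), (29, 12, 16, 1, 240041553, 13),
  (30, 12, 16, 1, 382456917, 14), (31, 13, 17, 1, 622122895, 14),
  (32, 13, 17, 1, 838093448, 15), (33, 14, 18, 1, 2295601666, 15)]

theorem tp_5_3 : runP 5 lP5_3 = true := by decide +kernel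

/-- parameters `(k, T, T2, J, kp, C)` for `q = 5` -/
def lP5_4 : List (ℕ × ℕ × ℕ × ℕ × ℕ × ℕ) := [
  (34, 14, 18, 1, 3762256189, 16), (35, 15, 19, 1, 10302250858, 16),
  (36, 15, 19, 1, 17081672316, 16), (37, 15, 19, 1, 27005377802, 17),
  (38, 16, 20, 1, 81834846409, 17), (39, 16, 20, 1, 131690204142, 18)]

theorem tp_5_4 : runP 5 lP5_4 = true := by decide +kernel

/-- parameters `(k, T, T2, J, kp, C)` for `q = 5` -/
def lP5_5 : List (ℕ × ℕ × ℕ × ℕ × ℕ × ℕ) := [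
  (40, 17, 21, 1, 257616682990, 18), (41, 17, 21, 1, 375002185374, 19),
  (42, 18, 22, 1, 1433610729033, 19), (43, 18, 22, 1, 2590473732620, 19),
  (44, 18, 22, 1, 4203600279358, 20), (45, 19, 23, 1, 7220113186305, 20)]

theorem tp_5_5 : runP 5 lP5_5 = true := by decide +kernel

/-- parameters `(k, T, T2, J, kp, C)` for `q = 5` -/
def lP5_6 : List (ℕ × ℕ × ℕ × ℕ × ℕ × ℕ) := [
  (46, 19, 23, 1, 10425551606672, 21), (47, 20, 24, 1, 39952761434029, 21),
  (48, 20, 24, 1, 70600127851390, 22), (49, 21, 25, 1, 149462616301622, 22),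
  (50, 21, 25, 1, 246150646391688, 22), (51, 21, 25, 1, 374255784129330, 23)]

theorem tp_5_6 : runP 5 lP5_6 = true := by decide +kernel

/-- parameters `(k, T, T2, J, kp, C)` for `q = 5` -/
def lP5_7 : List (ℕ × ℕ × ℕ × ℕ × ℕ × ℕ) := [
  (52, 22, 26, 1, 944480243677834, 23), (53, 22, 26, 1, 1416507118460062, 24),
  (54, 23, 27, 1, 2835652198167497, 24), (55, 23, 27, 1, 4220712660946843, 25),
  (56, 24, 28, 1, 23500325716155239, 25), (57, 24, 28, 1, 43479378205339445, 25)]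

theorem tp_5_7 : runP 5 lP5_7 = true := by decide +kernel

/-- parameters `(k, T, T2, J, kp, C)` for `q = 5` -/
def lP5_8 : List (ℕ × ℕ × ℕ × ℕ × ℕ × ℕ) := [
  (58, 24, 28, 1, 72873665271149699, 26), (59, 25, 29, 1, 124758322812877211, 26),
  (60, 25, 29, 1, 182977842933001670, 27), (61, 26, 30, 1, 436269564675255012, 27),
  (62, 26, 30, 1, 653438886223768646, 28), (63, 27, 31, 1, 1632195936523933815, 28)]

theorem tp_5_8 : runP 5 lP5_8 = true := by decide +kernel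

/-- parameters `(k, T, T2, J, kp, C)` for `q = 5` -/
def lP5_9 : List (ℕ × ℕ × ℕ × ℕ × ℕ × ℕ) := [
  (64, 27, 31, 1, 2718050599255419128, 28), (65, 27, 31, 1, 4452359871142641930, 29),
  (66, 28, 32, 1, 14614220423014077297, 29), (67, 28, 32, 1, 25073375700201184323, 30),
  (68, 29, 33, 1, 47246876269835722957, 30), (69, 29, 33, 1, 70289738256358518535, 31)]

theorem tp_5_9 : runP 5 lP5_9 = true := by decide +kernel

/-- parameters `(k, T, T2, J, kp, C)` for `q = 5` -/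
def lP5_10 : List (ℕ × ℕ × ℕ × ℕ × ℕ × ℕ) := [
  (70, 30, 34, 1, 306515464037376317537, 31), (71, 30, 34, 1, 565368905797976769150, 32),
  (72, 31, 35, 1, 971133808457759213896, 32), (73, 31, 35, 1, 1531431338649594604580, 32),
  (74, 31, 35, 1, 2203895405826930732469, 33), (75, 32, 36, 1, 6630553865301070270073, 33)]

theorem tp_5_10 : runP 5 lP5_10 = true := by decide +kernel

/-- parameters `(k, T, T2, J, kp, C)` for `q = 5` -/
def lP5_11 : List (ℕ × ℕ × ℕ × ℕ × ℕ × ℕ) := [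
  (76, 32, 36, 1, 11627520250289989361009, 34), (77, 33, 37, 1, 25889961227261311851462, 34),
  (78, 33, 37, 1, 43848974679406152680272, 35), (79, 34, 38, 1, 103686542411705680098628, 35)]

theorem tp_5_11 : runP 5 lP5_11 = true := by decide +kernel

/-- all parameters for `q = 5` -/
def lP5 : List (ℕ × ℕ × ℕ × ℕ × ℕ × ℕ) :=
  lP5_0 ++ lP5_1 ++ lP5_2 ++ lP5_3 ++ lP5_4 ++ lP5_5 ++ lP5_6 ++ lP5_7 ++ lP5_8 ++ lP5_9 ++ lP5_10 ++ lP5_11

theorem tp_5 : runP 5 lP5 = true := by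
  simp only [lP5, runP_append, tp_5_0, tp_5_1, tp_5_2, tp_5_3, tp_5_4, tp_5_5, tp_5_6, tp_5_7, tp_5_8, tp_5_9, tp_5_10, tp_5_11, Bool.and_self]

/-- parameters `(k, T, T2, J, kp, C)` for `q = 7` -/
def lP7_0 : List (ℕ × ℕ × ℕ × ℕ × ℕ × ℕ) := [
  (7, 2, 6, 1, 64, 3), (8, 3, 7, 1, 206, 4), (9, 3, 7, 1, 320, 4), (10, 4, 8, 1, 882, 4),
  (11, 4, 8, 1, 1650, 5), (12, 4, 8, 1, 2762, 5)]

theorem tp_7_0 : runP 7 lP7_0 = true := by decide +kernel

/-- parameters `(k, T, T2, J, kp, C)` for `q = 7` -/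
def lP7_1 : List (ℕ × ℕ × ℕ × ℕ × ℕ × ℕ) := [
  (13, 4, 8, 1, 3962, 5), (14, 5, 9, 1, 7663, 6), (15, 5, 9, 1, 11292, 6),
  (16, 6, 10, 1, 44777, 7), (17, 6, 10, 1, 86231, 7), (18, 6, 10, 1, 147292, 7)]

theorem tp_7_1 : runP 7 lP7_1 = true := by decide +kernel

/-- parameters `(k, T, T2, J, kp, C)` for `q = 7` -/
def lP7_2 : List (ℕ × ℕ × ℕ × ℕ × ℕ × ℕ) := [
  (19, 6, 10, 1, 206116, 8), (20, 7, 11, 1, 379733, 8), (21, 7, 11, 1, 527649, 8),
  (22, 8, 12, 1, 2102381, 9), (23, 8, 12, 1, 3871557, 9), (24, 8, 12, 1, 6361333, 9)]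

theorem tp_7_2 : runP 7 lP7_2 = true := by decide +kernel

/-- parameters `(k, T, T2, J, kp, C)` for `q = 7` -/
def lP7_3 : List (ℕ × ℕ × ℕ × ℕ × ℕ × ℕ) := [
  (25, 9, 13, 1, 13149905, 10), (26, 9, 13, 1, 21624710, 10), (27, 9, 13, 1, 32855035, 10),
  (28, 10, 14, 1, 107397371, 11), (29, 10, 14, 1, 189331987, 11),
  (30, 10, 14, 1, 299514128, 12)]

theorem tp_7_3 : runP 7 lP7_3 = true := by decide +kernel

/-- parameters `(k, T, T2, J, kp, C)` for `q = 7` -/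
def lP7_4 : List (ℕ × ℕ × ℕ × ℕ × ℕ × ℕ) := [
  (31, 11, 15, 1, 565015665, 12), (32, 11, 15, 1, 886010265, 12),
  (33, 12, 16, 1, 4295268548, 13), (34, 12, 16, 1, 8312020678, 13),
  (35, 12, 16, 1, 14913869174, 13), (36, 12, 16, 1, 22987953374, 14)]

theorem tp_7_4 : runP 7 lP7_4 = true := by decide +kernel

/-- parameters `(k, T, T2, J, kp, C)` for `q = 7` -/
def lP7_5 : List (ℕ × ℕ × ℕ × ℕ × ℕ × ℕ) := [
  (37, 13, 17, 1, 36295717418, 14), (38, 13, 17, 1, 50669361818, 14),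
  (39, 13, 17, 1, 63629630086, 15), (40, 14, 18, 1, 284055088079, 15),
  (41, 14, 18, 1, 459480643327, 15), (42, 14, 18, 1, 773626822692, 16)]

theorem tp_7_5 : runP 7 lP7_5 = true := by decide +kernel

/-- parameters `(k, T, T2, J, kp, C)` for `q = 7` -/
def lP7_6 : List (ℕ × ℕ × ℕ × ℕ × ℕ × ℕ) := [
  (43, 15, 19, 1, 2085812463414, 16), (44, 15, 19, 1, 3611641713466, 17),
  (45, 16, 20, 1, 10873162090786, 17), (46, 16, 20, 1, 19425324923090, 17),
  (47, 16, 20, 1, 32131604076594, 18), (48, 17, 21, 1, 57587085466736, 18)]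

theorem tp_7_6 : runP 7 lP7_6 = true := by decide +kernel

/-- parameters `(k, T, T2, J, kp, C)` for `q = 7` -/
def lP7_7 : List (ℕ × ℕ × ℕ × ℕ × ℕ × ℕ) := [
  (49, 17, 21, 1, 87887698633136, 18), (50, 17, 21, 1, 120085794729535, 19),
  (51, 18, 22, 1, 715967433835934, 19), (52, 18, 22, 1, 1272202246995747, 19),
  (53, 18, 22, 1, 2044004471910877, 20), (54, 19, 23, 1, 3311732251342451, 20)]

theorem tp_7_7 : runP 7 lP7_7 = true := by decide +kernel

/-- parameters `(k, T, T2, J, kp, C)` for `q = 7` -/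
def lP7_8 : List (ℕ × ℕ × ℕ × ℕ × ℕ × ℕ) := [
  (55, 19, 23, 1, 4768285476199513, 20), (56, 19, 23, 1, 6344025394257675, 21),
  (57, 20, 24, 1, 40018410843163898, 21), (58, 20, 24, 1, 69614915684303478, 22),
  (59, 21, 25, 1, 140362607308830128, 22), (60, 21, 25, 1, 230317061256408265, 22)]

theorem tp_7_8 : runP 7 lP7_8 = true := by decide +kernel

/-- parameters `(k, T, T2, J, kp, C)` for `q = 7` -/
def lP7_9 : List (ℕ × ℕ × ℕ × ℕ × ℕ × ℕ) := [
  (61, 21, 25, 1, 352564730448560478, 23), (62, 22, 26, 1, 928648395335738507, 23),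
  (63, 22, 26, 1, 1502171580348819961, 23), (64, 22, 26, 1, 2286836045355017316, 24),
  (65, 23, 27, 1, 4848726786255619464, 24), (66, 23, 27, 1, 7715649056754472297, 24)]

theorem tp_7_9 : runP 7 lP7_9 = true := by decide +kernel

/-- parameters `(k, T, T2, J, kp, C)` for `q = 7` -/
def lP7_10 : List (ℕ × ℕ × ℕ × ℕ × ℕ × ℕ) := [
  (67, 23, 27, 1, 11274624283107666462, 25), (68, 24, 28, 1, 94067357017416573712, 25),
  (69, 24, 28, 1, 170873601702453679944, 25), (70, 24, 28, 1, 275294773542635754766, 26),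
  (71, 25, 29, 1, 452956877795844358308, 26), (72, 25, 29, 1, 664282996031679280835, 27)]

theorem tp_7_10 : runP 7 lP7_10 = true := by decide +kernel

/-- parameters `(k, T, T2, J, kp, C)` for `q = 7` -/
def lP7_11 : List (ℕ × ℕ × ℕ × ℕ × ℕ × ℕ) := [
  (73, 26, 30, 1, 1672894172108731107528, 27), (74, 26, 30, 1, 2665423792325641192807, 27),
  (75, 26, 30, 1, 4128585943302705080620, 28), (76, 27, 31, 1, 11763990561102666610418, 28),
  (77, 27, 31, 1, 19902292838774105962044, 28), (78, 27, 31, 1, 32991351199366241272550, 29)]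

theorem tp_7_11 : runP 7 lP7_11 = true := by decide +kernel

/-- parameters `(k, T, T2, J, kp, C)` for `q = 7` -/
def lP7_12 : List (ℕ × ℕ × ℕ × ℕ × ℕ × ℕ) := [
  (79, 28, 32, 1, 124367895914781022721469, 29)]

theorem tp_7_12 : runP 7 lP7_12 = true := by decide +kernel

/-- all parameters for `q = 7` -/
def lP7 : List (ℕ × ℕ × ℕ × ℕ × ℕ × ℕ) :=
  lP7_0 ++ lP7_1 ++ lP7_2 ++ lP7_3 ++ lP7_4 ++ lP7_5 ++ lP7_6 ++ lP7_7 ++ lP7_8 ++ lP7_9 ++ lP7_10 ++ lP7_11 ++ lP7_12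

theorem tp_7 : runP 7 lP7 = true := by
  simp only [lP7, runP_append, tp_7_0, tp_7_1, tp_7_2, tp_7_3, tp_7_4, tp_7_5, tp_7_6, tp_7_7, tp_7_8, tp_7_9, tp_7_10, tp_7_11, tp_7_12, Bool.and_self]


end Pool.Agent.MM2
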