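import Mathlib
import Pool.Agent.MM2.NDefs

/-!
The checks `chkB`.
-/

namespace Pool.Agent.MM2

theorem tb_2_128 : runB 2 10 (tab.take 10) 128 8 = true := by decide +kernel

theorem tb_2_137 : runB 2 10 (tab.take 10) 137 18 = true := by decide +kernel

theorem tb_2_156 : runB 2 10 (tab.take 10) 156 33 = true := by decide +kernel

theorem tb_2_190 : runB 2 10 (tab.take 10) 190 62 = true := by decide +kernel

theorem tb_2_253 : runB 2 10 (tab.take 10) 253 3 = true := by decide +kernel

theorem tb_2_256 : runB 2 11 (tab.take 11) 256 122 = true := by decide +kernel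

theorem tb_2_379 : runB 2 11 (tab.take 11) 379 133 = true := by decide +kernel

theorem tb_2_512 : runB 2 12 (tab.take 12) 512 256 = true := by decide +kernel

theorem tb_2_768 : runB 2 12 (tab.take 12) 768 256 = true := by decide +kernel

theorem tb_2_1024 : runB 2 13 (tab.take 13) 1024 256 = true := by decide +kernel

theorem tb_2_1280 : runB 2 13 (tab.take 13) 1280 256 = true := by decide +kernel

theorem tb_2_1536 : runB 2 13 (tab.take 13) 1536 256 = true := by decide +kernel

theorem tb_2_1792 : runB 2 13 (tab.take 13) 1792 256 = true := by decide +kernel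

theorem tb_2_2048 : runB 2 14 (tab.take 14) 2048 256 = true := by decide +kernel

theorem tb_2_2304 : runB 2 14 (tab.take 14) 2304 256 = true := by decide +kernel

theorem tb_2_2560 : runB 2 14 (tab.take 14) 2560 256 = true := by decide +kernel

theorem tb_2_2816 : runB 2 14 (tab.take 14) 2816 256 = true := by decide +kernel

theorem tb_2_3072 : runB 2 14 (tab.take 14) 3072 256 = true := by decide +kernel

theorem tb_2_3328 : runB 2 14 (tab.take 14) 3328 256 = true := by decide +kernel

theorem tb_2_3584 : runB 2 14 (tab.take 14) 3584 256 = true := by decide +kernel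

theorem tb_2_3840 : runB 2 14 (tab.take 14) 3840 256 = true := by decide +kernel


end Pool.Agent.MM2
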