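import Mathlib
import Pool.Agent.MM2.NDefs

/-!
The checks `chkB`.
-/

namespace Pool.Agent.MM2

theorem tb_2_4096 : runB 2 15 (tab.take 15) 4096 256 = true := by decide +kernel

theorem tb_2_4352 : runB 2 15 (tab.take 15) 4352 256 = true := by decide +kernel

theorem tb_2_4608 : runB 2 15 (tab.take 15) 4608 256 = true := by decide +kernel

theorem tb_2_4864 : runB 2 15 (tab.take 15) 4864 256 = true := by decide +kernel

theorem tb_2_5120 : runB 2 15 (tab.take 15) 5120 256 = true := by decide +kernel

theorem tb_2_5376 : runB 2 15 (tab.take 15) 5376 256 = true := by decide +kernel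

theorem tb_2_5632 : runB 2 15 (tab.take 15) 5632 256 = true := by decide +kernel

theorem tb_2_5888 : runB 2 15 (tab.take 15) 5888 256 = true := by decide +kernel

theorem tb_2_6144 : runB 2 15 (tab.take 15) 6144 256 = true := by decide +kernel

theorem tb_2_6400 : runB 2 15 (tab.take 15) 6400 256 = true := by decide +kernel

theorem tb_2_6656 : runB 2 15 (tab.take 15) 6656 256 = true := by decide +kernel

theorem tb_2_6912 : runB 2 15 (tab.take 15) 6912 256 = true := by decide +kernel

theorem tb_2_7168 : runB 2 15 (tab.take 15) 7168 256 = true := by decide +kernel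

theorem tb_2_7424 : runB 2 15 (tab.take 15) 7424 256 = true := by decide +kernel

theorem tb_2_7680 : runB 2 15 (tab.take 15) 7680 256 = true := by decide +kernel

theorem tb_2_7936 : runB 2 15 (tab.take 15) 7936 256 = true := by decide +kernel


end Pool.Agent.MM2
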