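import Mathlib
import Pool.Agent.MM2.NDefs

/-!
The checks `chkB`.
-/

namespace Pool.Agent.MM2

theorem tb_2_8192 : runB 2 16 (tab.take 16) 8192 256 = true := by decide +kernel

theorem tb_2_8448 : runB 2 16 (tab.take 16) 8448 256 = true := by decide +kernel

theorem tb_2_8704 : runB 2 16 (tab.take 16) 8704 256 = true := by decide +kernel

theorem tb_2_8960 : runB 2 16 (tab.take 16) 8960 256 = true := by decide +kernel

theorem tb_2_9216 : runB 2 16 (tab.take 16) 9216 256 = true := by decide +kernel

theorem tb_2_9472 : runB 2 16 (tab.take 16) 9472 256 = true := by decide +kernel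

theorem tb_2_9728 : runB 2 16 (tab.take 16) 9728 256 = true := by decide +kernel

theorem tb_2_9984 : runB 2 16 (tab.take 16) 9984 256 = true := by decide +kernel

theorem tb_2_10240 : runB 2 16 (tab.take 16) 10240 256 = true := by decide +kernel

theorem tb_2_10496 : runB 2 16 (tab.take 16) 10496 256 = true := by decide +kernel

theorem tb_2_10752 : runB 2 16 (tab.take 16) 10752 256 = true := by decide +kernel

theorem tb_2_11008 : runB 2 16 (tab.take 16) 11008 256 = true := by decide +kernel

theorem tb_2_11264 : runB 2 16 (tab.take 16) 11264 256 = true := by decide +kernel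

theorem tb_2_11520 : runB 2 16 (tab.take 16) 11520 256 = true := by decide +kernel

theorem tb_2_11776 : runB 2 16 (tab.take 16) 11776 256 = true := by decide +kernel

theorem tb_2_12032 : runB 2 16 (tab.take 16) 12032 256 = true := by decide +kernel


end Pool.Agent.MM2
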