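import Mathlib
import Pool.Agent.MM2.NDefs

/-!
The checks `chkB`.
-/

namespace Pool.Agent.MM2

theorem tb_2_12288 : runB 2 16 (tab.take 16) 12288 256 = true := by decide +kernel

theorem tb_2_12544 : runB 2 16 (tab.take 16) 12544 256 = true := by decide +kernel

theorem tb_2_12800 : runB 2 16 (tab.take 16) 12800 256 = true := by decide +kernel

theorem tb_2_13056 : runB 2 16 (tab.take 16) 13056 256 = true := by decide +kernel

theorem tb_2_13312 : runB 2 16 (tab.take 16) 13312 256 = true := by decide +kernel

theorem tb_2_13568 : runB 2 16 (tab.take 16) 13568 256 = true := by decide +kernel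

theorem tb_2_13824 : runB 2 16 (tab.take 16) 13824 256 = true := by decide +kernel

theorem tb_2_14080 : runB 2 16 (tab.take 16) 14080 256 = true := by decide +kernel

theorem tb_2_14336 : runB 2 16 (tab.take 16) 14336 256 = true := by decide +kernel

theorem tb_2_14592 : runB 2 16 (tab.take 16) 14592 256 = true := by decide +kernel

theorem tb_2_14848 : runB 2 16 (tab.take 16) 14848 256 = true := by decide +kernel

theorem tb_2_15104 : runB 2 16 (tab.take 16) 15104 256 = true := by decide +kernel

theorem tb_2_15360 : runB 2 16 (tab.take 16) 15360 256 = true := by decide +kernel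

theorem tb_2_15616 : runB 2 16 (tab.take 16) 15616 256 = true := by decide +kernel

theorem tb_2_15872 : runB 2 16 (tab.take 16) 15872 256 = true := by decide +kernel

theorem tb_2_16128 : runB 2 16 (tab.take 16) 16128 256 = true := by decide +kernel


end Pool.Agent.MM2
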