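import Mathlib
import Pool.Agent.MM2.NDefs

/-!
The checks `chkB`.
-/

namespace Pool.Agent.MM2

theorem tb_2_16384 : runB 2 17 (tab.take 17) 16384 256 = true := by decide +kernel

theorem tb_2_16640 : runB 2 17 (tab.take 17) 16640 256 = true := by decide +kernel

theorem tb_2_16896 : runB 2 17 (tab.take 17) 16896 256 = true := by decide +kernel

theorem tb_2_17152 : runB 2 17 (tab.take 17) 17152 256 = true := by decide +kernel

theorem tb_2_17408 : runB 2 17 (tab.take 17) 17408 256 = true := by decide +kernel

theorem tb_2_17664 : runB 2 17 (tab.take 17) 17664 256 = true := by decide +kernel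

theorem tb_2_17920 : runB 2 17 (tab.take 17) 17920 256 = true := by decide +kernel

theorem tb_2_18176 : runB 2 17 (tab.take 17) 18176 256 = true := by decide +kernel

theorem tb_2_18432 : runB 2 17 (tab.take 17) 18432 256 = true := by decide +kernel

theorem tb_2_18688 : runB 2 17 (tab.take 17) 18688 256 = true := by decide +kernel

theorem tb_2_18944 : runB 2 17 (tab.take 17) 18944 256 = true := by decide +kernel

theorem tb_2_19200 : runB 2 17 (tab.take 17) 19200 256 = true := by decide +kernel

theorem tb_2_19456 : runB 2 17 (tab.take 17) 19456 256 = true := by decide +kernel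

theorem tb_2_19712 : runB 2 17 (tab.take 17) 19712 256 = true := by decide +kernel

theorem tb_2_19968 : runB 2 17 (tab.take 17) 19968 256 = true := by decide +kernel

theorem tb_2_20224 : runB 2 17 (tab.take 17) 20224 256 = true := by decide +kernel


end Pool.Agent.MM2
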