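import Mathlib
import Pool.Agent.MM2.NDefs

/-!
The checks `chkB`.
-/

namespace Pool.Agent.MM2

theorem tb_2_20480 : runB 2 17 (tab.take 17) 20480 256 = true := by decide +kernel

theorem tb_2_20736 : runB 2 17 (tab.take 17) 20736 256 = true := by decide +kernel

theorem tb_2_20992 : runB 2 17 (tab.take 17) 20992 256 = true := by decide +kernel

theorem tb_2_21248 : runB 2 17 (tab.take 17) 21248 256 = true := by decide +kernel

theorem tb_2_21504 : runB 2 17 (tab.take 17) 21504 256 = true := by decide +kernel

theorem tb_2_21760 : runB 2 17 (tab.take 17) 21760 256 = true := by decide +kernel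

theorem tb_2_22016 : runB 2 17 (tab.take 17) 22016 256 = true := by decide +kernel

theorem tb_2_22272 : runB 2 17 (tab.take 17) 22272 256 = true := by decide +kernel

theorem tb_2_22528 : runB 2 17 (tab.take 17) 22528 256 = true := by decide +kernel

theorem tb_2_22784 : runB 2 17 (tab.take 17) 22784 256 = true := by decide +kernel

theorem tb_2_23040 : runB 2 17 (tab.take 17) 23040 256 = true := by decide +kernel

theorem tb_2_23296 : runB 2 17 (tab.take 17) 23296 256 = true := by decide +kernel

theorem tb_2_23552 : runB 2 17 (tab.take 17) 23552 256 = true := by decide +kernel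

theorem tb_2_23808 : runB 2 17 (tab.take 17) 23808 256 = true := by decide +kernel

theorem tb_2_24064 : runB 2 17 (tab.take 17) 24064 256 = true := by decide +kernel

theorem tb_2_24320 : runB 2 17 (tab.take 17) 24320 256 = true := by decide +kernel


end Pool.Agent.MM2
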