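import Mathlib
import Pool.Agent.MM2.NDefs

/-!
The checks `chkB`.
-/

namespace Pool.Agent.MM2

theorem tb_2_24576 : runB 2 17 (tab.take 17) 24576 256 = true := by decide +kernel

theorem tb_2_24832 : runB 2 17 (tab.take 17) 24832 256 = true := by decide +kernel

theorem tb_2_25088 : runB 2 17 (tab.take 17) 25088 256 = true := by decide +kernel

theorem tb_2_25344 : runB 2 17 (tab.take 17) 25344 256 = true := by decide +kernel

theorem tb_2_25600 : runB 2 17 (tab.take 17) 25600 256 = true := by decide +kernel

theorem tb_2_25856 : runB 2 17 (tab.take 17) 25856 256 = true := by decide +kernel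

theorem tb_2_26112 : runB 2 17 (tab.take 17) 26112 256 = true := by decide +kernel

theorem tb_2_26368 : runB 2 17 (tab.take 17) 26368 256 = true := by decide +kernel

theorem tb_2_26624 : runB 2 17 (tab.take 17) 26624 256 = true := by decide +kernel

theorem tb_2_26880 : runB 2 17 (tab.take 17) 26880 256 = true := by decide +kernel

theorem tb_2_27136 : runB 2 17 (tab.take 17) 27136 256 = true := by decide +kernel

theorem tb_2_27392 : runB 2 17 (tab.take 17) 27392 256 = true := by decide +kernel

theorem tb_2_27648 : runB 2 17 (tab.take 17) 27648 256 = true := by decide +kernel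

theorem tb_2_27904 : runB 2 17 (tab.take 17) 27904 256 = true := by decide +kernel

theorem tb_2_28160 : runB 2 17 (tab.take 17) 28160 256 = true := by decide +kernel

theorem tb_2_28416 : runB 2 17 (tab.take 17) 28416 256 = true := by decide +kernel


end Pool.Agent.MM2
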