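import Mathlib
import Pool.Agent.MM2.NDefs

/-!
The checks `chkB`.
-/

namespace Pool.Agent.MM2

theorem tb_2_28672 : runB 2 17 (tab.take 17) 28672 256 = true := by decide +kernel

theorem tb_2_28928 : runB 2 17 (tab.take 17) 28928 256 = true := by decide +kernel

theorem tb_2_29184 : runB 2 17 (tab.take 17) 29184 256 = true := by decide +kernel

theorem tb_2_29440 : runB 2 17 (tab.take 17) 29440 256 = true := by decide +kernel

theorem tb_2_29696 : runB 2 17 (tab.take 17) 29696 256 = true := by decide +kernel

theorem tb_2_29952 : runB 2 17 (tab.take 17) 29952 256 = true := by decide +kernel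

theorem tb_2_30208 : runB 2 17 (tab.take 17) 30208 256 = true := by decide +kernel

theorem tb_2_30464 : runB 2 17 (tab.take 17) 30464 256 = true := by decide +kernel

theorem tb_2_30720 : runB 2 17 (tab.take 17) 30720 256 = true := by decide +kernel

theorem tb_2_30976 : runB 2 17 (tab.take 17) 30976 256 = true := by decide +kernel

theorem tb_2_31232 : runB 2 17 (tab.take 17) 31232 256 = true := by decide +kernel

theorem tb_2_31488 : runB 2 17 (tab.take 17) 31488 256 = true := by decide +kernel

theorem tb_2_31744 : runB 2 17 (tab.take 17) 31744 256 = true := by decide +kernel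

theorem tb_2_32000 : runB 2 17 (tab.take 17) 32000 256 = true := by decide +kernel

theorem tb_2_32256 : runB 2 17 (tab.take 17) 32256 256 = true := by decide +kernel

theorem tb_2_32512 : runB 2 17 (tab.take 17) 32512 256 = true := by decide +kernel


end Pool.Agent.MM2
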