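import Mathlib
import Pool.Agent.MM2.FINU
import Pool.Agent.MM2.TABA
import Pool.Agent.MM2.TB2a
import Pool.Agent.MM2.TB2b
import Pool.Agent.MM2.TB2c
import Pool.Agent.MM2.TB2d
import Pool.Agent.MM2.TB2e
import Pool.Agent.MM2.TB2f
import Pool.Agent.MM2.TB2g
import Pool.Agent.MM2.TB2h
import Pool.Agent.MM2.TABP
import Pool.Agent.MM2.A4
import Pool.Agent.MM2.EXPA
import Pool.Agent.MM2.EXPB
import Pool.Agent.MM2.EXPC
import Pool.Agent.MM2.EXPD
import Pool.Agent.MM2.EXPE

/-!
The field with two elements.
-/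

namespace Pool.Agent.MM2

theorem fin_low_2 (n : ℕ) (h3 : 3 ≤ n) (h : n < 128) : PN 2 n := by
  have hc : ∀ n < 128, 3 ≤ n → (n ∈ [3, 4, 5, 6, 7, 8, 9, 10, 11, 12, 14, 15, 16, 18, 20, 21, 24, 28, 30, 36, 40, 42, 54, 60, 63, 126] ∨ n ∈ lA2.map Prod.fst) := by
    decide +kernel
  rcases hc n h h3 with h1 | h1
  · simp only [List.mem_cons, List.not_mem_nil, or_false] at h1
    rcases h1 with h1 | h1 | h1 | h1 | h1 | h1 | h1 | h1 | h1 | h1 | h1 | h1 | h1 | h1 | h1 | h1 | h1 | h1 | h1 | h1 | h1 | h1 | h1 | h1 | h1 | h1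
    · subst h1; exact ex_2_3
    · subst h1; exact ex_2_4
    · subst h1; exact ex_2_5
    · subst h1; exact ex_2_6
    · subst h1; exact ex_2_7
    · subst h1; exact ex_2_8
    · subst h1; exact ex_2_9
    · subst h1; exact ex_2_10
    · subst h1; exact ex_2_11
    · subst h1; exact ex_2_12
    · subst h1; exact ex_2_14
    · subst h1; exact ex_2_15
    · subst h1; exact ex_2_16
    · subst h1; exact ex_2_18
    · subst h1; exact ex_2_20
    · subst h1; exact ex_2_21
    · subst h1; exact ex_2_24
    · subst h1; exact ex_2_28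
    · subst h1; exact ex_2_30
    · subst h1; exact ex_2_36
    · subst h1; exact ex_2_40
    · subst h1; exact ex_2_42
    · subst h1; exact ex_2_54
    · subst h1; exact ex_2_60
    · subst h1; exact ex_2_63
    · subst h1; exact ex_2_126
  · exact finu_A 2 (Or.inl rfl) _ ta_2 n (by omega) h1

theorem fin_mid_2 (n : ℕ) (h1 : 128 ≤ n) (h2 : n < 32768) : PN 2 n := by
  rcases Nat.lt_or_ge n 136 with h | h
  · exact numB_run 2 10 128 8 (Or.inl rfl) (by norm_num) (by norm_num) tb_2_128 n (by omega) h
  rcases Nat.lt_or_ge n 137 with h | h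
  · have : n = 136 := by omega
    subst this
    exact finu_A 2 (Or.inl rfl) _ ta_2 136 (by norm_num) (by decide)
  rcases Nat.lt_or_ge n 155 with h | h
  · exact numB_run 2 10 137 18 (Or.inl rfl) (by norm_num) (by norm_num) tb_2_137 n (by omega) h
  rcases Nat.lt_or_ge n 156 with h | h
  · have : n = 155 := by omega
    subst this
    exact finu_A 2 (Or.inl rfl) _ ta_2 155 (by norm_num) (by decide)
  rcases Nat.lt_or_ge n 189 with h | h
  · exact numB_run 2 10 156 33 (Or.inl rfl) (by norm_num) (by norm_num) tb_2_156 n (by omega) h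
  rcases Nat.lt_or_ge n 190 with h | h
  · have : n = 189 := by omega
    subst this
    exact finu_A 2 (Or.inl rfl) _ ta_2 189 (by norm_num) (by decide)
  rcases Nat.lt_or_ge n 252 with h | h
  · exact numB_run 2 10 190 62 (Or.inl rfl) (by norm_num) (by norm_num) tb_2_190 n (by omega) h
  rcases Nat.lt_or_ge n 253 with h | h
  · have : n = 252 := by omega
    subst this
    exact finu_A 2 (Or.inl rfl) _ ta_2 252 (by norm_num) (by decide)
  rcases Nat.lt_or_ge n 256 with h | h
  · exact numB_run 2 10 253 3 (Or.inl rfl) (by norm_num) (by norm_num) tb_2_253 n (by omega) h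
  rcases Nat.lt_or_ge n 378 with h | h
  · exact numB_run 2 11 256 122 (Or.inl rfl) (by norm_num) (by norm_num) tb_2_256 n (by omega) h
  rcases Nat.lt_or_ge n 379 with h | h
  · have : n = 378 := by omega
    subst this
    exact finu_A 2 (Or.inl rfl) _ ta_2 378 (by norm_num) (by decide)
  rcases Nat.lt_or_ge n 512 with h | h
  · exact numB_run 2 11 379 133 (Or.inl rfl) (by norm_num) (by norm_num) tb_2_379 n (by omega) h
  rcases Nat.lt_or_ge n 768 with h | h
  · exact numB_run 2 12 512 256 (Or.inl rfl) (by norm_num) (by norm_num) tb_2_512 n (by omega) h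
  rcases Nat.lt_or_ge n 1024 with h | h
  · exact numB_run 2 12 768 256 (Or.inl rfl) (by norm_num) (by norm_num) tb_2_768 n (by omega) h
  rcases Nat.lt_or_ge n 1280 with h | h
  · exact numB_run 2 13 1024 256 (Or.inl rfl) (by norm_num) (by norm_num) tb_2_1024 n (by omega) h
  rcases Nat.lt_or_ge n 1536 with h | h
  · exact numB_run 2 13 1280 256 (Or.inl rfl) (by norm_num) (by norm_num) tb_2_1280 n (by omega) h
  rcases Nat.lt_or_ge n 1792 with h | h
  · exact numB_run 2 13 1536 256 (Or.inl rfl) (by norm_num) (by norm_num) tb_2_1536 n (by omega) h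
  rcases Nat.lt_or_ge n 2048 with h | h
  · exact numB_run 2 13 1792 256 (Or.inl rfl) (by norm_num) (by norm_num) tb_2_1792 n (by omega) h
  rcases Nat.lt_or_ge n 2304 with h | h
  · exact numB_run 2 14 2048 256 (Or.inl rfl) (by norm_num) (by norm_num) tb_2_2048 n (by omega) h
  rcases Nat.lt_or_ge n 2560 with h | h
  · exact numB_run 2 14 2304 256 (Or.inl rfl) (by norm_num) (by norm_num) tb_2_2304 n (by omega) h
  rcases Nat.lt_or_ge n 2816 with h | h
  · exact numB_run 2 14 2560 256 (Or.inl rfl) (by norm_num) (by norm_num) tb_2_2560 n (by omega) h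
  rcases Nat.lt_or_ge n 3072 with h | h
  · exact numB_run 2 14 2816 256 (Or.inl rfl) (by norm_num) (by norm_num) tb_2_2816 n (by omega) h
  rcases Nat.lt_or_ge n 3328 with h | h
  · exact numB_run 2 14 3072 256 (Or.inl rfl) (by norm_num) (by norm_num) tb_2_3072 n (by omega) h
  rcases Nat.lt_or_ge n 3584 with h | h
  · exact numB_run 2 14 3328 256 (Or.inl rfl) (by norm_num) (by norm_num) tb_2_3328 n (by omega) h
  rcases Nat.lt_or_ge n 3840 with h | h
  · exact numB_run 2 14 3584 256 (Or.inl rfl) (by norm_num) (by norm_num) tb_2_3584 n (by omega) h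
  rcases Nat.lt_or_ge n 4096 with h | h
  · exact numB_run 2 14 3840 256 (Or.inl rfl) (by norm_num) (by norm_num) tb_2_3840 n (by omega) h
  rcases Nat.lt_or_ge n 4352 with h | h
  · exact numB_run 2 15 4096 256 (Or.inl rfl) (by norm_num) (by norm_num) tb_2_4096 n (by omega) h
  rcases Nat.lt_or_ge n 4608 with h | h
  · exact numB_run 2 15 4352 256 (Or.inl rfl) (by norm_num) (by norm_num) tb_2_4352 n (by omega) h
  rcases Nat.lt_or_ge n 4864 with h | h
  · exact numB_run 2 15 4608 256 (Or.inl rfl) (by norm_num) (by norm_num) tb_2_4608 n (by omega) h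
  rcases Nat.lt_or_ge n 5120 with h | h
  · exact numB_run 2 15 4864 256 (Or.inl rfl) (by norm_num) (by norm_num) tb_2_4864 n (by omega) h
  rcases Nat.lt_or_ge n 5376 with h | h
  · exact numB_run 2 15 5120 256 (Or.inl rfl) (by norm_num) (by norm_num) tb_2_5120 n (by omega) h
  rcases Nat.lt_or_ge n 5632 with h | h
  · exact numB_run 2 15 5376 256 (Or.inl rfl) (by norm_num) (by norm_num) tb_2_5376 n (by omega) h
  rcases Nat.lt_or_ge n 5888 with h | h
  · exact numB_run 2 15 5632 256 (Or.inl rfl) (by norm_num) (by norm_num) tb_2_5632 n (by omega) h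
  rcases Nat.lt_or_ge n 6144 with h | h
  · exact numB_run 2 15 5888 256 (Or.inl rfl) (by norm_num) (by norm_num) tb_2_5888 n (by omega) h
  rcases Nat.lt_or_ge n 6400 with h | h
  · exact numB_run 2 15 6144 256 (Or.inl rfl) (by norm_num) (by norm_num) tb_2_6144 n (by omega) h
  rcases Nat.lt_or_ge n 6656 with h | h
  · exact numB_run 2 15 6400 256 (Or.inl rfl) (by norm_num) (by norm_num) tb_2_6400 n (by omega) h
  rcases Nat.lt_or_ge n 6912 with h | h
  · exact numB_run 2 15 6656 256 (Or.inl rfl) (by norm_num) (by norm_num) tb_2_6656 n (by omega) h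
  rcases Nat.lt_or_ge n 7168 with h | h
  · exact numB_run 2 15 6912 256 (Or.inl rfl) (by norm_num) (by norm_num) tb_2_6912 n (by omega) h
  rcases Nat.lt_or_ge n 7424 with h | h
  · exact numB_run 2 15 7168 256 (Or.inl rfl) (by norm_num) (by norm_num) tb_2_7168 n (by omega) h
  rcases Nat.lt_or_ge n 7680 with h | h
  · exact numB_run 2 15 7424 256 (Or.inl rfl) (by norm_num) (by norm_num) tb_2_7424 n (by omega) h
  rcases Nat.lt_or_ge n 7936 with h | h
  · exact numB_run 2 15 7680 256 (Or.inl rfl) (by norm_num) (by norm_num) tb_2_7680 n (by omega) h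
  rcases Nat.lt_or_ge n 8192 with h | h
  · exact numB_run 2 15 7936 256 (Or.inl rfl) (by norm_num) (by norm_num) tb_2_7936 n (by omega) h
  rcases Nat.lt_or_ge n 8448 with h | h
  · exact numB_run 2 16 8192 256 (Or.inl rfl) (by norm_num) (by norm_num) tb_2_8192 n (by omega) h
  rcases Nat.lt_or_ge n 8704 with h | h
  · exact numB_run 2 16 8448 256 (Or.inl rfl) (by norm_num) (by norm_num) tb_2_8448 n (by omega) h
  rcases Nat.lt_or_ge n 8960 with h | h
  · exact numB_run 2 16 8704 256 (Or.inl rfl) (by norm_num) (by norm_num) tb_2_8704 n (by omega) h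
  rcases Nat.lt_or_ge n 9216 with h | h
  · exact numB_run 2 16 8960 256 (Or.inl rfl) (by norm_num) (by norm_num) tb_2_8960 n (by omega) h
  rcases Nat.lt_or_ge n 9472 with h | h
  · exact numB_run 2 16 9216 256 (Or.inl rfl) (by norm_num) (by norm_num) tb_2_9216 n (by omega) h
  rcases Nat.lt_or_ge n 9728 with h | h
  · exact numB_run 2 16 9472 256 (Or.inl rfl) (by norm_num) (by norm_num) tb_2_9472 n (by omega) h
  rcases Nat.lt_or_ge n 9984 with h | h
  · exact numB_run 2 16 9728 256 (Or.inl rfl) (by norm_num) (by norm_num) tb_2_9728 n (by omega) h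
  rcases Nat.lt_or_ge n 10240 with h | h
  · exact numB_run 2 16 9984 256 (Or.inl rfl) (by norm_num) (by norm_num) tb_2_9984 n (by omega) h
  rcases Nat.lt_or_ge n 10496 with h | h
  · exact numB_run 2 16 10240 256 (Or.inl rfl) (by norm_num) (by norm_num) tb_2_10240 n (by omega) h
  rcases Nat.lt_or_ge n 10752 with h | h
  · exact numB_run 2 16 10496 256 (Or.inl rfl) (by norm_num) (by norm_num) tb_2_10496 n (by omega) h
  rcases Nat.lt_or_ge n 11008 with h | h
  · exact numB_run 2 16 10752 256 (Or.inl rfl) (by norm_num) (by norm_num) tb_2_10752 n (by omega) h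
  rcases Nat.lt_or_ge n 11264 with h | h
  · exact numB_run 2 16 11008 256 (Or.inl rfl) (by norm_num) (by norm_num) tb_2_11008 n (by omega) h
  rcases Nat.lt_or_ge n 11520 with h | h
  · exact numB_run 2 16 11264 256 (Or.inl rfl) (by norm_num) (by norm_num) tb_2_11264 n (by omega) h
  rcases Nat.lt_or_ge n 11776 with h | h
  · exact numB_run 2 16 11520 256 (Or.inl rfl) (by norm_num) (by norm_num) tb_2_11520 n (by omega) h
  rcases Nat.lt_or_ge n 12032 with h | h
  · exact numB_run 2 16 11776 256 (Or.inl rfl) (by norm_num) (by norm_num) tb_2_11776 n (by omega) h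
  rcases Nat.lt_or_ge n 12288 with h | h
  · exact numB_run 2 16 12032 256 (Or.inl rfl) (by norm_num) (by norm_num) tb_2_12032 n (by omega) h
  rcases Nat.lt_or_ge n 12544 with h | h
  · exact numB_run 2 16 12288 256 (Or.inl rfl) (by norm_num) (by norm_num) tb_2_12288 n (by omega) h
  rcases Nat.lt_or_ge n 12800 with h | h
  · exact numB_run 2 16 12544 256 (Or.inl rfl) (by norm_num) (by norm_num) tb_2_12544 n (by omega) h
  rcases Nat.lt_or_ge n 13056 with h | h
  · exact numB_run 2 16 12800 256 (Or.inl rfl) (by norm_num) (by norm_num) tb_2_12800 n (by omega) h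
  rcases Nat.lt_or_ge n 13312 with h | h
  · exact numB_run 2 16 13056 256 (Or.inl rfl) (by norm_num) (by norm_num) tb_2_13056 n (by omega) h
  rcases Nat.lt_or_ge n 13568 with h | h
  · exact numB_run 2 16 13312 256 (Or.inl rfl) (by norm_num) (by norm_num) tb_2_13312 n (by omega) h
  rcases Nat.lt_or_ge n 13824 with h | h
  · exact numB_run 2 16 13568 256 (Or.inl rfl) (by norm_num) (by norm_num) tb_2_13568 n (by omega) h
  rcases Nat.lt_or_ge n 14080 with h | h
  · exact numB_run 2 16 13824 256 (Or.inl rfl) (by norm_num) (by norm_num) tb_2_13824 n (by omega) h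
  rcases Nat.lt_or_ge n 14336 with h | h
  · exact numB_run 2 16 14080 256 (Or.inl rfl) (by norm_num) (by norm_num) tb_2_14080 n (by omega) h
  rcases Nat.lt_or_ge n 14592 with h | h
  · exact numB_run 2 16 14336 256 (Or.inl rfl) (by norm_num) (by norm_num) tb_2_14336 n (by omega) h
  rcases Nat.lt_or_ge n 14848 with h | h
  · exact numB_run 2 16 14592 256 (Or.inl rfl) (by norm_num) (by norm_num) tb_2_14592 n (by omega) h
  rcases Nat.lt_or_ge n 15104 with h | h
  · exact numB_run 2 16 14848 256 (Or.inl rfl) (by norm_num) (by norm_num) tb_2_14848 n (by omega) h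
  rcases Nat.lt_or_ge n 15360 with h | h
  · exact numB_run 2 16 15104 256 (Or.inl rfl) (by norm_num) (by norm_num) tb_2_15104 n (by omega) h
  rcases Nat.lt_or_ge n 15616 with h | h
  · exact numB_run 2 16 15360 256 (Or.inl rfl) (by norm_num) (by norm_num) tb_2_15360 n (by omega) h
  rcases Nat.lt_or_ge n 15872 with h | h
  · exact numB_run 2 16 15616 256 (Or.inl rfl) (by norm_num) (by norm_num) tb_2_15616 n (by omega) h
  rcases Nat.lt_or_ge n 16128 with h | h
  · exact numB_run 2 16 15872 256 (Or.inl rfl) (by norm_num) (by norm_num) tb_2_15872 n (by omega) h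
  rcases Nat.lt_or_ge n 16384 with h | h
  · exact numB_run 2 16 16128 256 (Or.inl rfl) (by norm_num) (by norm_num) tb_2_16128 n (by omega) h
  rcases Nat.lt_or_ge n 16640 with h | h
  · exact numB_run 2 17 16384 256 (Or.inl rfl) (by norm_num) (by norm_num) tb_2_16384 n (by omega) h
  rcases Nat.lt_or_ge n 16896 with h | h
  · exact numB_run 2 17 16640 256 (Or.inl rfl) (by norm_num) (by norm_num) tb_2_16640 n (by omega) h
  rcases Nat.lt_or_ge n 17152 with h | h
  · exact numB_run 2 17 16896 256 (Or.inl rfl) (by norm_num) (by norm_num) tb_2_16896 n (by omega) h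
  rcases Nat.lt_or_ge n 17408 with h | h
  · exact numB_run 2 17 17152 256 (Or.inl rfl) (by norm_num) (by norm_num) tb_2_17152 n (by omega) h
  rcases Nat.lt_or_ge n 17664 with h | h
  · exact numB_run 2 17 17408 256 (Or.inl rfl) (by norm_num) (by norm_num) tb_2_17408 n (by omega) h
  rcases Nat.lt_or_ge n 17920 with h | h
  · exact numB_run 2 17 17664 256 (Or.inl rfl) (by norm_num) (by norm_num) tb_2_17664 n (by omega) h
  rcases Nat.lt_or_ge n 18176 with h | h
  · exact numB_run 2 17 17920 256 (Or.inl rfl) (by norm_num) (by norm_num) tb_2_17920 n (by omega) h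
  rcases Nat.lt_or_ge n 18432 with h | h
  · exact numB_run 2 17 18176 256 (Or.inl rfl) (by norm_num) (by norm_num) tb_2_18176 n (by omega) h
  rcases Nat.lt_or_ge n 18688 with h | h
  · exact numB_run 2 17 18432 256 (Or.inl rfl) (by norm_num) (by norm_num) tb_2_18432 n (by omega) h
  rcases Nat.lt_or_ge n 18944 with h | h
  · exact numB_run 2 17 18688 256 (Or.inl rfl) (by norm_num) (by norm_num) tb_2_18688 n (by omega) h
  rcases Nat.lt_or_ge n 19200 with h | h
  · exact numB_run 2 17 18944 256 (Or.inl rfl) (by norm_num) (by norm_num) tb_2_18944 n (by omega) h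
  rcases Nat.lt_or_ge n 19456 with h | h
  · exact numB_run 2 17 19200 256 (Or.inl rfl) (by norm_num) (by norm_num) tb_2_19200 n (by omega) h
  rcases Nat.lt_or_ge n 19712 with h | h
  · exact numB_run 2 17 19456 256 (Or.inl rfl) (by norm_num) (by norm_num) tb_2_19456 n (by omega) h
  rcases Nat.lt_or_ge n 19968 with h | h
  · exact numB_run 2 17 19712 256 (Or.inl rfl) (by norm_num) (by norm_num) tb_2_19712 n (by omega) h
  rcases Nat.lt_or_ge n 20224 with h | h
  · exact numB_run 2 17 19968 256 (Or.inl rfl) (by norm_num) (by norm_num) tb_2_19968 n (by omega) h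
  rcases Nat.lt_or_ge n 20480 with h | h
  · exact numB_run 2 17 20224 256 (Or.inl rfl) (by norm_num) (by norm_num) tb_2_20224 n (by omega) h
  rcases Nat.lt_or_ge n 20736 with h | h
  · exact numB_run 2 17 20480 256 (Or.inl rfl) (by norm_num) (by norm_num) tb_2_20480 n (by omega) h
  rcases Nat.lt_or_ge n 20992 with h | h
  · exact numB_run 2 17 20736 256 (Or.inl rfl) (by norm_num) (by norm_num) tb_2_20736 n (by omega) h
  rcases Nat.lt_or_ge n 21248 with h | h
  · exact numB_run 2 17 20992 256 (Or.inl rfl) (by norm_num) (by norm_num) tb_2_20992 n (by omega) h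
  rcases Nat.lt_or_ge n 21504 with h | h
  · exact numB_run 2 17 21248 256 (Or.inl rfl) (by norm_num) (by norm_num) tb_2_21248 n (by omega) h
  rcases Nat.lt_or_ge n 21760 with h | h
  · exact numB_run 2 17 21504 256 (Or.inl rfl) (by norm_num) (by norm_num) tb_2_21504 n (by omega) h
  rcases Nat.lt_or_ge n 22016 with h | h
  · exact numB_run 2 17 21760 256 (Or.inl rfl) (by norm_num) (by norm_num) tb_2_21760 n (by omega) h
  rcases Nat.lt_or_ge n 22272 with h | h
  · exact numB_run 2 17 22016 256 (Or.inl rfl) (by norm_num) (by norm_num) tb_2_22016 n (by omega) h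
  rcases Nat.lt_or_ge n 22528 with h | h
  · exact numB_run 2 17 22272 256 (Or.inl rfl) (by norm_num) (by norm_num) tb_2_22272 n (by omega) h
  rcases Nat.lt_or_ge n 22784 with h | h
  · exact numB_run 2 17 22528 256 (Or.inl rfl) (by norm_num) (by norm_num) tb_2_22528 n (by omega) h
  rcases Nat.lt_or_ge n 23040 with h | h
  · exact numB_run 2 17 22784 256 (Or.inl rfl) (by norm_num) (by norm_num) tb_2_22784 n (by omega) h
  rcases Nat.lt_or_ge n 23296 with h | h
  · exact numB_run 2 17 23040 256 (Or.inl rfl) (by norm_num) (by norm_num) tb_2_23040 n (by omega) h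
  rcases Nat.lt_or_ge n 23552 with h | h
  · exact numB_run 2 17 23296 256 (Or.inl rfl) (by norm_num) (by norm_num) tb_2_23296 n (by omega) h
  rcases Nat.lt_or_ge n 23808 with h | h
  · exact numB_run 2 17 23552 256 (Or.inl rfl) (by norm_num) (by norm_num) tb_2_23552 n (by omega) h
  rcases Nat.lt_or_ge n 24064 with h | h
  · exact numB_run 2 17 23808 256 (Or.inl rfl) (by norm_num) (by norm_num) tb_2_23808 n (by omega) h
  rcases Nat.lt_or_ge n 24320 with h | h
  · exact numB_run 2 17 24064 256 (Or.inl rfl) (by norm_num) (by norm_num) tb_2_24064 n (by omega) h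
  rcases Nat.lt_or_ge n 24576 with h | h
  · exact numB_run 2 17 24320 256 (Or.inl rfl) (by norm_num) (by norm_num) tb_2_24320 n (by omega) h
  rcases Nat.lt_or_ge n 24832 with h | h
  · exact numB_run 2 17 24576 256 (Or.inl rfl) (by norm_num) (by norm_num) tb_2_24576 n (by omega) h
  rcases Nat.lt_or_ge n 25088 with h | h
  · exact numB_run 2 17 24832 256 (Or.inl rfl) (by norm_num) (by norm_num) tb_2_24832 n (by omega) h
  rcases Nat.lt_or_ge n 25344 with h | h
  · exact numB_run 2 17 25088 256 (Or.inl rfl) (by norm_num) (by norm_num) tb_2_25088 n (by omega) h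
  rcases Nat.lt_or_ge n 25600 with h | h
  · exact numB_run 2 17 25344 256 (Or.inl rfl) (by norm_num) (by norm_num) tb_2_25344 n (by omega) h
  rcases Nat.lt_or_ge n 25856 with h | h
  · exact numB_run 2 17 25600 256 (Or.inl rfl) (by norm_num) (by norm_num) tb_2_25600 n (by omega) h
  rcases Nat.lt_or_ge n 26112 with h | h
  · exact numB_run 2 17 25856 256 (Or.inl rfl) (by norm_num) (by norm_num) tb_2_25856 n (by omega) h
  rcases Nat.lt_or_ge n 26368 with h | h
  · exact numB_run 2 17 26112 256 (Or.inl rfl) (by norm_num) (by norm_num) tb_2_26112 n (by omega) h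
  rcases Nat.lt_or_ge n 26624 with h | h
  · exact numB_run 2 17 26368 256 (Or.inl rfl) (by norm_num) (by norm_num) tb_2_26368 n (by omega) h
  rcases Nat.lt_or_ge n 26880 with h | h
  · exact numB_run 2 17 26624 256 (Or.inl rfl) (by norm_num) (by norm_num) tb_2_26624 n (by omega) h
  rcases Nat.lt_or_ge n 27136 with h | h
  · exact numB_run 2 17 26880 256 (Or.inl rfl) (by norm_num) (by norm_num) tb_2_26880 n (by omega) h
  rcases Nat.lt_or_ge n 27392 with h | h
  · exact numB_run 2 17 27136 256 (Or.inl rfl) (by norm_num) (by norm_num) tb_2_27136 n (by omega) h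
  rcases Nat.lt_or_ge n 27648 with h | h
  · exact numB_run 2 17 27392 256 (Or.inl rfl) (by norm_num) (by norm_num) tb_2_27392 n (by omega) h
  rcases Nat.lt_or_ge n 27904 with h | h
  · exact numB_run 2 17 27648 256 (Or.inl rfl) (by norm_num) (by norm_num) tb_2_27648 n (by omega) h
  rcases Nat.lt_or_ge n 28160 with h | h
  · exact numB_run 2 17 27904 256 (Or.inl rfl) (by norm_num) (by norm_num) tb_2_27904 n (by omega) h
  rcases Nat.lt_or_ge n 28416 with h | h
  · exact numB_run 2 17 28160 256 (Or.inl rfl) (by norm_num) (by norm_num) tb_2_28160 n (by omega) h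
  rcases Nat.lt_or_ge n 28672 with h | h
  · exact numB_run 2 17 28416 256 (Or.inl rfl) (by norm_num) (by norm_num) tb_2_28416 n (by omega) h
  rcases Nat.lt_or_ge n 28928 with h | h
  · exact numB_run 2 17 28672 256 (Or.inl rfl) (by norm_num) (by norm_num) tb_2_28672 n (by omega) h
  rcases Nat.lt_or_ge n 29184 with h | h
  · exact numB_run 2 17 28928 256 (Or.inl rfl) (by norm_num) (by norm_num) tb_2_28928 n (by omega) h
  rcases Nat.lt_or_ge n 29440 with h | h
  · exact numB_run 2 17 29184 256 (Or.inl rfl) (by norm_num) (by norm_num) tb_2_29184 n (by omega) h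
  rcases Nat.lt_or_ge n 29696 with h | h
  · exact numB_run 2 17 29440 256 (Or.inl rfl) (by norm_num) (by norm_num) tb_2_29440 n (by omega) h
  rcases Nat.lt_or_ge n 29952 with h | h
  · exact numB_run 2 17 29696 256 (Or.inl rfl) (by norm_num) (by norm_num) tb_2_29696 n (by omega) h
  rcases Nat.lt_or_ge n 30208 with h | h
  · exact numB_run 2 17 29952 256 (Or.inl rfl) (by norm_num) (by norm_num) tb_2_29952 n (by omega) h
  rcases Nat.lt_or_ge n 30464 with h | h
  · exact numB_run 2 17 30208 256 (Or.inl rfl) (by norm_num) (by norm_num) tb_2_30208 n (by omega) h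
  rcases Nat.lt_or_ge n 30720 with h | h
  · exact numB_run 2 17 30464 256 (Or.inl rfl) (by norm_num) (by norm_num) tb_2_30464 n (by omega) h
  rcases Nat.lt_or_ge n 30976 with h | h
  · exact numB_run 2 17 30720 256 (Or.inl rfl) (by norm_num) (by norm_num) tb_2_30720 n (by omega) h
  rcases Nat.lt_or_ge n 31232 with h | h
  · exact numB_run 2 17 30976 256 (Or.inl rfl) (by norm_num) (by norm_num) tb_2_30976 n (by omega) h
  rcases Nat.lt_or_ge n 31488 with h | h
  · exact numB_run 2 17 31232 256 (Or.inl rfl) (by norm_num) (by norm_num) tb_2_31232 n (by omega) h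
  rcases Nat.lt_or_ge n 31744 with h | h
  · exact numB_run 2 17 31488 256 (Or.inl rfl) (by norm_num) (by norm_num) tb_2_31488 n (by omega) h
  rcases Nat.lt_or_ge n 32000 with h | h
  · exact numB_run 2 17 31744 256 (Or.inl rfl) (by norm_num) (by norm_num) tb_2_31744 n (by omega) h
  rcases Nat.lt_or_ge n 32256 with h | h
  · exact numB_run 2 17 32000 256 (Or.inl rfl) (by norm_num) (by norm_num) tb_2_32000 n (by omega) h
  rcases Nat.lt_or_ge n 32512 with h | h
  · exact numB_run 2 17 32256 256 (Or.inl rfl) (by norm_num) (by norm_num) tb_2_32256 n (by omega) h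
  exact numB_run 2 17 32512 256 (Or.inl rfl) (by norm_num) (by norm_num) tb_2_32512 n (by omega) h2

theorem fin_high_2 (n : ℕ) (h1 : 32768 ≤ n) : PN 2 n := by
  rcases Nat.lt_or_ge n (2 ^ 80) with h | h
  · have hc : ∀ k < 80, 15 ≤ k → k ∈ lP2.map Prod.fst := by decide +kernel
    have h3 : Nat.log 2 n < 80 := Nat.log_lt_of_lt_pow (by omega) h
    have h4 : 15 ≤ Nat.log 2 n := Nat.le_log_of_pow_le (by norm_num) (by norm_num; omega)
    exact finu_P 2 (Or.inl rfl) _ tp_2 n (by omega) (hc _ h3 h4)
  · exact a4 2 n (Or.inl rfl) h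

theorem fin_2 (n : ℕ) (h3 : 3 ≤ n) : PN 2 n := by
  rcases Nat.lt_or_ge n 128 with h | h
  · exact fin_low_2 n h3 h
  rcases Nat.lt_or_ge n 32768 with h' | h'
  · exact fin_mid_2 n h h'
  exact fin_high_2 n h'

end Pool.Agent.MM2
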