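import Mathlib
import Pool.Agent.MM2.NDefs

/-!
The checks `chkB`.
-/

namespace Pool.Agent.MM2

theorem tb_3_65 : runB 3 4 (tab.take 4) 65 13 = true := by decide +kernel

theorem tb_3_79 : runB 3 4 (tab.take 4) 79 1 = true := by decide +kernel

theorem tb_3_81 : runB 3 5 (tab.take 5) 81 79 = true := by decide +kernel

theorem tb_3_161 : runB 3 5 (tab.take 5) 161 82 = true := by decide +kernel

theorem tb_3_243 : runB 3 6 (tab.take 6) 243 256 = true := by decide +kernel

theorem tb_3_499 : runB 3 6 (tab.take 6) 499 230 = true := by decide +kernel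

theorem tb_3_729 : runB 3 7 (tab.take 7) 729 256 = true := by decide +kernel

theorem tb_3_985 : runB 3 7 (tab.take 7) 985 256 = true := by decide +kernel

theorem tb_3_1241 : runB 3 7 (tab.take 7) 1241 256 = true := by decide +kernel

theorem tb_3_1497 : runB 3 7 (tab.take 7) 1497 256 = true := by decide +kernel

theorem tb_3_1753 : runB 3 7 (tab.take 7) 1753 256 = true := by decide +kernel

theorem tb_3_2009 : runB 3 7 (tab.take 7) 2009 178 = true := by decide +kernel

theorem tb_3_2187 : runB 3 8 (tab.take 8) 2187 256 = true := by decide +kernel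

theorem tb_3_2443 : runB 3 8 (tab.take 8) 2443 256 = true := by decide +kernel

theorem tb_3_2699 : runB 3 8 (tab.take 8) 2699 256 = true := by decide +kernel

theorem tb_3_2955 : runB 3 8 (tab.take 8) 2955 256 = true := by decide +kernel

theorem tb_3_3211 : runB 3 8 (tab.take 8) 3211 256 = true := by decide +kernel

theorem tb_3_3467 : runB 3 8 (tab.take 8) 3467 256 = true := by decide +kernel

theorem tb_3_3723 : runB 3 8 (tab.take 8) 3723 256 = true := by decide +kernel

theorem tb_3_3979 : runB 3 8 (tab.take 8) 3979 117 = true := by decide +kernel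

theorem tb_5_50 : runB 5 3 (tab.take 3) 50 75 = true := by decide +kernel

theorem tb_5_125 : runB 5 4 (tab.take 4) 125 31 = true := by decide +kernel

theorem tb_5_157 : runB 5 4 (tab.take 4) 157 51 = true := by decide +kernel

theorem tb_5_209 : runB 5 4 (tab.take 4) 209 256 = true := by decide +kernel

theorem tb_5_465 : runB 5 4 (tab.take 4) 465 160 = true := by decide +kernel

theorem tb_5_625 : runB 5 5 (tab.take 5) 625 256 = true := by decide +kernel

theorem tb_5_881 : runB 5 5 (tab.take 5) 881 143 = true := by decide +kernel

theorem tb_7_25 : runB 7 2 (tab.take 2) 25 7 = true := by decide +kernel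

theorem tb_7_33 : runB 7 2 (tab.take 2) 33 15 = true := by decide +kernel

theorem tb_7_49 : runB 7 3 (tab.take 3) 49 8 = true := by decide +kernel

theorem tb_7_58 : runB 7 3 (tab.take 3) 58 70 = true := by decide +kernel

theorem tb_11_61 : runB 11 2 (tab.take 2) 61 60 = true := by decide +kernel

theorem tb_11_121 : runB 11 3 (tab.take 3) 121 256 = true := by decide +kernel

theorem tb_11_377 : runB 11 3 (tab.take 3) 377 135 = true := by decide +kernel

theorem tb_13_61 : runB 13 2 (tab.take 2) 61 108 = true := by decide +kernel

theorem tb_13_169 : runB 13 3 (tab.take 3) 169 256 = true := by decide +kernel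

theorem tb_13_425 : runB 13 3 (tab.take 3) 425 87 = true := by decide +kernel


end Pool.Agent.MM2
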