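import Mathlib
import Pool.Agent.MM2.FINU
import Pool.Agent.MM2.TABA
import Pool.Agent.MM2.TBO
import Pool.Agent.MM2.TABP
import Pool.Agent.MM2.A2
import Pool.Agent.MM2.A4
import Pool.Agent.MM2.EXPF
import Pool.Agent.MM2.EXPG
import Pool.Agent.MM2.EXPH

/-!
The fields with 3, 5, 7, 11, 13 elements.
-/

namespace Pool.Agent.MM2

theorem fin_low_3 (n : ℕ) (h3 : 3 ≤ n) (h : n < 64) : PN 3 n := by
  have hc : ∀ n < 64, 3 ≤ n → (n ∈ [3, 4, 5, 6, 7, 8, 10, 12, 16] ∨ n ∈ lA3.map Prod.fst) := by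
    decide +kernel
  rcases hc n h h3 with h1 | h1
  · simp only [List.mem_cons, List.not_mem_nil, or_false] at h1
    rcases h1 with h1 | h1 | h1 | h1 | h1 | h1 | h1 | h1 | h1
    · subst h1; exact ex_3_3
    · subst h1; exact ex_3_4
    · subst h1; exact ex_3_5
    · subst h1; exact ex_3_6
    · subst h1; exact ex_3_7
    · subst h1; exact ex_3_8
    · subst h1; exact ex_3_10
    · subst h1; exact ex_3_12
    · subst h1; exact ex_3_16
  · exact finu_A 3 (Or.inr (Or.inl rfl)) _ ta_3 n (by omega) h1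

theorem fin_mid_3 (n : ℕ) (h1 : 64 ≤ n) (h2 : n < 4096) : PN 3 n := by
  rcases Nat.lt_or_ge n 65 with h | h
  · have : n = 64 := by omega
    subst this
    exact finu_A 3 (Or.inr (Or.inl rfl)) _ ta_3 64 (by norm_num) (by decide)
  rcases Nat.lt_or_ge n 78 with h | h
  · exact numB_run 3 4 65 13 (Or.inr (Or.inl rfl)) (by norm_num) (by norm_num) tb_3_65 n (by omega) h
  rcases Nat.lt_or_ge n 79 with h | h
  · have : n = 78 := by omega
    subst this
    exact finu_A 3 (Or.inr (Or.inl rfl)) _ ta_3 78 (by norm_num) (by decide)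
  rcases Nat.lt_or_ge n 80 with h | h
  · exact numB_run 3 4 79 1 (Or.inr (Or.inl rfl)) (by norm_num) (by norm_num) tb_3_79 n (by omega) h
  rcases Nat.lt_or_ge n 81 with h | h
  · have : n = 80 := by omega
    subst this
    exact finu_A 3 (Or.inr (Or.inl rfl)) _ ta_3 80 (by norm_num) (by decide)
  rcases Nat.lt_or_ge n 160 with h | h
  · exact numB_run 3 5 81 79 (Or.inr (Or.inl rfl)) (by norm_num) (by norm_num) tb_3_81 n (by omega) h
  rcases Nat.lt_or_ge n 161 with h | h
  · have : n = 160 := by omega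
    subst this
    exact finu_A 3 (Or.inr (Or.inl rfl)) _ ta_3 160 (by norm_num) (by decide)
  rcases Nat.lt_or_ge n 243 with h | h
  · exact numB_run 3 5 161 82 (Or.inr (Or.inl rfl)) (by norm_num) (by norm_num) tb_3_161 n (by omega) h
  rcases Nat.lt_or_ge n 499 with h | h
  · exact numB_run 3 6 243 256 (Or.inr (Or.inl rfl)) (by norm_num) (by norm_num) tb_3_243 n (by omega) h
  rcases Nat.lt_or_ge n 729 with h | h
  · exact numB_run 3 6 499 230 (Or.inr (Or.inl rfl)) (by norm_num) (by norm_num) tb_3_499 n (by omega) h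
  rcases Nat.lt_or_ge n 985 with h | h
  · exact numB_run 3 7 729 256 (Or.inr (Or.inl rfl)) (by norm_num) (by norm_num) tb_3_729 n (by omega) h
  rcases Nat.lt_or_ge n 1241 with h | h
  · exact numB_run 3 7 985 256 (Or.inr (Or.inl rfl)) (by norm_num) (by norm_num) tb_3_985 n (by omega) h
  rcases Nat.lt_or_ge n 1497 with h | h
  · exact numB_run 3 7 1241 256 (Or.inr (Or.inl rfl)) (by norm_num) (by norm_num) tb_3_1241 n (by omega) h
  rcases Nat.lt_or_ge n 1753 with h | h
  · exact numB_run 3 7 1497 256 (Or.inr (Or.inl rfl)) (by norm_num) (by norm_num) tb_3_1497 n (by omega) h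
  rcases Nat.lt_or_ge n 2009 with h | h
  · exact numB_run 3 7 1753 256 (Or.inr (Or.inl rfl)) (by norm_num) (by norm_num) tb_3_1753 n (by omega) h
  rcases Nat.lt_or_ge n 2187 with h | h
  · exact numB_run 3 7 2009 178 (Or.inr (Or.inl rfl)) (by norm_num) (by norm_num) tb_3_2009 n (by omega) h
  rcases Nat.lt_or_ge n 2443 with h | h
  · exact numB_run 3 8 2187 256 (Or.inr (Or.inl rfl)) (by norm_num) (by norm_num) tb_3_2187 n (by omega) h
  rcases Nat.lt_or_ge n 2699 with h | h
  · exact numB_run 3 8 2443 256 (Or.inr (Or.inl rfl)) (by norm_num) (by norm_num) tb_3_2443 n (by omega) h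
  rcases Nat.lt_or_ge n 2955 with h | h
  · exact numB_run 3 8 2699 256 (Or.inr (Or.inl rfl)) (by norm_num) (by norm_num) tb_3_2699 n (by omega) h
  rcases Nat.lt_or_ge n 3211 with h | h
  · exact numB_run 3 8 2955 256 (Or.inr (Or.inl rfl)) (by norm_num) (by norm_num) tb_3_2955 n (by omega) h
  rcases Nat.lt_or_ge n 3467 with h | h
  · exact numB_run 3 8 3211 256 (Or.inr (Or.inl rfl)) (by norm_num) (by norm_num) tb_3_3211 n (by omega) h
  rcases Nat.lt_or_ge n 3723 with h | h
  · exact numB_run 3 8 3467 256 (Or.inr (Or.inl rfl)) (by norm_num) (by norm_num) tb_3_3467 n (by omega) h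
  rcases Nat.lt_or_ge n 3979 with h | h
  · exact numB_run 3 8 3723 256 (Or.inr (Or.inl rfl)) (by norm_num) (by norm_num) tb_3_3723 n (by omega) h
  exact numB_run 3 8 3979 117 (Or.inr (Or.inl rfl)) (by norm_num) (by norm_num) tb_3_3979 n (by omega) h2

theorem fin_high_3 (n : ℕ) (h1 : 4096 ≤ n) : PN 3 n := by
  rcases Nat.lt_or_ge n (2 ^ 80) with h | h
  · have hc : ∀ k < 80, 12 ≤ k → k ∈ lP3.map Prod.fst := by decide +kernel
    have h3 : Nat.log 2 n < 80 := Nat.log_lt_of_lt_pow (by omega) h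
    have h4 : 12 ≤ Nat.log 2 n := Nat.le_log_of_pow_le (by norm_num) (by norm_num; omega)
    exact finu_P 3 (Or.inr (Or.inl rfl)) _ tp_3 n (by omega) (hc _ h3 h4)
  · exact a4 3 n (Or.inr (Or.inl rfl)) h

theorem fin_3 (n : ℕ) (h3 : 3 ≤ n) : PN 3 n := by
  rcases Nat.lt_or_ge n 64 with h | h
  · exact fin_low_3 n h3 h
  rcases Nat.lt_or_ge n 4096 with h' | h'
  · exact fin_mid_3 n h h'
  exact fin_high_3 n h'

theorem fin_low_5 (n : ℕ) (h3 : 3 ≤ n) (h : n < 50) : PN 5 n := by
  have hc : ∀ n < 50, 3 ≤ n → (n ∈ [3, 4, 5, 6, 8, 12] ∨ n ∈ lA5.map Prod.fst) := by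
    decide +kernel
  rcases hc n h h3 with h1 | h1
  · simp only [List.mem_cons, List.not_mem_nil, or_false] at h1
    rcases h1 with h1 | h1 | h1 | h1 | h1 | h1
    · subst h1; exact ex_5_3
    · subst h1; exact ex_5_4
    · subst h1; exact ex_5_5
    · subst h1; exact ex_5_6
    · subst h1; exact ex_5_8
    · subst h1; exact ex_5_12
  · exact finu_A 5 (Or.inr (Or.inr (by norm_num))) _ ta_5 n (by omega) h1

theorem fin_mid_5 (n : ℕ) (h1 : 50 ≤ n) (h2 : n < 1024) : PN 5 n := by
  rcases Nat.lt_or_ge n 125 with h | h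
  · exact numB_run 5 3 50 75 (Or.inr (Or.inr (by norm_num))) (by norm_num) (by norm_num) tb_5_50 n (by omega) h
  rcases Nat.lt_or_ge n 156 with h | h
  · exact numB_run 5 4 125 31 (Or.inr (Or.inr (by norm_num))) (by norm_num) (by norm_num) tb_5_125 n (by omega) h
  rcases Nat.lt_or_ge n 157 with h | h
  · have : n = 156 := by omega
    subst this
    exact finu_A 5 (Or.inr (Or.inr (by norm_num))) _ ta_5 156 (by norm_num) (by decide)
  rcases Nat.lt_or_ge n 208 with h | h
  · exact numB_run 5 4 157 51 (Or.inr (Or.inr (by norm_num))) (by norm_num) (by norm_num) tb_5_157 n (by omega) h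
  rcases Nat.lt_or_ge n 209 with h | h
  · have : n = 208 := by omega
    subst this
    exact finu_A 5 (Or.inr (Or.inr (by norm_num))) _ ta_5 208 (by norm_num) (by decide)
  rcases Nat.lt_or_ge n 465 with h | h
  · exact numB_run 5 4 209 256 (Or.inr (Or.inr (by norm_num))) (by norm_num) (by norm_num) tb_5_209 n (by omega) h
  rcases Nat.lt_or_ge n 625 with h | h
  · exact numB_run 5 4 465 160 (Or.inr (Or.inr (by norm_num))) (by norm_num) (by norm_num) tb_5_465 n (by omega) h
  rcases Nat.lt_or_ge n 881 with h | h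
  · exact numB_run 5 5 625 256 (Or.inr (Or.inr (by norm_num))) (by norm_num) (by norm_num) tb_5_625 n (by omega) h
  exact numB_run 5 5 881 143 (Or.inr (Or.inr (by norm_num))) (by norm_num) (by norm_num) tb_5_881 n (by omega) h2

theorem fin_high_5 (n : ℕ) (h1 : 1024 ≤ n) : PN 5 n := by
  rcases Nat.lt_or_ge n (2 ^ 80) with h | h
  · have hc : ∀ k < 80, 10 ≤ k → k ∈ lP5.map Prod.fst := by decide +kernel
    have h3 : Nat.log 2 n < 80 := Nat.log_lt_of_lt_pow (by omega) h
    have h4 : 10 ≤ Nat.log 2 n := Nat.le_log_of_pow_le (by norm_num) (by norm_num; omega)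
    exact finu_P 5 (Or.inr (Or.inr (Or.inl rfl))) _ tp_5 n (by omega) (hc _ h3 h4)
  · exact a4 5 n (Or.inr (Or.inr (Or.inl rfl))) h

theorem fin_5 (n : ℕ) (h3 : 3 ≤ n) : PN 5 n := by
  rcases Nat.lt_or_ge n 50 with h | h
  · exact fin_low_5 n h3 h
  rcases Nat.lt_or_ge n 1024 with h' | h'
  · exact fin_mid_5 n h h'
  exact fin_high_5 n h'

theorem fin_low_7 (n : ℕ) (h3 : 3 ≤ n) (h : n < 25) : PN 7 n := by
  have hc : ∀ n < 25, 3 ≤ n → (n ∈ [3, 4, 6] ∨ n ∈ lA7.map Prod.fst) := by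
    decide +kernel
  rcases hc n h h3 with h1 | h1
  · simp only [List.mem_cons, List.not_mem_nil, or_false] at h1
    rcases h1 with h1 | h1 | h1
    · subst h1; exact ex_7_3
    · subst h1; exact ex_7_4
    · subst h1; exact ex_7_6
  · exact finu_A 7 (Or.inr (Or.inr (by norm_num))) _ ta_7 n (by omega) h1

theorem fin_mid_7 (n : ℕ) (h1 : 25 ≤ n) (h2 : n < 128) : PN 7 n := by
  rcases Nat.lt_or_ge n 32 with h | h
  · exact numB_run 7 2 25 7 (Or.inr (Or.inr (by norm_num))) (by norm_num) (by norm_num) tb_7_25 n (by omega) h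
  rcases Nat.lt_or_ge n 33 with h | h
  · have : n = 32 := by omega
    subst this
    exact finu_A 7 (Or.inr (Or.inr (by norm_num))) _ ta_7 32 (by norm_num) (by decide)
  rcases Nat.lt_or_ge n 48 with h | h
  · exact numB_run 7 2 33 15 (Or.inr (Or.inr (by norm_num))) (by norm_num) (by norm_num) tb_7_33 n (by omega) h
  rcases Nat.lt_or_ge n 49 with h | h
  · have : n = 48 := by omega
    subst this
    exact finu_A 7 (Or.inr (Or.inr (by norm_num))) _ ta_7 48 (by norm_num) (by decide)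
  rcases Nat.lt_or_ge n 57 with h | h
  · exact numB_run 7 3 49 8 (Or.inr (Or.inr (by norm_num))) (by norm_num) (by norm_num) tb_7_49 n (by omega) h
  rcases Nat.lt_or_ge n 58 with h | h
  · have : n = 57 := by omega
    subst this
    exact finu_A 7 (Or.inr (Or.inr (by norm_num))) _ ta_7 57 (by norm_num) (by decide)
  exact numB_run 7 3 58 70 (Or.inr (Or.inr (by norm_num))) (by norm_num) (by norm_num) tb_7_58 n (by omega) h2

theorem fin_high_7 (n : ℕ) (h1 : 128 ≤ n) : PN 7 n := by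
  rcases Nat.lt_or_ge n (2 ^ 80) with h | h
  · have hc : ∀ k < 80, 7 ≤ k → k ∈ lP7.map Prod.fst := by decide +kernel
    have h3 : Nat.log 2 n < 80 := Nat.log_lt_of_lt_pow (by omega) h
    have h4 : 7 ≤ Nat.log 2 n := Nat.le_log_of_pow_le (by norm_num) (by norm_num; omega)
    exact finu_P 7 (Or.inr (Or.inr (Or.inr rfl))) _ tp_7 n (by omega) (hc _ h3 h4)
  · exact a4 7 n (Or.inr (Or.inr (Or.inr rfl))) h

theorem fin_7 (n : ℕ) (h3 : 3 ≤ n) : PN 7 n := by
  rcases Nat.lt_or_ge n 25 with h | h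
  · exact fin_low_7 n h3 h
  rcases Nat.lt_or_ge n 128 with h' | h'
  · exact fin_mid_7 n h h'
  exact fin_high_7 n h'

theorem fin_low_11 (n : ℕ) (h3 : 3 ≤ n) (h : n < 61) : PN 11 n := by
  have hc : ∀ n < 61, 3 ≤ n → (n ∈ [3, 4] ∨ n ∈ lA11.map Prod.fst) := by
    decide +kernel
  rcases hc n h h3 with h1 | h1
  · simp only [List.mem_cons, List.not_mem_nil, or_false] at h1
    rcases h1 with h1 | h1
    · subst h1; exact ex_11_3
    · subst h1; exact ex_11_4
  · exact finu_A 11 (Or.inr (Or.inr (by norm_num))) _ ta_11 n (by omega) h1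

theorem fin_mid_11 (n : ℕ) (h1 : 61 ≤ n) (h2 : n < 512) : PN 11 n := by
  rcases Nat.lt_or_ge n 121 with h | h
  · exact numB_run 11 2 61 60 (Or.inr (Or.inr (by norm_num))) (by norm_num) (by norm_num) tb_11_61 n (by omega) h
  rcases Nat.lt_or_ge n 377 with h | h
  · exact numB_run 11 3 121 256 (Or.inr (Or.inr (by norm_num))) (by norm_num) (by norm_num) tb_11_121 n (by omega) h
  exact numB_run 11 3 377 135 (Or.inr (Or.inr (by norm_num))) (by norm_num) (by norm_num) tb_11_377 n (by omega) h2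

theorem fin_11 (n : ℕ) (h3 : 3 ≤ n) : PN 11 n := by
  rcases Nat.lt_or_ge n 61 with h | h
  · exact fin_low_11 n h3 h
  rcases Nat.lt_or_ge n 512 with h' | h'
  · exact fin_mid_11 n h h'
  exact a2 11 n (Or.inr (Or.inr ⟨by norm_num, h'⟩))

theorem fin_low_13 (n : ℕ) (h3 : 3 ≤ n) (h : n < 61) : PN 13 n := by
  have hc : ∀ n < 61, 3 ≤ n → (n ∈ [3, 4] ∨ n ∈ lA13.map Prod.fst) := by
    decide +kernel
  rcases hc n h h3 with h1 | h1
  · simp only [List.mem_cons, List.not_mem_nil, or_false] at h1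
    rcases h1 with h1 | h1
    · subst h1; exact ex_13_3
    · subst h1; exact ex_13_4
  · exact finu_A 13 (Or.inr (Or.inr (by norm_num))) _ ta_13 n (by omega) h1

theorem fin_mid_13 (n : ℕ) (h1 : 61 ≤ n) (h2 : n < 512) : PN 13 n := by
  rcases Nat.lt_or_ge n 169 with h | h
  · exact numB_run 13 2 61 108 (Or.inr (Or.inr (by norm_num))) (by norm_num) (by norm_num) tb_13_61 n (by omega) h
  rcases Nat.lt_or_ge n 425 with h | h
  · exact numB_run 13 3 169 256 (Or.inr (Or.inr (by norm_num))) (by norm_num) (by norm_num) tb_13_169 n (by omega) h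
  exact numB_run 13 3 425 87 (Or.inr (Or.inr (by norm_num))) (by norm_num) (by norm_num) tb_13_425 n (by omega) h2

theorem fin_13 (n : ℕ) (h3 : 3 ≤ n) : PN 13 n := by
  rcases Nat.lt_or_ge n 61 with h | h
  · exact fin_low_13 n h3 h
  rcases Nat.lt_or_ge n 512 with h' | h'
  · exact fin_mid_13 n h h'
  exact a2 13 n (Or.inr (Or.inr ⟨by norm_num, h'⟩))

end Pool.Agent.MM2
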