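import Mathlib
import Pool.Agent.MM2.FINU
import Pool.Agent.MM2.TABA
import Pool.Agent.MM2.A1
import Pool.Agent.MM2.A2

/-!
The prime fields with at least 17 elements.
-/

namespace Pool.Agent.MM2

theorem fin_t_17 (n : ℕ) (h3 : 3 ≤ n) (h : n < 64) : PN 17 n := by
  have hc : ∀ n < 64, 3 ≤ n → n ∈ lA17.map Prod.fst := by decide +kernel
  exact finu_A 17 (Or.inr (Or.inr (by norm_num))) _ ta_17 n (by omega) (hc n h h3)

theorem fin_t_19 (n : ℕ) (h3 : 3 ≤ n) (h : n < 64) : PN 19 n := by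
  have hc : ∀ n < 64, 3 ≤ n → n ∈ lA19.map Prod.fst := by decide +kernel
  exact finu_A 19 (Or.inr (Or.inr (by norm_num))) _ ta_19 n (by omega) (hc n h h3)

theorem fin_t_23 (n : ℕ) (h3 : 3 ≤ n) (h : n < 64) : PN 23 n := by
  have hc : ∀ n < 64, 3 ≤ n → n ∈ lA23.map Prod.fst := by decide +kernel
  exact finu_A 23 (Or.inr (Or.inr (by norm_num))) _ ta_23 n (by omega) (hc n h h3)

theorem fin_t_29 (n : ℕ) (h3 : 3 ≤ n) (h : n < 64) : PN 29 n := by
  have hc : ∀ n < 64, 3 ≤ n → n ∈ lA29.map Prod.fst := by decide +kernel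
  exact finu_A 29 (Or.inr (Or.inr (by norm_num))) _ ta_29 n (by omega) (hc n h h3)

theorem fin_t_31 (n : ℕ) (h3 : 3 ≤ n) (h : n < 64) : PN 31 n := by
  have hc : ∀ n < 64, 3 ≤ n → n ∈ lA31.map Prod.fst := by decide +kernel
  exact finu_A 31 (Or.inr (Or.inr (by norm_num))) _ ta_31 n (by omega) (hc n h h3)

theorem fin_t_37 (n : ℕ) (h3 : 3 ≤ n) (h : n < 32) : PN 37 n := by
  have hc : ∀ n < 32, 3 ≤ n → n ∈ lA37.map Prod.fst := by decide +kernel
  exact finu_A 37 (Or.inr (Or.inr (by norm_num))) _ ta_37 n (by omega) (hc n h h3)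

theorem fin_t_41 (n : ℕ) (h3 : 3 ≤ n) (h : n < 32) : PN 41 n := by
  have hc : ∀ n < 32, 3 ≤ n → n ∈ lA41.map Prod.fst := by decide +kernel
  exact finu_A 41 (Or.inr (Or.inr (by norm_num))) _ ta_41 n (by omega) (hc n h h3)

theorem fin_t_43 (n : ℕ) (h3 : 3 ≤ n) (h : n < 32) : PN 43 n := by
  have hc : ∀ n < 32, 3 ≤ n → n ∈ lA43.map Prod.fst := by decide +kernel
  exact finu_A 43 (Or.inr (Or.inr (by norm_num))) _ ta_43 n (by omega) (hc n h h3)

theorem fin_t_47 (n : ℕ) (h3 : 3 ≤ n) (h : n < 32) : PN 47 n := by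
  have hc : ∀ n < 32, 3 ≤ n → n ∈ lA47.map Prod.fst := by decide +kernel
  exact finu_A 47 (Or.inr (Or.inr (by norm_num))) _ ta_47 n (by omega) (hc n h h3)

theorem fin_t_53 (n : ℕ) (h3 : 3 ≤ n) (h : n < 32) : PN 53 n := by
  have hc : ∀ n < 32, 3 ≤ n → n ∈ lA53.map Prod.fst := by decide +kernel
  exact finu_A 53 (Or.inr (Or.inr (by norm_num))) _ ta_53 n (by omega) (hc n h h3)

theorem fin_t_59 (n : ℕ) (h3 : 3 ≤ n) (h : n < 32) : PN 59 n := by
  have hc : ∀ n < 32, 3 ≤ n → n ∈ lA59.map Prod.fst := by decide +kernel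
  exact finu_A 59 (Or.inr (Or.inr (by norm_num))) _ ta_59 n (by omega) (hc n h h3)

theorem fin_t_61 (n : ℕ) (h3 : 3 ≤ n) (h : n < 32) : PN 61 n := by
  have hc : ∀ n < 32, 3 ≤ n → n ∈ lA61.map Prod.fst := by decide +kernel
  exact finu_A 61 (Or.inr (Or.inr (by norm_num))) _ ta_61 n (by omega) (hc n h h3)

theorem fin_t_67 (n : ℕ) (h3 : 3 ≤ n) (h : n < 32) : PN 67 n := by
  have hc : ∀ n < 32, 3 ≤ n → n ∈ lA67.map Prod.fst := by decide +kernel
  exact finu_A 67 (Or.inr (Or.inr (by norm_num))) _ ta_67 n (by omega) (hc n h h3)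

theorem fin_t_71 (n : ℕ) (h3 : 3 ≤ n) (h : n < 32) : PN 71 n := by
  have hc : ∀ n < 32, 3 ≤ n → n ∈ lA71.map Prod.fst := by decide +kernel
  exact finu_A 71 (Or.inr (Or.inr (by norm_num))) _ ta_71 n (by omega) (hc n h h3)

theorem fin_t_73 (n : ℕ) (h3 : 3 ≤ n) (h : n < 32) : PN 73 n := by
  have hc : ∀ n < 32, 3 ≤ n → n ∈ lA73.map Prod.fst := by decide +kernel
  exact finu_A 73 (Or.inr (Or.inr (by norm_num))) _ ta_73 n (by omega) (hc n h h3)

theorem fin_t_79 (n : ℕ) (h3 : 3 ≤ n) (h : n < 32) : PN 79 n := by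
  have hc : ∀ n < 32, 3 ≤ n → n ∈ lA79.map Prod.fst := by decide +kernel
  exact finu_A 79 (Or.inr (Or.inr (by norm_num))) _ ta_79 n (by omega) (hc n h h3)

theorem fin_t_83 (n : ℕ) (h3 : 3 ≤ n) (h : n < 32) : PN 83 n := by
  have hc : ∀ n < 32, 3 ≤ n → n ∈ lA83.map Prod.fst := by decide +kernel
  exact finu_A 83 (Or.inr (Or.inr (by norm_num))) _ ta_83 n (by omega) (hc n h h3)

theorem fin_t_89 (n : ℕ) (h3 : 3 ≤ n) (h : n < 32) : PN 89 n := by
  have hc : ∀ n < 32, 3 ≤ n → n ∈ lA89.map Prod.fst := by decide +kernel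
  exact finu_A 89 (Or.inr (Or.inr (by norm_num))) _ ta_89 n (by omega) (hc n h h3)

theorem fin_t_97 (n : ℕ) (h3 : 3 ≤ n) (h : n < 32) : PN 97 n := by
  have hc : ∀ n < 32, 3 ≤ n → n ∈ lA97.map Prod.fst := by decide +kernel
  exact finu_A 97 (Or.inr (Or.inr (by norm_num))) _ ta_97 n (by omega) (hc n h h3)

theorem fin_t_101 (n : ℕ) (h3 : 3 ≤ n) (h : n < 32) : PN 101 n := by
  have hc : ∀ n < 32, 3 ≤ n → n ∈ lA101.map Prod.fst := by decide +kernel
  exact finu_A 101 (Or.inr (Or.inr (by norm_num))) _ ta_101 n (by omega) (hc n h h3)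

theorem fin_t_103 (n : ℕ) (h3 : 3 ≤ n) (h : n < 32) : PN 103 n := by
  have hc : ∀ n < 32, 3 ≤ n → n ∈ lA103.map Prod.fst := by decide +kernel
  exact finu_A 103 (Or.inr (Or.inr (by norm_num))) _ ta_103 n (by omega) (hc n h h3)

theorem fin_t_107 (n : ℕ) (h3 : 3 ≤ n) (h : n < 32) : PN 107 n := by
  have hc : ∀ n < 32, 3 ≤ n → n ∈ lA107.map Prod.fst := by decide +kernel
  exact finu_A 107 (Or.inr (Or.inr (by norm_num))) _ ta_107 n (by omega) (hc n h h3)

theorem fin_t_109 (n : ℕ) (h3 : 3 ≤ n) (h : n < 32) : PN 109 n := by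
  have hc : ∀ n < 32, 3 ≤ n → n ∈ lA109.map Prod.fst := by decide +kernel
  exact finu_A 109 (Or.inr (Or.inr (by norm_num))) _ ta_109 n (by omega) (hc n h h3)

theorem fin_t_113 (n : ℕ) (h3 : 3 ≤ n) (h : n < 32) : PN 113 n := by
  have hc : ∀ n < 32, 3 ≤ n → n ∈ lA113.map Prod.fst := by decide +kernel
  exact finu_A 113 (Or.inr (Or.inr (by norm_num))) _ ta_113 n (by omega) (hc n h h3)

theorem fin_t_127 (n : ℕ) (h3 : 3 ≤ n) (h : n < 32) : PN 127 n := by
  have hc : ∀ n < 32, 3 ≤ n → n ∈ lA127.map Prod.fst := by decide +kernel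
  exact finu_A 127 (Or.inr (Or.inr (by norm_num))) _ ta_127 n (by omega) (hc n h h3)

theorem fin_three (q : ℕ) (h1 : 131 ≤ q) (h2 : q < 283) (hq : q.Prime) : PN q 3 := by
  have hc : ∀ q < 283, 131 ≤ q → (q ∈ lA0.map Prod.fst ∨ ∃ d ∈ [2, 3, 5, 7, 11, 13], q % d = 0) := by
    decide +kernel
  rcases hc q h2 h1 with h | h
  · obtain ⟨x, hx, rfl⟩ := List.mem_map.1 h
    have h3 := List.all_eq_true.1 ta_0 x hx
    have h4 : ∀ x ∈ lA0, (3 : ℕ) ∈ x.2.map Prod.fst := by decide +kernel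
    exact finu_A x.1 (Or.inr (Or.inr (by omega))) _ h3 3 (by norm_num) (h4 x hx)
  · exfalso
    obtain ⟨d, hd, h3⟩ := h
    have h4 := (Nat.dvd_prime hq).1 (Nat.dvd_of_mod_eq_zero h3)
    simp only [List.mem_cons, List.not_mem_nil, or_false] at hd
    omega

theorem fin_mid_primes (q n : ℕ) (h1 : 17 ≤ q) (h2 : q < 131) (hq : q.Prime) (h3 : 3 ≤ n)
    (h : n < 32 ∨ (n < 64 ∧ q ≤ 31)) : PN q n := by
  have hc : ∀ q < 131, 17 ≤ q → (q ∈ [17, 19, 23, 29, 31, 37, 41, 43, 47, 53, 59, 61, 67, 71, 73, 79, 83, 89, 97, 101, 103, 107, 109, 113, 127] ∨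
      ∃ d ∈ [2, 3, 5, 7, 11], q % d = 0) := by decide +kernel
  rcases hc q h2 h1 with h5 | h5
  · simp only [List.mem_cons, List.not_mem_nil, or_false] at h5
    rcases h5 with rfl | rfl | rfl | rfl | rfl | rfl | rfl | rfl | rfl | rfl | rfl | rfl | rfl | rfl | rfl | rfl | rfl | rfl | rfl | rfl | rfl | rfl | rfl | rfl | rfl
    · exact fin_t_17 n h3 (by omega)
    · exact fin_t_19 n h3 (by omega)
    · exact fin_t_23 n h3 (by omega)
    · exact fin_t_29 n h3 (by omega)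
    · exact fin_t_31 n h3 (by omega)
    · exact fin_t_37 n h3 (by omega)
    · exact fin_t_41 n h3 (by omega)
    · exact fin_t_43 n h3 (by omega)
    · exact fin_t_47 n h3 (by omega)
    · exact fin_t_53 n h3 (by omega)
    · exact fin_t_59 n h3 (by omega)
    · exact fin_t_61 n h3 (by omega)
    · exact fin_t_67 n h3 (by omega)
    · exact fin_t_71 n h3 (by omega)
    · exact fin_t_73 n h3 (by omega)
    · exact fin_t_79 n h3 (by omega)
    · exact fin_t_83 n h3 (by omega)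
    · exact fin_t_89 n h3 (by omega)
    · exact fin_t_97 n h3 (by omega)
    · exact fin_t_101 n h3 (by omega)
    · exact fin_t_103 n h3 (by omega)
    · exact fin_t_107 n h3 (by omega)
    · exact fin_t_109 n h3 (by omega)
    · exact fin_t_113 n h3 (by omega)
    · exact fin_t_127 n h3 (by omega)
  · exfalso
    obtain ⟨d, hd, h3⟩ := h5
    have h4 := (Nat.dvd_prime hq).1 (Nat.dvd_of_mod_eq_zero h3)
    simp only [List.mem_cons, List.not_mem_nil, or_false] at hd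
    omega

theorem fin_big (q n : ℕ) (hq : q.Prime) (h1 : 17 ≤ q) (h3 : 3 ≤ n) : PN q n := by
  rcases Nat.lt_or_ge n 64 with h | h
  · rcases Nat.lt_or_ge n 32 with h' | h'
    · rcases Nat.lt_or_ge q 131 with h2 | h2
      · exact fin_mid_primes q n h1 h2 hq h3 (Or.inl h')
      · rcases Nat.lt_or_ge n 4 with h4 | h4
        · have : n = 3 := by omega
          subst this
          rcases Nat.lt_or_ge q 283 with h5 | h5
          · exact fin_three q h2 h5 hq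
          · exact a1 q 3 (Or.inl ⟨rfl, h5⟩)
        · exact a1 q n (Or.inr ⟨h4, by omega, h2⟩)
    · rcases Nat.lt_or_ge q 37 with h2 | h2
      · have h5 : q ≤ 31 := by
          by_contra h6
          have h7 : q = 32 ∨ q = 33 ∨ q = 34 ∨ q = 35 ∨ q = 36 := by omega
          rcases h7 with rfl | rfl | rfl | rfl | rfl <;> norm_num at hq
        exact fin_mid_primes q n h1 (by omega) hq h3 (Or.inr ⟨h, h5⟩)
      · exact a2 q n (Or.inr (Or.inl ⟨h2, h'⟩))
  · exact a2 q n (Or.inl ⟨h1, h⟩)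

end Pool.Agent.MM2
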