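import Mathlib
import Pool.Agent.MM2.Defs

/-!
Reduction to prime fields; degree two.
-/

namespace Pool.Agent.MM2

open Finset Polynomial Pool.Agent.MM

/-- a generator of the multiplicative group, with its order -/
theorem fld_prim (L : Type) [Field L] [Finite L] :
    ∃ x : L, x ≠ 0 ∧ Prim x ∧ ∀ k : ℕ, x ^ k = 1 → Nat.card L - 1 ∣ k := by
  classical
  have : Fintype L := Fintype.ofFinite L
  obtain ⟨g, hg⟩ := IsCyclic.exists_generator (α := Lˣ)
  refine ⟨g, g.ne_zero, ?_, ?_⟩
  · intro y hy
    obtain ⟨k, hk⟩ := (IsOfFinOrder.mem_powers_iff_mem_zpowers (isOfFinOrder_of_finite g)).2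
      (hg (Units.mk0 y hy))
    refine ⟨k, ?_⟩
    have h1 := congrArg (fun u : Lˣ => (u : L)) hk
    simpa using h1
  · intro k hk
    have h1 : g ^ k = 1 := by
      apply Units.ext
      rw [Units.val_pow_eq_pow_val, hk, Units.val_one]
    have h2 := orderOf_dvd_of_pow_eq_one h1
    have h3 : orderOf g = Nat.card L - 1 := by
      rw [orderOf_eq_card_of_forall_mem_zpowers hg, Nat.card_units]
    rwa [h3] at h2

theorem pn_two (q : ℕ) : PN q 2 := by
  intro K L _ _ _ _ _ hK hn
  classical
  obtain ⟨x, hx0, hx, hord⟩ := fld_prim L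
  refine ⟨x, hx, ?_⟩
  intro M
  have hfinL : Module.Finite K L := Module.Finite.of_finite
  have hmul : Module.finrank K M * Module.finrank M L = 2 := by
    rw [Module.finrank_mul_finrank, hn]
  have hMfin : Finite M := Finite.of_injective (fun m : M => (m : L)) Subtype.coe_injective
  have hK2 : 2 ≤ Nat.card K := Finite.one_lt_card
  have hMfinK : Module.Finite K M := Module.Finite.of_finite
  have hpos1 : 0 < Module.finrank K M := Module.finrank_pos
  have h12 : Module.finrank M L = 1 ∨ Module.finrank M L = 2 :=
    (Nat.dvd_prime Nat.prime_two).1 ⟨_, by rw [mul_comm]; exact hmul.symm⟩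
  rcases h12 with h1 | h2
  · rw [linearIndependent_iff_injective_fintypeLinearCombination]
    have hall : ∀ i : Fin (Module.finrank M L), (i : ℕ) = 0 := by
      intro i
      have := i.2
      omega
    have hsub : ∀ i j : Fin (Module.finrank M L), i = j := by
      intro i j
      apply Fin.ext
      rw [hall i, hall j]
    rw [← LinearMap.ker_eq_bot, LinearMap.ker_eq_bot']
    intro c hc
    funext i
    have hc' : ∑ j, c j • x ^ (Nat.card M ^ (j : ℕ)) = 0 := hc
    rw [Finset.sum_eq_single i (fun j _ hj => absurd (hsub j i) hj)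
      (fun h => absurd (Finset.mem_univ i) h)] at hc'
    rcases smul_eq_zero.1 hc' with h3 | h3
    · exact h3
    · exact absurd h3 (pow_ne_zero _ hx0)
  · have hM1 : Module.finrank K M = 1 := by
      rw [h2] at hmul
      omega
    have hMcard : Nat.card M = Nat.card K := by
      have h3 := Module.natCard_eq_pow_finrank (K := K) (V := M)
      rw [hM1, pow_one] at h3
      exact h3
    have hLcard : Nat.card L = Nat.card K ^ 2 := by
      have h3 := Module.natCard_eq_pow_finrank (K := K) (V := L)
      rw [hn] at h3
      exact h3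
    rw [linearIndependent_iff_injective_fintypeLinearCombination, ← LinearMap.ker_eq_bot,
      LinearMap.ker_eq_bot']
    intro c hc
    have hc' : ∑ j : Fin (Module.finrank M L), c j • x ^ (Nat.card M ^ (j : ℕ)) = 0 := hc
    obtain ⟨i0, hi0⟩ : ∃ i : Fin (Module.finrank M L), (i : ℕ) = 0 := ⟨⟨0, by omega⟩, rfl⟩
    obtain ⟨i1, hi1⟩ : ∃ i : Fin (Module.finrank M L), (i : ℕ) = 1 := ⟨⟨1, by omega⟩, rfl⟩
    have hne : i0 ≠ i1 := by
      intro h
      rw [h, hi1] at hi0
      exact one_ne_zero hi0
    have huniv : (Finset.univ : Finset (Fin (Module.finrank M L))) = {i0, i1} := by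
      ext j
      simp only [Finset.mem_univ, Finset.mem_insert, Finset.mem_singleton, true_iff]
      have := j.2
      rcases Nat.lt_or_ge (j : ℕ) 1 with h3 | h3
      · left
        apply Fin.ext
        omega
      · right
        apply Fin.ext
        omega
    rw [huniv, Finset.sum_pair hne, hi0, hi1, pow_zero, pow_one, pow_one] at hc'
    have hfix : ∀ m : M, m ≠ 0 → (m : L) ^ (Nat.card K - 1) = 1 := by
      intro m hm
      have : Fintype M := Fintype.ofFinite M
      have h3 := FiniteField.pow_card_sub_one_eq_one m hm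
      rw [← Nat.card_eq_fintype_card, hMcard] at h3
      have h4 := congrArg (fun u : M => (u : L)) h3
      simpa using h4
    have hq1 : ¬ (Nat.card K ^ 2 - 1 ∣ (Nat.card K - 1) * (Nat.card K - 1)) := by
      intro hd
      obtain ⟨k, hk⟩ : ∃ k, Nat.card K = k + 2 := ⟨Nat.card K - 2, by omega⟩
      rw [hk] at hd
      have h3 := Nat.le_of_dvd (by
        have : 0 < k + 2 - 1 := by omega
        exact Nat.mul_pos this this) hd
      have h4 : (k + 2) ^ 2 - 1 = (k + 1) * (k + 1) + 2 * k + 2 := by
        have h5 : (k + 2) ^ 2 = (k + 1) * (k + 1) + 2 * k + 2 + 1 := by ring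
        rw [h5, Nat.add_sub_cancel]
      have h5 : k + 2 - 1 = k + 1 := by omega
      rw [h4, h5] at h3
      omega
    have hc1 : c i1 = 0 := by
      by_contra hc1
      by_cases hc0 : c i0 = 0
      · rw [hc0, zero_smul, zero_add] at hc'
        rcases smul_eq_zero.1 hc' with h3 | h3
        · exact hc1 h3
        · exact absurd h3 (pow_ne_zero _ hx0)
      · -- `x^(q-1)` lies in `M`
        have hm0 : -(c i0) / c i1 ≠ 0 := div_ne_zero (neg_ne_zero.2 hc0) hc1
        have h3 : x ^ (Nat.card M - 1) = ((-(c i0) / c i1 : M) : L) := by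
          have h4 : (c i0 : L) * x + (c i1 : L) * x ^ Nat.card M = 0 := hc'
          have hMpos : 1 ≤ Nat.card M := by omega
          have h5 : x ^ Nat.card M = x ^ (Nat.card M - 1) * x := by
            rw [← pow_succ, Nat.sub_add_cancel hMpos]
          have hc1' : (c i1 : L) ≠ 0 := fun h => hc1 (Subtype.ext h)
          rw [h5] at h4
          have h6 : ((c i0 : L) + (c i1 : L) * x ^ (Nat.card M - 1)) * x = 0 := by
            linear_combination h4
          have h7 := (mul_eq_zero.1 h6).resolve_right hx0
          have h8 : ((-(c i0) / c i1 : M) : L) = -(c i0 : L) / (c i1 : L) := rfl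
          rw [h8, eq_div_iff hc1']
          linear_combination h7
        have h4 := hfix _ hm0
        rw [← h3, ← pow_mul, hMcard] at h4
        have h5 := hord _ h4
        rw [hLcard] at h5
        exact hq1 h5
    have hc0 : c i0 = 0 := by
      rw [hc1, zero_smul, add_zero] at hc'
      rcases smul_eq_zero.1 hc' with h3 | h3
      · exact h3
      · exact absurd h3 hx0
    funext j
    have hj : j ∈ ({i0, i1} : Finset (Fin (Module.finrank M L))) := by
      rw [← huniv]
      exact Finset.mem_univ j
    rcases Finset.mem_insert.1 hj with h3 | h3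
    · rw [h3]
      exact hc0
    · rw [Finset.mem_singleton.1 h3]
      exact hc1

theorem fld (h : ∀ p n : ℕ, p.Prime → 2 ≤ n → PN p n) (K L : Type) [Field K] [Field L]
    [Finite K] [Finite L] [Algebra K L] (hn : 2 ≤ Module.finrank K L) :
    ∃ x : L, Prim x ∧ CN K x := by
  classical
  obtain ⟨p, hp⟩ := CharP.exists K
  have := hp
  have : Fintype K := Fintype.ofFinite K
  have hpp : Fact p.Prime := ⟨CharP.char_is_prime K p⟩
  have hpL : CharP L p := charP_of_injective_algebraMap (algebraMap K L).injective p
  let _ : Algebra (ZMod p) K := ZMod.algebra K p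
  let _ : Algebra (ZMod p) L := ZMod.algebra L p
  have hst : IsScalarTower (ZMod p) K L := IsScalarTower.of_algebraMap_eq' (RingHom.ext_zmod _ _)
  have hfinK : Module.Finite (ZMod p) K := Module.Finite.of_finite
  have hfinL : Module.Finite (ZMod p) L := Module.Finite.of_finite
  have hfinKL : Module.Finite K L := Module.Finite.of_finite
  have hmul : Module.finrank (ZMod p) K * Module.finrank K L = Module.finrank (ZMod p) L :=
    Module.finrank_mul_finrank _ _ _
  have hpos : 0 < Module.finrank (ZMod p) K := Module.finrank_pos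
  have h2 : 2 ≤ Module.finrank (ZMod p) L := by
    rw [← hmul]
    exact le_trans hn (Nat.le_mul_of_pos_left _ hpos)
  obtain ⟨x, hx, hcn⟩ := h p _ hpp.out h2 (ZMod p) L (by simp) rfl
  refine ⟨x, hx, fun M => ?_⟩
  exact hcn (M.restrictScalars (ZMod p))

end Pool.Agent.MM2
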