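import Mathlib
import Pool.Agent.MM2.FLD
import Pool.Agent.MM2.FIN2
import Pool.Agent.MM2.FINO
import Pool.Agent.MM2.FINP

/-!
All prime fields.
-/

namespace Pool.Agent.MM2

theorem pn_all (p n : ℕ) (hp : p.Prime) (hn : 2 ≤ n) : PN p n := by
  rcases Nat.eq_or_lt_of_le hn with h | h3
  · rw [← h]
    exact pn_two p
  have h3' : 3 ≤ n := h3
  rcases Nat.lt_or_ge p 17 with h | h
  · have h2 := hp.two_le
    interval_cases p
    · exact fin_2 n h3'
    · exact fin_3 n h3'
    · norm_num at hp
    · exact fin_5 n h3'
    · norm_num at hp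
    · exact fin_7 n h3'
    · norm_num at hp
    · norm_num at hp
    · norm_num at hp
    · exact fin_11 n h3'
    · norm_num at hp
    · exact fin_13 n h3'
    · norm_num at hp
    · norm_num at hp
    · norm_num at hp
  · exact fin_big p n hp h h3'

end Pool.Agent.MM2
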